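import Pool.Agent.HD.Defs

/-!
MP_134267_co, Theorem HD, row M1: the `(n, d, lam)` condition bounds the norm of `A - (d / n) J`, and a
norm bound for a submatrix gives the expander mixing inequality.
-/

set_option autoImplicit false

namespace Pool.Agent.HD

open Finset

/-- an orthonormal eigenbasis of a real symmetric matrix, in coordinates -/
theorem spec_eigen {V : Type} [Fintype V] [DecidableEq V] (M : Matrix V V ℝ) (hM : M.IsHermitian) :
    ∃ (b : V → V → ℝ) (mu : V → ℝ),
      (∀ i, M.mulVec (b i) = fun v => mu i * b i v) ∧ (∀ i, b i ≠ 0) ∧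
      ∀ x y : V → ℝ, ∑ v, x v * y v = ∑ i, (∑ v, b i v * x v) * (∑ v, b i v * y v) := by
  refine ⟨fun i => ⇑(hM.eigenvectorBasis i), hM.eigenvalues, ?_, ?_, ?_⟩
  · intro i
    rw [hM.mulVec_eigenvectorBasis i]
    rfl
  · intro i h0
    have h1 : ‖hM.eigenvectorBasis i‖ = 1 := hM.eigenvectorBasis.orthonormal.1 i
    have h2 : hM.eigenvectorBasis i = 0 := by
      ext v
      exact congrFun h0 v
    rw [h2, norm_zero] at h1
    exact zero_ne_one h1
  · intro x y
    have h := hM.eigenvectorBasis.sum_inner_mul_inner (WithLp.toLp 2 x) (WithLp.toLp 2 y)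
    simp only [EuclideanSpace.inner_eq_star_dotProduct, star_trivial, dotProduct] at h
    calc ∑ v, x v * y v = ∑ v, y v * x v := sum_congr rfl fun v _ => mul_comm _ _
      _ = _ := h.symm
      _ = _ := by
        refine sum_congr rfl fun i _ => ?_
        congr 1
        exact sum_congr rfl fun v _ => mul_comm _ _

/-- **Row M1** -/
theorem ndl_norm {V : Type} [Fintype V] [DecidableEq V] (G : SimpleGraph V) [DecidableRel G.Adj]
    {d : ℕ} {lam : ℝ} (h : IsNDL G d lam) (x : V → ℝ) :
    ∑ u, (∑ v, ((if G.Adj u v then (1 : ℝ) else 0) - (d : ℝ) / Fintype.card V) * x v) ^ 2 ≤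
      lam ^ 2 * ∑ v, x v ^ 2 := by
  obtain ⟨M, hMd⟩ : ∃ M : Matrix V V ℝ, ∀ u v, M u v =
      (if G.Adj u v then (1 : ℝ) else 0) - (d : ℝ) / Fintype.card V := ⟨fun u v => _, fun _ _ => rfl⟩
  have hsym : ∀ u v, M u v = M v u := by
    intro u v
    rw [hMd, hMd]
    simp only [G.adj_comm u v]
  have hH : M.IsHermitian := by
    ext u v
    rw [Matrix.conjTranspose_apply, star_trivial]
    exact hsym v u
  obtain ⟨b, mu, hb, hb0, hpars⟩ := spec_eigen M hH
  -- rows of `M` have sum zero
  have hrow : ∀ u, ∑ v, M u v = 0 := by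
    intro u
    have hcard : (Fintype.card V : ℝ) ≠ 0 := by
      have : 0 < Fintype.card V := Fintype.card_pos_iff.2 ⟨u⟩
      positivity
    have h1 : ∑ v, (if G.Adj u v then (1 : ℝ) else 0) = d := by
      rw [← sum_filter, sum_const, nsmul_eq_mul, mul_one, ← h.reg u]
      congr 2
      ext v
      simp
    rw [sum_congr rfl fun v _ => hMd u v, sum_sub_distrib, h1, sum_const, card_univ, nsmul_eq_mul,
      mul_div_cancel₀ _ hcard, sub_self]
  have heig : ∀ i u, ∑ v, M u v * b i v = mu i * b i u := by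
    intro i u
    have := congrFun (hb i) u
    simpa [Matrix.mulVec, dotProduct] using this
  -- eigenvectors to nonzero eigenvalues have sum zero
  have hsum : ∀ i, mu i * ∑ v, b i v = 0 := by
    intro i
    calc mu i * ∑ v, b i v = ∑ u, ∑ v, M u v * b i v := by
          rw [mul_sum]
          exact sum_congr rfl fun u _ => (heig i u).symm
      _ = ∑ v, ∑ u, M u v * b i v := sum_comm
      _ = ∑ v, (∑ u, M v u) * b i v := by
          refine sum_congr rfl fun v _ => ?_
          rw [sum_mul]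
          exact sum_congr rfl fun u _ => by rw [hsym u v]
      _ = 0 := by simp [hrow]
  have hmu : ∀ i, mu i ^ 2 ≤ lam ^ 2 := by
    intro i
    by_cases h0 : mu i = 0
    · rw [h0]
      nlinarith [sq_nonneg lam]
    · have hs : ∑ v, b i v = 0 := (mul_eq_zero.1 (hsum i)).resolve_left h0
      have h1 : |mu i| ≤ lam := by
        refine h.spec (mu i) (b i) (hb0 i) hs fun u => ?_
        rw [← heig i u]
        have h2 : ∀ v, M u v * b i v = (if G.Adj u v then b i v else 0) -
            (d : ℝ) / Fintype.card V * b i v := by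
          intro v
          rw [hMd]
          split_ifs <;> ring
        rw [sum_congr rfl fun v _ => h2 v, sum_sub_distrib, ← mul_sum, hs, mul_zero, sub_zero]
      rw [← sq_abs (mu i)]
      exact pow_le_pow_left₀ (abs_nonneg _) h1 2
  -- coefficients of `M x`
  have hcoef : ∀ i, ∑ u, b i u * (∑ v, M u v * x v) = mu i * ∑ v, b i v * x v := by
    intro i
    calc ∑ u, b i u * (∑ v, M u v * x v) = ∑ u, ∑ v, b i u * (M u v * x v) :=
          sum_congr rfl fun u _ => mul_sum _ _ _
      _ = ∑ v, ∑ u, b i u * (M u v * x v) := sum_comm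
      _ = ∑ v, (∑ u, M v u * b i u) * x v := by
          refine sum_congr rfl fun v _ => ?_
          rw [sum_mul]
          exact sum_congr rfl fun u _ => by rw [hsym u v]; ring
      _ = mu i * ∑ v, b i v * x v := by
          rw [mul_sum]
          exact sum_congr rfl fun v _ => by rw [heig i v]; ring
  have hl : ∑ u, (∑ v, ((if G.Adj u v then (1 : ℝ) else 0) - (d : ℝ) / Fintype.card V) * x v) ^ 2 =
      ∑ u, (∑ v, M u v * x v) * (∑ v, M u v * x v) := by
    refine sum_congr rfl fun u _ => ?_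
    rw [sq, sum_congr rfl fun v _ => by rw [← hMd u v]]
  have hr : ∑ v, x v ^ 2 = ∑ v, x v * x v := sum_congr rfl fun v _ => sq _
  rw [hl, hr, hpars, hpars x x, mul_sum]
  refine sum_le_sum fun i _ => ?_
  rw [hcoef i]
  nlinarith [hmu i, mul_self_nonneg (∑ v, b i v * x v)]

/-- expander mixing from a norm bound for the rows in `A` and the columns in `B` -/
theorem mixing_of_norm {V : Type} [Fintype V] [DecidableEq V] (G : SimpleGraph V)
    [DecidableRel G.Adj] (rho L : ℝ) (hL : 0 ≤ L) (A B : Finset V)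
    (h : ∀ x : V → ℝ, (∀ v, v ∉ B → x v = 0) →
      ∑ u ∈ A, (∑ v ∈ B, ((if G.Adj u v then (1 : ℝ) else 0) - rho) * x v) ^ 2 ≤
        L ^ 2 * ∑ v ∈ B, x v ^ 2)
    (S T : Finset V) (hS : S ⊆ A) (hT : T ⊆ B) :
    |(eST G S T : ℝ) - rho * S.card * T.card| ≤ L * √(S.card * T.card) := by
  -- the test vector: indicator of `T`
  have h1 := h (fun v => if v ∈ T then 1 else 0) (fun v hv => if_neg fun hT' => hv (hT hT'))
  have hB : ∑ v ∈ B, (if v ∈ T then (1 : ℝ) else 0) ^ 2 = T.card := by
    have e : ∀ v ∈ B, (if v ∈ T then (1 : ℝ) else 0) ^ 2 = if v ∈ T then (1 : ℝ) else 0 := by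
      intro v _
      split_ifs <;> simp
    rw [sum_congr rfl e, ← sum_filter, sum_const, nsmul_eq_mul, mul_one,
      filter_mem_eq_inter, inter_eq_right.2 hT]
  have hrowT : ∀ u, ∑ v ∈ B, ((if G.Adj u v then (1 : ℝ) else 0) - rho) *
      (if v ∈ T then (1 : ℝ) else 0) = ∑ v ∈ T, ((if G.Adj u v then (1 : ℝ) else 0) - rho) := by
    intro u
    rw [← sum_subset hT fun v _ hv => by rw [if_neg hv, mul_zero]]
    exact sum_congr rfl fun v hv => by rw [if_pos hv, mul_one]
  simp only [hrowT] at h1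
  rw [hB] at h1
  -- restrict the rows to `S`
  have h2 : ∑ u ∈ S, (∑ v ∈ T, ((if G.Adj u v then (1 : ℝ) else 0) - rho)) ^ 2 ≤ L ^ 2 * T.card :=
    (sum_le_sum_of_subset_of_nonneg hS fun u _ _ => sq_nonneg _).trans h1
  have h3 : (eST G S T : ℝ) - rho * S.card * T.card =
      ∑ u ∈ S, ∑ v ∈ T, ((if G.Adj u v then (1 : ℝ) else 0) - rho) := by
    simp only [sum_sub_distrib, sum_const, nsmul_eq_mul]
    have h4 : (eST G S T : ℝ) = ∑ u ∈ S, ∑ v ∈ T, (if G.Adj u v then (1 : ℝ) else 0) := by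
      rw [eST, ← sum_product', ← sum_filter, sum_const, nsmul_eq_mul, mul_one]
    rw [h4]
    ring
  have h5 : (∑ u ∈ S, ∑ v ∈ T, ((if G.Adj u v then (1 : ℝ) else 0) - rho)) ^ 2 ≤
      S.card * ∑ u ∈ S, (∑ v ∈ T, ((if G.Adj u v then (1 : ℝ) else 0) - rho)) ^ 2 :=
    sq_sum_le_card_mul_sum_sq
  have h6 : ((eST G S T : ℝ) - rho * S.card * T.card) ^ 2 ≤ L ^ 2 * (S.card * T.card) := by
    rw [h3]
    refine h5.trans ?_
    have : (S.card : ℝ) * ∑ u ∈ S, (∑ v ∈ T, ((if G.Adj u v then (1 : ℝ) else 0) - rho)) ^ 2 ≤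
        S.card * (L ^ 2 * T.card) := mul_le_mul_of_nonneg_left h2 (Nat.cast_nonneg _)
    linarith
  have h7 : L * √(S.card * T.card) = √(L ^ 2 * (S.card * T.card)) := by
    rw [Real.sqrt_mul (sq_nonneg L), Real.sqrt_sq hL]
  rw [h7]
  exact Real.abs_le_sqrt h6

end Pool.Agent.HD
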