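import Pool.Agent.HD.Defs
import Pool.Agent.HD.Spec

/-!
# Row M9a of Theorem HD: the Friedman-Pippenger context from the spectral hypothesis
-/

namespace Pool.Agent.HD

open Finset

section fpinit

variable {V : Type} [Fintype V] [DecidableEq V] (G : SimpleGraph V) [DecidableRel G.Adj]

/-- expander mixing for all pairs of sets -/
lemma fpi_mix {d : ℕ} {lam : ℝ} (h : IsNDL G d lam) (hlam0 : 0 ≤ lam) (S T : Finset V) :
    |(eST G S T : ℝ) - (d : ℝ) / Fintype.card V * S.card * T.card| ≤ lam * √(S.card * T.card) := by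
  refine mixing_of_norm G ((d : ℝ) / Fintype.card V) lam hlam0 univ univ ?_ S T
    (Finset.subset_univ _) (Finset.subset_univ _)
  intro x _
  exact ndl_norm G h x

/-- no edges between two sets: the product of the sizes is small -/
lemma fpi_noedge {d : ℕ} {lam : ℝ} (h : IsNDL G d lam) (hd : 1 ≤ d) (hlam0 : 0 ≤ lam)
    (hlam : 500 * lam ≤ d) (S T : Finset V) (hS : 1 ≤ S.card) (hT : 1 ≤ T.card)
    (he : eST G S T = 0) :
    250000 * ((S.card : ℝ) * T.card) ≤ (Fintype.card V : ℝ) ^ 2 := by
  have h1 := fpi_mix G h hlam0 S T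
  rw [he] at h1
  have hn : (0 : ℝ) < Fintype.card V := by
    have : 0 < S.card := hS
    have h2 : S.card ≤ Fintype.card V := Finset.card_le_univ S
    exact_mod_cast lt_of_lt_of_le this h2
  have hS0 : (0 : ℝ) < S.card := by exact_mod_cast hS
  have hT0 : (0 : ℝ) < T.card := by exact_mod_cast hT
  have hd0 : (0 : ℝ) < d := by exact_mod_cast hd
  set P : ℝ := (S.card : ℝ) * T.card with hP
  have hP0 : 0 < P := by positivity
  have hsq : √P * √P = P := Real.mul_self_sqrt hP0.le
  have hsp : 0 < √P := Real.sqrt_pos.2 hP0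
  have h3 : (d : ℝ) / Fintype.card V * P ≤ lam * √P := by
    have e1 : |((0 : ℕ) : ℝ) - (d : ℝ) / Fintype.card V * S.card * T.card|
        = (d : ℝ) / Fintype.card V * P := by
      rw [Nat.cast_zero, zero_sub, abs_neg, abs_of_nonneg (by positivity), hP]
      ring
    rw [e1] at h1
    exact h1
  have h4 : (d : ℝ) / Fintype.card V * √P ≤ lam := by
    have : (d : ℝ) / Fintype.card V * √P * √P ≤ lam * √P := by
      rw [mul_assoc, hsq]; exact h3
    exact le_of_mul_le_mul_right this hsp
  have h5 : (d : ℝ) * √P ≤ lam * Fintype.card V := by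
    rw [div_mul_eq_mul_div, div_le_iff₀ hn] at h4
    exact h4
  have h6 : (d : ℝ) * (500 * √P) ≤ d * Fintype.card V := by nlinarith
  have h7 : 500 * √P ≤ Fintype.card V := le_of_mul_le_mul_left h6 hd0
  have h8 : (500 * √P) ^ 2 ≤ (Fintype.card V : ℝ) ^ 2 :=
    pow_le_pow_left₀ (by positivity) h7 2
  calc 250000 * P = (500 * √P) ^ 2 := by rw [mul_pow, sq (√P), hsq]; norm_num
    _ ≤ _ := h8

/-- number of edges from `X` into `Y` when every neighbour in `W` of a vertex of `X` is in `Y` -/
lemma fpi_edges {d : ℕ} (W X : Finset V)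
    (hdeg : ∀ v, d ≤ 10 * (G.neighborFinset v ∩ W).card) :
    d * X.card ≤ 10 * eST G X (X.biUnion (nb G W)) := by
  have h1 : eST G X (X.biUnion (nb G W)) = ∑ v ∈ X,
      ((X.biUnion (nb G W)).filter (fun u => G.Adj v u)).card := by
    unfold eST
    rw [Finset.card_filter, Finset.sum_product]
    refine Finset.sum_congr rfl fun v _ => ?_
    rw [Finset.card_filter]
  rw [h1, Finset.mul_sum]
  calc d * X.card = ∑ _v ∈ X, d := by rw [Finset.sum_const, smul_eq_mul, mul_comm]
    _ ≤ ∑ v ∈ X, 10 * ((X.biUnion (nb G W)).filter (fun u => G.Adj v u)).card := by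
      refine Finset.sum_le_sum fun v hv => (hdeg v).trans ?_
      refine Nat.mul_le_mul_left 10 (Finset.card_le_card ?_)
      intro u hu
      rw [Finset.mem_inter, SimpleGraph.mem_neighborFinset] at hu
      rw [Finset.mem_filter, Finset.mem_biUnion]
      refine ⟨⟨v, hv, ?_⟩, hu.1⟩
      simp [nb, hu.1, hu.2]

/-- expansion into `W` -/
lemma fpi_expand {d : ℕ} {lam : ℝ} (h : IsNDL G d lam) (hd : 1 ≤ d) (hlam0 : 0 ≤ lam)
    (hlam : 500 * lam ≤ d) (W : Finset V)
    (hdeg : ∀ v, d ≤ 10 * (G.neighborFinset v ∩ W).card) (X : Finset V)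
    (hX : 100 * X.card ≤ Fintype.card V) :
    3 * X.card ≤ (X.biUnion (nb G W)).card := by
  by_contra hcon
  push Not at hcon
  rcases Nat.eq_zero_or_pos X.card with h0 | hpos
  · omega
  set Y := X.biUnion (nb G W) with hY
  have h1 := fpi_edges G W X hdeg
  have h2 := fpi_mix G h hlam0 X Y
  rw [← hY] at h1
  have hX0 : (0 : ℝ) < X.card := by exact_mod_cast hpos
  have hn : (0 : ℝ) < Fintype.card V := by
    have h2 : X.card ≤ Fintype.card V := Finset.card_le_univ X
    exact_mod_cast lt_of_lt_of_le hpos h2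
  have hd0 : (0 : ℝ) < d := by exact_mod_cast hd
  have hY3 : (Y.card : ℝ) ≤ 3 * X.card := by exact_mod_cast hcon.le
  have h3 : (eST G X Y : ℝ) ≤ (d : ℝ) / Fintype.card V * X.card * Y.card
      + lam * √(X.card * Y.card) := by
    have := (abs_le.1 h2).2
    linarith
  have h4 : (d : ℝ) * X.card ≤ 10 * eST G X Y := by exact_mod_cast h1
  have h5 : √((X.card : ℝ) * Y.card) ≤ 2 * X.card := by
    rw [Real.sqrt_le_left (by positivity)]
    nlinarith
  have h6 : lam * √((X.card : ℝ) * Y.card) ≤ lam * (2 * X.card) :=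
    mul_le_mul_of_nonneg_left h5 hlam0
  have h7 : 500 * (lam * (2 * X.card)) ≤ (d : ℝ) * (2 * X.card) := by
    have := mul_le_mul_of_nonneg_right hlam (by positivity : (0 : ℝ) ≤ 2 * X.card)
    linarith
  have h8 : (d : ℝ) / Fintype.card V * X.card * Y.card ≤ (d : ℝ) * X.card * (3 / 100) := by
    have e1 : (Y.card : ℝ) / Fintype.card V ≤ 3 / 100 := by
      rw [div_le_iff₀ hn]
      have : 100 * (X.card : ℝ) ≤ Fintype.card V := by exact_mod_cast hX
      linarith
    calc (d : ℝ) / Fintype.card V * X.card * Y.card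
        = (d : ℝ) * X.card * (Y.card / Fintype.card V) := by ring
      _ ≤ (d : ℝ) * X.card * (3 / 100) := mul_le_mul_of_nonneg_left e1 (by positivity)
  have h9 : (0 : ℝ) < (d : ℝ) * X.card := by positivity
  nlinarith

end fpinit

theorem fp_init {V : Type} [Fintype V] [DecidableEq V] (G : SimpleGraph V) [DecidableRel G.Adj]
    {d : ℕ} {lam : ℝ} (h : IsNDL G d lam) (hd : 1 ≤ d) (hlam0 : 0 ≤ lam) (hlam : 500 * lam ≤ d)
    (W : Finset V)
    (hdeg : ∀ v, d ≤ 10 * (G.neighborFinset v ∩ W).card) (hW : Fintype.card V ≤ 10 * W.card)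
    (m hh K : ℕ) (hm : Fintype.card V ≤ 400 * m) (hm' : 200 * m ≤ Fintype.card V)
    (hmh : m ≤ 2 ^ hh) (hK : 20 * K ≤ Fintype.card V) (hm1 : 1 ≤ m) :
    FPCtx G W m hh K ∧ FPState G W m (univ \ W) (fun x => if x ∈ W then 2 else 3) := by
  have hn : 1 ≤ Fintype.card V := by omega
  have hnR : (1 : ℝ) ≤ Fintype.card V := by exact_mod_cast hn
  have hmR : (Fintype.card V : ℝ) ≤ 400 * m := by exact_mod_cast hm
  have hm1R : (1 : ℝ) ≤ m := by exact_mod_cast hm1
  refine ⟨⟨hm1, hmh, ?_, ?_⟩, ⟨?_, ?_, ?_, ?_⟩⟩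
  · -- join
    intro A _ B _ hA hB _
    by_contra hcon
    push Not at hcon
    have he : eST G A B = 0 := by
      unfold eST
      rw [Finset.card_eq_zero, Finset.filter_eq_empty_iff]
      rintro ⟨a, b⟩ hab
      rw [Finset.mem_product] at hab
      exact hcon a hab.1 b hab.2
    have h1 := fpi_noedge G h hd hlam0 hlam A B (hm1.trans hA) (hm1.trans hB) he
    have hA' : (m : ℝ) ≤ A.card := by exact_mod_cast hA
    have hB' : (m : ℝ) ≤ B.card := by exact_mod_cast hB
    have h2 : (m : ℝ) * m ≤ (A.card : ℝ) * B.card :=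
      mul_le_mul hA' hB' (by positivity) (by positivity)
    nlinarith
  · -- big
    intro X hX1 hX2
    set Y := X.biUnion (nb G W) with hY
    have hYW : Y ⊆ W := by
      intro y hy
      rw [hY, Finset.mem_biUnion] at hy
      obtain ⟨x, _, hy⟩ := hy
      exact (Finset.mem_filter.1 (by simpa [nb] using hy)).1
    have hZ : 625 * (W \ Y).card ≤ Fintype.card V := by
      rcases Nat.eq_zero_or_pos (W \ Y).card with h0 | hpos
      · omega
      have he : eST G X (W \ Y) = 0 := by
        unfold eST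
        rw [Finset.card_eq_zero, Finset.filter_eq_empty_iff]
        rintro ⟨a, b⟩ hab hadj
        rw [Finset.mem_product, Finset.mem_sdiff] at hab
        apply hab.2.2
        rw [hY, Finset.mem_biUnion]
        refine ⟨a, hab.1, ?_⟩
        simp only [nb, Finset.mem_filter]
        exact ⟨hab.2.1, hadj⟩
      have h1 := fpi_noedge G h hd hlam0 hlam X (W \ Y) (by omega) hpos he
      have hX' : (m : ℝ) ≤ X.card := by exact_mod_cast hX1.le
      have hc0 : (0 : ℝ) ≤ (W \ Y).card := by positivity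
      have h2 : (m : ℝ) * (W \ Y).card ≤ (X.card : ℝ) * (W \ Y).card :=
        mul_le_mul_of_nonneg_right hX' hc0
      have h3 : 250000 * ((m : ℝ) * (W \ Y).card) ≤ (Fintype.card V : ℝ) * (400 * m) := by
        calc 250000 * ((m : ℝ) * (W \ Y).card) ≤ (Fintype.card V : ℝ) ^ 2 := by linarith
          _ = (Fintype.card V : ℝ) * Fintype.card V := sq _
          _ ≤ _ := mul_le_mul_of_nonneg_left hmR (by linarith)
      have h4 : (m : ℝ) * (625 * (W \ Y).card) ≤ m * Fintype.card V := by linarith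
      have h5 : 625 * ((W \ Y).card : ℝ) ≤ Fintype.card V :=
        le_of_mul_le_mul_left h4 (by linarith)
      exact_mod_cast h5
    have hcard : (W \ Y).card + Y.card = W.card := Finset.card_sdiff_add_card_eq_card hYW
    omega
  · intro x hx
    simp [hx]
  · intro x
    split_ifs <;> norm_num
  · intro x hx
    have : x ∈ W := by
      by_contra hxW
      exact hx (by simp [hxW])
    simp [this]
  · intro X hX
    have h1 : ∑ x ∈ X, (if x ∈ W then 2 else 3) ≤ 3 * X.card := by
      calc ∑ x ∈ X, (if x ∈ W then 2 else 3) ≤ ∑ _x ∈ X, 3 :=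
            Finset.sum_le_sum fun x _ => by split_ifs <;> norm_num
        _ = 3 * X.card := by rw [Finset.sum_const, smul_eq_mul, mul_comm]
    have h2 := fpi_expand G h hd hlam0 hlam W hdeg X (by omega)
    have h3 : (X.biUnion (nb G W)) \ (univ \ W) = X.biUnion (nb G W) := by
      rw [Finset.sdiff_eq_self_iff_disjoint, Finset.disjoint_left]
      intro y hy hy'
      rw [Finset.mem_biUnion] at hy
      obtain ⟨x, _, hy⟩ := hy
      have hyW : y ∈ W := (Finset.mem_filter.1 (by simpa [nb] using hy)).1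
      simp [hyW] at hy'
    rw [h3]
    exact h1.trans h2

end Pool.Agent.HD
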