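import Pool.Agent.HD.Defs

/-!
# Row M9d: from links between the leaves to the subdivision
-/

set_option autoImplicit false

namespace Pool.Agent.HD

open Finset

/-- index type of the pairs -/
abbrev Pr (t : ℕ) : Type := {p : Fin t × Fin t // p.1 < p.2}

theorem assemble_two_le {α : Type} [Fintype α] [DecidableEq α] (f : α → ℕ) {a b : α}
    (hab : a ≠ b) : f a + f b ≤ ∑ c, f c := by
  rw [← Finset.sum_pair hab]
  exact Finset.sum_le_sum_of_subset (Finset.subset_univ _)

theorem assemble_one_le {α : Type} [Fintype α] (f : α → ℕ) (a : α) : f a ≤ ∑ c, f c :=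
  Finset.single_le_sum (fun _ _ => Nat.zero_le _) (Finset.mem_univ a)

theorem assemble {V : Type} [Fintype V] [DecidableEq V] (G : SimpleGraph V) (t : ℕ)
    (x : Fin t → V) (y : Fin t × Fin t → V) (hxy : ∀ p, G.Adj (x p.1) (y p)) (S : Finset V)
    (l : ℕ) (q : Pr t → ℕ) (hq : ∀ r, l ≤ q r ∧ q r ≤ l + 1)
    (hL : Links G.Adj S (fun r : Pr t => y (r.1.1, r.1.2)) (fun r : Pr t => y (r.1.2, r.1.1)) q)
    (hS : ∑ i, ({x i} : Multiset V) +
      ∑ r : Pr t, (({y (r.1.1, r.1.2)} : Multiset V) + {y (r.1.2, r.1.1)}) + S.val =
        (univ : Finset V).val) :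
    HasSubdivision G t := by
  classical
  obtain ⟨I, hI1, hI2, hI3⟩ := hL
  set J : Pr t → List V := fun r => y (r.1.1, r.1.2) :: (I r ++ [y (r.1.2, r.1.1)]) with hJ
  have hJlen : ∀ r, (J r).length = q r + 2 := by
    intro r
    simp only [hJ, List.length_cons, List.length_append, List.length_nil]
    rw [hI2 r]
  -- the counting identity
  have hcount : ∀ v, (∑ i, ({x i} : Multiset V).count v) + ∑ r, (J r).count v = 1 := by
    intro v
    have h1 : (∑ i, ({x i} : Multiset V) + ∑ r, ((J r : List V) : Multiset V)) =
        (univ : Finset V).val := by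
      rw [← hS, ← hI3, add_assoc, ← Finset.sum_add_distrib]
      congr 1
      apply Finset.sum_congr rfl
      intro r _
      simp only [hJ]
      rw [← Multiset.cons_coe, ← Multiset.coe_add, Multiset.coe_singleton,
        ← Multiset.singleton_add]
      rw [add_assoc, add_comm ((I r : List V) : Multiset V)]
    have h2 := congrArg (Multiset.count v) h1
    rw [Multiset.count_add, Multiset.count_sum', Multiset.count_sum',
      Multiset.count_eq_one_of_mem (univ : Finset V).nodup (Finset.mem_univ v)] at h2
    simpa using h2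
  have hx1 : ∀ i, 1 ≤ ({x i} : Multiset V).count (x i) := fun i => by simp
  have hxinj : Function.Injective x := by
    intro i i' h
    by_contra hne
    have h1 := assemble_two_le (fun k => ({x k} : Multiset V).count (x i)) hne
    have h2 := hcount (x i)
    have h3 := hx1 i
    have h4 : 1 ≤ ({x i'} : Multiset V).count (x i) := by rw [h]; simp
    omega
  have hJnd : ∀ r, (J r).Nodup := by
    intro r
    rw [List.nodup_iff_count_le_one]
    intro v
    have h1 := assemble_one_le (fun r => (J r).count v) r
    have h2 := hcount v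
    omega
  have hJdis : ∀ r r' v, r ≠ r' → v ∈ J r → v ∈ J r' → False := by
    intro r r' v hne h h'
    have h1 := assemble_two_le (fun r => (J r).count v) hne
    have h2 := hcount v
    have h3 := List.count_pos_iff.mpr h
    have h4 := List.count_pos_iff.mpr h'
    omega
  have hxJ : ∀ i r, x i ∉ J r := by
    intro i r h
    have h1 := assemble_one_le (fun r => (J r).count (x i)) r
    have h2 := hcount (x i)
    have h3 := List.count_pos_iff.mpr h
    have h4 := assemble_one_le (fun k => ({x k} : Multiset V).count (x i)) i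
    have h5 := hx1 i
    omega
  have hcov : ∀ v, (∃ i, x i = v) ∨ ∃ r, v ∈ J r := by
    intro v
    by_contra hcon
    push Not at hcon
    have h1 : ∑ i, ({x i} : Multiset V).count v = 0 := by
      apply Finset.sum_eq_zero
      intro i _
      rw [Multiset.count_eq_zero, Multiset.mem_singleton]
      exact fun h => hcon.1 i h.symm
    have h2 : ∑ r, (J r).count v = 0 := by
      apply Finset.sum_eq_zero
      intro r _
      rw [List.count_eq_zero]
      exact hcon.2 r
    have h3 := hcount v
    omega
  -- the walks
  have hwalk : ∀ r : Pr t, ∃ p : G.Walk (x r.1.1) (x r.1.2),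
      p.support = x r.1.1 :: (J r ++ [x r.1.2]) := by
    intro r
    have hch : (x r.1.1 :: (J r ++ [x r.1.2])).IsChain G.Adj := by
      rw [← List.cons_append, List.isChain_append]
      refine ⟨?_, List.isChain_singleton _, ?_⟩
      · simp only [hJ]
        rw [List.isChain_cons_cons]
        exact ⟨hxy (r.1.1, r.1.2), hI1 r⟩
      · intro a ha b hb
        simp only [hJ] at ha
        rw [← List.cons_append, ← List.cons_append, List.getLast?_append] at ha
        simp only [List.getLast?_singleton, Option.some_or, Option.mem_def,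
          Option.some.injEq] at ha
        simp only [List.head?_cons, Option.mem_def, Option.some.injEq] at hb
        subst ha
        subst hb
        exact (hxy (r.1.2, r.1.1)).symm
    refine ⟨(SimpleGraph.Walk.ofSupport _ (List.cons_ne_nil _ _) hch).copy rfl ?_, ?_⟩
    · simp only [← List.cons_append, List.getLast_append_singleton]
    · rw [SimpleGraph.Walk.support_copy, SimpleGraph.Walk.support_ofSupport]
  choose p hp using hwalk
  have hsupp : ∀ (i j : Fin t) (h : i < j) (v : V), v ∈ (p ⟨(i, j), h⟩).support ↔
      v = x i ∨ v ∈ J ⟨(i, j), h⟩ ∨ v = x j := by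
    intro i j h v
    rw [hp]
    simp
  refine ⟨⟨x, hxinj⟩, l + 3, fun i j h => p ⟨(i, j), h⟩, by omega, ?_, ?_, ?_, ?_⟩
  · intro i j h
    have hlen := (p ⟨(i, j), h⟩).length_support
    have h1 := hp ⟨(i, j), h⟩
    have h2 : ((p ⟨(i, j), h⟩).support).length = q ⟨(i, j), h⟩ + 4 := by
      rw [h1]
      simp only [List.length_cons, List.length_append, List.length_nil, hJlen]
    have h3 := hq ⟨(i, j), h⟩
    show (p ⟨(i, j), h⟩).IsPath ∧ l + 3 ≤ (p ⟨(i, j), h⟩).length + 1 ∧
      (p ⟨(i, j), h⟩).length ≤ l + 3 + 1
    refine ⟨?_, by omega, by omega⟩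
    rw [SimpleGraph.Walk.isPath_def, h1, List.nodup_cons]
    refine ⟨?_, ?_⟩
    · intro hmem
      rw [List.mem_append] at hmem
      rcases hmem with hmem | hmem
      · exact hxJ _ _ hmem
      · rw [List.mem_singleton] at hmem
        exact absurd (hxinj hmem) h.ne
    · rw [List.nodup_append]
      refine ⟨hJnd _, List.nodup_singleton _, ?_⟩
      intro a ha b hb hab
      rw [List.mem_singleton] at hb
      subst hb
      subst hab
      exact hxJ _ _ ha
  · intro i j h k hk
    rw [hsupp] at hk
    rcases hk with hk | hk | hk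
    · exact Or.inl (hxinj hk)
    · exact absurd hk (hxJ k _)
    · exact Or.inr (hxinj hk)
  · intro i j h i' j' h' hne v hv hv'
    rw [hsupp] at hv hv'
    rcases hv with hv | hv | hv
    · exact ⟨i, hv.symm⟩
    · rcases hv' with hv' | hv' | hv'
      · exact ⟨i', hv'.symm⟩
      · exfalso
        refine hJdis ⟨(i, j), h⟩ ⟨(i', j'), h'⟩ v ?_ hv hv'
        intro heq
        exact hne (congrArg Subtype.val heq)
      · exact ⟨j', hv'.symm⟩
    · exact ⟨j, hv.symm⟩
  · intro v
    rcases hcov v with ⟨i, hi⟩ | ⟨r, hr⟩
    · exact Or.inl ⟨i, hi⟩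
    · right
      refine ⟨r.1.1, r.1.2, r.2, ?_⟩
      rw [hsupp]
      exact Or.inr (Or.inl hr)

end Pool.Agent.HD
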