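import Pool.Agent.HD.Defs
import Pool.Agent.Helper1.BN.Benes

/-!
# Row M6a: list and multiset algebra of linkages and permutation networks
-/

set_option autoImplicit false

namespace Pool.Agent.HD

open Finset

/-- joining a path, the interior of a link and a path -/
theorem chain_join {V : Type} {adj : V → V → Prop} {t s : V} {P I Q : List V}
    (hP : P.IsChain adj) (hPt : P.getLast? = some t) (hI : (t :: (I ++ [s])).IsChain adj)
    (hQ : Q.IsChain adj) (hQs : Q.head? = some s) : (P ++ (I ++ Q)).IsChain adj := by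
  obtain ⟨Q', rfl⟩ : ∃ Q', Q = s :: Q' := by
    cases Q with
    | nil => simp at hQs
    | cons c Q' =>
      simp only [List.head?_cons, Option.some.injEq] at hQs
      exact ⟨Q', by rw [hQs]⟩
  have h1 : (t :: (I ++ s :: Q')).IsChain adj := by
    cases I with
    | nil =>
      simp only [List.nil_append] at hI ⊢
      rw [List.isChain_cons_cons] at hI ⊢
      exact ⟨hI.1, hQ⟩
    | cons a I' =>
      rw [List.cons_append, List.isChain_cons_cons] at hI ⊢
      refine ⟨hI.1, ?_⟩
      have h2 : (a :: I' ++ [s]).IsChain adj := hI.2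
      rw [List.isChain_append] at h2
      have h3 : (a :: I' ++ s :: Q').IsChain adj := by
        rw [List.isChain_append]
        refine ⟨h2.1, hQ, ?_⟩
        intro x hx y hy
        exact h2.2.2 x hx y (by simpa using hy)
      exact h3
  rw [List.isChain_append]
  refine ⟨hP, ?_, ?_⟩
  · exact h1.tail
  · intro x hx y hy
    rw [hPt] at hx
    simp only [Option.mem_def, Option.some.injEq] at hx
    subst hx
    exact h1.rel_head? hy

theorem head_join {V : Type} {s : V} {P I : List V} (h : P.head? = some s) :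
    (P ++ I).head? = some s := by
  cases P with
  | nil => simp at h
  | cons a P' => simpa using h

theorem last_join {V : Type} {s : V} {P I : List V} (h : P.getLast? = some s) :
    (I ++ P).getLast? = some s := by
  have hne : P ≠ [] := by
    rintro rfl
    simp at h
  rw [List.getLast?_append_of_ne_nil _ hne, h]

/-- composition of paths, links, paths -/
theorem Lk.comp {V ι : Type} [Fintype ι] {adj : V → V → Prop} {S₁ S₂ S₃ S : Finset V}
    {s₁ t₁ s₂ t₂ : ι → V} {n₁ q n₂ : ι → ℕ} (h₁ : Lk adj S₁ s₁ t₁ n₁)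
    (h₂ : Links adj S₂ t₁ s₂ q) (h₃ : Lk adj S₃ s₂ t₂ n₂)
    (hS : S₁.val + S₂.val + S₃.val = S.val) :
    Lk adj S s₁ t₂ (fun x => n₁ x + q x + n₂ x) := by
  obtain ⟨P, p1, p2, p3, p4, p5⟩ := h₁
  obtain ⟨I, i1, i2, i3⟩ := h₂
  obtain ⟨Q, q1, q2, q3, q4, q5⟩ := h₃
  refine ⟨fun x => P x ++ (I x ++ Q x), ?_, ?_, ?_, ?_, ?_⟩
  · intro x
    exact chain_join (p1 x) (p3 x) (i1 x) (q1 x) (q2 x)
  · intro x
    exact head_join (p2 x)
  · intro x
    exact last_join (last_join (q3 x))
  · intro x
    rw [List.length_append, List.length_append, p4, i2, q4]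
    ring
  · have e : ∀ x, ((P x ++ (I x ++ Q x) : List V) : Multiset V) =
        (P x : Multiset V) + (I x : Multiset V) + (Q x : Multiset V) := by
      intro x
      rw [← Multiset.coe_add, ← Multiset.coe_add, add_assoc]
    rw [Finset.sum_congr rfl fun x _ => e x, Finset.sum_add_distrib, Finset.sum_add_distrib,
      p5, i3, q5, hS]

theorem Lk.reindex {V ι κ : Type} [Fintype ι] [Fintype κ] {adj : V → V → Prop} {S : Finset V}
    {s t : ι → V} {n : ι → ℕ} (h : Lk adj S s t n) (e : κ ≃ ι) :
    Lk adj S (s ∘ e) (t ∘ e) (n ∘ e) := by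
  obtain ⟨P, p1, p2, p3, p4, p5⟩ := h
  refine ⟨P ∘ e, fun x => p1 _, fun x => p2 _, fun x => p3 _, fun x => p4 _, ?_⟩
  rw [← p5]
  exact Equiv.sum_comp e fun x => ((P x : List V) : Multiset V)

theorem Links.reindex {V ι κ : Type} [Fintype ι] [Fintype κ] {adj : V → V → Prop} {S : Finset V}
    {s t : ι → V} {n : ι → ℕ} (h : Links adj S s t n) (e : κ ≃ ι) :
    Links adj S (s ∘ e) (t ∘ e) (n ∘ e) := by
  obtain ⟨I, i1, i2, i3⟩ := h
  refine ⟨I ∘ e, fun x => i1 _, fun x => i2 _, ?_⟩
  rw [← i3]
  exact Equiv.sum_comp e fun x => ((I x : List V) : Multiset V)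

/-- a family of linkages indexed by `κ` is a linkage indexed by the sigma type (here: product) -/
theorem Lk.prod {V ι κ : Type} [Fintype ι] [Fintype κ] {adj : V → V → Prop} {S : Finset V}
    (T : κ → Finset V) {s t : κ × ι → V} {n : κ × ι → ℕ}
    (h : ∀ k, Lk adj (T k) (fun x => s (k, x)) (fun x => t (k, x)) (fun x => n (k, x)))
    (hS : ∑ k, (T k).val = S.val) : Lk adj S s t n := by
  choose P p1 p2 p3 p4 p5 using h
  refine ⟨fun p => P p.1 p.2, fun p => p1 _ _, fun p => p2 _ _, fun p => p3 _ _, fun p => p4 _ _, ?_⟩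
  rw [Fintype.sum_prod_type, ← hS]
  exact Finset.sum_congr rfl fun k _ => p5 k

/-! ### The switch -/

/-- the orientation of a chord -/
def netOri {V : Type} (s : Bool) (p : List V) : List V := bif s then p.reverse else p

theorem netOri_coe {V : Type} (s : Bool) (p : List V) :
    ((netOri s p : List V) : Multiset V) = p := by
  cases s
  · rfl
  · simp [netOri]

theorem netOri_length {V : Type} (s : Bool) (p : List V) : (netOri s p).length = p.length := by
  cases s
  · rfl
  · simp [netOri]

/-- the zigzag through a ladder with rails `a false`, `a true` and rungs `p`, from height `i` on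
the rail `s` to height `i + m + 1` -/
def netZig {V : Type} (a : Bool → ℕ → V) (p : ℕ → List V) : ℕ → ℕ → Bool → List V
  | 0, i, s => [a s i, a s (i + 1)]
  | m + 1, i, s => a s i :: a s (i + 1) :: (netOri s (p (i + 1)) ++ netZig a p m (i + 1) (!s))

theorem netZig_head {V : Type} (a : Bool → ℕ → V) (p : ℕ → List V) (m i : ℕ) (s : Bool) :
    (netZig a p m i s).head? = some (a s i) := by
  cases m <;> rfl

theorem netZig_last {V : Type} (a : Bool → ℕ → V) (p : ℕ → List V) (m i : ℕ) (s : Bool)
    (hap : a false (i + m + 1) = a true (i + m + 1)) :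
    (netZig a p m i s).getLast? = some (a false (i + m + 1)) := by
  induction m generalizing i s with
  | zero =>
    cases s
    · rfl
    · simp only [netZig, Nat.add_zero] at hap ⊢
      rw [hap]
      rfl
  | succ m ih =>
    have e : i + (m + 1) + 1 = i + 1 + m + 1 := by ring
    rw [e] at hap ⊢
    rw [netZig, List.getLast?_cons_cons, ← List.cons_append]
    exact last_join (ih (i + 1) (!s) hap)

/-- the vertices of the inner part of a ladder -/
def netInner {V : Type} (a : Bool → ℕ → V) (p : ℕ → List V) (m i : ℕ) : Multiset V :=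
  ∑ l ∈ range m, (({a false (i + 1 + l)} : Multiset V) + {a true (i + 1 + l)} +
    (p (i + 1 + l) : Multiset V))

theorem netInner_succ {V : Type} (a : Bool → ℕ → V) (p : ℕ → List V) (m i : ℕ) :
    netInner a p (m + 1) i = ({a false (i + 1)} : Multiset V) + {a true (i + 1)} +
      (p (i + 1) : Multiset V) + netInner a p m (i + 1) := by
  unfold netInner
  rw [Finset.sum_range_succ', add_comm]
  congr 1
  apply Finset.sum_congr rfl
  intro l _
  have e : i + 1 + (l + 1) = i + 1 + 1 + l := by ring
  rw [e]

theorem netZig_coe {V : Type} (a : Bool → ℕ → V) (p : ℕ → List V) (m i : ℕ) (s : Bool)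
    (hap : a false (i + m + 1) = a true (i + m + 1)) :
    ((netZig a p m i s : List V) : Multiset V) =
      {a s i} + netInner a p m i + {a false (i + m + 1)} := by
  induction m generalizing i s with
  | zero =>
    have e : netInner a p 0 i = 0 := rfl
    rw [e, add_zero]
    cases s
    · rfl
    · simp only [netZig, Nat.add_zero] at hap ⊢
      rw [hap]
      rfl
  | succ m ih =>
    have e : i + (m + 1) + 1 = i + 1 + m + 1 := by ring
    rw [e] at hap ⊢
    rw [netZig, ← Multiset.cons_coe, ← Multiset.cons_coe, ← Multiset.coe_add, netOri_coe,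
      ih (i + 1) (!s) hap, netInner_succ, ← Multiset.singleton_add, ← Multiset.singleton_add]
    cases s
    · simp only [Bool.not_false]
      abel
    · simp only [Bool.not_true]
      abel

theorem netOri_chain {V : Type} {adj : V → V → Prop} (hsymm : ∀ u v, adj u v → adj v u)
    {a : Bool → V} {p : List V} (h : (a false :: (p ++ [a true])).IsChain adj) (s : Bool) :
    (a s :: (netOri s p ++ [a (!s)])).IsChain adj := by
  cases s
  · exact h
  · have e : a true :: (netOri true p ++ [a (!true)]) = (a false :: (p ++ [a true])).reverse := by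
      simp [netOri]
    rw [e, List.isChain_reverse]
    exact h.imp fun a b hab => hsymm a b hab

theorem netZig_chain {V : Type} {adj : V → V → Prop} (hsymm : ∀ u v, adj u v → adj v u)
    (a : Bool → ℕ → V) (p : ℕ → List V) (m i : ℕ) (s : Bool)
    (ha : ∀ s j, i ≤ j → j ≤ i + m → adj (a s j) (a s (j + 1)))
    (hp : ∀ j, i < j → j ≤ i + m → (a false j :: (p j ++ [a true j])).IsChain adj) :
    (netZig a p m i s).IsChain adj := by
  induction m generalizing i s with
  | zero =>
    rw [netZig, List.isChain_cons_cons]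
    exact ⟨ha s i le_rfl (by omega), List.isChain_singleton _⟩
  | succ m ih =>
    have h1 := ih (i + 1) (!s) (fun s j hj hj' => ha s j (by omega) (by omega))
      (fun j hj hj' => hp j (by omega) (by omega))
    have h2 := netOri_chain hsymm (a := fun s => a s (i + 1)) (hp (i + 1) (by omega) (by omega)) s
    rw [netZig]
    exact chain_join (P := [a s i, a s (i + 1)]) (t := a s (i + 1)) (s := a (!s) (i + 1))
      (by rw [List.isChain_cons_cons]; exact ⟨ha s i le_rfl (by omega), List.isChain_singleton _⟩)
      rfl h2 h1 (netZig_head a p m (i + 1) (!s))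

theorem netZig_length {V : Type} (a : Bool → ℕ → V) (p : ℕ → List V) (q m i : ℕ) (s : Bool)
    (hp : ∀ j, i < j → j ≤ i + m → (p j).length = q) :
    (netZig a p m i s).length = 2 + m * (q + 2) := by
  induction m generalizing i s with
  | zero => simp [netZig]
  | succ m ih =>
    rw [netZig, List.length_cons, List.length_cons, List.length_append, netOri_length,
      hp (i + 1) (by omega) (by omega),
      ih (i + 1) (!s) (fun j hj hj' => hp j (by omega) (by omega))]
    ring

/-- a sum over `2 j + 1` positions, folded at the middle -/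
theorem sum_fold {M : Type} [AddCommMonoid M] (f : ℕ → M) (j : ℕ) :
    ∑ i ∈ range (2 * j + 1), f i = ∑ i ∈ range j, (f i + f (2 * j - i)) + f j := by
  have e1 : 2 * j + 1 = (j + 1) + j := by ring
  rw [e1, Finset.sum_range_add, Finset.sum_range_succ, Finset.sum_add_distrib]
  have e2 : ∑ i ∈ range j, f (j + 1 + i) = ∑ i ∈ range j, f (2 * j - i) := by
    rw [← Finset.sum_range_reflect]
    apply Finset.sum_congr rfl
    intro i hi
    rw [Finset.mem_range] at hi
    congr 1
    omega
  rw [e2]
  abel

/-- the switch: two arcs `y true`, `y false` from `a₁` to `a₂`, each with `2*j+1` interior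
vertices, chords between the positions `l` and `2*j - l` of each arc -/
theorem switch_net {V : Type} {adj : V → V → Prop} (hsymm : ∀ u v, adj u v → adj v u)
    {j q : ℕ} {a₁ a₂ : V} (y : Bool → Fin (2 * j + 1) → V)
    (hy : ∀ c, (a₁ :: (List.ofFn (y c) ++ [a₂])).IsChain adj) {T S : Finset V}
    (hT : Links adj T (fun p : Bool × Fin j => y p.1 ⟨p.2, by omega⟩)
      (fun p : Bool × Fin j => y p.1 ⟨2 * j - p.2, by omega⟩) (fun _ => q))
    (hS : ({a₁, a₂} : Multiset V) + ∑ c, ∑ l, ({y c l} : Multiset V) + T.val = S.val) :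
    Net adj S (fun c : Bool => if c then a₁ else a₂) (fun c => y c ⟨j, by omega⟩)
      (1 + (2 * j + 1) + j * q) := by
  classical
  obtain ⟨I, i1, i2, i3⟩ := hT
  -- the arcs as functions on `ℕ`
  set Y : Bool → ℕ → V := fun c i => if h : i < 2 * j + 1 then y c ⟨i, h⟩ else a₂ with hY
  have hYl : ∀ c i (h : i < 2 * j + 1), Y c i = y c ⟨i, h⟩ := fun c i h => by
    simp only [hY, dif_pos h]
  have hYe : ∀ c, Y c (2 * j + 1) = a₂ := fun c => by
    simp only [hY, lt_irrefl, dif_neg, not_false_eq_true]
  -- consecutive vertices are adjacent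
  have hget : ∀ c i, i < 2 * j + 1 → adj (Y c i) (Y c (i + 1)) := by
    intro c i hi
    have h1 := (hy c).tail
    rw [List.tail_cons] at h1
    have h2 := List.isChain_iff_getElem.mp h1 i (by simp; omega)
    have e1 : (List.ofFn (y c) ++ [a₂])[i]'(by simp; omega) = Y c i := by
      rw [List.getElem_append_left (by simp; omega), List.getElem_ofFn, hYl c i hi]
    have e2 : (List.ofFn (y c) ++ [a₂])[i + 1]'(by simp; omega) = Y c (i + 1) := by
      by_cases h : i + 1 < 2 * j + 1
      · rw [List.getElem_append_left (by simp; omega), List.getElem_ofFn, hYl c (i + 1) h]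
      · have e3 : i = 2 * j := by omega
        subst e3
        rw [hYe, List.getElem_append_right (by simp)]
        simp
    rw [e1, e2] at h2
    exact h2
  have hfirst : ∀ c, adj a₁ (Y c 0) := by
    intro c
    have h1 := (hy c).rel_head? (y := Y c 0) (by
      rw [hYl c 0 (by omega)]
      simp [List.ofFn_succ])
    exact h1
  -- rails and rungs
  set a : Bool → Bool → ℕ → V := fun c s i =>
    match i with
    | 0 => bif s then a₂ else a₁
    | i + 1 => bif s then Y c (2 * j - i) else Y c i with ha
  set p : Bool → ℕ → List V := fun c i => if h : i - 1 < j then I (c, ⟨i - 1, h⟩) else [] with hp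
  have hap : ∀ c, a c false (0 + j + 1) = a c true (0 + j + 1) := by
    intro c
    simp only [ha, cond_false, cond_true]
    congr 1
    omega
  have hcentre : ∀ c, a c false (0 + j + 1) = y c ⟨j, by omega⟩ := by
    intro c
    have e : a c false (0 + j + 1) = Y c (0 + j) := rfl
    rw [e, ← hYl c j (by omega)]
    congr 1
    omega
  have hchain : ∀ c s, (netZig (a c) (p c) j 0 s).IsChain adj := by
    intro c s
    apply netZig_chain hsymm
    · intro s i _ hi
      cases i with
      | zero =>
        cases s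
        · exact hfirst c
        · have h1 := hget c (2 * j) (by omega)
          rw [hYe] at h1
          exact hsymm _ _ h1
      | succ i =>
        cases s
        · exact hget c i (by omega)
        · have h1 := hget c (2 * j - (i + 1)) (by omega)
          have e : 2 * j - (i + 1) + 1 = 2 * j - i := by omega
          rw [e] at h1
          exact hsymm _ _ h1
    · intro i hi hi'
      have hi2 : i - 1 < j := by omega
      have e1 : p c i = I (c, ⟨i - 1, hi2⟩) := by simp only [hp, dif_pos hi2]
      obtain ⟨i', rfl⟩ : ∃ i', i = i' + 1 := ⟨i - 1, by omega⟩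
      have h1 := i1 (c, ⟨i', by omega⟩)
      rw [e1]
      have e2 : a c false (i' + 1) = y c ⟨i', by omega⟩ := hYl c i' (by omega)
      have e3 : a c true (i' + 1) = y c ⟨2 * j - i', by omega⟩ := hYl c (2 * j - i') (by omega)
      rw [e2, e3]
      exact h1
  have hlen : ∀ c s, (netZig (a c) (p c) j 0 s).length = 1 + (2 * j + 1) + j * q := by
    intro c s
    rw [netZig_length (a c) (p c) q j 0 s]
    · ring
    · intro i hi hi'
      have hi2 : i - 1 < j := by omega
      have e1 : p c i = I (c, ⟨i - 1, hi2⟩) := by simp only [hp, dif_pos hi2]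
      rw [e1, i2]
  have hinner : ∀ c, netInner (a c) (p c) j 0 + {a c false (0 + j + 1)} =
      ∑ l, ({y c l} : Multiset V) + ∑ l : Fin j, ((I (c, l) : List V) : Multiset V) := by
    intro c
    have e1 : ∑ l, ({y c l} : Multiset V) = ∑ i ∈ range (2 * j + 1), ({Y c i} : Multiset V) := by
      rw [← Fin.sum_univ_eq_sum_range (fun i => ({Y c i} : Multiset V))]
      apply Finset.sum_congr rfl
      intro l _
      rw [hYl c l l.2]
    have e2 : ∑ l : Fin j, ((I (c, l) : List V) : Multiset V) =
        ∑ i ∈ range j, ((p c (i + 1) : List V) : Multiset V) := by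
      rw [← Fin.sum_univ_eq_sum_range (fun i => ((p c (i + 1) : List V) : Multiset V))]
      apply Finset.sum_congr rfl
      intro l _
      have hl : (l : ℕ) + 1 - 1 < j := by
        have := l.2
        omega
      have e3 : p c (l + 1) = I (c, l) := by
        simp only [hp, dif_pos hl]
        rfl
      rw [e3]
    have e4 : netInner (a c) (p c) j 0 = ∑ i ∈ range j, (({Y c i} : Multiset V) + {Y c (2 * j - i)}) +
        ∑ i ∈ range j, ((p c (i + 1) : List V) : Multiset V) := by
      unfold netInner
      rw [← Finset.sum_add_distrib]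
      apply Finset.sum_congr rfl
      intro i _
      have e5 : 0 + 1 + i = i + 1 := by ring
      rw [e5]
      rfl
    rw [e1, e2, sum_fold (fun i => ({Y c i} : Multiset V)) j, e4, hcentre c, ← hYl c j (by omega)]
    abel
  intro σ
  refine ⟨fun c => netZig (a (σ c)) (p (σ c)) j 0 (!c), fun c => hchain _ _, ?_, ?_,
    fun c => hlen _ _, ?_⟩
  · intro c
    rw [netZig_head]
    cases c
    · rfl
    · rfl
  · intro c
    rw [netZig_last _ _ _ _ _ (hap (σ c)), hcentre]
  · have e1 : ∀ c, ((netZig (a (σ c)) (p (σ c)) j 0 (!c) : List V) : Multiset V) =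
        {a (σ c) (!c) 0} + (∑ l, ({y (σ c) l} : Multiset V) +
          ∑ l : Fin j, ((I (σ c, l) : List V) : Multiset V)) := by
      intro c
      rw [netZig_coe _ _ _ _ _ (hap (σ c)), add_assoc, hinner]
    rw [Finset.sum_congr rfl fun c _ => e1 c, Finset.sum_add_distrib,
      Equiv.sum_comp σ (fun c => ∑ l, ({y c l} : Multiset V) +
          ∑ l : Fin j, ((I (c, l) : List V) : Multiset V)), Finset.sum_add_distrib]
    have e2 : ∑ c, ({a (σ c) (!c) 0} : Multiset V) = {a₁, a₂} := by
      rw [Fintype.sum_bool]
      rfl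
    have e3 : ∑ c, ∑ l : Fin j, ((I (c, l) : List V) : Multiset V) = T.val := by
      rw [← i3, Fintype.sum_prod_type]
    rw [e2, e3, ← hS]
    abel

/-- a union of finsets with disjoint members, as a finset with a given multiset -/
theorem exists_val {V : Type} {M : Multiset V} {S : Finset V} (h : M ≤ S.val) :
    ∃ T : Finset V, T.val = M := ⟨⟨M, Multiset.nodup_of_le h S.nodup⟩, rfl⟩

/-- the Benes step -/
theorem Net.step {V ι : Type} [Fintype ι] [DecidableEq ι] {adj : V → V → Prop}
    {nsw n q : ℕ} {SA SB : ι → Finset V} {SU : Bool → Finset V} {T₁ T₂ S : Finset V}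
    {IA OA IB OB : ι × Bool → V} {IU OU : Bool → ι → V}
    (hA : ∀ i, Net adj (SA i) (fun c : Bool => IA (i, c)) (fun c => OA (i, c)) nsw)
    (hB : ∀ i, Net adj (SB i) (fun c : Bool => IB (i, c)) (fun c => OB (i, c)) nsw)
    (hU : ∀ c, Net adj (SU c) (IU c) (OU c) n)
    (hT₁ : Links adj T₁ OA (fun p => IU p.2 p.1) (fun _ => q))
    (hT₂ : Links adj T₂ (fun p : ι × Bool => OU p.2 p.1) IB (fun _ => q))
    (hS : ∑ i, (SA i).val + ∑ i, (SB i).val + ∑ c, (SU c).val + T₁.val + T₂.val = S.val) :
    Net adj S IA OB (2 * nsw + n + 2 * q) := by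
  classical
  intro σ
  -- the splitting
  set π : Equiv.Perm (Bool × ι) :=
    ((Equiv.prodComm Bool ι).trans σ).trans (Equiv.prodComm ι Bool) with hπ
  obtain ⟨s, t, ρ, hst⟩ := Pool.Agent.Helper1.BN.split π
  have hσ : ∀ i b, σ (i, xor b (s i)) = (ρ b i, xor b (t (ρ b i))) := by
    intro i b
    have h1 := hst b i
    have e1 : π (xor b (s i), i) = ((σ (i, xor b (s i))).2, (σ (i, xor b (s i))).1) := rfl
    rw [e1] at h1
    exact Prod.ext (congrArg Prod.snd h1) (congrArg Prod.fst h1)
  -- the reindexings
  set e₁ : ι × Bool ≃ ι × Bool :=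
    { toFun := fun p => (p.1, xor p.2 (s p.1))
      invFun := fun p => (p.1, xor p.2 (s p.1))
      left_inv := fun p => by simp
      right_inv := fun p => by simp } with he₁
  set e₂ : ι × Bool ≃ Bool × ι := e₁.trans (Equiv.prodComm ι Bool) with he₂
  set pl : Bool × ι ≃ ι × Bool :=
    { toFun := fun p => (ρ p.1 p.2, p.1)
      invFun := fun p => (p.2, (ρ p.2).symm p.1)
      left_inv := fun p => by simp
      right_inv := fun p => by simp } with hpl
  set e₃ : ι × Bool ≃ ι × Bool := e₂.trans pl with he₃
  -- finsets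
  have hle : ∀ {A B C D E : Multiset V}, A + B + C + D + E = S.val →
      A ≤ S.val ∧ B ≤ S.val ∧ C ≤ S.val := by
    intro A B C D E h
    rw [← h]
    refine ⟨?_, ?_, ?_⟩
    · have : A + B + C + D + E = A + (B + C + D + E) := by abel
      rw [this]; exact Multiset.le_add_right _ _
    · have : A + B + C + D + E = B + (A + C + D + E) := by abel
      rw [this]; exact Multiset.le_add_right _ _
    · have : A + B + C + D + E = C + (A + B + D + E) := by abel
      rw [this]; exact Multiset.le_add_right _ _
  obtain ⟨hA1, hB1, hC1⟩ := hle hS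
  obtain ⟨FA, hFA⟩ := exists_val hA1
  obtain ⟨FB, hFB⟩ := exists_val hB1
  obtain ⟨FU, hFU⟩ := exists_val hC1
  -- the levels
  have lA : Lk adj FA IA (fun p => OA (e₁ p)) (fun _ => nsw) := by
    apply Lk.prod (κ := ι) (ι := Bool) SA _ hFA.symm
    intro i
    have h1 := hA i ⟨fun c => xor c (s i), fun c => xor c (s i), fun c => by simp, fun c => by simp⟩
    exact h1
  have lT₁ : Links adj T₁ (fun p => OA (e₁ p)) (fun p => IU (e₁ p).2 (e₁ p).1) (fun _ => q) :=
    hT₁.reindex e₁
  have lU : Lk adj FU (fun p => IU (e₁ p).2 (e₁ p).1)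
      (fun p => OU (e₁ p).2 (ρ (e₁ p).2 (e₁ p).1)) (fun _ => n) := by
    have h1 : Lk adj FU (fun p : Bool × ι => IU p.1 p.2) (fun p => OU p.1 (ρ p.1 p.2))
        (fun _ => n) := by
      apply Lk.prod (κ := Bool) (ι := ι) SU _ hFU.symm
      intro c
      exact hU c (ρ c)
    exact h1.reindex e₂
  have lT₂ : Links adj T₂ (fun p => OU (e₁ p).2 (ρ (e₁ p).2 (e₁ p).1)) (fun p => IB (e₃ p))
      (fun _ => q) := hT₂.reindex e₃
  have lB : Lk adj FB (fun p => IB (e₃ p)) (fun p => OB (σ p)) (fun _ => nsw) := by
    have h1 : Lk adj FB IB (fun p : ι × Bool => OB (p.1, xor p.2 (t p.1))) (fun _ => nsw) := by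
      apply Lk.prod (κ := ι) (ι := Bool) SB _ hFB.symm
      intro i
      exact hB i ⟨fun c => xor c (t i), fun c => xor c (t i), fun c => by simp, fun c => by simp⟩
    have h2 := h1.reindex e₃
    have e : (fun p => OB (σ p)) = (fun p : ι × Bool => OB (p.1, xor p.2 (t p.1))) ∘ e₃ := by
      funext p
      obtain ⟨i, c⟩ := p
      have h3 := hσ i (xor c (s i))
      have h4 : xor (xor c (s i)) (s i) = c := by simp
      rw [h4] at h3
      rw [h3]
      rfl
    rw [e]
    exact h2
  -- composition
  have hAU : (FA.val + T₁.val + FU.val) ≤ S.val := by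
    rw [← hS, hFA, hFU]
    have : ∑ i, (SA i).val + ∑ i, (SB i).val + ∑ c, (SU c).val + T₁.val + T₂.val =
      (∑ i, (SA i).val + T₁.val + ∑ c, (SU c).val) + (∑ i, (SB i).val + T₂.val) := by abel
    rw [this]
    exact Multiset.le_add_right _ _
  obtain ⟨F, hF⟩ := exists_val hAU
  have c1 := Lk.comp lA lT₁ lU hF.symm
  have c2 := Lk.comp (S := S) c1 lT₂ lB (by
    rw [hF, hFA, hFB, hFU, ← hS]
    abel)
  have e : (fun _ : ι × Bool => 2 * nsw + n + 2 * q) = fun x => nsw + q + n + q + nsw := by
    funext x
    ring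
  rw [e]
  exact c2

end Pool.Agent.HD
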