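import Pool.Agent.HD.Multi
import Pool.Agent.HD.NetAlg

/-! MP_134267_co, Theorem HD, row M6b (helper52): the permutation network inside the reserve. -/

namespace Pool.Agent.HD

open Finset

/-! ### sizes -/

private theorem nb_ind {P : ℕ → Prop} (h0 : P 0) (h1 : P 1) (h2 : ∀ k, P (k + 1) → P (k + 2)) :
    ∀ n, P n
  | 0 => h0
  | 1 => h1
  | (k + 2) => h2 k (nb_ind h0 h1 h2 (k + 1))

theorem znet_le (κ : ℕ) : znet κ ≤ 2 * κ * 2 ^ κ := by
  induction κ using nb_ind with
  | h0 => simp [znet]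
  | h1 => simp [znet]
  | h2 k ih =>
    rw [znet]
    calc 2 * znet (k + 1) + 4 * 2 ^ (k + 1)
        ≤ 2 * (2 * (k + 1) * 2 ^ (k + 1)) + 4 * 2 ^ (k + 1) := by gcongr
      _ = 2 * (k + 2) * 2 ^ (k + 2) := by ring

theorem wnet_le (j q κ : ℕ) : wnet j q κ ≤ κ * 2 ^ κ * (wsw j q + 2 * q) := by
  induction κ using nb_ind with
  | h0 => simp [wnet]
  | h1 =>
    rw [wnet]
    nlinarith [Nat.zero_le (wsw j q), Nat.zero_le q]
  | h2 k ih =>
    rw [wnet]
    calc 2 * wnet j q (k + 1) + 2 * 2 ^ (k + 1) * wsw j q + 4 * 2 ^ (k + 1) * q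
        ≤ 2 * ((k + 1) * 2 ^ (k + 1) * (wsw j q + 2 * q)) + 2 * 2 ^ (k + 1) * wsw j q
            + 4 * 2 ^ (k + 1) * q := by gcongr
      _ = (k + 2) * 2 ^ (k + 2) * (wsw j q + 2 * q) := by ring

theorem net_card (j q κ : ℕ) (hκ : 1 ≤ κ) : znet κ + wnet j q κ = 2 ^ κ * nnet j q κ := by
  induction κ using nb_ind with
  | h0 => omega
  | h1 =>
    rw [znet, wnet, nnet, wsw]
    ring
  | h2 k ih =>
    have h := ih (by omega)
    rw [znet, wnet, nnet, wsw]
    have h2 : 2 * (znet (k + 1) + wnet j q (k + 1)) = 2 * (2 ^ (k + 1) * nnet j q (k + 1)) := by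
      rw [h]
    calc 2 * znet (k + 1) + 4 * 2 ^ (k + 1) +
          (2 * wnet j q (k + 1) + 2 * 2 ^ (k + 1) * (2 * (2 * j + 1) + 2 * j * q)
            + 4 * 2 ^ (k + 1) * q)
        = 2 * (znet (k + 1) + wnet j q (k + 1)) + (4 * 2 ^ (k + 1)
            + 2 * 2 ^ (k + 1) * (2 * (2 * j + 1) + 2 * j * q) + 4 * 2 ^ (k + 1) * q) := by ring
      _ = 2 * (2 ^ (k + 1) * nnet j q (k + 1)) + (4 * 2 ^ (k + 1)
            + 2 * 2 ^ (k + 1) * (2 * (2 * j + 1) + 2 * j * q) + 4 * 2 ^ (k + 1) * q) := by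
          rw [h2]
      _ = 2 ^ (k + 2) * (2 * (1 + (2 * j + 1) + j * q) + nnet j q (k + 1) + 2 * q) := by ring

/-! ### multisets and finsets -/

theorem nb_union_val {V : Type} [DecidableEq V] {A B : Finset V} (h : Disjoint A B) :
    (A ∪ B).val = A.val + B.val := by
  rw [← Finset.disjUnion_eq_union A B h]
  rfl

theorem nb_sum_nodup {V κ : Type} [Fintype κ] {I : κ → List V} {S : Finset V}
    (h : ∑ x, ((I x : List V) : Multiset V) = S.val) (x : κ) : (I x).Nodup := by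
  have h1 : ((I x : List V) : Multiset V) ≤ S.val := by
    rw [← h]
    exact Finset.single_le_sum (f := fun x => ((I x : List V) : Multiset V))
      (fun _ _ => Multiset.zero_le _) (mem_univ x)
  exact Multiset.coe_nodup.1 (Multiset.nodup_of_le h1 S.nodup)

theorem nb_sum_disj {V κ : Type} [Fintype κ] {I : κ → List V} {S : Finset V}
    (h : ∑ x, ((I x : List V) : Multiset V) = S.val) {x x' : κ} {v : V}
    (hv : v ∈ I x) (hv' : v ∈ I x') : x = x' := by
  classical
  by_contra hne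
  have h1 : ((I x : List V) : Multiset V) + ((I x' : List V) : Multiset V) ≤ S.val := by
    rw [← h, ← Finset.sum_pair (f := fun x => ((I x : List V) : Multiset V)) hne]
    exact Finset.sum_le_sum_of_subset (Finset.subset_univ _)
  have h2 := Multiset.nodup_of_le h1 S.nodup
  rw [Multiset.nodup_add] at h2
  exact Multiset.disjoint_left.1 h2.2.2 (Multiset.mem_coe.2 hv) (Multiset.mem_coe.2 hv')

theorem nb_sum_mem {V κ : Type} [Fintype κ] {I : κ → List V} {S : Finset V}
    (h : ∑ x, ((I x : List V) : Multiset V) = S.val) (v : V) : v ∈ S ↔ ∃ x, v ∈ I x := by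
  rw [← Finset.mem_val, ← h, Multiset.mem_sum]
  simp

theorem nb_split {V κ ι : Type} [Fintype κ] [Fintype ι] {I : κ × ι → List V} {S : Finset V}
    (h : ∑ x, ((I x : List V) : Multiset V) = S.val) :
    ∃ T : κ → Finset V, (∀ k, ∑ x, ((I (k, x) : List V) : Multiset V) = (T k).val) ∧
      ∑ k, (T k).val = S.val := by
  have h4 : ∑ k, ∑ x, ((I (k, x) : List V) : Multiset V) = S.val := by
    rw [← h, Fintype.sum_prod_type]
  have h5 : ∀ k, (∑ x, ((I (k, x) : List V) : Multiset V)).Nodup := by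
    intro k
    have h6 : (∑ x, ((I (k, x) : List V) : Multiset V)) ≤ S.val := by
      rw [← h4]
      exact Finset.single_le_sum (f := fun k => ∑ x, ((I (k, x) : List V) : Multiset V))
        (fun _ _ => Multiset.zero_le _) (mem_univ k)
    exact Multiset.nodup_of_le h6 S.nodup
  exact ⟨fun k => ⟨∑ x, ((I (k, x) : List V) : Multiset V), h5 k⟩, fun k => rfl, h4⟩

theorem nb_vals_mem {V κ : Type} [Fintype κ] {T : κ → Finset V} {S : Finset V}
    (h : ∑ x, (T x).val = S.val) (v : V) : v ∈ S ↔ ∃ x, v ∈ T x := by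
  rw [← Finset.mem_val, ← h, Multiset.mem_sum]
  simp

theorem nb_vals_disj {V κ : Type} [Fintype κ] {T : κ → Finset V} {S : Finset V}
    (h : ∑ x, (T x).val = S.val) {x x' : κ} (hne : x ≠ x') : Disjoint (T x) (T x') := by
  classical
  have h1 : (T x).val + (T x').val ≤ S.val := by
    rw [← h, ← Finset.sum_pair (f := fun x => (T x).val) hne]
    exact Finset.sum_le_sum_of_subset (Finset.subset_univ _)
  have h2 := Multiset.nodup_of_le h1 S.nodup
  rw [Multiset.nodup_add] at h2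
  rw [Finset.disjoint_left]
  intro v hv hv'
  exact Multiset.disjoint_left.1 h2.2.2 hv hv'

theorem nb_sum_biUnion {V κ : Type} [DecidableEq V] [Fintype κ] {T : κ → Finset V}
    (h : ∀ i i', i ≠ i' → Disjoint (T i) (T i')) :
    ∑ i, (T i).val = (univ.biUnion T).val := by
  have h1 : (↑(univ : Finset κ) : Set κ).PairwiseDisjoint T := fun i _ i' _ hne => h i i' hne
  rw [← Finset.disjiUnion_eq_biUnion univ T h1]
  rfl

theorem nb_sum_ofFn {V : Type} {n : ℕ} (f : Fin n → V) :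
    ∑ l, ({f l} : Multiset V) = ((List.ofFn f : List V) : Multiset V) := by
  rw [← Fin.univ_val_map]
  have h := Multiset.sum_map_singleton ((univ : Finset (Fin n)).val.map f)
  rw [Multiset.map_map] at h
  exact h

theorem nb_sum_image {V κ : Type} [Fintype κ] {Z : Finset V} (e : κ ≃ Z) :
    ∑ x, ({(e x : V)} : Multiset V) = Z.val := by
  have h := Equiv.sum_comp e (fun z : Z => ({(z : V)} : Multiset V))
  rw [h]
  rw [Finset.sum_coe_sort Z (fun z => ({z} : Multiset V))]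
  exact Finset.sum_multiset_singleton Z

/-! ### counting end points -/

theorem nb_count_zero {V κ : Type} [DecidableEq V] [Fintype κ] {a : κ → V} {v : V}
    (h : ∀ x, a x ≠ v) : (univ.filter (fun x => a x = v)).card = 0 := by
  rw [Finset.card_eq_zero, Finset.filter_eq_empty_iff]
  intro x _
  exact h x

theorem nb_count_le_one {V κ : Type} [DecidableEq V] [Fintype κ] (a b : κ → V)
    (h : Function.Injective (Sum.elim a b)) (v : V) :
    (univ.filter (fun x => a x = v)).card + (univ.filter (fun x => b x = v)).card ≤ 1 := by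
  rw [← Finset.card_disjSum, Finset.card_le_one]
  have key : ∀ x ∈ (univ.filter (fun x => a x = v)).disjSum (univ.filter (fun x => b x = v)),
      Sum.elim a b x = v := by
    intro x hx
    rw [Finset.mem_disjSum] at hx
    rcases hx with ⟨y, hy, rfl⟩ | ⟨y, hy, rfl⟩
    · exact (Finset.mem_filter.1 hy).2
    · exact (Finset.mem_filter.1 hy).2
  intro x hx y hy
  exact h ((key x hx).trans (key y hy).symm)

theorem nb_arcs_count {V ι : Type} [DecidableEq V] [Fintype ι] (a : ι × Bool → V)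
    (ha : Function.Injective a) (v : V) :
    (univ.filter (fun p : ι × Bool => a (p.1, true) = v)).card +
      (univ.filter (fun p : ι × Bool => a (p.1, false) = v)).card ≤ 2 := by
  classical
  have key : ∀ c : Bool, (univ.filter (fun p : ι × Bool => a (p.1, c) = v)).card ≤ 2 := by
    intro c
    by_cases h : ∃ i, a (i, c) = v
    · obtain ⟨i, hi⟩ := h
      calc (univ.filter (fun p : ι × Bool => a (p.1, c) = v)).card
          ≤ (({i} : Finset ι) ×ˢ (univ : Finset Bool)).card := by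
            apply Finset.card_le_card
            intro p hp
            have h1 := (Finset.mem_filter.1 hp).2
            rw [← hi] at h1
            have h2 := ha h1
            rw [Prod.mk.injEq] at h2
            rw [Finset.mem_product, Finset.mem_singleton]
            exact ⟨h2.1, mem_univ _⟩
        _ = 2 := by rw [Finset.card_product]; simp
    · rw [nb_count_zero (a := fun p : ι × Bool => a (p.1, c))
        (fun p hp => h ⟨p.1, hp⟩)]
      omega
  by_cases h : ∃ i, a (i, true) = v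
  · obtain ⟨i, hi⟩ := h
    have h1 : (univ.filter (fun p : ι × Bool => a (p.1, false) = v)).card = 0 := by
      apply nb_count_zero
      intro p hp
      rw [← hi] at hp
      have h2 := ha hp
      rw [Prod.mk.injEq] at h2
      exact absurd h2.2 (by decide)
    have h2 := key true
    omega
  · have h1 : (univ.filter (fun p : ι × Bool => a (p.1, true) = v)).card = 0 :=
      nb_count_zero (fun p hp => h ⟨p.1, hp⟩)
    have h2 := key false
    omega

/-! ### links with all end points different -/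

theorem FPState.link_inj {V κ : Type} [DecidableEq V] [Fintype κ] {G : SimpleGraph V}
    {W : Finset V} {m h K : ℕ} (hc : FPCtx G W m h K) {U : Finset V} {r : V → ℕ}
    (hs : FPState G W m U r) (a b : κ → V) {q : ℕ} (hq : 2 * h + 2 ≤ q)
    (hcap : (U ∩ W).card + Fintype.card κ * q + 2 ^ (h + 2) ≤ K)
    (ha : ∀ i, a i ∈ U) (hb : ∀ i, b i ∈ U) (hinj : Function.Injective (Sum.elim a b))
    (hra : ∀ i, 1 ≤ r (a i)) (hrb : ∀ i, 1 ≤ r (b i)) :
    ∃ (S : Finset V) (r' : V → ℕ), Disjoint S U ∧ S.card = Fintype.card κ * q ∧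
      Links G.Adj S a b (fun _ => q) ∧ FPState G W m (U ∪ S) r' ∧
      (∀ v, v ∉ S → (∀ i, a i ≠ v) → (∀ i, b i ≠ v) → r' v = r v) := by
  have hsum : ∑ _i : κ, q = Fintype.card κ * q := by
    rw [Finset.sum_const, smul_eq_mul, Finset.card_univ]
  obtain ⟨S, h1, h2, h3, h4⟩ := FPState.multi_link hc hs a b (fun _ => q) (fun _ => hq)
    (by rw [hsum]; exact hcap) ha hb
    (fun i hi => by
      have := @hinj (Sum.inl i) (Sum.inr i) hi
      exact absurd this (by simp))
    (fun v => by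
      have h5 := nb_count_le_one a b hinj v
      by_cases hv1 : ∃ i, a i = v
      · obtain ⟨i, rfl⟩ := hv1
        exact h5.trans (hra i)
      · by_cases hv2 : ∃ i, b i = v
        · obtain ⟨i, rfl⟩ := hv2
          exact h5.trans (hrb i)
        · rw [nb_count_zero (fun x hx => hv1 ⟨x, hx⟩), nb_count_zero (fun x hx => hv2 ⟨x, hx⟩)]
          exact Nat.zero_le _)
  refine ⟨S, _, h1, h2.trans hsum, h3, h4, ?_⟩
  intro v hv hva hvb
  simp only [if_neg hv, nb_count_zero hva, nb_count_zero hvb, Nat.sub_zero]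

/-! ### the switches -/

theorem FPState.build_switches {V ι : Type} [DecidableEq V] [Fintype ι] [DecidableEq ι]
    {G : SimpleGraph V} {W : Finset V} {m h K : ℕ}
    (hc : FPCtx G W m h K) {U : Finset V} {r : V → ℕ} (hs : FPState G W m U r) {j q : ℕ}
    (hq : 2 * h + 2 ≤ q) (hj : h + 1 ≤ j) (a : ι × Bool → V) (hainj : Function.Injective a)
    (haU : ∀ p, a p ∈ U) (har : ∀ p, r (a p) = 3)
    (hcap : (U ∩ W).card + Fintype.card ι * wsw j q + 2 ^ (h + 2) ≤ K) :
    ∃ (T : ι → Finset V) (b : ι × Bool → V) (r' : V → ℕ),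
      (∀ i, Disjoint (T i) U) ∧ (∀ i i', i ≠ i' → Disjoint (T i) (T i')) ∧
      (∀ i, (T i).card = wsw j q) ∧
      (∀ i, Net G.Adj ({a (i, true), a (i, false)} ∪ T i) (fun c : Bool => a (i, c))
        (fun c => b (i, c)) (1 + (2 * j + 1) + j * q)) ∧
      Function.Injective b ∧ (∀ p, b p ∈ T p.1) ∧
      (∀ p, 1 ≤ r' (a p)) ∧ (∀ p, 1 ≤ r' (b p)) ∧
      (∀ v, v ∉ Set.range a → (∀ i, v ∉ T i) → r' v = r v) ∧
      FPState G W m (U ∪ univ.biUnion T) r' := by
  have hsum1 : ∑ _p : ι × Bool, (2 * j + 1) = Fintype.card ι * (2 * (2 * j + 1)) := by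
    rw [Finset.sum_const, smul_eq_mul, Finset.card_univ, Fintype.card_prod, Fintype.card_bool]
    ring
  have hw : Fintype.card ι * wsw j q =
      Fintype.card ι * (2 * (2 * j + 1)) + Fintype.card ι * (2 * j * q) := by
    rw [wsw]
    ring
  -- the arcs
  obtain ⟨S1, hd1, hc1, ⟨I, hI1, hI2, hI3⟩, hs1⟩ := FPState.multi_link hc hs
    (fun p : ι × Bool => a (p.1, true)) (fun p : ι × Bool => a (p.1, false))
    (fun _ => 2 * j + 1) (fun _ => by omega) (by rw [hsum1]; omega)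
    (fun p => haU _) (fun p => haU _)
    (fun p hp => by
      have h1 := hainj hp
      rw [Prod.mk.injEq] at h1
      exact absurd h1.2 (by decide))
    (fun v => by
      by_cases hv : ∃ p, a p = v
      · obtain ⟨p, rfl⟩ := hv
        have h1 := nb_arcs_count a hainj (a p)
        have h2 := har p
        omega
      · rw [nb_count_zero (a := fun p : ι × Bool => a (p.1, true)) (fun x hx => hv ⟨_, hx⟩),
          nb_count_zero (a := fun p : ι × Bool => a (p.1, false)) (fun x hx => hv ⟨_, hx⟩)]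
        exact Nat.zero_le _)
  set r1 : V → ℕ := (fun x => if x ∈ S1 then 1 else
        r x - (univ.filter (fun p : ι × Bool => a (p.1, true) = x)).card -
          (univ.filter (fun p : ι × Bool => a (p.1, false) = x)).card) with hr1
  rw [hsum1] at hc1
  set y : ι × Bool → Fin (2 * j + 1) → V := fun p l => (I p)[(l : ℕ)]'(by
    rw [hI2 p]; exact l.2) with hy
  have hyI : ∀ p, List.ofFn (y p) = I p := by
    intro p
    apply List.ext_getElem
    · rw [List.length_ofFn, hI2 p]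
    · intro n h1 h2
      rw [List.getElem_ofFn]
  have hyS : ∀ p l, y p l ∈ S1 := by
    intro p l
    rw [nb_sum_mem hI3]
    exact ⟨p, List.getElem_mem _⟩
  have hyinj : ∀ p l p' l', y p l = y p' l' → p = p' ∧ l = l' := by
    intro p l p' l' he
    have hpp : p = p' := by
      apply nb_sum_disj hI3 (v := y p l)
      · exact List.getElem_mem _
      · rw [he]
        exact List.getElem_mem _
    subst hpp
    refine ⟨rfl, ?_⟩
    have hn := nb_sum_nodup hI3 p
    exact Fin.ext ((hn.getElem_inj_iff).1 he)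
  have hyU : ∀ p l, y p l ∉ U := fun p l hl => Finset.disjoint_left.1 hd1 (hyS p l) hl
  -- the chords
  obtain ⟨S2, r2, hd2, hc2, ⟨J, hJ1, hJ2, hJ3⟩, hs2, hr2⟩ := FPState.link_inj (κ := ι × (Bool × Fin j))
    hc hs1 (fun x => y (x.1, x.2.1) ⟨x.2.2, by omega⟩)
    (fun x => y (x.1, x.2.1) ⟨2 * j - x.2.2, by omega⟩) hq
    (by
      have h1 : ((U ∪ S1) ∩ W).card ≤ (U ∩ W).card + S1.card := by
        calc ((U ∪ S1) ∩ W).card ≤ ((U ∩ W) ∪ S1).card := by
              apply Finset.card_le_card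
              intro v hv
              rw [Finset.mem_inter, Finset.mem_union] at hv
              rw [Finset.mem_union, Finset.mem_inter]
              tauto
          _ ≤ (U ∩ W).card + S1.card := Finset.card_union_le _ _
      have h2 : Fintype.card (ι × (Bool × Fin j)) * q = Fintype.card ι * (2 * j * q) := by
        rw [Fintype.card_prod, Fintype.card_prod, Fintype.card_bool, Fintype.card_fin]
        ring
      rw [h2]
      omega)
    (fun x => Finset.mem_union_right _ (hyS _ _)) (fun x => Finset.mem_union_right _ (hyS _ _))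
    (by
      rintro (⟨i, c, l⟩ | ⟨i, c, l⟩) (⟨i', c', l'⟩ | ⟨i', c', l'⟩) he
      · have h1 := hyinj _ _ _ _ he
        simp only [Prod.mk.injEq, Fin.mk.injEq] at h1
        obtain ⟨⟨rfl, rfl⟩, h2⟩ := h1
        rw [Fin.ext h2]
      · exfalso
        have h1 := hyinj _ _ _ _ he
        simp only [Prod.mk.injEq, Fin.mk.injEq] at h1
        omega
      · exfalso
        have h1 := hyinj _ _ _ _ he
        simp only [Prod.mk.injEq, Fin.mk.injEq] at h1
        omega
      · have h1 := hyinj _ _ _ _ he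
        simp only [Prod.mk.injEq, Fin.mk.injEq] at h1
        obtain ⟨⟨rfl, rfl⟩, h2⟩ := h1
        have h3 : (l : ℕ) = l' := by omega
        rw [Fin.ext h3])
    (fun x => by simp only [hr1, if_pos (hyS _ _)]; exact le_refl 1)
    (fun x => by simp only [hr1, if_pos (hyS _ _)]; exact le_refl 1)
  rw [Finset.disjoint_union_right] at hd2
  obtain ⟨Y, hY1, hY2⟩ := nb_split hI3
  obtain ⟨X, hX1, hX2⟩ := nb_split hJ3
  have hYS : ∀ i v, v ∈ Y i → v ∈ S1 := fun i v hv => (nb_vals_mem hY2 v).2 ⟨i, hv⟩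
  have hXS : ∀ i v, v ∈ X i → v ∈ S2 := fun i v hv => (nb_vals_mem hX2 v).2 ⟨i, hv⟩
  have hS21 : ∀ v, v ∈ S2 → v ∉ S1 := fun v h1 h2 => Finset.disjoint_left.1 hd2.2 h1 h2
  have hS2U : ∀ v, v ∈ S2 → v ∉ U := fun v h1 h2 => Finset.disjoint_left.1 hd2.1 h1 h2
  have hS1U : ∀ v, v ∈ S1 → v ∉ U := fun v h1 h2 => Finset.disjoint_left.1 hd1 h1 h2
  have hYX : ∀ i i', Disjoint (Y i) (X i') := fun i i' => by
    rw [Finset.disjoint_left]
    intro v h1 h2
    exact hS21 v (hXS _ _ h2) (hYS _ _ h1)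
  have hyY : ∀ p l, y p l ∈ Y p.1 := by
    intro p l
    rw [← Finset.mem_val, ← hY1, Multiset.mem_sum]
    exact ⟨p.2, mem_univ _, Multiset.mem_coe.2 (List.getElem_mem _)⟩
  have haS1 : ∀ p, a p ∉ S1 := fun p hp => hS1U _ hp (haU p)
  have haS2 : ∀ p, a p ∉ S2 := fun p hp => hS2U _ hp (haU p)
  refine ⟨fun i => Y i ∪ X i, fun p => y p ⟨j, by omega⟩, r2, ?_, ?_, ?_, ?_, ?_, ?_, ?_, ?_,
    ?_, ?_⟩
  · intro i
    rw [Finset.disjoint_left]
    intro v hv
    rcases Finset.mem_union.1 hv with hv | hv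
    · exact hS1U v (hYS _ _ hv)
    · exact hS2U v (hXS _ _ hv)
  · intro i i' hne
    rw [Finset.disjoint_union_left, Finset.disjoint_union_right, Finset.disjoint_union_right]
    exact ⟨⟨nb_vals_disj hY2 hne, hYX _ _⟩, (hYX _ _).symm, nb_vals_disj hX2 hne⟩
  · intro i
    rw [Finset.card_union_of_disjoint (hYX i i), wsw]
    have h1 : (Y i).card = 2 * (2 * j + 1) := by
      rw [Finset.card_def, ← hY1 i, Multiset.card_sum]
      simp only [Multiset.coe_card, hI2, Finset.sum_const, Finset.card_univ, Fintype.card_bool,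
        smul_eq_mul]
    have h2 : (X i).card = 2 * j * q := by
      rw [Finset.card_def, ← hX1 i, Multiset.card_sum]
      simp only [Multiset.coe_card, hJ2, Finset.sum_const, Finset.card_univ, Fintype.card_prod,
        Fintype.card_bool, Fintype.card_fin, smul_eq_mul]
    rw [h1, h2]
  · intro i
    have h1 := switch_net (adj := G.Adj) (fun u v huv => SimpleGraph.Adj.symm huv) (j := j) (q := q)
      (a₁ := a (i, true)) (a₂ := a (i, false)) (fun c l => y (i, c) l)
      (fun c => by rw [hyI]; exact hI1 (i, c)) (T := X i)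
      (S := {a (i, true), a (i, false)} ∪ (Y i ∪ X i))
      ⟨fun p => J (i, p), fun p => hJ1 (i, p), fun p => hJ2 (i, p), hX1 i⟩
      (by
        have hne : a (i, true) ≠ a (i, false) := fun he => by
          have h1 := hainj he
          rw [Prod.mk.injEq] at h1
          exact absurd h1.2 (by decide)
        rw [nb_union_val, nb_union_val (hYX i i), Finset.insert_val_of_notMem, Finset.singleton_val,
          ← hY1 i, add_assoc]
        · congr 1
          congr 1
          apply Finset.sum_congr rfl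
          intro c _
          rw [nb_sum_ofFn, hyI]
        · rw [Finset.mem_singleton]
          exact hne
        · rw [Finset.disjoint_left]
          intro v hv hv'
          have h2 : v ∈ U := by
            rcases Finset.mem_insert.1 hv with rfl | hv
            · exact haU _
            · rw [Finset.mem_singleton] at hv
              rw [hv]
              exact haU _
          rcases Finset.mem_union.1 hv' with hv' | hv'
          · exact hS1U v (hYS _ _ hv') h2
          · exact hS2U v (hXS _ _ hv') h2)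
    have h2 : (fun c : Bool => if c then a (i, true) else a (i, false)) = fun c => a (i, c) := by
      funext c
      cases c <;> rfl
    rw [h2] at h1
    exact h1
  · intro p p' he
    exact (hyinj _ _ _ _ he).1
  · intro p
    exact Finset.mem_union_left _ (hyY p _)
  · intro p
    have h1 : r2 (a p) = r1 (a p) := by
      apply hr2
      · exact haS2 p
      · intro x hx
        exact haS1 p (hx ▸ hyS _ _)
      · intro x hx
        exact haS1 p (hx ▸ hyS _ _)
    rw [h1]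
    simp only [hr1, if_neg (haS1 p)]
    have h2 := nb_arcs_count a hainj (a p)
    have h3 := har p
    omega
  · intro p
    have h1 : r2 (y p ⟨j, by omega⟩) = r1 (y p ⟨j, by omega⟩) := by
      apply hr2
      · intro hv
        exact hS21 _ hv (hyS _ _)
      · rintro ⟨i, c, l⟩ hx
        have h1 := (hyinj _ _ _ _ hx).2
        rw [Fin.mk.injEq] at h1
        have := l.2
        omega
      · rintro ⟨i, c, l⟩ hx
        have h1 := (hyinj _ _ _ _ hx).2
        rw [Fin.mk.injEq] at h1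
        have := l.2
        omega
    rw [h1]
    simp only [hr1, if_pos (hyS _ _)]
    exact le_refl 1
  · intro v hv hvT
    have hv1 : v ∉ S1 := by
      intro h1
      obtain ⟨i, hi⟩ := (nb_vals_mem hY2 v).1 h1
      exact hvT i (Finset.mem_union_left _ hi)
    have hv2 : v ∉ S2 := by
      intro h1
      obtain ⟨i, hi⟩ := (nb_vals_mem hX2 v).1 h1
      exact hvT i (Finset.mem_union_right _ hi)
    rw [hr2 v hv2 (fun x hx => hv1 (hx ▸ hyS _ _)) (fun x hx => hv1 (hx ▸ hyS _ _))]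
    simp only [hr1, if_neg hv1]
    rw [nb_count_zero (a := fun p : ι × Bool => a (p.1, true)) (fun x hx => hv ⟨_, hx⟩),
      nb_count_zero (a := fun p : ι × Bool => a (p.1, false)) (fun x hx => hv ⟨_, hx⟩)]
    rfl
  · have h1 : U ∪ univ.biUnion (fun i => Y i ∪ X i) = U ∪ S1 ∪ S2 := by
      ext v
      simp only [Finset.mem_union, Finset.mem_biUnion, Finset.mem_univ, true_and,
        nb_vals_mem hY2 v, nb_vals_mem hX2 v, exists_or, or_assoc]
    rw [h1]
    exact hs2


/-! ### the network -/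

theorem Net.reindex {V ι κ : Type} [Fintype ι] [Fintype κ] {adj : V → V → Prop} {S : Finset V}
    {I O : ι → V} {n : ℕ} (h : Net adj S I O n) (e : κ ≃ ι) :
    Net adj S (I ∘ e) (O ∘ e) n := by
  intro σ
  have h1 := (h ((e.symm.trans σ).trans e)).reindex e
  have h2 : (fun x => (O ∘ e) (σ x)) = (fun x => O (((e.symm.trans σ).trans e) x)) ∘ e := by
    funext x
    simp only [Function.comp_apply, Equiv.trans_apply, Equiv.symm_apply_apply]
  rw [h2]
  exact h1

/-- the goal of `build_net` for one index type -/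
private def NB {V : Type} [DecidableEq V] (G : SimpleGraph V) (W : Finset V) (m h K j q κ : ℕ)
    (ι : Type) [Fintype ι] : Prop :=
  ∀ (U : Finset V) (r : V → ℕ), FPState G W m U r → ∀ Z : Finset V, Z.card = znet κ → Z ⊆ U →
    (∀ z ∈ Z, r z = 3) → (U ∩ W).card + wnet j q κ + 2 ^ (h + 2) ≤ K →
    ∃ (I O : ι → V) (S : Finset V) (r' : V → ℕ),
      Disjoint S U ∧ S.card = wnet j q κ ∧ Net G.Adj (Z ∪ S) I O (nnet j q κ) ∧
      Function.Injective I ∧ Function.Injective O ∧ (∀ x y, I x ≠ O y) ∧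
      (∀ x, I x ∈ Z ∪ S) ∧ (∀ x, O x ∈ Z ∪ S) ∧ (∀ x, 1 ≤ r' (I x)) ∧ (∀ x, 1 ≤ r' (O x)) ∧
      (∀ v, v ∉ Z ∪ S → r' v = r v) ∧ FPState G W m (U ∪ S) r'

private theorem NB.reindex {V : Type} [DecidableEq V] {G : SimpleGraph V} {W : Finset V}
    {m h K j q κ : ℕ} {ι ι' : Type} [Fintype ι] [Fintype ι'] (H : NB G W m h K j q κ ι)
    (e : ι' ≃ ι) : NB G W m h K j q κ ι' := by
  intro U r hs Z hZ hZU hZr hcap
  obtain ⟨I, O, S, r', h1, h2, h3, h4, h5, h6, h7, h8, h9, h10, h11, h12⟩ :=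
    H U r hs Z hZ hZU hZr hcap
  exact ⟨I ∘ e, O ∘ e, S, r', h1, h2, h3.reindex e, h4.comp e.injective, h5.comp e.injective,
    fun x y => h6 _ _, fun x => h7 _, fun x => h8 _, fun x => h9 _, fun x => h10 _, h11, h12⟩

private theorem NB.base {V : Type} [DecidableEq V] {G : SimpleGraph V} {W : Finset V}
    {m h K j q : ℕ} (hc : FPCtx G W m h K) (hq : 2 * h + 2 ≤ q) (hj : h + 1 ≤ j) :
    NB G W m h K j q 1 Bool := by
  intro U r hs Z hZ hZU hZr hcap
  have e : (Unit × Bool) ≃ Z := Fintype.equivOfCardEq (by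
    rw [Fintype.card_prod, Fintype.card_coe, hZ]; rfl)
  obtain ⟨T, b, r', h1, h2, h3, h4, h5, h6, h7, h8, h9, h10⟩ :=
    FPState.build_switches hc hs hq hj (fun p => (e p : V))
      (fun p p' hp => e.injective (Subtype.ext hp)) (fun p => hZU (e p).2)
      (fun p => hZr _ (e p).2) (by
        rw [Fintype.card_unit, one_mul]
        exact hcap)
  have hZe : ({(e ((), true) : V), (e ((), false) : V)} : Finset V) = Z := by
    apply Finset.eq_of_subset_of_card_le
    · intro v hv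
      rw [Finset.mem_insert, Finset.mem_singleton] at hv
      rcases hv with rfl | rfl
      · exact (e _).2
      · exact (e _).2
    · rw [hZ, Finset.card_pair]
      · exact le_refl _
      · intro he
        have := e.injective (Subtype.ext he)
        rw [Prod.mk.injEq] at this
        exact absurd this.2 (by decide)
  have hTu : univ.biUnion T = T () := by
    ext v
    rw [Finset.mem_biUnion]
    constructor
    · rintro ⟨i, _, hi⟩
      exact hi
    · intro hi
      exact ⟨(), mem_univ _, hi⟩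
  have h4' := h4 ()
  rw [hZe] at h4'
  refine ⟨fun c => (e ((), c) : V), fun c => b ((), c), T (), r', h1 (), h3 (), h4', ?_, ?_, ?_,
    fun x => Finset.mem_union_left _ (e _).2, fun x => Finset.mem_union_right _ (h6 _),
    fun x => h7 _, fun x => h8 _, ?_, ?_⟩
  · intro c c' hcc
    have := e.injective (Subtype.ext hcc)
    rw [Prod.mk.injEq] at this
    exact this.2
  · intro c c' hcc
    have := h5 hcc
    rw [Prod.mk.injEq] at this
    exact this.2
  · intro c c' hcc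
    have h11 : (e ((), c) : V) ∉ T () := fun h12 =>
      Finset.disjoint_left.1 (h1 ()) h12 (hZU (e ((), c)).2)
    have h12 : (e ((), c) : V) = b ((), c') := hcc
    rw [h12] at h11
    exact h11 (h6 ((), c'))
  · intro v hv
    rw [Finset.mem_union] at hv
    apply h9
    · rintro ⟨p, rfl⟩
      exact hv (Or.inl (e p).2)
    · intro i hi
      exact hv (Or.inr hi)
  · rw [hTu] at h10
    exact h10

private theorem nb_split4 {V : Type} [DecidableEq V] (Z : Finset V) (n₁ n₂ n₃ n₄ : ℕ)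
    (h : Z.card = n₁ + n₂ + n₃ + n₄) :
    ∃ Z₁ Z₂ Z₃ Z₄ : Finset V, Z₁.card = n₁ ∧ Z₂.card = n₂ ∧ Z₃.card = n₃ ∧ Z₄.card = n₄ ∧
      Disjoint Z₁ Z₂ ∧ Disjoint (Z₁ ∪ Z₂) Z₃ ∧ Disjoint (Z₁ ∪ Z₂ ∪ Z₃) Z₄ ∧
      Z₁ ∪ Z₂ ∪ Z₃ ∪ Z₄ = Z := by
  obtain ⟨Z₁, hZ₁, hc₁⟩ := Finset.exists_subset_card_eq (s := Z) (n := n₁) (by omega)
  have hr₁ : (Z \ Z₁).card = n₂ + n₃ + n₄ := by
    rw [Finset.card_sdiff_of_subset hZ₁]
    omega
  obtain ⟨Z₂, hZ₂, hc₂⟩ := Finset.exists_subset_card_eq (s := Z \ Z₁) (n := n₂) (by omega)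
  have hr₂ : ((Z \ Z₁) \ Z₂).card = n₃ + n₄ := by
    rw [Finset.card_sdiff_of_subset hZ₂]
    omega
  obtain ⟨Z₃, hZ₃, hc₃⟩ := Finset.exists_subset_card_eq (s := (Z \ Z₁) \ Z₂) (n := n₃) (by omega)
  have hr₃ : (((Z \ Z₁) \ Z₂) \ Z₃).card = n₄ := by
    rw [Finset.card_sdiff_of_subset hZ₃]
    omega
  refine ⟨Z₁, Z₂, Z₃, ((Z \ Z₁) \ Z₂) \ Z₃, hc₁, hc₂, hc₃, hr₃, ?_, ?_, ?_, ?_⟩
  · rw [Finset.disjoint_right]
    intro v hv
    exact (Finset.mem_sdiff.1 (hZ₂ hv)).2
  · rw [Finset.disjoint_right]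
    intro v hv
    have h1 := Finset.mem_sdiff.1 (hZ₃ hv)
    have h2 := Finset.mem_sdiff.1 h1.1
    rw [Finset.mem_union]
    rintro (h3 | h3)
    · exact h2.2 h3
    · exact h1.2 h3
  · rw [Finset.disjoint_right]
    intro v hv
    have h0 := Finset.mem_sdiff.1 hv
    have h1 := Finset.mem_sdiff.1 h0.1
    have h2 := Finset.mem_sdiff.1 h1.1
    rw [Finset.mem_union, Finset.mem_union]
    rintro ((h3 | h3) | h3)
    · exact h2.2 h3
    · exact h1.2 h3
    · exact h0.2 h3
  · ext v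
    have h1 : v ∈ Z₁ → v ∈ Z := fun h => hZ₁ h
    have h2 : v ∈ Z₂ → v ∈ Z := fun h => (Finset.mem_sdiff.1 (hZ₂ h)).1
    have h3 : v ∈ Z₃ → v ∈ Z := fun h =>
      (Finset.mem_sdiff.1 (Finset.mem_sdiff.1 (hZ₃ h)).1).1
    rw [Finset.mem_union, Finset.mem_union, Finset.mem_union, Finset.mem_sdiff,
      Finset.mem_sdiff, Finset.mem_sdiff]
    tauto

private theorem NB.step {V : Type} [DecidableEq V] {G : SimpleGraph V} {W : Finset V}
    {m h K j q k : ℕ} (hc : FPCtx G W m h K) (hq : 2 * h + 2 ≤ q) (hj : h + 1 ≤ j)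
    {ι : Type} [Fintype ι] [DecidableEq ι] (hι : Fintype.card ι = 2 ^ (k + 1))
    (H : NB G W m h K j q (k + 1) ι) : NB G W m h K j q (k + 2) (ι × Bool) := by
  intro U r hs Z hZ hZU hZr hcap
  rw [wnet] at hcap
  rw [znet] at hZ
  set w₁ := wnet j q (k + 1) with hw₁
  set M := 2 ^ (k + 1) with hM
  obtain ⟨Z₁, Z₂, ZA, ZB, hc₁, hc₂, hcA, hcB, hZd₂, hZdA, hZdB, hZZ⟩ :=
    nb_split4 Z (znet (k + 1)) (znet (k + 1)) (2 * M) (2 * M) (by omega)
  have hZ₁U : Z₁ ⊆ U := fun v hv => hZU (by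
    rw [← hZZ]; simp only [Finset.mem_union]; tauto)
  have hZ₂U : Z₂ ⊆ U := fun v hv => hZU (by
    rw [← hZZ]; simp only [Finset.mem_union]; tauto)
  have hZAU : ZA ⊆ U := fun v hv => hZU (by
    rw [← hZZ]; simp only [Finset.mem_union]; tauto)
  have hZBU : ZB ⊆ U := fun v hv => hZU (by
    rw [← hZZ]; simp only [Finset.mem_union]; tauto)
  have hZ₁r : ∀ z ∈ Z₁, r z = 3 := fun v hv => hZr v (by
    rw [← hZZ]; simp only [Finset.mem_union]; tauto)
  have hZ₂r : ∀ z ∈ Z₂, r z = 3 := fun v hv => hZr v (by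
    rw [← hZZ]; simp only [Finset.mem_union]; tauto)
  have hZAr : ∀ z ∈ ZA, r z = 3 := fun v hv => hZr v (by
    rw [← hZZ]; simp only [Finset.mem_union]; tauto)
  have hZBr : ∀ z ∈ ZB, r z = 3 := fun v hv => hZr v (by
    rw [← hZZ]; simp only [Finset.mem_union]; tauto)
  have hn12 : ∀ v, v ∈ Z₁ → v ∉ Z₂ := fun v h1 h2 => Finset.disjoint_left.1 hZd₂ h1 h2
  have hn1A : ∀ v, v ∈ Z₁ → v ∉ ZA := fun v h1 h2 =>
    Finset.disjoint_left.1 hZdA (Finset.mem_union_left _ h1) h2
  have hn2A : ∀ v, v ∈ Z₂ → v ∉ ZA := fun v h1 h2 =>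
    Finset.disjoint_left.1 hZdA (Finset.mem_union_right _ h1) h2
  have hn1B : ∀ v, v ∈ Z₁ → v ∉ ZB := fun v h1 h2 =>
    Finset.disjoint_left.1 hZdB (Finset.mem_union_left _ (Finset.mem_union_left _ h1)) h2
  have hn2B : ∀ v, v ∈ Z₂ → v ∉ ZB := fun v h1 h2 =>
    Finset.disjoint_left.1 hZdB (Finset.mem_union_left _ (Finset.mem_union_right _ h1)) h2
  have hnAB : ∀ v, v ∈ ZA → v ∉ ZB := fun v h1 h2 =>
    Finset.disjoint_left.1 hZdB (Finset.mem_union_right _ h1) h2
  have hcapU : ∀ A B : Finset V, ((A ∪ B) ∩ W).card ≤ (A ∩ W).card + B.card := by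
    intro A B
    calc ((A ∪ B) ∩ W).card ≤ ((A ∩ W) ∪ B).card := by
          apply Finset.card_le_card
          intro v hv
          rw [Finset.mem_inter, Finset.mem_union] at hv
          rw [Finset.mem_union, Finset.mem_inter]
          tauto
      _ ≤ (A ∩ W).card + B.card := Finset.card_union_le _ _
  -- first subnetwork
  obtain ⟨I₁, O₁, S₁, r₁, hS₁d, hS₁c, hN₁, hI₁i, hO₁i, hIO₁, hI₁m, hO₁m, hI₁r, hO₁r, hr₁, hs₁⟩ :=
    H U r hs Z₁ hc₁ hZ₁U hZ₁r (by omega)
  have hS₁U : ∀ v, v ∈ S₁ → v ∉ U := fun v h1 h2 => Finset.disjoint_left.1 hS₁d h1 h2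
  have hcap₁ := hcapU U S₁
  -- second subnetwork
  obtain ⟨I₂, O₂, S₂, r₂, hS₂d, hS₂c, hN₂, hI₂i, hO₂i, hIO₂, hI₂m, hO₂m, hI₂r, hO₂r, hr₂, hs₂⟩ :=
    H (U ∪ S₁) r₁ hs₁ Z₂ hc₂ (fun v hv => Finset.mem_union_left _ (hZ₂U hv))
      (fun z hz => by
        rw [hr₁ z]
        · exact hZ₂r z hz
        · rw [Finset.mem_union]
          rintro (h1 | h1)
          · exact hn12 z h1 hz
          · exact hS₁U z h1 (hZ₂U hz)) (by omega)
  have hS₂U : ∀ v, v ∈ S₂ → v ∉ U := fun v h1 h2 =>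
    Finset.disjoint_left.1 hS₂d h1 (Finset.mem_union_left _ h2)
  have hS₂₁ : ∀ v, v ∈ S₂ → v ∉ S₁ := fun v h1 h2 =>
    Finset.disjoint_left.1 hS₂d h1 (Finset.mem_union_right _ h2)
  have hcap₂ := hcapU (U ∪ S₁) S₂
  have hwMc : Fintype.card ι * wsw j q = M * wsw j q := by rw [hι]
  have hwM2 : 2 * M * wsw j q = M * wsw j q + M * wsw j q := by ring
  have hqM2 : 4 * M * q = M * 2 * q + M * 2 * q := by ring
  -- switches A
  have eA : (ι × Bool) ≃ ZA := Fintype.equivOfCardEq (by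
    rw [Fintype.card_prod, Fintype.card_coe, hcA, hι, Fintype.card_bool]; ring)
  have eB : (ι × Bool) ≃ ZB := Fintype.equivOfCardEq (by
    rw [Fintype.card_prod, Fintype.card_coe, hcB, hι, Fintype.card_bool]; ring)
  obtain ⟨TA, bA, r₃, hTAd, hTAp, hTAc, hNA, hbAi, hbAm, haAr, hbAr, hr₃, hs₃⟩ :=
    FPState.build_switches hc hs₂ hq hj (fun p => (eA p : V))
      (fun p p' hp => eA.injective (Subtype.ext hp))
      (fun p => Finset.mem_union_left _ (Finset.mem_union_left _ (hZAU (eA p).2)))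
      (fun p => by
        rw [hr₂, hr₁]
        · exact hZAr _ (eA p).2
        · rw [Finset.mem_union]
          rintro (h1 | h1)
          · exact hn1A _ h1 (eA p).2
          · exact hS₁U _ h1 (hZAU (eA p).2)
        · rw [Finset.mem_union]
          rintro (h1 | h1)
          · exact hn2A _ h1 (eA p).2
          · exact hS₂U _ h1 (hZAU (eA p).2)) (by omega)
  set A := univ.biUnion TA with hA
  have hmA : ∀ v, v ∈ A ↔ ∃ i, v ∈ TA i := by
    intro v
    rw [hA, Finset.mem_biUnion]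
    simp only [Finset.mem_univ, true_and]
  have hAd : ∀ v, v ∈ A → v ∉ U ∪ S₁ ∪ S₂ := by
    intro v hv
    obtain ⟨i, hi⟩ := (hmA v).1 hv
    exact Finset.disjoint_left.1 (hTAd i) hi
  have hAU : ∀ v, v ∈ A → v ∉ U := fun v hv h2 =>
    hAd v hv (Finset.mem_union_left _ (Finset.mem_union_left _ h2))
  have hAS₁ : ∀ v, v ∈ A → v ∉ S₁ := fun v hv h2 =>
    hAd v hv (Finset.mem_union_left _ (Finset.mem_union_right _ h2))
  have hAS₂ : ∀ v, v ∈ A → v ∉ S₂ := fun v hv h2 =>
    hAd v hv (Finset.mem_union_right _ h2)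
  have hbAA : ∀ p, bA p ∈ A := fun p => (hmA _).2 ⟨_, hbAm p⟩
  have hAc : A.card = M * wsw j q := by
    rw [hA, Finset.card_biUnion (fun i _ i' _ hne => hTAp i i' hne)]
    simp only [hTAc, Finset.sum_const, Finset.card_univ, hι, smul_eq_mul]
  have hcap₃ := hcapU (U ∪ S₁ ∪ S₂) A
  -- switches B
  obtain ⟨TB, bB, r₄, hTBd, hTBp, hTBc, hNB, hbBi, hbBm, haBr, hbBr, hr₄, hs₄⟩ :=
    FPState.build_switches hc hs₃ hq hj (fun p => (eB p : V))
      (fun p p' hp => eB.injective (Subtype.ext hp))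
      (fun p => Finset.mem_union_left _ (Finset.mem_union_left _ (Finset.mem_union_left _
        (hZBU (eB p).2))))
      (fun p => by
        rw [hr₃, hr₂, hr₁]
        · exact hZBr _ (eB p).2
        · rw [Finset.mem_union]
          rintro (h1 | h1)
          · exact hn1B _ h1 (eB p).2
          · exact hS₁U _ h1 (hZBU (eB p).2)
        · rw [Finset.mem_union]
          rintro (h1 | h1)
          · exact hn2B _ h1 (eB p).2
          · exact hS₂U _ h1 (hZBU (eB p).2)
        · rintro ⟨p', hp'⟩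
          have h1 : (eA p' : V) ∈ ZB := by
            have : (eA p' : V) = eB p := hp'
            rw [this]
            exact (eB p).2
          exact hnAB _ (eA p').2 h1
        · intro i hi
          exact hAU _ ((hmA _).2 ⟨i, hi⟩) (hZBU (eB p).2)) (by omega)
  set B := univ.biUnion TB with hB
  have hmB : ∀ v, v ∈ B ↔ ∃ i, v ∈ TB i := by
    intro v
    rw [hB, Finset.mem_biUnion]
    simp only [Finset.mem_univ, true_and]
  have hBd : ∀ v, v ∈ B → v ∉ U ∪ S₁ ∪ S₂ ∪ A := by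
    intro v hv
    obtain ⟨i, hi⟩ := (hmB v).1 hv
    exact Finset.disjoint_left.1 (hTBd i) hi
  have hBU : ∀ v, v ∈ B → v ∉ U := fun v hv h2 =>
    hBd v hv (Finset.mem_union_left _ (Finset.mem_union_left _ (Finset.mem_union_left _ h2)))
  have hBS₁ : ∀ v, v ∈ B → v ∉ S₁ := fun v hv h2 =>
    hBd v hv (Finset.mem_union_left _ (Finset.mem_union_left _ (Finset.mem_union_right _ h2)))
  have hBS₂ : ∀ v, v ∈ B → v ∉ S₂ := fun v hv h2 =>
    hBd v hv (Finset.mem_union_left _ (Finset.mem_union_right _ h2))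
  have hBA : ∀ v, v ∈ B → v ∉ A := fun v hv h2 =>
    hBd v hv (Finset.mem_union_right _ h2)
  have hbBB : ∀ p, bB p ∈ B := fun p => (hmB _).2 ⟨_, hbBm p⟩
  have hBc : B.card = M * wsw j q := by
    rw [hB, Finset.card_biUnion (fun i _ i' _ hne => hTBp i i' hne)]
    simp only [hTBc, Finset.sum_const, Finset.card_univ, hι, smul_eq_mul]
  have hcap₄ := hcapU (U ∪ S₁ ∪ S₂ ∪ A) B
  have hcardP : Fintype.card (ι × Bool) * q = M * 2 * q := by
    rw [Fintype.card_prod, Fintype.card_bool, hι]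
  -- membership facts for the ports of the two subnetworks
  have hnet₁ : ∀ v, v ∈ Z₁ ∪ S₁ → v ∉ Z₂ ∪ S₂ ∧ v ∉ ZA ∧ v ∉ ZB ∧ v ∉ A ∧ v ∉ B := by
    intro v hv
    rw [Finset.mem_union] at hv
    rcases hv with hv | hv
    · refine ⟨?_, hn1A v hv, hn1B v hv, fun h1 => hAU v h1 (hZ₁U hv),
        fun h1 => hBU v h1 (hZ₁U hv)⟩
      rw [Finset.mem_union]
      rintro (h1 | h1)
      · exact hn12 v hv h1
      · exact hS₂U v h1 (hZ₁U hv)
    · refine ⟨?_, fun h1 => hS₁U v hv (hZAU h1), fun h1 => hS₁U v hv (hZBU h1),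
        fun h1 => hAS₁ v h1 hv, fun h1 => hBS₁ v h1 hv⟩
      rw [Finset.mem_union]
      rintro (h1 | h1)
      · exact hS₁U v hv (hZ₂U h1)
      · exact hS₂₁ v h1 hv
  have hnet₂ : ∀ v, v ∈ Z₂ ∪ S₂ → v ∉ Z₁ ∪ S₁ ∧ v ∉ ZA ∧ v ∉ ZB ∧ v ∉ A ∧ v ∉ B := by
    intro v hv
    refine ⟨fun h1 => (hnet₁ v h1).1 hv, ?_⟩
    rw [Finset.mem_union] at hv
    rcases hv with hv | hv
    · exact ⟨hn2A v hv, hn2B v hv, fun h1 => hAU v h1 (hZ₂U hv),
        fun h1 => hBU v h1 (hZ₂U hv)⟩
    · exact ⟨fun h1 => hS₂U v hv (hZAU h1), fun h1 => hS₂U v hv (hZBU h1),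
        fun h1 => hAS₂ v h1 hv, fun h1 => hBS₂ v h1 hv⟩
  have hport₁ : ∀ v, v ∈ Z₁ ∪ S₁ → r₄ v = r₁ v := by
    intro v hv
    obtain ⟨h1, h2, h3, h4, h5⟩ := hnet₁ v hv
    rw [hr₄, hr₃, hr₂ v h1]
    · rintro ⟨p, hp⟩
      exact h2 (hp ▸ (eA p).2)
    · intro i hi
      exact h4 ((hmA v).2 ⟨i, hi⟩)
    · rintro ⟨p, hp⟩
      exact h3 (hp ▸ (eB p).2)
    · intro i hi
      exact h5 ((hmB v).2 ⟨i, hi⟩)
  have hport₂ : ∀ v, v ∈ Z₂ ∪ S₂ → r₄ v = r₂ v := by
    intro v hv
    obtain ⟨h1, h2, h3, h4, h5⟩ := hnet₂ v hv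
    rw [hr₄, hr₃]
    · rintro ⟨p, hp⟩
      exact h2 (hp ▸ (eA p).2)
    · intro i hi
      exact h4 ((hmA v).2 ⟨i, hi⟩)
    · rintro ⟨p, hp⟩
      exact h3 (hp ▸ (eB p).2)
    · intro i hi
      exact h5 ((hmB v).2 ⟨i, hi⟩)
  have hportA : ∀ v, v ∈ ZA ∨ v ∈ A → r₄ v = r₃ v := by
    intro v hv
    rw [hr₄]
    · rintro ⟨p, hp⟩
      rcases hv with hv | hv
      · exact hnAB v hv (hp ▸ (eB p).2)
      · exact hAU v hv (hZBU (hp ▸ (eB p).2))
    · intro i hi
      have h1 : v ∈ B := (hmB v).2 ⟨i, hi⟩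
      rcases hv with hv | hv
      · exact hBU v h1 (hZAU hv)
      · exact hBA v h1 hv
  set IU : Bool → ι → V := fun c => if c then I₁ else I₂ with hIU
  set OU : Bool → ι → V := fun c => if c then O₁ else O₂ with hOU
  have hU₁ : ∀ v, v ∈ Z₁ ∪ S₁ → v ∈ U ∪ S₁ ∪ S₂ ∪ A ∪ B := by
    intro v hv
    simp only [Finset.mem_union] at hv ⊢
    rcases hv with hv | hv
    · have := hZ₁U hv
      tauto
    · tauto
  have hU₂ : ∀ v, v ∈ Z₂ ∪ S₂ → v ∈ U ∪ S₁ ∪ S₂ ∪ A ∪ B := by
    intro v hv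
    simp only [Finset.mem_union] at hv ⊢
    rcases hv with hv | hv
    · have := hZ₂U hv
      tauto
    · tauto
  have hIUm : ∀ c i, IU c i ∈ Z₁ ∪ S₁ ∨ IU c i ∈ Z₂ ∪ S₂ := by
    intro c i
    cases c
    · exact Or.inr (hI₂m i)
    · exact Or.inl (hI₁m i)
  have hOUm : ∀ c i, OU c i ∈ Z₁ ∪ S₁ ∨ OU c i ∈ Z₂ ∪ S₂ := by
    intro c i
    cases c
    · exact Or.inr (hO₂m i)
    · exact Or.inl (hO₁m i)
  have hmem12 : ∀ v, v ∈ Z₁ ∪ S₁ ∨ v ∈ Z₂ ∪ S₂ →
      v ∈ U ∪ S₁ ∪ S₂ ∪ A ∪ B ∧ v ∉ ZA ∧ v ∉ ZB ∧ v ∉ A ∧ v ∉ B := by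
    intro v hv
    rcases hv with hv | hv
    · exact ⟨hU₁ v hv, (hnet₁ v hv).2⟩
    · exact ⟨hU₂ v hv, (hnet₂ v hv).2⟩
  have hIUinj : ∀ c i c' i', IU c i = IU c' i' → c = c' ∧ i = i' := by
    intro c i c' i' he
    cases c <;> cases c'
    · exact ⟨rfl, hI₂i he⟩
    · exfalso
      have h1 : I₂ i = I₁ i' := he
      exact (hnet₁ _ (hI₁m i')).1 (h1 ▸ hI₂m i)
    · exfalso
      have h1 : I₁ i = I₂ i' := he
      exact (hnet₁ _ (hI₁m i)).1 (h1 ▸ hI₂m i')
    · exact ⟨rfl, hI₁i he⟩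
  have hOUinj : ∀ c i c' i', OU c i = OU c' i' → c = c' ∧ i = i' := by
    intro c i c' i' he
    cases c <;> cases c'
    · exact ⟨rfl, hO₂i he⟩
    · exfalso
      have h1 : O₂ i = O₁ i' := he
      exact (hnet₁ _ (hO₁m i')).1 (h1 ▸ hO₂m i)
    · exfalso
      have h1 : O₁ i = O₂ i' := he
      exact (hnet₁ _ (hO₁m i)).1 (h1 ▸ hO₂m i')
    · exact ⟨rfl, hO₁i he⟩
  have hIOU : ∀ c i c' i', IU c i ≠ OU c' i' := by
    intro c i c' i' he
    cases c <;> cases c'
    · exact hIO₂ _ _ he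
    · have h1 : I₂ i = O₁ i' := he
      exact (hnet₁ _ (hO₁m i')).1 (h1 ▸ hI₂m i)
    · have h1 : I₁ i = O₂ i' := he
      exact (hnet₁ _ (hI₁m i)).1 (h1 ▸ hO₂m i')
    · exact hIO₁ _ _ he
  have hIUr : ∀ c i, 1 ≤ r₄ (IU c i) := by
    intro c i
    cases c
    · have h1 : IU false i = I₂ i := rfl
      rw [h1, hport₂ _ (hI₂m i)]
      exact hI₂r i
    · have h1 : IU true i = I₁ i := rfl
      rw [h1, hport₁ _ (hI₁m i)]
      exact hI₁r i
  have hOUr : ∀ c i, 1 ≤ r₄ (OU c i) := by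
    intro c i
    cases c
    · have h1 : OU false i = O₂ i := rfl
      rw [h1, hport₂ _ (hO₂m i)]
      exact hO₂r i
    · have h1 : OU true i = O₁ i := rfl
      rw [h1, hport₁ _ (hO₁m i)]
      exact hO₁r i
  have hbA12 : ∀ p c i, bA p ≠ IU c i ∧ bA p ≠ OU c i := by
    intro p c i
    constructor
    · intro he
      exact (hmem12 _ (hIUm c i)).2.2.2.1 (he ▸ hbAA p)
    · intro he
      exact (hmem12 _ (hOUm c i)).2.2.2.1 (he ▸ hbAA p)
  -- the links T₁
  obtain ⟨T₁, r₅, hT₁d, hT₁c, hT₁L, hs₅, hr₅⟩ := FPState.link_inj (κ := ι × Bool) hc hs₄ bA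
    (fun p => IU p.2 p.1) hq (by rw [hcardP]; omega)
    (fun p => Finset.mem_union_left _ (Finset.mem_union_right _ (hbAA p)))
    (fun p => (hmem12 _ (hIUm _ _)).1)
    (by
      rintro (p | ⟨i, c⟩) (p' | ⟨i', c'⟩) he
      · rw [hbAi he]
      · exact absurd he (hbA12 _ _ _).1
      · exact absurd he.symm (hbA12 _ _ _).1
      · obtain ⟨h1, h2⟩ := hIUinj _ _ _ _ he
        have h3 : c = c' := h1
        have h4 : i = i' := h2
        rw [h3, h4])
    (fun p => by
      rw [hportA _ (Or.inr (hbAA p))]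
      exact hbAr p)
    (fun p => hIUr _ _)
  have hT₁U : ∀ v, v ∈ T₁ → v ∉ U ∪ S₁ ∪ S₂ ∪ A ∪ B := fun v h1 h2 =>
    Finset.disjoint_left.1 hT₁d h1 h2
  have hcap₅ := hcapU (U ∪ S₁ ∪ S₂ ∪ A ∪ B) T₁
  rw [hcardP] at hT₁c
  have hr₅' : ∀ v, v ∈ U ∪ S₁ ∪ S₂ ∪ A ∪ B → v ∉ A → (∀ c i, IU c i ≠ v) → r₅ v = r₄ v := by
    intro v hv hvA hvI
    apply hr₅ v (fun h1 => hT₁U v h1 hv)
    · intro p hp
      exact hvA (hp ▸ hbAA p)
    · intro p
      exact hvI _ _
  -- the links T₂
  obtain ⟨T₂, r₆, hT₂d, hT₂c, hT₂L, hs₆, hr₆⟩ := FPState.link_inj (κ := ι × Bool) hc hs₅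
    (fun p => OU p.2 p.1) (fun p => (eB p : V)) hq (by rw [hcardP]; omega)
    (fun p => Finset.mem_union_left _ (hmem12 _ (hOUm _ _)).1)
    (fun p => by
      have := hZBU (eB p).2
      simp only [Finset.mem_union]
      tauto)
    (by
      rintro (⟨i, c⟩ | p) (⟨i', c'⟩ | p') he
      · obtain ⟨h1, h2⟩ := hOUinj _ _ _ _ he
        have h3 : c = c' := h1
        have h4 : i = i' := h2
        rw [h3, h4]
      · exfalso
        have h1 : OU c i = (eB p' : V) := he
        exact (hmem12 _ (hOUm c i)).2.2.1 (h1 ▸ (eB p').2)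
      · exfalso
        have h1 : (eB p : V) = OU c' i' := he
        exact (hmem12 _ (hOUm c' i')).2.2.1 (h1 ▸ (eB p).2)
      · rw [eB.injective (Subtype.ext he)])
    (fun p => by
      rw [hr₅' _ (hmem12 _ (hOUm _ _)).1 (hmem12 _ (hOUm _ _)).2.2.2.1
        (fun c i => hIOU _ _ _ _)]
      exact hOUr _ _)
    (fun p => by
      have h1 := hZBU (eB p).2
      rw [hr₅' _ (by simp only [Finset.mem_union]; tauto) (fun h2 => hAU _ h2 h1)
        (fun c i h2 => (hmem12 _ (hIUm c i)).2.2.1 (h2 ▸ (eB p).2))]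
      exact haBr p)
  have hT₂U : ∀ v, v ∈ T₂ → v ∉ U ∪ S₁ ∪ S₂ ∪ A ∪ B ∪ T₁ := fun v h1 h2 =>
    Finset.disjoint_left.1 hT₂d h1 h2
  rw [hcardP] at hT₂c
  have hr₆' : ∀ v, v ∈ U ∪ S₁ ∪ S₂ ∪ A ∪ B → v ∉ ZB → (∀ c i, OU c i ≠ v) → r₆ v = r₅ v := by
    intro v hv hvB hvO
    apply hr₆ v (fun h1 => hT₂U v h1 (Finset.mem_union_left _ hv))
    · intro p
      exact hvO _ _
    · intro p hp
      exact hvB (hp ▸ (eB p).2)
  -- assembly
  have hd₂ : Disjoint S₁ S₂ := by
    rw [Finset.disjoint_right]; exact fun v h1 => hS₂₁ v h1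
  have hdA : Disjoint (S₁ ∪ S₂) A := by
    rw [Finset.disjoint_right]
    intro v h1
    rw [Finset.mem_union]
    rintro (h2 | h2)
    · exact hAS₁ v h1 h2
    · exact hAS₂ v h1 h2
  have hdB : Disjoint (S₁ ∪ S₂ ∪ A) B := by
    rw [Finset.disjoint_right]
    intro v h1 h2
    apply hBd v h1
    simp only [Finset.mem_union] at h2 ⊢
    tauto
  have hd₁' : Disjoint (S₁ ∪ S₂ ∪ A ∪ B) T₁ := by
    rw [Finset.disjoint_right]
    intro v h1 h2
    apply hT₁U v h1
    simp only [Finset.mem_union] at h2 ⊢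
    tauto
  have hd₂' : Disjoint (S₁ ∪ S₂ ∪ A ∪ B ∪ T₁) T₂ := by
    rw [Finset.disjoint_right]
    intro v h1 h2
    apply hT₂U v h1
    simp only [Finset.mem_union] at h2 ⊢
    tauto
  set S := S₁ ∪ S₂ ∪ A ∪ B ∪ T₁ ∪ T₂ with hS
  have hSU : Disjoint S U := by
    rw [Finset.disjoint_left]
    intro v h1 h2
    simp only [hS, Finset.mem_union] at h1
    rcases h1 with ((((h1 | h1) | h1) | h1) | h1) | h1
    · exact hS₁U v h1 h2
    · exact hS₂U v h1 h2
    · exact hAU v h1 h2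
    · exact hBU v h1 h2
    · apply hT₁U v h1
      simp only [Finset.mem_union]
      tauto
    · apply hT₂U v h1
      simp only [Finset.mem_union]
      tauto
  have hSval : S.val = S₁.val + S₂.val + A.val + B.val + T₁.val + T₂.val := by
    rw [hS, nb_union_val hd₂', nb_union_val hd₁', nb_union_val hdB, nb_union_val hdA,
      nb_union_val hd₂]
  have hScard : S.card = wnet j q (k + 2) := by
    rw [Finset.card_def, hSval]
    simp only [Multiset.card_add, Finset.card_val]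
    rw [hS₁c, hS₂c, hAc, hBc, hT₁c, hT₂c, wnet]
    ring
  have hZval : Z.val = Z₁.val + Z₂.val + ZA.val + ZB.val := by
    rw [← hZZ, nb_union_val hZdB, nb_union_val hZdA, nb_union_val hZd₂]
  have hZS : Disjoint Z S := by
    rw [Finset.disjoint_left]
    intro v h1 h2
    exact Finset.disjoint_left.1 hSU h2 (hZU h1)
  have pairval : ∀ (e : ι × Bool → V) (T : ι → Finset V) (ZZ AA : Finset V),
      (∑ p, ({e p} : Multiset V) = ZZ.val) → (∑ i, (T i).val = AA.val) →
      (∀ p, e p ∈ U) → Function.Injective e → (∀ i v, v ∈ T i → v ∉ U) →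
      ∑ i, (({e (i, true), e (i, false)} ∪ T i : Finset V)).val = ZZ.val + AA.val := by
    intro e T ZZ AA h1 h2 h3 h4 h5
    rw [← h1, ← h2, Fintype.sum_prod_type, ← Finset.sum_add_distrib]
    apply Finset.sum_congr rfl
    intro i _
    rw [nb_union_val, Finset.insert_val_of_notMem, Finset.singleton_val, Fintype.sum_bool]
    · rfl
    · rw [Finset.mem_singleton]
      intro he
      have h6 := h4 he
      rw [Prod.mk.injEq] at h6
      exact absurd h6.2 (by decide)
    · rw [Finset.disjoint_left]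
      intro v hv hv'
      apply h5 i v hv'
      rcases Finset.mem_insert.1 hv with rfl | hv
      · exact h3 _
      · rw [Finset.mem_singleton] at hv
        rw [hv]
        exact h3 _
  have hvalA := pairval (fun p => (eA p : V)) TA ZA A (nb_sum_image eA)
    (nb_sum_biUnion hTAp) (fun p => hZAU (eA p).2)
    (fun p p' hp => eA.injective (Subtype.ext hp))
    (fun i v hv => hAU v ((hmA v).2 ⟨i, hv⟩))
  have hvalB := pairval (fun p => (eB p : V)) TB ZB B (nb_sum_image eB)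
    (nb_sum_biUnion hTBp) (fun p => hZBU (eB p).2)
    (fun p p' hp => eB.injective (Subtype.ext hp))
    (fun i v hv => hBU v ((hmB v).2 ⟨i, hv⟩))
  have hZS₁ : Disjoint Z₁ S₁ := by
    rw [Finset.disjoint_left]
    intro v h1 h2
    exact hS₁U v h2 (hZ₁U h1)
  have hZS₂ : Disjoint Z₂ S₂ := by
    rw [Finset.disjoint_left]
    intro v h1 h2
    exact hS₂U v h2 (hZ₂U h1)
  have hnet : Net G.Adj (Z ∪ S) (fun p => (eA p : V)) bB (nnet j q (k + 2)) := by
    have h1 := Net.step (adj := G.Adj) (SA := fun i => {(eA (i, true) : V), (eA (i, false) : V)} ∪ TA i)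
      (SB := fun i => {(eB (i, true) : V), (eB (i, false) : V)} ∪ TB i)
      (SU := fun c => if c then Z₁ ∪ S₁ else Z₂ ∪ S₂) (S := Z ∪ S)
      (IA := fun p => (eA p : V)) (OA := bA) (IB := fun p => (eB p : V)) (OB := bB)
      (IU := IU) (OU := OU) (nsw := 1 + (2 * j + 1) + j * q) (n := nnet j q (k + 1)) (q := q)
      hNA hNB (fun c => by
        cases c
        · exact hN₂
        · exact hN₁) hT₁L hT₂L (by
        rw [hvalA, hvalB, Fintype.sum_bool, if_pos rfl, if_neg (by decide), nb_union_val hZS₁,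
          nb_union_val hZS₂, nb_union_val hZS, hZval, hSval]
        abel)
    rw [nnet]
    exact h1
  have hAmem : ∀ p, (eA p : V) ∈ U ∪ S₁ ∪ S₂ ∪ A ∪ B := by
    intro p
    have := hZAU (eA p).2
    simp only [Finset.mem_union]
    tauto
  refine ⟨fun p => (eA p : V), bB, S, r₆, hSU, hScard, hnet,
    fun p p' hp => eA.injective (Subtype.ext hp), hbBi, ?_, ?_, ?_, ?_, ?_, ?_, ?_⟩
  · intro p p' he
    exact hBU _ (hbBB p') (he ▸ hZAU (eA p).2)
  · intro p
    apply Finset.mem_union_left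
    rw [← hZZ]
    simp only [Finset.mem_union]
    exact Or.inl (Or.inr (eA p).2)
  · intro p
    apply Finset.mem_union_right
    have := hbBB p
    simp only [hS, Finset.mem_union]
    tauto
  · intro p
    have h1 : r₆ (eA p : V) = r₅ (eA p : V) := by
      apply hr₆' _ (hAmem p) (hnAB _ (eA p).2)
      intro c i he
      exact (hmem12 _ (hOUm c i)).2.1 (he ▸ (eA p).2)
    have h2 : r₅ (eA p : V) = r₄ (eA p : V) := by
      apply hr₅' _ (hAmem p) (fun h3 => hAU _ h3 (hZAU (eA p).2))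
      intro c i he
      exact (hmem12 _ (hIUm c i)).2.1 (he ▸ (eA p).2)
    rw [h1, h2, hportA _ (Or.inl (eA p).2)]
    exact haAr p
  · intro p
    have h0 : bB p ∈ U ∪ S₁ ∪ S₂ ∪ A ∪ B := Finset.mem_union_right _ (hbBB p)
    have h1 : r₆ (bB p) = r₅ (bB p) := by
      apply hr₆' _ h0 (fun h3 => hBU _ (hbBB p) (hZBU h3))
      intro c i he
      exact (hmem12 _ (hOUm c i)).2.2.2.2 (he ▸ hbBB p)
    have h2 : r₅ (bB p) = r₄ (bB p) := by
      apply hr₅' _ h0 (hBA _ (hbBB p))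
      intro c i he
      exact (hmem12 _ (hIUm c i)).2.2.2.2 (he ▸ hbBB p)
    rw [h1, h2]
    exact hbBr p
  · intro v hv
    have hvZ : v ∉ Z₁ ∧ v ∉ Z₂ ∧ v ∉ ZA ∧ v ∉ ZB := by
      refine ⟨?_, ?_, ?_, ?_⟩ <;>
      · intro h1
        apply hv
        apply Finset.mem_union_left
        rw [← hZZ]
        simp only [Finset.mem_union]
        tauto
    have hvS : v ∉ S₁ ∧ v ∉ S₂ ∧ v ∉ A ∧ v ∉ B ∧ v ∉ T₁ ∧ v ∉ T₂ := by
      refine ⟨?_, ?_, ?_, ?_, ?_, ?_⟩ <;>
      · intro h1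
        apply hv
        apply Finset.mem_union_right
        simp only [hS, Finset.mem_union]
        tauto
    obtain ⟨z1, z2, z3, z4⟩ := hvZ
    obtain ⟨s1, s2, s3, s4, s5, s6⟩ := hvS
    have hn1 : v ∉ Z₁ ∪ S₁ := by rw [Finset.mem_union]; tauto
    have hn2 : v ∉ Z₂ ∪ S₂ := by rw [Finset.mem_union]; tauto
    have hIv : ∀ c i, IU c i ≠ v := by
      intro c i he
      rcases hIUm c i with h1 | h1
      · exact hn1 (he ▸ h1)
      · exact hn2 (he ▸ h1)
    have hOv : ∀ c i, OU c i ≠ v := by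
      intro c i he
      rcases hOUm c i with h1 | h1
      · exact hn1 (he ▸ h1)
      · exact hn2 (he ▸ h1)
    rw [hr₆ v s6 (fun p => hOv _ _) (fun p hp => z4 (hp ▸ (eB p).2)),
      hr₅ v s5 (fun p hp => s3 (hp ▸ hbAA p)) (fun p => hIv _ _), hr₄, hr₃, hr₂ v hn2,
      hr₁ v hn1]
    · rintro ⟨p, hp⟩
      exact z3 (hp ▸ (eA p).2)
    · intro i hi
      exact s3 ((hmA v).2 ⟨i, hi⟩)
    · rintro ⟨p, hp⟩
      exact z4 (hp ▸ (eB p).2)
    · intro i hi
      exact s4 ((hmB v).2 ⟨i, hi⟩)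
  · have h1 : U ∪ S = U ∪ S₁ ∪ S₂ ∪ A ∪ B ∪ T₁ ∪ T₂ := by
      rw [hS]
      simp only [← Finset.union_assoc]
    rw [h1]
    exact hs₆

theorem FPState.build_net {V : Type} [DecidableEq V] {G : SimpleGraph V} {W : Finset V}
    {m h K : ℕ} (hc : FPCtx G W m h K) {j q : ℕ} (hq : 2 * h + 2 ≤ q) (hj : h + 1 ≤ j)
    (κ : ℕ) (hκ : 1 ≤ κ) {ι : Type} [Fintype ι] [DecidableEq ι] (hι : Fintype.card ι = 2 ^ κ)
    {U : Finset V} {r : V → ℕ} (hs : FPState G W m U r) (Z : Finset V)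
    (hZ : Z.card = znet κ) (hZU : Z ⊆ U) (hZr : ∀ z ∈ Z, r z = 3)
    (hcap : (U ∩ W).card + wnet j q κ + 2 ^ (h + 2) ≤ K) :
    ∃ (I O : ι → V) (S : Finset V) (r' : V → ℕ),
      Disjoint S U ∧ S.card = wnet j q κ ∧ Net G.Adj (Z ∪ S) I O (nnet j q κ) ∧
      Function.Injective I ∧ Function.Injective O ∧ (∀ x y, I x ≠ O y) ∧
      (∀ x, I x ∈ Z ∪ S) ∧ (∀ x, O x ∈ Z ∪ S) ∧ (∀ x, 1 ≤ r' (I x)) ∧ (∀ x, 1 ≤ r' (O x)) ∧
      (∀ v, v ∉ Z ∪ S → r' v = r v) ∧ FPState G W m (U ∪ S) r' := by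
  have key : ∀ k : ℕ, NB G W m h K j q (k + 1) (Fin (2 ^ (k + 1))) := by
    intro k
    induction k with
    | zero =>
      exact (NB.base hc hq hj).reindex (Fintype.equivOfCardEq (by
        rw [Fintype.card_fin, Fintype.card_bool]; rfl))
    | succ k ih =>
      exact (NB.step hc hq hj (Fintype.card_fin _) ih).reindex (Fintype.equivOfCardEq (by
        rw [Fintype.card_fin, Fintype.card_prod, Fintype.card_fin, Fintype.card_bool]
        ring))
  obtain ⟨k, rfl⟩ : ∃ k, κ = k + 1 := ⟨κ - 1, by omega⟩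
  exact ((key k).reindex (Fintype.equivOfCardEq (by rw [hι, Fintype.card_fin])))
    U r hs Z hZ hZU hZr hcap

end Pool.Agent.HD
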