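import Mathlib

/-!
MP_134267_co, Theorem HD, row M9n (helper28): the numerical conditions of the layer steps follow
from the short list in `Params`.
-/

namespace Pool.Agent.HD

theorem numerics (n d T κ Q : ℕ) (lam : ℝ) (hlam0 : 0 ≤ lam) (hT : 1 ≤ T) (hκ : 1 ≤ κ)
    (hQ : 1 ≤ Q) (h2κ : (2 * κ + 1) * T ≤ n) (h4κ : n ≤ 4 * κ * T) (hTn : 1000 * T ≤ n)
    (hdn : d ≤ n) (hQ8 : 4 * ((n : ℝ) + 1) * n * n ≤ 8 ^ Q)
    (h3 : 4 * (n : ℝ) < Real.exp ((T : ℝ) ^ 3 / (100 * (n : ℝ) ^ 2)))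
    (hP : 10 ^ 9 * (Q : ℝ) * n ≤ d * T) (hlam : 30000 * lam ≤ d) :
    ((d : ℝ) * T / (60 * n) ≤ (d : ℝ) / (20 * (κ + 2))) ∧
    (16 * ((d : ℝ) / (κ + 1) + Q) ≤ 320 * (d * T / n) + 32 * Q) ∧
    (16 * (lam ^ 2 / (κ + 1) + Q * d) ≤ 320 * (lam ^ 2 * T / n) + 32 * (Q * d)) ∧
    (64 * ((320 * (lam ^ 2 * T / n) + 32 * (Q * d)) / (κ + 2) +
      Q * (320 * (d * T / n) + 32 * Q + T * ((d : ℝ) / n) ^ 2)) <
        ((d : ℝ) * T / (60 * n)) ^ 2) ∧
    (4 * ((n : ℝ) + 1) * (κ + 2) * n ≤ 8 ^ Q) ∧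
    (κ + 1 ≤ n) ∧
    (4 * (n : ℝ) * (κ + 2) < Real.exp ((d : ℝ) / 10 / (10 * (κ + 2)))) ∧
    (4 * ((κ : ℝ) + 2) < Real.exp ((κ * T : ℝ) / (4 * (κ + 2) ^ 3))) ∧
    (4 * ((n : ℝ) + 1) * n < Real.exp ((d : ℝ) * T / (200 * n))) ∧
    (4 * ((n : ℝ) + 1) * (4 + 1) < Real.exp ((d : ℝ) / (10 * (4 + 1)))) ∧
    (4 * ((4 : ℝ) + 1) < Real.exp ((n : ℝ) / (4 * (4 + 1) ^ 3))) := by
  -- real versions
  have hT' : (1 : ℝ) ≤ T := by exact_mod_cast hT
  have hκ' : (1 : ℝ) ≤ κ := by exact_mod_cast hκ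
  have hQ' : (1 : ℝ) ≤ Q := by exact_mod_cast hQ
  have h2 : (2 * (κ : ℝ) + 1) * T ≤ n := by exact_mod_cast h2κ
  have h4 : (n : ℝ) ≤ 4 * κ * T := by exact_mod_cast h4κ
  have hTn' : 1000 * (T : ℝ) ≤ n := by exact_mod_cast hTn
  have hdn' : (d : ℝ) ≤ n := by exact_mod_cast hdn
  have hd0 : (0 : ℝ) ≤ d := Nat.cast_nonneg d
  generalize hnn : (n : ℝ) = N at *
  generalize hTT : (T : ℝ) = t at *
  generalize hkk : (κ : ℝ) = k at *
  generalize hQQ : (Q : ℝ) = q at *
  generalize hDD : (d : ℝ) = D at *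
  have ht0 : 0 < t := by linarith
  have hN0 : 0 < N := by linarith
  have hk0 : 0 < k := by linarith
  have hq0 : 0 < q := by linarith
  -- (κ+2) T ≤ n, T ≥ 10^9 Q
  have hkt : (k + 2) * t ≤ N := by nlinarith
  have hkt' : (k + 2) * t ≤ 2 / 3 * N := by nlinarith
  have htq : 10 ^ 9 * q ≤ t := by
    have h1 : 10 ^ 9 * q * N ≤ t * N := by nlinarith
    exact le_of_mul_le_mul_right h1 hN0
  have hDN : 10 ^ 9 * q ≤ D * t / N := by
    rw [le_div_iff₀ hN0]; exact hP
  have hD12 : 10 ^ 12 * q ≤ D := by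
    have h1 : 10 ^ 9 * q * (1000 * t) ≤ D * t := by
      refine le_trans ?_ hP
      exact mul_le_mul_of_nonneg_left hTn' (by positivity)
    have h2 : 10 ^ 12 * q * t ≤ D * t := by nlinarith
    exact le_of_mul_le_mul_right h2 ht0
  have hk2N : k + 2 ≤ N := by nlinarith
  have hN12 : 10 ^ 12 ≤ N := by nlinarith
  -- 8 ^ Q < exp (x) as soon as 3 q < x
  have hexp : ∀ x : ℝ, 3 * q < x → (8 : ℝ) ^ Q < Real.exp x := by
    intro x hx
    have he : (8 : ℝ) ≤ Real.exp 3 := by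
      have h1 : (2 : ℝ) ≤ Real.exp 1 := by
        have := Real.add_one_le_exp (1 : ℝ)
        linarith
      have h2 : Real.exp 3 = Real.exp 1 ^ 3 := by
        rw [← Real.exp_nat_mul]; norm_num
      rw [h2]
      calc (8 : ℝ) = 2 ^ 3 := by norm_num
        _ ≤ Real.exp 1 ^ 3 := pow_le_pow_left₀ (by norm_num) h1 3
    calc (8 : ℝ) ^ Q ≤ Real.exp 3 ^ Q := pow_le_pow_left₀ (by norm_num) he Q
      _ = Real.exp (3 * q) := by
        rw [← Real.exp_nat_mul, hQQ, mul_comm]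
      _ < Real.exp x := Real.exp_lt_exp.mpr hx
  have hNN : N * 1 ≤ N * N := mul_le_mul_of_nonneg_left (by linarith) hN0.le
  have hN1 : 0 < N + 1 := by linarith
  refine ⟨?_, ?_, ?_, ?_, ?_, ?_, ?_, ?_, ?_, ?_, ?_⟩
  · rw [div_le_div_iff₀ (by positivity) (by positivity)]
    have : D * (t * (20 * (k + 2))) ≤ D * (60 * N) := by
      apply mul_le_mul_of_nonneg_left _ hd0
      nlinarith
    nlinarith
  · have h5 : D / (k + 1) ≤ 4 * (D * t / N) := by
      rw [← mul_div_assoc, div_le_div_iff₀ (by positivity) hN0]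
      have : D * N ≤ D * (4 * t * (k + 1)) := by
        apply mul_le_mul_of_nonneg_left _ hd0
        nlinarith
      nlinarith
    have h6 : 0 ≤ D * t / N := by positivity
    linarith
  · have h5 : lam ^ 2 / (k + 1) ≤ 4 * (lam ^ 2 * t / N) := by
      rw [← mul_div_assoc, div_le_div_iff₀ (by positivity) hN0]
      have : lam ^ 2 * N ≤ lam ^ 2 * (4 * t * (k + 1)) := by
        apply mul_le_mul_of_nonneg_left _ (sq_nonneg lam)
        nlinarith
      nlinarith
    have h6 : 0 ≤ lam ^ 2 * t / N := by positivity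
    have h7 : 0 ≤ q * D := by positivity
    linarith
  · -- the main inequality, in terms of p = t / N
    set p : ℝ := t / N with hp
    have hp0 : 0 < p := by positivity
    have e1 : lam ^ 2 * t / N = lam ^ 2 * p := by rw [hp]; ring
    have e2 : D * t / N = D * p := by rw [hp]; ring
    have e3 : t * (D / N) ^ 2 = D ^ 2 * p ^ 2 / t := by
      rw [hp]; field_simp
    have e4 : D * t / (60 * N) = D * p / 60 := by rw [hp]; field_simp
    rw [e1, e2, e3, e4]
    have hDp : 10 ^ 9 * q ≤ D * p := by rw [← e2]; exact hDN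
    have hkp : 1 / (k + 2) ≤ 4 * p := by
      rw [hp, ← mul_div_assoc, div_le_div_iff₀ (by positivity) hN0]
      nlinarith
    have h7 : 0 ≤ 320 * (lam ^ 2 * p) + 32 * (q * D) := by positivity
    have h8 : (320 * (lam ^ 2 * p) + 32 * (q * D)) / (k + 2) ≤
        (320 * (lam ^ 2 * p) + 32 * (q * D)) * (4 * p) := by
      calc (320 * (lam ^ 2 * p) + 32 * (q * D)) / (k + 2)
          = (320 * (lam ^ 2 * p) + 32 * (q * D)) * (1 / (k + 2)) := by ring
        _ ≤ _ := mul_le_mul_of_nonneg_left hkp h7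
    have h9 : lam ^ 2 * p ^ 2 ≤ D ^ 2 * p ^ 2 / (9 * 10 ^ 8) := by
      rw [le_div_iff₀ (by norm_num)]
      have h91 : (30000 * lam) ^ 2 ≤ D ^ 2 := pow_le_pow_left₀ (by positivity) hlam 2
      have h92 : (30000 * lam) ^ 2 * p ^ 2 ≤ D ^ 2 * p ^ 2 :=
        mul_le_mul_of_nonneg_right h91 (by positivity)
      nlinarith
    have hDp0 : 0 < D * p := by nlinarith
    have h10 : 10 ^ 9 * (q * (D * p)) ≤ (D * p) ^ 2 := by nlinarith
    have h11 : 10 ^ 18 * q ^ 2 ≤ (D * p) ^ 2 := by nlinarith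
    have h12 : q * (D ^ 2 * p ^ 2 / t) ≤ (D * p) ^ 2 / 10 ^ 9 := by
      rw [← mul_div_assoc, div_le_div_iff₀ ht0 (by norm_num)]
      have : (D * p) ^ 2 * (10 ^ 9 * q) ≤ (D * p) ^ 2 * t :=
        mul_le_mul_of_nonneg_left htq (by positivity)
      nlinarith
    have h13 : (320 * (lam ^ 2 * p) + 32 * (q * D)) * (4 * p) =
        1280 * (lam ^ 2 * p ^ 2) + 128 * (q * (D * p)) := by ring
    have h14 : q * (320 * (D * p) + 32 * q + D ^ 2 * p ^ 2 / t) =
        320 * (q * (D * p)) + 32 * q ^ 2 + q * (D ^ 2 * p ^ 2 / t) := by ring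
    have h15 : D ^ 2 * p ^ 2 = (D * p) ^ 2 := by ring
    rw [h13] at h8
    rw [h14]
    rw [h15] at h9
    have h16 : 0 < (D * p) ^ 2 := by positivity
    have h17 : (D * p / 60) ^ 2 = (D * p) ^ 2 / 3600 := by ring
    rw [h17]
    rw [h15] at h12 ⊢
    nlinarith
  · refine le_trans ?_ hQ8
    apply mul_le_mul_of_nonneg_right _ hN0.le
    apply mul_le_mul_of_nonneg_left hk2N (by positivity)
  · have : (κ : ℝ) + 1 ≤ (n : ℝ) := by rw [hkk, hnn]; linarith
    exact_mod_cast this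
  · refine lt_of_le_of_lt (le_trans ?_ hQ8) (hexp _ ?_)
    · have h1 : 4 * N * (k + 2) ≤ 4 * N * N := mul_le_mul_of_nonneg_left hk2N (by positivity)
      have h2 : 4 * N * N * 1 ≤ 4 * N * N * (N + 1) :=
        mul_le_mul_of_nonneg_left (by linarith) (by positivity)
      calc 4 * N * (k + 2) ≤ 4 * N * N * (N + 1) := by linarith
        _ = 4 * (N + 1) * N * N := by ring
    · have h1 : D * t / N ≤ D / (k + 2) := by
        rw [div_le_div_iff₀ hN0 (by positivity)]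
        have : D * ((k + 2) * t) ≤ D * N := mul_le_mul_of_nonneg_left hkt hd0
        nlinarith
      have h2 : D / 10 / (10 * (k + 2)) = D / (k + 2) / 100 := by
        field_simp; ring
      rw [h2]
      linarith
  · refine lt_of_le_of_lt ?_ (lt_of_lt_of_le h3 (Real.exp_le_exp.mpr ?_))
    · linarith
    · rw [div_le_div_iff₀ (by positivity) (by positivity)]
      have h1 : (k + 2) * t * ((k + 2) * t) ≤ N * N :=
        mul_le_mul hkt hkt (by positivity) hN0.le
      have h2 : (k + 2) * t * ((k + 2) * t) * (k + 2) ≤ N * N * (3 * k) :=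
        mul_le_mul h1 (by linarith) (by positivity) (by positivity)
      have h3' : (k + 2) * t * ((k + 2) * t) * (k + 2) * (4 * t) ≤ N * N * (3 * k) * (4 * t) :=
        mul_le_mul_of_nonneg_right h2 (by positivity)
      have h4' : 0 ≤ N * N * k * t := by positivity
      nlinarith
  · refine lt_of_le_of_lt (le_trans ?_ hQ8) (hexp _ ?_)
    · have : 4 * (N + 1) * N * 1 ≤ 4 * (N + 1) * N * N :=
        mul_le_mul_of_nonneg_left (by linarith) (by positivity)
      linarith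
    · have h2 : D * t / (200 * N) = D * t / N / 200 := by
        field_simp
      rw [h2]
      linarith
  · refine lt_of_le_of_lt (le_trans ?_ hQ8) (hexp _ ?_)
    · have h1 : 4 * (N + 1) * (4 + 1) ≤ 4 * (N + 1) * N :=
        mul_le_mul_of_nonneg_left (by linarith) (by positivity)
      have : 4 * (N + 1) * N * 1 ≤ 4 * (N + 1) * N * N :=
        mul_le_mul_of_nonneg_left (by linarith) (by positivity)
      linarith
    · have : D / (10 * (4 + 1)) = D / 50 := by norm_num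
      rw [this]
      linarith
  · have h1 := Real.add_one_le_exp (N / (4 * (4 + 1) ^ 3))
    have h2 : (10 : ℝ) ^ 12 / (4 * (4 + 1) ^ 3) ≤ N / (4 * (4 + 1) ^ 3) :=
      div_le_div_of_nonneg_right hN12 (by norm_num)
    norm_num at h1 h2 ⊢
    linarith

end Pool.Agent.HD
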