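import Pool.Agent.HD.Moment

/-!
MP_134267_co, Theorem HD, row M3: the partition lemma (helper38).
A random map `V → Fin (k + 1)` has small classes, splits many sets evenly, and the restrictions of
many matrices to the classes have small norms.
-/

set_option autoImplicit false

namespace Pool.Agent.HD

open Finset

/-- exponential moments of the size of a class of a random map, counting form -/
theorem part_moment {V : Type} [Fintype V] [DecidableEq V] (S : Finset V) (K : ℕ) (i : Fin K)
    (y : ℝ) :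
    ∑ f : V → Fin K, y ^ (S.filter (fun v => f v = i)).card =
      (K : ℝ) ^ Fintype.card V * (1 + (y - 1) / K) ^ S.card := by
  have hK0 : (K : ℝ) ≠ 0 := by
    have : 0 < K := lt_of_le_of_lt (Nat.zero_le _) i.isLt
    positivity
  have h1 : ∀ f : V → Fin K, y ^ (S.filter (fun v => f v = i)).card
      = ∏ v, (if v ∈ S ∧ f v = i then y else 1) := by
    intro f
    rw [Finset.prod_ite, Finset.prod_const, Finset.prod_const_one, mul_one]
    congr 2
    ext v
    simp
  have h2 : ∑ f : V → Fin K, ∏ v, (if v ∈ S ∧ f v = i then y else 1)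
      = ∏ v, ∑ j : Fin K, (if v ∈ S ∧ j = i then y else 1) := by
    rw [Finset.prod_univ_sum, Fintype.piFinset_univ]
  have h3 : ∀ v : V, ∑ j : Fin K, (if v ∈ S ∧ j = i then y else 1)
      = K * (if v ∈ S then 1 + (y - 1) / K else 1) := by
    intro v
    by_cases hv : v ∈ S
    · have e : ∀ j : Fin K, (if v ∈ S ∧ j = i then y else (1 : ℝ))
          = 1 + (if j = i then y - 1 else 0) := by
        intro j
        by_cases hj : j = i <;> simp [hv, hj]
      rw [Finset.sum_congr rfl (fun j _ => e j), Finset.sum_add_distrib, Finset.sum_const,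
        Finset.card_univ, Fintype.card_fin, Finset.sum_ite_eq', if_pos (Finset.mem_univ _),
        if_pos hv, nsmul_eq_mul]
      field_simp
    · have e : ∀ j : Fin K, (if v ∈ S ∧ j = i then y else (1 : ℝ)) = 1 := by
        intro j
        simp [hv]
      rw [Finset.sum_congr rfl (fun j _ => e j), Finset.sum_const, Finset.card_univ,
        Fintype.card_fin, if_neg hv, nsmul_eq_mul]
  rw [Finset.sum_congr rfl (fun f _ => h1 f), h2, Finset.prod_congr rfl (fun v _ => h3 v),
    Finset.prod_mul_distrib, Finset.prod_const, Finset.card_univ, Finset.prod_ite,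
    Finset.prod_const_one, mul_one, Finset.prod_const]
  congr 3
  ext v
  simp

theorem part_moment_le {V : Type} [Fintype V] [DecidableEq V] (S : Finset V) (K : ℕ) (i : Fin K)
    {y : ℝ} (hy : 0 ≤ y) :
    ∑ f : V → Fin K, y ^ (S.filter (fun v => f v = i)).card ≤
      (K : ℝ) ^ Fintype.card V * Real.exp ((y - 1) * S.card / K) := by
  have hK1 : 1 ≤ K := lt_of_le_of_lt (Nat.zero_le _) i.isLt
  have hK : (1 : ℝ) ≤ K := by exact_mod_cast hK1
  rw [part_moment]
  refine mul_le_mul_of_nonneg_left ?_ (by positivity)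
  have h1 : 0 ≤ 1 + (y - 1) / K := by
    have : -1 ≤ (y - 1) / K := by
      rw [le_div_iff₀ (by linarith)]
      linarith
    linarith
  have h2 : 1 + (y - 1) / K ≤ Real.exp ((y - 1) / K) := by
    have := Real.add_one_le_exp ((y - 1) / K)
    linarith
  calc (1 + (y - 1) / K) ^ S.card ≤ Real.exp ((y - 1) / K) ^ S.card :=
        pow_le_pow_left₀ h1 h2 _
    _ = Real.exp ((y - 1) * S.card / K) := by
        rw [← Real.exp_nat_mul]
        congr 1
        ring

/-- lower tail -/
theorem part_lower {V : Type} [Fintype V] [DecidableEq V] (S : Finset V) (K : ℕ) (i : Fin K) :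
    ((univ.filter (fun f : V → Fin K =>
      2 * K * (S.filter (fun v => f v = i)).card < S.card)).card : ℝ) ≤
      (K : ℝ) ^ Fintype.card V * Real.exp (-(S.card / (10 * K))) := by
  have hK1 : 1 ≤ K := lt_of_le_of_lt (Nat.zero_le _) i.isLt
  have hK : (1 : ℝ) ≤ K := by exact_mod_cast hK1
  have hm := part_moment_le S K i (show (0 : ℝ) ≤ 1 / 2 by norm_num)
  have hl := Real.log_two_lt_d9
  have hl0 := Real.log_two_gt_d9
  set n : ℝ := (S.card : ℝ) with hn
  have hn0 : 0 ≤ n := by positivity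
  have key : ((univ.filter (fun f : V → Fin K =>
      2 * K * (S.filter (fun v => f v = i)).card < S.card)).card : ℝ) *
        Real.exp (-(Real.log 2 * (n / (2 * K)))) ≤
      ∑ f : V → Fin K, (1 / 2 : ℝ) ^ (S.filter (fun v => f v = i)).card := by
    rw [← nsmul_eq_mul, ← Finset.sum_const]
    refine (Finset.sum_le_sum ?_).trans (Finset.sum_le_sum_of_subset_of_nonneg
      (Finset.filter_subset _ _) (fun f _ _ => by positivity))
    intro f hf
    rw [Finset.mem_filter] at hf
    have h1 : 2 * (K : ℝ) * (S.filter (fun v => f v = i)).card < n := by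
      rw [hn]
      exact_mod_cast hf.2
    have h2 : (((S.filter (fun v => f v = i)).card : ℕ) : ℝ) ≤ n / (2 * K) := by
      rw [le_div_iff₀ (by positivity)]
      linarith
    have h3 : (1 / 2 : ℝ) ^ (S.filter (fun v => f v = i)).card
        = Real.exp (-(Real.log 2 * (S.filter (fun v => f v = i)).card)) := by
      rw [one_div, inv_pow, Real.exp_neg, mul_comm, Real.exp_nat_mul,
        Real.exp_log (by norm_num)]
    rw [h3]
    refine Real.exp_le_exp.2 (neg_le_neg ?_)
    exact mul_le_mul_of_nonneg_left h2 (by linarith)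
  have h4 := key.trans hm
  have hexp : (K : ℝ) ^ Fintype.card V * Real.exp ((1 / 2 - 1) * n / K)
      ≤ ((K : ℝ) ^ Fintype.card V * Real.exp (-(n / (10 * K)))) *
        Real.exp (-(Real.log 2 * (n / (2 * K)))) := by
    rw [mul_assoc, ← Real.exp_add]
    refine mul_le_mul_of_nonneg_left (Real.exp_le_exp.2 ?_) (by positivity)
    have e1 : (1 / 2 - 1) * n / K = -(1 / 2) * (n / K) := by ring
    have e2 : -(n / (10 * K)) + -(Real.log 2 * (n / (2 * K)))
        = -(1 / 10 + Real.log 2 / 2) * (n / K) := by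
      field_simp
      ring
    rw [e1, e2]
    have h0 : 0 ≤ n / K := by positivity
    nlinarith
  exact le_of_mul_le_mul_right (h4.trans hexp) (Real.exp_pos _)

/-- upper tail -/
theorem part_upper {V : Type} [Fintype V] [DecidableEq V] (S : Finset V) (k : ℕ) (hk : 1 ≤ k)
    (i : Fin (k + 1)) :
    ((univ.filter (fun f : V → Fin (k + 1) =>
      S.card < k * (S.filter (fun v => f v = i)).card)).card : ℝ) ≤
      ((k + 1 : ℕ) : ℝ) ^ Fintype.card V * Real.exp (-(S.card / (4 * (k + 1) ^ 3))) := by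
  have hk1 : (1 : ℝ) ≤ k := by exact_mod_cast hk
  have hy : (0 : ℝ) ≤ 1 + 1 / k := by positivity
  have hm := part_moment_le S (k + 1) i hy
  set n : ℝ := (S.card : ℝ) with hn
  have hn0 : 0 ≤ n := by positivity
  have hlog : 2 / (2 * (k : ℝ) + 1) ≤ Real.log (1 + 1 / k) := by
    have := Real.le_log_one_add_of_nonneg (x := 1 / (k : ℝ)) (by positivity)
    refine le_trans (le_of_eq ?_) this
    field_simp
    ring
  have hlog0 : 0 ≤ Real.log (1 + 1 / k) := le_trans (by positivity) hlog
  have key : ((univ.filter (fun f : V → Fin (k + 1) =>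
      S.card < k * (S.filter (fun v => f v = i)).card)).card : ℝ) *
        Real.exp (Real.log (1 + 1 / k) * (n / k)) ≤
      ∑ f : V → Fin (k + 1), (1 + 1 / k : ℝ) ^ (S.filter (fun v => f v = i)).card := by
    rw [← nsmul_eq_mul, ← Finset.sum_const]
    refine (Finset.sum_le_sum ?_).trans (Finset.sum_le_sum_of_subset_of_nonneg
      (Finset.filter_subset _ _) (fun f _ _ => by positivity))
    intro f hf
    rw [Finset.mem_filter] at hf
    have h1 : n < (k : ℝ) * (S.filter (fun v => f v = i)).card := by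
      rw [hn]
      exact_mod_cast hf.2
    have h2 : n / k ≤ (((S.filter (fun v => f v = i)).card : ℕ) : ℝ) := by
      rw [div_le_iff₀ (by positivity)]
      linarith
    have h3 : (1 + 1 / k : ℝ) ^ (S.filter (fun v => f v = i)).card
        = Real.exp (Real.log (1 + 1 / k) * (S.filter (fun v => f v = i)).card) := by
      rw [mul_comm, Real.exp_nat_mul, Real.exp_log (by positivity)]
    rw [h3]
    exact Real.exp_le_exp.2 (mul_le_mul_of_nonneg_left h2 hlog0)
  have h4 := key.trans hm
  have hexp : ((k + 1 : ℕ) : ℝ) ^ Fintype.card V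
        * Real.exp ((1 + 1 / k - 1) * n / ((k + 1 : ℕ) : ℝ))
      ≤ (((k + 1 : ℕ) : ℝ) ^ Fintype.card V * Real.exp (-(n / (4 * (k + 1) ^ 3)))) *
        Real.exp (Real.log (1 + 1 / k) * (n / k)) := by
    rw [mul_assoc, ← Real.exp_add]
    refine mul_le_mul_of_nonneg_left (Real.exp_le_exp.2 ?_) (by positivity)
    have h5 := mul_le_mul_of_nonneg_right hlog (show 0 ≤ n / k by positivity)
    have e1 : (1 + 1 / k - 1) * n / ((k + 1 : ℕ) : ℝ) = n * (1 / (k * (k + 1))) := by
      push_cast
      field_simp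
      ring
    have e2 : 2 / (2 * (k : ℝ) + 1) * (n / k) = n * (2 / ((2 * k + 1) * k)) := by
      field_simp
    have e3 : -(n / (4 * ((k : ℝ) + 1) ^ 3)) = -(n * (1 / (4 * (k + 1) ^ 3))) := by ring
    have e4 : 1 / ((k : ℝ) * (k + 1)) + 1 / (4 * (k + 1) ^ 3) ≤ 2 / ((2 * k + 1) * k) := by
      rw [div_add_div _ _ (by positivity) (by positivity), div_le_div_iff₀ (by positivity)
        (by positivity)]
      have h6 : (0 : ℝ) ≤ k := by positivity
      nlinarith [pow_nonneg h6 2, pow_nonneg h6 3, pow_nonneg h6 4, pow_nonneg h6 5]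
    have h7 := mul_le_mul_of_nonneg_left e4 hn0
    rw [e1, e3]
    rw [e2] at h5
    linarith
  exact le_of_mul_le_mul_right (h4.trans hexp) (Real.exp_pos _)

/-- the norm events of the partition lemma -/
theorem part_norm {V : Type} [Fintype V] [DecidableEq V] (R : Finset V) (K : ℕ) (i : Fin K)
    (Q : ℕ) (hQ : 1 ≤ Q) (W : V → V → ℝ) (Λ d : ℝ) (hd0 : 0 ≤ d) (hΛ0 : 0 ≤ Λ)
    (hΛ : ∀ x : V → ℝ, ∑ v ∈ R, (∑ c, W v c * x c) ^ 2 ≤ Λ * ∑ c, x c ^ 2)
    (hd : ∀ v ∈ R, ∑ c, W v c ^ 2 ≤ d) :
    ∃ E : Finset (V → Fin K), 8 ^ Q * (E.card : ℝ) ≤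
      (Fintype.card V : ℝ) * (K : ℝ) ^ Fintype.card V ∧
      ∀ f ∉ E, ∀ x : V → ℝ, ∑ v ∈ R.filter (fun v => f v = i), (∑ c, W v c * x c) ^ 2 ≤
        8 * (Λ / K + Q * d) * ∑ c, x c ^ 2 := by
  classical
  have hK1 : 1 ≤ K := lt_of_le_of_lt (Nat.zero_le _) i.isLt
  have hs : ∀ (s : Finset V) (x : V → ℝ),
      ∑ v ∈ s, (∑ c, (if v ∈ R then W v c else 0) * x c) ^ 2
        = ∑ v ∈ s.filter (fun v => v ∈ R), (∑ c, W v c * x c) ^ 2 := by
    intro s x
    rw [Finset.sum_filter]
    refine Finset.sum_congr rfl fun v _ => ?_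
    by_cases hv : v ∈ R <;> simp [hv]
  have h := moment_tail (α := V) (C := V) (fun v c => if v ∈ R then W v c else 0) K hK1 i Λ d
    hd0 hΛ0 (fun x => by
      rw [hs]
      have e : univ.filter (fun v => v ∈ R) = R := by
        ext v
        simp
      rw [e]
      exact hΛ x) (fun v => by
      by_cases hv : v ∈ R
      · simp only [if_pos hv]
        exact hd v hv
      · simp only [if_neg hv]
        simpa using hd0) Q hQ
  refine ⟨_, h, fun f hf x => ?_⟩
  rw [Finset.mem_filter, not_and] at hf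
  have hf2 := hf (Finset.mem_univ _)
  rw [not_exists] at hf2
  have hf3 := not_lt.1 (hf2 x)
  rw [hs] at hf3
  have e : (univ.filter (fun v => f v = i)).filter (fun v => v ∈ R)
      = R.filter (fun v => f v = i) := by
    ext v
    simp [and_comm]
  rw [e] at hf3
  exact hf3

/-- **The partition lemma** (`k` proper classes and one spare class). -/
theorem partition_lemma {V : Type} [Fintype V] [DecidableEq V] (R : Finset V) (k : ℕ)
    (hk : 1 ≤ k) (Q : ℕ) (hQ : 1 ≤ Q)
    {A : Type} [Fintype A] (W : A → V → V → ℝ) (Λ d : A → ℝ) (hd0 : ∀ a, 0 ≤ d a)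
    (hΛ0 : ∀ a, 0 ≤ Λ a)
    (hΛ : ∀ a (x : V → ℝ), ∑ v ∈ R, (∑ c, W a v c * x c) ^ 2 ≤ Λ a * ∑ c, x c ^ 2)
    (hd : ∀ a, ∀ v ∈ R, ∑ c, W a v c ^ 2 ≤ d a)
    {B : Type} [Fintype B] (D : B → Finset V) (hD : ∀ b, D b ⊆ R) (Dmin : ℝ)
    (hDc : ∀ b, Dmin ≤ ((D b).card : ℝ))
    (h1 : 4 * (Fintype.card A : ℝ) * (k + 1) * Fintype.card V ≤ 8 ^ Q)
    (h2 : 4 * (Fintype.card B : ℝ) * (k + 1) < Real.exp (Dmin / (10 * (k + 1))))
    (h3 : 4 * ((k : ℝ) + 1) < Real.exp (R.card / (4 * (k + 1) ^ 3))) :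
    ∃ f : V → Fin (k + 1),
      (∀ i, k * (R.filter (fun v => f v = i)).card ≤ R.card) ∧
      (∀ b i, (D b).card ≤ 2 * (k + 1) * ((D b).filter (fun v => f v = i)).card) ∧
      (∀ a i (x : V → ℝ), ∑ v ∈ R.filter (fun v => f v = i), (∑ c, W a v c * x c) ^ 2 ≤
        8 * (Λ a / (k + 1) + Q * d a) * ∑ c, x c ^ 2) := by
  classical
  set N : ℝ := ((k + 1 : ℕ) : ℝ) ^ Fintype.card V with hN
  have hN0 : 0 < N := by positivity
  choose E3 hE3 hE3' using fun (a : A) (i : Fin (k + 1)) =>
    part_norm R (k + 1) i Q hQ (W a) (Λ a) (d a) (hd0 a) (hΛ0 a) (hΛ a) (hd a)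
  set E1 : Fin (k + 1) → Finset (V → Fin (k + 1)) := fun i => univ.filter (fun f =>
    R.card < k * (R.filter (fun v => f v = i)).card) with hE1
  set E2 : B → Fin (k + 1) → Finset (V → Fin (k + 1)) := fun b i => univ.filter (fun f =>
    2 * (k + 1) * ((D b).filter (fun v => f v = i)).card < (D b).card) with hE2
  -- sizes
  have c1 : ((univ.biUnion E1).card : ℝ) < N / 4 := by
    have h4 : ((univ.biUnion E1).card : ℝ) ≤ ∑ i, ((E1 i).card : ℝ) := by
      exact_mod_cast Finset.card_biUnion_le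
    have h5 : ∑ i, ((E1 i).card : ℝ) ≤ ∑ _i : Fin (k + 1),
        N * Real.exp (-(R.card / (4 * (k + 1) ^ 3))) :=
      Finset.sum_le_sum fun i _ => part_upper R k hk i
    rw [Finset.sum_const, Finset.card_univ, Fintype.card_fin, nsmul_eq_mul] at h5
    rw [Real.exp_neg] at h5
    set X := Real.exp (R.card / (4 * ((k : ℝ) + 1) ^ 3)) with hX
    have hX0 : 0 < X := Real.exp_pos _
    have h6 : ((k + 1 : ℕ) : ℝ) * (N * X⁻¹) < N / 4 := by
      have : ((k + 1 : ℕ) : ℝ) * (N * X⁻¹) = N * ((k + 1) / X) := by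
        push_cast
        field_simp
      rw [this]
      have h7 : ((k : ℝ) + 1) / X < 1 / 4 := by
        rw [div_lt_div_iff₀ hX0 (by norm_num)]
        linarith
      nlinarith
    linarith
  have c2 : ((univ.biUnion fun p : B × Fin (k + 1) => E2 p.1 p.2).card : ℝ) ≤ N / 4 := by
    have h4 : ((univ.biUnion fun p : B × Fin (k + 1) => E2 p.1 p.2).card : ℝ)
        ≤ ∑ p : B × Fin (k + 1), ((E2 p.1 p.2).card : ℝ) := by
      exact_mod_cast Finset.card_biUnion_le
    have h5 : ∑ p : B × Fin (k + 1), ((E2 p.1 p.2).card : ℝ) ≤ ∑ _p : B × Fin (k + 1),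
        N * Real.exp (-(Dmin / (10 * (k + 1)))) := by
      refine Finset.sum_le_sum fun p _ => ?_
      have h6 := part_lower (D p.1) (k + 1) p.2
      have h7 : Real.exp (-((D p.1).card / (10 * ((k + 1 : ℕ) : ℝ))))
          ≤ Real.exp (-(Dmin / (10 * (k + 1)))) := by
        refine Real.exp_le_exp.2 (neg_le_neg ?_)
        push_cast
        exact div_le_div_of_nonneg_right (hDc p.1) (by positivity)
      exact h6.trans (mul_le_mul_of_nonneg_left h7 hN0.le)
    rw [Finset.sum_const, Finset.card_univ, Fintype.card_prod, Fintype.card_fin,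
      nsmul_eq_mul] at h5
    rw [Real.exp_neg] at h5
    set X := Real.exp (Dmin / (10 * ((k : ℝ) + 1))) with hX
    have hX0 : 0 < X := Real.exp_pos _
    have h6 : ((Fintype.card B * (k + 1) : ℕ) : ℝ) * (N * X⁻¹) ≤ N / 4 := by
      have : ((Fintype.card B * (k + 1) : ℕ) : ℝ) * (N * X⁻¹)
          = N * ((Fintype.card B : ℝ) * (k + 1) / X) := by
        push_cast
        field_simp
      rw [this]
      have h7 : (Fintype.card B : ℝ) * (k + 1) / X ≤ 1 / 4 := by
        rw [div_le_div_iff₀ hX0 (by norm_num)]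
        linarith
      nlinarith
    linarith
  have c3 : ((univ.biUnion fun p : A × Fin (k + 1) => E3 p.1 p.2).card : ℝ) ≤ N / 4 := by
    have h4 : ((univ.biUnion fun p : A × Fin (k + 1) => E3 p.1 p.2).card : ℝ)
        ≤ ∑ p : A × Fin (k + 1), ((E3 p.1 p.2).card : ℝ) := by
      exact_mod_cast Finset.card_biUnion_le
    have h5 : 8 ^ Q * ∑ p : A × Fin (k + 1), ((E3 p.1 p.2).card : ℝ)
        ≤ ∑ _p : A × Fin (k + 1), (Fintype.card V : ℝ) * N := by
      rw [Finset.mul_sum]
      exact Finset.sum_le_sum fun p _ => hE3 p.1 p.2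
    rw [Finset.sum_const, Finset.card_univ, Fintype.card_prod, Fintype.card_fin,
      nsmul_eq_mul] at h5
    have h6 : (0 : ℝ) < 8 ^ Q := by positivity
    have h7 : ((Fintype.card A * (k + 1) : ℕ) : ℝ) * ((Fintype.card V : ℝ) * N)
        ≤ 8 ^ Q * (N / 4) := by
      push_cast
      nlinarith
    have h8 := h5.trans h7
    exact h4.trans (le_of_mul_le_mul_left h8 h6)
  -- a good map
  set U := univ.biUnion E1 ∪ (univ.biUnion fun p : B × Fin (k + 1) => E2 p.1 p.2) ∪
    univ.biUnion fun p : A × Fin (k + 1) => E3 p.1 p.2 with hU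
  have cU : (U.card : ℝ) < Fintype.card (V → Fin (k + 1)) := by
    have h4 : (U.card : ℝ) ≤ (univ.biUnion E1).card
        + (univ.biUnion fun p : B × Fin (k + 1) => E2 p.1 p.2).card
        + (univ.biUnion fun p : A × Fin (k + 1) => E3 p.1 p.2).card := by
      exact_mod_cast (Finset.card_union_le _ _).trans
        (Nat.add_le_add_right (Finset.card_union_le _ _) _)
    rw [Fintype.card_fun, Fintype.card_fin]
    push_cast
    push_cast at hN
    rw [← hN]
    linarith
  obtain ⟨f, hf⟩ : ∃ f, f ∉ U := by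
    by_contra hn
    push Not at hn
    have : U = univ := Finset.eq_univ_iff_forall.2 hn
    rw [this, Finset.card_univ] at cU
    exact lt_irrefl _ cU
  rw [hU, Finset.mem_union, Finset.mem_union, not_or, not_or] at hf
  obtain ⟨⟨f1, f2⟩, f3⟩ := hf
  rw [Finset.mem_biUnion] at f1 f2 f3
  refine ⟨f, fun i => ?_, fun b i => ?_, fun a i x => ?_⟩
  · by_contra hn
    rw [not_le] at hn
    exact f1 ⟨i, Finset.mem_univ _, Finset.mem_filter.2 ⟨Finset.mem_univ _, hn⟩⟩
  · by_contra hn
    rw [not_le] at hn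
    exact f2 ⟨(b, i), Finset.mem_univ _, Finset.mem_filter.2 ⟨Finset.mem_univ _, hn⟩⟩
  · have h4 : f ∉ E3 a i := fun h => f3 ⟨(a, i), Finset.mem_univ _, h⟩
    have h5 := hE3' a i f h4 x
    push_cast at h5
    exact h5

end Pool.Agent.HD
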