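import Pool.Agent.HD.Spec
import Pool.Agent.HD.Partition

/-!
MP_134267_co, Theorem HD, row M9b: two sets of pads with exactly `T` elements (helper88).
-/

set_option autoImplicit false

namespace Pool.Agent.HD

open Finset

/-- the rows of `A - d/n` have square norm at most `d` -/
theorem pads_row {V : Type} [Fintype V] [DecidableEq V] (G : SimpleGraph V) [DecidableRel G.Adj]
    {d : ℕ} (u : V) (hreg : (G.neighborFinset u).card = d) :
    ∑ c, ((if G.Adj u c then (1 : ℝ) else 0) - (d : ℝ) / Fintype.card V) ^ 2 ≤ d := by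
  have hn : (0 : ℝ) < Fintype.card V := by
    exact_mod_cast Fintype.card_pos_iff.2 ⟨u⟩
  have e1 : ∑ c, (if G.Adj u c then (1 : ℝ) else 0) = d := by
    rw [Finset.sum_ite, Finset.sum_const, Finset.sum_const_zero, add_zero, nsmul_eq_mul, mul_one]
    rw [← hreg]
    congr 2
    ext v
    simp
  have e2 : ∀ c, ((if G.Adj u c then (1 : ℝ) else 0) - (d : ℝ) / Fintype.card V) ^ 2
      = (if G.Adj u c then (1 : ℝ) else 0) * (1 - 2 * ((d : ℝ) / Fintype.card V))
        + ((d : ℝ) / Fintype.card V) ^ 2 := by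
    intro c
    split_ifs <;> ring
  rw [Finset.sum_congr rfl (fun c _ => e2 c), Finset.sum_add_distrib, ← Finset.sum_mul, e1,
    Finset.sum_const, Finset.card_univ, nsmul_eq_mul]
  have e3 : (d : ℝ) * (1 - 2 * ((d : ℝ) / Fintype.card V))
      + (Fintype.card V : ℝ) * ((d : ℝ) / Fintype.card V) ^ 2 = d - (d : ℝ) ^ 2 / Fintype.card V := by
    field_simp
    ring
  rw [e3]
  have : 0 ≤ (d : ℝ) ^ 2 / Fintype.card V := by positivity
  linarith

/-- one set of pads -/
theorem pads_one {V : Type} [Fintype V] [DecidableEq V] (G : SimpleGraph V) [DecidableRel G.Adj]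
    {d : ℕ} {lam : ℝ} (V₂ : Finset V)
    (hdeg : ∀ v, d ≤ 10 * (G.neighborFinset v ∩ V₂).card) (hV : Fintype.card V ≤ 10 * V₂.card)
    (T Q k : ℕ) (hT : 1 ≤ T) (hk1 : V₂.card ≤ k * T) (hk2 : 100 * (T * (k + 1)) ≤ 102 * V₂.card)
    (hn : 0 < Fintype.card V)
    (f : V → Fin (k + 1))
    (f1 : ∀ i, k * (V₂.filter (fun v => f v = i)).card ≤ V₂.card) (hk : 1 ≤ k)
    (f2 : ∀ v i, (G.neighborFinset v ∩ V₂).card ≤
      2 * (k + 1) * ((G.neighborFinset v ∩ V₂).filter (fun v => f v = i)).card)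
    (f2' : ∀ i, V₂.card ≤ 2 * (k + 1) * (V₂.filter (fun v => f v = i)).card)
    (f3 : ∀ v i, (((G.neighborFinset v ∩ V₂).filter (fun v => f v = i)).card : ℝ) ≤
      8 * (d / (k + 1) + Q))
    (f4 : ∀ i (x : V → ℝ), ∑ u ∈ V₂.filter (fun v => f v = i),
      (∑ v, ((if G.Adj u v then (1 : ℝ) else 0) - (d : ℝ) / Fintype.card V) * x v) ^ 2 ≤
        8 * (lam ^ 2 / (k + 1) + Q * d) * ∑ v, x v ^ 2)
    (i₀ : Fin (k + 1)) (s : Finset (Fin (k + 1))) (hi : i₀ ∈ s) (hs : s.card = 4) :
    ∃ A : Finset V, A ⊆ V₂ ∧ (∀ v ∈ A, f v ∈ s) ∧ A.card = T ∧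
      (∀ v, (d : ℝ) * T / (60 * Fintype.card V) ≤ ((G.neighborFinset v ∩ A).card : ℝ)) ∧
      (∀ v, ((G.neighborFinset v ∩ A).card : ℝ) ≤ 320 * (d * T / Fintype.card V) + 32 * Q) ∧
      (∀ x : V → ℝ, ∑ u ∈ A,
        (∑ v, ((if G.Adj u v then (1 : ℝ) else 0) - (d : ℝ) / Fintype.card V) * x v) ^ 2 ≤
          (320 * (lam ^ 2 * T / Fintype.card V) + 32 * (Q * d)) * ∑ v, x v ^ 2) := by
  classical
  have hn' : (0 : ℝ) < Fintype.card V := by exact_mod_cast hn
  have hk' : (0 : ℝ) < (k : ℝ) + 1 := by positivity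
  have hun : V₂.filter (fun v => f v ∈ s) = s.biUnion (fun i => V₂.filter (fun v => f v = i)) := by
    ext v
    simp only [Finset.mem_filter, Finset.mem_biUnion]
    constructor
    · rintro ⟨h1, h2⟩
      exact ⟨f v, h2, h1, rfl⟩
    · rintro ⟨i, h1, h2, h3⟩
      exact ⟨h2, h3 ▸ h1⟩
  have hdis : ∀ (X : Finset V), (X.filter (fun v => f v ∈ s)).card
      = ∑ i ∈ s, (X.filter (fun v => f v = i)).card := by
    intro X
    rw [Finset.card_eq_sum_card_fiberwise (f := f) (t := s) (fun v hv => by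
      simpa using (Finset.mem_filter.1 hv).2)]
    refine Finset.sum_congr rfl fun i hi' => ?_
    congr 1
    ext v
    simp only [Finset.mem_filter]
    constructor
    · rintro ⟨⟨h1, h2⟩, h3⟩
      exact ⟨h1, h3⟩
    · rintro ⟨h1, h2⟩
      exact ⟨⟨h1, h2 ▸ hi'⟩, h2⟩
  -- sizes
  have c1 : (V₂.filter (fun v => f v = i₀)).card ≤ T := by
    have := (f1 i₀).trans hk1
    exact Nat.le_of_mul_le_mul_left this (by omega)
  have c2 : T ≤ (V₂.filter (fun v => f v ∈ s)).card := by
    rw [hdis]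
    have h5 : 4 * V₂.card ≤ 2 * (k + 1) * ∑ i ∈ s, (V₂.filter (fun v => f v = i)).card := by
      rw [Finset.mul_sum]
      calc 4 * V₂.card = ∑ _i ∈ s, V₂.card := by rw [Finset.sum_const, hs, smul_eq_mul]
        _ ≤ _ := Finset.sum_le_sum fun i _ => f2' i
    by_contra hlt
    rw [not_le] at hlt
    set S := ∑ i ∈ s, (V₂.filter (fun v => f v = i)).card with hS
    have h6 : (k + 1) * S ≤ (k + 1) * T := Nat.mul_le_mul_left _ hlt.le
    have h7 : 2 * (k + 1) * S = 2 * ((k + 1) * S) := by ring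
    have h8 : T * (k + 1) = (k + 1) * T := by ring
    have h9 : 0 < V₂.card := by omega
    omega
  obtain ⟨A, hA1, hA2, hA3⟩ := Finset.exists_subsuperset_card_eq
    (s := V₂.filter (fun v => f v = i₀)) (t := V₂.filter (fun v => f v ∈ s)) (n := T)
    (fun v hv => by
      rw [Finset.mem_filter] at hv ⊢
      exact ⟨hv.1, hv.2 ▸ hi⟩) c1 c2
  have hAV : A ⊆ V₂ := hA2.trans (Finset.filter_subset _ _)
  have hAs : ∀ v ∈ A, f v ∈ s := fun v hv => (Finset.mem_filter.1 (hA2 hv)).2
  -- real inequalities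
  have r1 : (1 : ℝ) / (k + 1) ≤ 10 * (T / Fintype.card V) := by
    rw [div_le_iff₀ hk', mul_assoc, div_mul_eq_mul_div, mul_div_assoc', le_div_iff₀ hn', one_mul]
    have h5 : Fintype.card V ≤ 10 * (T * (k + 1)) := by
      have : k * T ≤ T * (k + 1) := by nlinarith
      omega
    exact_mod_cast h5
  have r2 : (T : ℝ) / (3 * Fintype.card V) ≤ 1 / (k + 1) := by
    rw [div_le_div_iff₀ (by positivity) hk']
    have h5 : T * (k + 1) ≤ 1 * (3 * Fintype.card V) := by
      have : V₂.card ≤ Fintype.card V := Finset.card_le_univ _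
      omega
    exact_mod_cast h5
  refine ⟨A, hAV, hAs, hA3, fun v => ?_, fun v => ?_, fun x => ?_⟩
  · have h5 : ((G.neighborFinset v ∩ V₂).filter (fun v => f v = i₀)).card
        ≤ (G.neighborFinset v ∩ A).card := by
      refine Finset.card_le_card fun w hw => ?_
      rw [Finset.mem_filter, Finset.mem_inter] at hw
      rw [Finset.mem_inter]
      exact ⟨hw.1.1, hA1 (Finset.mem_filter.2 ⟨hw.1.2, hw.2⟩)⟩
    have h6 : d ≤ 20 * ((k + 1) * (G.neighborFinset v ∩ A).card) := by
      have h7 := hdeg v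
      have h8 := f2 v i₀
      have h9 : (k + 1) * ((G.neighborFinset v ∩ V₂).filter (fun v => f v = i₀)).card
        ≤ (k + 1) * (G.neighborFinset v ∩ A).card := Nat.mul_le_mul_left _ h5
      have h10 : 2 * (k + 1) * ((G.neighborFinset v ∩ V₂).filter (fun v => f v = i₀)).card
        = 2 * ((k + 1) * ((G.neighborFinset v ∩ V₂).filter (fun v => f v = i₀)).card) := by ring
      omega
    have h7 : (d : ℝ) ≤ 20 * ((k + 1) * (G.neighborFinset v ∩ A).card) := by exact_mod_cast h6
    have h8 : (d : ℝ) * (1 / (k + 1)) ≤ 20 * (G.neighborFinset v ∩ A).card := by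
      rw [mul_one_div, div_le_iff₀ hk']
      linarith
    have h9 : (d : ℝ) * (T / (3 * Fintype.card V)) ≤ d * (1 / (k + 1)) :=
      mul_le_mul_of_nonneg_left r2 (by positivity)
    have h10 : (d : ℝ) * T / (60 * Fintype.card V) = (d * (T / (3 * Fintype.card V))) / 20 := by
      field_simp
      ring
    rw [h10, div_le_iff₀ (by norm_num)]
    linarith
  · have h5 : (G.neighborFinset v ∩ A).card
        ≤ ∑ i ∈ s, ((G.neighborFinset v ∩ V₂).filter (fun v => f v = i)).card := by
      rw [← hdis]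
      refine Finset.card_le_card fun w hw => ?_
      rw [Finset.mem_inter] at hw
      rw [Finset.mem_filter, Finset.mem_inter]
      exact ⟨⟨hw.1, hAV hw.2⟩, hAs w hw.2⟩
    have h6 : ((G.neighborFinset v ∩ A).card : ℝ)
        ≤ ∑ i ∈ s, (((G.neighborFinset v ∩ V₂).filter (fun v => f v = i)).card : ℝ) := by
      exact_mod_cast h5
    have h7 : ∑ i ∈ s, (((G.neighborFinset v ∩ V₂).filter (fun v => f v = i)).card : ℝ)
        ≤ ∑ _i ∈ s, (8 * ((d : ℝ) / (k + 1) + Q)) := Finset.sum_le_sum fun i _ => f3 v i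
    rw [Finset.sum_const, hs, nsmul_eq_mul] at h7
    have h8 : (d : ℝ) * (1 / (k + 1)) ≤ d * (10 * (T / Fintype.card V)) :=
      mul_le_mul_of_nonneg_left r1 (by positivity)
    have h9 : (d : ℝ) / (k + 1) = d * (1 / (k + 1)) := by ring
    have h10 : (d : ℝ) * (10 * (T / Fintype.card V)) = 10 * (d * T / Fintype.card V) := by ring
    rw [h9] at h7
    push_cast at h7
    linarith
  · have h5 : ∑ u ∈ A, (∑ v, ((if G.Adj u v then (1 : ℝ) else 0) - (d : ℝ) / Fintype.card V)
          * x v) ^ 2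
        ≤ ∑ i ∈ s, ∑ u ∈ V₂.filter (fun v => f v = i),
          (∑ v, ((if G.Adj u v then (1 : ℝ) else 0) - (d : ℝ) / Fintype.card V) * x v) ^ 2 := by
      rw [← Finset.sum_biUnion (fun i _ j _ hij => by
        rw [Function.onFun, Finset.disjoint_left]
        intro v hv hv'
        exact hij (((Finset.mem_filter.1 hv).2).symm.trans (Finset.mem_filter.1 hv').2)), ← hun]
      exact Finset.sum_le_sum_of_subset_of_nonneg hA2 (fun u _ _ => sq_nonneg _)
    refine h5.trans ?_
    refine (Finset.sum_le_sum fun i _ => f4 i x).trans ?_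
    rw [Finset.sum_const, hs, nsmul_eq_mul]
    have hx : 0 ≤ ∑ v, x v ^ 2 := Finset.sum_nonneg fun _ _ => sq_nonneg _
    rw [← mul_assoc]
    refine mul_le_mul_of_nonneg_right ?_ hx
    have h8 : lam ^ 2 * (1 / (k + 1)) ≤ lam ^ 2 * (10 * (T / Fintype.card V)) :=
      mul_le_mul_of_nonneg_left r1 (by positivity)
    have h9 : lam ^ 2 / (k + 1) = lam ^ 2 * (1 / (k + 1)) := by ring
    have h10 : lam ^ 2 * (10 * (T / Fintype.card V)) = 10 * (lam ^ 2 * T / Fintype.card V) := by
      ring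
    rw [h9]
    push_cast
    linarith

/-- **Row M9b** -/
theorem pads {V : Type} [Fintype V] [DecidableEq V] (G : SimpleGraph V) [DecidableRel G.Adj]
    {d : ℕ} {lam : ℝ} (h : IsNDL G d lam) (V₂ : Finset V)
    (hdeg : ∀ v, d ≤ 10 * (G.neighborFinset v ∩ V₂).card) (hV : Fintype.card V ≤ 10 * V₂.card)
    (T Q : ℕ) (hT : 1 ≤ T) (hTn : 1000 * T ≤ Fintype.card V) (hQ : 1 ≤ Q)
    (h1 : 4 * ((Fintype.card V : ℝ) + 1) * Fintype.card V * Fintype.card V ≤ 8 ^ Q)
    (h2 : 4 * ((Fintype.card V : ℝ) + 1) * Fintype.card V <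
      Real.exp ((d : ℝ) * T / (200 * Fintype.card V)))
    (h3 : 4 * (Fintype.card V : ℝ) <
      Real.exp ((T : ℝ) ^ 3 / (100 * (Fintype.card V : ℝ) ^ 2))) :
    ∃ A₀ A₁ : Finset V, A₀ ⊆ V₂ ∧ A₁ ⊆ V₂ ∧ Disjoint A₀ A₁ ∧ A₀.card = T ∧ A₁.card = T ∧
      (∀ v, (d : ℝ) * T / (60 * Fintype.card V) ≤ ((G.neighborFinset v ∩ A₀).card : ℝ)) ∧
      (∀ v, (d : ℝ) * T / (60 * Fintype.card V) ≤ ((G.neighborFinset v ∩ A₁).card : ℝ)) ∧
      (∀ v, ((G.neighborFinset v ∩ A₀).card : ℝ) ≤ 320 * (d * T / Fintype.card V) + 32 * Q) ∧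
      (∀ v, ((G.neighborFinset v ∩ A₁).card : ℝ) ≤ 320 * (d * T / Fintype.card V) + 32 * Q) ∧
      (∀ x : V → ℝ, ∑ u ∈ A₀,
        (∑ v, ((if G.Adj u v then (1 : ℝ) else 0) - (d : ℝ) / Fintype.card V) * x v) ^ 2 ≤
          (320 * (lam ^ 2 * T / Fintype.card V) + 32 * (Q * d)) * ∑ v, x v ^ 2) ∧
      (∀ x : V → ℝ, ∑ u ∈ A₁,
        (∑ v, ((if G.Adj u v then (1 : ℝ) else 0) - (d : ℝ) / Fintype.card V) * x v) ^ 2 ≤
          (320 * (lam ^ 2 * T / Fintype.card V) + 32 * (Q * d)) * ∑ v, x v ^ 2) := by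
  classical
  set n := Fintype.card V with hn
  have hn1 : 1000 ≤ n := by omega
  have hn0 : (0 : ℝ) < n := by exact_mod_cast (by omega : 0 < n)
  have hV2 : V₂.card ≤ n := Finset.card_le_univ _
  -- `T ≥ 2`
  have hT2 : 2 ≤ T := by
    by_contra hlt
    have hT1 : T = 1 := by omega
    rw [hT1] at h3
    have h4 : ((1 : ℕ) : ℝ) ^ 3 / (100 * (n : ℝ) ^ 2) ≤ 1 := by
      rw [div_le_one (by positivity)]
      have : (1000 : ℝ) ≤ n := by exact_mod_cast hn1
      push_cast
      nlinarith
    have h5 := h3.trans_le (Real.exp_le_exp.2 h4)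
    have h6 := Real.exp_one_lt_d9
    have : (1000 : ℝ) ≤ n := by exact_mod_cast hn1
    linarith
  -- the number of classes
  obtain ⟨k, hk1, hk2⟩ : ∃ k : ℕ, V₂.card ≤ k * T ∧ k * T < V₂.card + T := by
    refine ⟨(V₂.card + T - 1) / T, ?_, ?_⟩
    · have h4 := Nat.div_add_mod (V₂.card + T - 1) T
      have h5 := Nat.mod_lt (V₂.card + T - 1) (show 0 < T by omega)
      rw [mul_comm] at h4
      omega
    · have h4 := Nat.div_mul_le_self (V₂.card + T - 1) T
      omega
  have hk : 8 ≤ k := by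
    by_contra hlt
    have : k * T ≤ 7 * T := Nat.mul_le_mul_right _ (by omega)
    omega
  have hkT : T * (k + 1) = k * T + T := by ring
  have hkk : 100 * (T * (k + 1)) ≤ 102 * V₂.card := by omega
  have hkn : k + 1 ≤ n := by
    have h4 : 2 * (k + 1) ≤ T * (k + 1) := Nat.mul_le_mul_right _ hT2
    omega
  have hk0 : (0 : ℝ) < (k : ℝ) + 1 := by positivity
  have hkn' : (k : ℝ) + 1 ≤ n := by exact_mod_cast hkn
  have hreg := h.reg
  have hdn : d ≤ n := by
    have : Nonempty V := Fintype.card_pos_iff.1 (by omega)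
    obtain ⟨v⟩ := this
    rw [← hreg v]
    exact Finset.card_le_univ _
  -- the partition
  obtain ⟨f, f1, f2, f3⟩ := partition_lemma V₂ k (by omega) Q hQ
    (A := Option V)
    (fun a u c => match a with
      | none => (if G.Adj u c then (1 : ℝ) else 0) - (d : ℝ) / n
      | some w => if c = w then (if G.Adj u w then (1 : ℝ) else 0) else 0)
    (fun a => match a with
      | none => lam ^ 2
      | some _ => d)
    (fun a => match a with
      | none => d
      | some _ => 1)
    (fun a => by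
      rcases a with _ | w
      · exact Nat.cast_nonneg _
      · exact zero_le_one)
    (fun a => by
      rcases a with _ | w
      · exact sq_nonneg _
      · exact Nat.cast_nonneg _)
    (fun a x => by
      rcases a with _ | w
      · exact (Finset.sum_le_sum_of_subset_of_nonneg (Finset.subset_univ _)
          (fun u _ _ => sq_nonneg _)).trans (ndl_norm G h x)
      · simp only [ite_mul, zero_mul, Finset.sum_ite_eq', Finset.mem_univ, if_true]
        have h4 : ∀ u, ((if G.Adj u w then (1 : ℝ) else 0) * x w) ^ 2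
            = (if G.Adj u w then (1 : ℝ) else 0) * x w ^ 2 := by
          intro u
          split_ifs <;> ring
        have h5 : ∑ u ∈ V₂, ((if G.Adj u w then (1 : ℝ) else 0) * x w) ^ 2
            ≤ ∑ u, (if G.Adj u w then (1 : ℝ) else 0) * x w ^ 2 := by
          rw [Finset.sum_congr rfl (fun u _ => h4 u)]
          exact Finset.sum_le_sum_of_subset_of_nonneg (Finset.subset_univ _)
            (fun u _ _ => by split_ifs <;> positivity)
        have h6 : ∑ u, (if G.Adj u w then (1 : ℝ) else 0) = d := by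
          rw [Finset.sum_ite, Finset.sum_const, Finset.sum_const_zero, add_zero, nsmul_eq_mul,
            mul_one, ← hreg w]
          congr 2
          ext v
          simp [G.adj_comm]
        rw [← Finset.sum_mul, h6] at h5
        have h7 : x w ^ 2 ≤ ∑ c, x c ^ 2 :=
          Finset.single_le_sum (f := fun c => x c ^ 2) (fun c _ => sq_nonneg _)
            (Finset.mem_univ w)
        have h8 := mul_le_mul_of_nonneg_left h7 (show (0 : ℝ) ≤ d by positivity)
        simp only [ite_mul, one_mul, zero_mul] at h5 ⊢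
        exact h5.trans h8)
    (fun a u _ => by
      rcases a with _ | w
      · exact pads_row G u (hreg u)
      · have h4 : ∀ c, (if c = w then (if G.Adj u w then (1 : ℝ) else 0) else 0) ^ 2
            = if c = w then (if G.Adj u w then (1 : ℝ) else 0) else 0 := by
          intro c
          split_ifs <;> ring
        simp only [h4, Finset.sum_ite_eq', Finset.mem_univ, if_true]
        split_ifs <;> norm_num)
    (B := Option V)
    (fun b => match b with
      | none => V₂
      | some v => G.neighborFinset v ∩ V₂)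
    (fun b => by
      rcases b with _ | v
      · exact Finset.Subset.refl _
      · exact Finset.inter_subset_right)
    ((d : ℝ) / 10)
    (fun b => by
      rcases b with _ | v
      · rw [div_le_iff₀ (by norm_num)]
        have : d ≤ V₂.card * 10 := by omega
        exact_mod_cast this
      · rw [div_le_iff₀ (by norm_num)]
        have : d ≤ (G.neighborFinset v ∩ V₂).card * 10 := by
          have := hdeg v
          omega
        exact_mod_cast this)
    (by
      rw [Fintype.card_option]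
      push_cast
      rw [← hn]
      refine le_trans ?_ h1
      gcongr)
    (by
      rw [Fintype.card_option]
      push_cast
      rw [← hn]
      have h4 : 4 * ((n : ℝ) + 1) * (k + 1) ≤ 4 * (n + 1) * n := by gcongr
      refine h4.trans_lt (h2.trans_le (Real.exp_le_exp.2 ?_))
      rw [div_div, div_le_div_iff₀ (by positivity) (by positivity)]
      have h5 : (T : ℝ) * (k + 1) ≤ 2 * n := by
        have : T * (k + 1) ≤ 2 * n := by omega
        exact_mod_cast this
      have h6 := mul_le_mul_of_nonneg_left h5 (show (0 : ℝ) ≤ 100 * d by positivity)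
      linarith)
    (by
      have h4 : 4 * ((k : ℝ) + 1) ≤ 4 * n := by linarith
      refine h4.trans_lt (h3.trans_le (Real.exp_le_exp.2 ?_))
      rw [div_le_div_iff₀ (by positivity) (by positivity)]
      have h5 : (T : ℝ) * (k + 1) ≤ 2 * V₂.card := by
        have : T * (k + 1) ≤ 2 * V₂.card := by omega
        exact_mod_cast this
      have h6 : ((T : ℝ) * (k + 1)) ^ 3 ≤ (2 * V₂.card) ^ 3 :=
        pow_le_pow_left₀ (by positivity) h5 3
      have h7 : ((V₂.card : ℕ) : ℝ) ≤ n := by exact_mod_cast hV2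
      have h8 : ((V₂.card : ℕ) : ℝ) ^ 2 ≤ (n : ℝ) ^ 2 :=
        pow_le_pow_left₀ (by positivity) h7 2
      have h9 : (T : ℝ) ^ 3 * (4 * ((k : ℝ) + 1) ^ 3) = 4 * ((T : ℝ) * (k + 1)) ^ 3 := by ring
      rw [h9]
      have h10 := mul_le_mul_of_nonneg_left h8 (show (0 : ℝ) ≤ 32 * V₂.card by positivity)
      have h11 : (0 : ℝ) ≤ V₂.card * (n : ℝ) ^ 2 := by positivity
      nlinarith)
  -- the two sets
  have g3 : ∀ v i, (((G.neighborFinset v ∩ V₂).filter (fun v => f v = i)).card : ℝ) ≤
      8 * (d / (k + 1) + Q) := by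
    intro v i
    have h4 := f3 (some v) i (fun c => if c = v then 1 else 0)
    simp only [ite_mul, zero_mul, Finset.sum_ite_eq', Finset.mem_univ, if_true, mul_one, ite_pow,
      one_pow, ne_eq, OfNat.ofNat_ne_zero, not_false_eq_true, zero_pow] at h4
    have h5 : ∑ u ∈ V₂.filter (fun u => f u = i), (if G.Adj u v then (1 : ℝ) else 0)
        = (((G.neighborFinset v ∩ V₂).filter (fun v => f v = i)).card : ℝ) := by
      rw [Finset.sum_ite, Finset.sum_const, Finset.sum_const_zero, add_zero, nsmul_eq_mul, mul_one]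
      congr 2
      ext w
      simp only [Finset.mem_filter, Finset.mem_inter, SimpleGraph.mem_neighborFinset,
        G.adj_comm v w]
      tauto
    rw [h5] at h4
    exact h4
  have hlt : ∀ s : Finset ℕ, (∀ j ∈ s, j < 8) → ∀ j ∈ s, j < k + 1 := by
    intro s hs j hj
    have := hs j hj
    omega
  obtain ⟨A₀, a1, a2, a3, a4, a5, a6⟩ := pads_one G (lam := lam) V₂ hdeg hV T Q k hT hk1 hkk
    (by omega) f f1 (by omega) (fun v i => f2 (some v) i) (fun i => f2 none i) g3
    (fun i x => f3 none i x) ⟨0, by omega⟩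
    (Finset.attachFin {0, 2, 3, 4} (hlt _ (by decide))) (by simp [Finset.mem_attachFin]) (by
      rw [Finset.card_attachFin]
      rfl)
  obtain ⟨A₁, b1, b2, b3, b4, b5, b6⟩ := pads_one G (lam := lam) V₂ hdeg hV T Q k hT hk1 hkk
    (by omega) f f1 (by omega) (fun v i => f2 (some v) i) (fun i => f2 none i) g3
    (fun i x => f3 none i x) ⟨1, by omega⟩
    (Finset.attachFin {1, 5, 6, 7} (hlt _ (by decide))) (by simp [Finset.mem_attachFin]) (by
      rw [Finset.card_attachFin]
      rfl)
  refine ⟨A₀, A₁, a1, b1, ?_, a3, b3, a4, b4, a5, b5, a6, b6⟩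
  rw [Finset.disjoint_left]
  intro v hv hv'
  have h4 := a2 v hv
  have h5 := b2 v hv'
  simp only [Finset.mem_attachFin, Finset.mem_insert, Finset.mem_singleton] at h4 h5
  omega

end Pool.Agent.HD
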