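import Pool.Agent.HD.Defs
import Pool.Agent.HD.Final

/-!
MP_134267_co, Theorem HD (helper33): the list of all numerical requirements.
-/

namespace Pool.Agent.HD

open Finset

/-- all the numerical requirements of the construction: `n` vertices, degree `d`, `t` branch
vertices, `2^κn` tokens, Friedman-Pippenger sets of `m` vertices and trees of depth `hh`, `2κ+1`
layers, `g r` segments and a first link with `qf r` interior vertices for the pair `r` -/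
structure Params (n d t : ℕ) (lam : ℝ) (κn m hh κ Q K l : ℕ) (g qf : Pr t → ℕ) : Prop where
  ht : 2 ≤ t
  hκn : 1 ≤ κn
  hm1 : 1 ≤ m
  hm2 : n ≤ 400 * m
  hm3 : 200 * m ≤ n
  hmh : m ≤ 2 ^ hh
  hκ : 1 ≤ κ
  hκ4 : n ≤ 4 * κ * 2 ^ κn
  hg : ∀ r, 1 ≤ g r
  hgT : ∑ r, g r = 2 ^ κn
  hqf : ∀ r, 2 * hh + 2 ≤ qf r
  hl : ∀ r, l ≤ qf r + g r * (2 * κ + 3 + 2 * (2 * hh + 2) + nnet (hh + 1) (2 * hh + 2) κn) ∧
    qf r + g r * (2 * κ + 3 + 2 * (2 * hh + 2) + nnet (hh + 1) (2 * hh + 2) κn) ≤ l + 1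
  hcount : n = t + 2 * Fintype.card (Pr t) +
    2 ^ κn * (2 * κ + 3 + 2 * (2 * hh + 2) + nnet (hh + 1) (2 * hh + 2) κn) + ∑ r, qf r
  hcap : wnet (hh + 1) (2 * hh + 2) κn + 2 * 2 ^ κn * (2 * hh + 2) + ∑ r, qf r +
    2 ^ (hh + 2) ≤ K
  hK : 20 * K ≤ n
  hst : 40 * t ≤ d
  hst2 : 1000 * t ^ 2 ≤ n
  hseed : 10 * (t + t ^ 2 + znet κn) ≤ n
  hTn : 1000 * 2 ^ κn ≤ n
  hQ : 1 ≤ Q
  hQ8 : 4 * ((n : ℝ) + 1) * n * n ≤ 8 ^ Q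
  hT3 : 4 * (n : ℝ) < Real.exp (((2 : ℝ) ^ κn) ^ 3 / (100 * (n : ℝ) ^ 2))
  hP : 10 ^ 9 * (Q : ℝ) * n ≤ d * 2 ^ κn
  hlam : 30000 * lam ≤ d

end Pool.Agent.HD
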