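import Pool.Agent.HD.Defs

/-! MP_134267_co, Theorem HD, row M7 (helper52): disjoint stars found greedily. -/

namespace Pool.Agent.HD

open Finset

private theorem stars_step {V : Type} [Fintype V] [DecidableEq V] (G : SimpleGraph V)
    [DecidableRel G.Adj] (d : ℕ) (hreg : ∀ v, (G.neighborFinset v).card = d) (V₀ : Finset V)
    (hdeg : ∀ v, d ≤ 10 * (G.neighborFinset v ∩ V₀).card) (t : ℕ) (ht : 40 * t ≤ d)
    (ht1 : 1 ≤ t) (hsz : 100 * t ^ 2 ≤ V₀.card) (U : Finset V) (hU : U.card ≤ t ^ 2) :
    ∃ x ∈ V₀ \ U, t ≤ ((G.neighborFinset x ∩ V₀) \ U).card := by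
  by_contra hcon
  push Not at hcon
  have h1 : ∀ x ∈ V₀ \ U, 3 * d ≤ 40 * (G.neighborFinset x ∩ U).card := by
    intro x hx
    have h2 := hcon x hx
    have h3 := hdeg x
    have h4 : (G.neighborFinset x ∩ V₀).card ≤
        ((G.neighborFinset x ∩ V₀) \ U).card + (G.neighborFinset x ∩ U).card := by
      rw [← Finset.card_sdiff_add_card_inter (G.neighborFinset x ∩ V₀) U]
      have : ((G.neighborFinset x ∩ V₀) ∩ U).card ≤ (G.neighborFinset x ∩ U).card := by
        apply Finset.card_le_card
        intro y hy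
        simp only [Finset.mem_inter] at hy ⊢
        exact ⟨hy.1.1, hy.2⟩
      omega
    omega
  have h5 : ∑ x ∈ V₀ \ U, 3 * d ≤ ∑ x ∈ V₀ \ U, 40 * (G.neighborFinset x ∩ U).card :=
    Finset.sum_le_sum h1
  have h6 : ∑ x ∈ V₀ \ U, (G.neighborFinset x ∩ U).card ≤ d * U.card := by
    calc ∑ x ∈ V₀ \ U, (G.neighborFinset x ∩ U).card
        ≤ ∑ x : V, (G.neighborFinset x ∩ U).card :=
          Finset.sum_le_sum_of_subset (Finset.subset_univ _)
      _ = ∑ x : V, ∑ u ∈ U, (if G.Adj x u then 1 else 0) := by
          apply Finset.sum_congr rfl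
          intro x _
          rw [← Finset.sum_filter, Finset.sum_const, smul_eq_mul, mul_one]
          congr 1
          ext u
          simp only [Finset.mem_inter, SimpleGraph.mem_neighborFinset, Finset.mem_filter]
          exact and_comm
      _ = ∑ u ∈ U, ∑ x : V, (if G.Adj x u then 1 else 0) := Finset.sum_comm
      _ = ∑ u ∈ U, d := by
          apply Finset.sum_congr rfl
          intro u _
          rw [← Finset.sum_filter, Finset.sum_const, smul_eq_mul, mul_one, ← hreg u]
          congr 1
          ext x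
          simp only [Finset.mem_filter, Finset.mem_univ, true_and, SimpleGraph.mem_neighborFinset]
          exact G.adj_comm x u
      _ = d * U.card := by rw [Finset.sum_const, smul_eq_mul, mul_comm]
  rw [Finset.sum_const, smul_eq_mul, ← Finset.mul_sum] at h5
  have h7 : V₀.card ≤ (V₀ \ U).card + U.card := by
    have := Finset.card_sdiff_add_card_inter V₀ U
    have h8 : (V₀ ∩ U).card ≤ U.card := Finset.card_le_card Finset.inter_subset_right
    omega
  have hd : 0 < d := by omega
  have h9 : (V₀ \ U).card * 3 ≤ 40 * U.card := by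
    have : d * ((V₀ \ U).card * 3) ≤ d * (40 * U.card) := by nlinarith
    exact Nat.le_of_mul_le_mul_left this hd
  have h10 : 1 ≤ t ^ 2 := Nat.one_le_pow _ _ ht1
  omega

private theorem stars_aux {V : Type} [Fintype V] [DecidableEq V] (G : SimpleGraph V)
    [DecidableRel G.Adj] (d : ℕ) (hreg : ∀ v, (G.neighborFinset v).card = d) (V₀ : Finset V)
    (hdeg : ∀ v, d ≤ 10 * (G.neighborFinset v ∩ V₀).card) (t : ℕ) (ht : 40 * t ≤ d)
    (ht1 : 1 ≤ t) (hsz : 100 * t ^ 2 ≤ V₀.card) (s : Finset (Fin t)) :
    ∃ (x : Fin t → V) (y : Fin t → Fin t → V),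
      (∀ i ∈ s, x i ∈ V₀ ∧ (∀ j, y i j ∈ V₀ ∧ G.Adj (x i) (y i j)) ∧
        Function.Injective (y i)) ∧
      (∀ i ∈ s, ∀ i' ∈ s, i ≠ i' → x i ≠ x i' ∧ (∀ j, x i ≠ y i' j) ∧
        ∀ j j', y i j ≠ y i' j') := by
  induction s using Finset.induction_on with
  | empty =>
    have hne : V₀.Nonempty := by
      rw [← Finset.card_pos]
      have h10 : 1 ≤ t ^ 2 := Nat.one_le_pow _ _ ht1
      omega
    obtain ⟨v, _⟩ := hne
    exact ⟨fun _ => v, fun _ _ => v, by simp, by simp⟩
  | insert a s ha ih =>
    obtain ⟨x, y, h1, h2⟩ := ih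
    set U : Finset V := s.image x ∪ s.biUnion (fun i => univ.image (y i)) with hUdef
    have hU : U.card ≤ t ^ 2 := by
      have hs : s.card + 1 ≤ t := by
        have h3 : (insert a s).card ≤ Fintype.card (Fin t) := Finset.card_le_univ _
        rw [Finset.card_insert_of_notMem ha, Fintype.card_fin] at h3
        exact h3
      have h4 : (s.image x).card ≤ s.card := Finset.card_image_le
      have h5 : (s.biUnion (fun i => univ.image (y i))).card ≤ s.card * t := by
        apply Finset.card_biUnion_le_card_mul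
        intro i _
        calc (univ.image (y i)).card ≤ (univ : Finset (Fin t)).card := Finset.card_image_le
          _ = t := by simp
      have h6 : U.card ≤ (s.image x).card + (s.biUnion (fun i => univ.image (y i))).card :=
        Finset.card_union_le _ _
      have h7 : s.card * t + s.card ≤ t ^ 2 := by
        have : s.card ≤ t - 1 := by omega
        have h8 : s.card * t + s.card ≤ (t - 1) * t + (t - 1) := by gcongr
        have h9 : (t - 1) * t + (t - 1) + 1 = t ^ 2 := by
          obtain ⟨m, rfl⟩ : ∃ m, t = m + 1 := ⟨t - 1, by omega⟩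
          simp only [Nat.add_sub_cancel]
          ring
        omega
      omega
    obtain ⟨c, hc, hct⟩ := stars_step G d hreg V₀ hdeg t ht ht1 hsz U hU
    obtain ⟨L, hL, hLc⟩ := Finset.exists_subset_card_eq hct
    have e : Fin t ≃ L := (Fintype.equivFinOfCardEq (by rw [Fintype.card_coe, hLc])).symm
    rw [Finset.mem_sdiff] at hc
    have hLm : ∀ j, G.Adj c (e j : V) ∧ (e j : V) ∈ V₀ ∧ (e j : V) ∉ U := by
      intro j
      have h3 := hL (e j).2
      rw [Finset.mem_sdiff, Finset.mem_inter, SimpleGraph.mem_neighborFinset] at h3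
      exact ⟨h3.1.1, h3.1.2, h3.2⟩
    have hxU : ∀ i ∈ s, x i ∈ U := fun i hi =>
      Finset.mem_union_left _ (Finset.mem_image_of_mem _ hi)
    have hyU : ∀ i ∈ s, ∀ j, y i j ∈ U := fun i hi j =>
      Finset.mem_union_right _ (Finset.mem_biUnion.2
        ⟨i, hi, Finset.mem_image_of_mem _ (Finset.mem_univ _)⟩)
    have hne : ∀ i ∈ s, i ≠ a := fun i hi h => ha (h ▸ hi)
    refine ⟨Function.update x a c, Function.update y a (fun j => (e j : V)), ?_, ?_⟩
    · intro i hi
      rw [Finset.mem_insert] at hi
      rcases hi with rfl | hi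
      · simp only [Function.update_self]
        exact ⟨hc.1, fun j => ⟨(hLm j).2.1, (hLm j).1⟩,
          fun j j' h => e.injective (Subtype.ext h)⟩
      · rw [Function.update_of_ne (hne i hi), Function.update_of_ne (hne i hi)]
        exact h1 i hi
    · intro i hi i' hi' hii
      rw [Finset.mem_insert] at hi hi'
      rcases hi with rfl | hi
      · rcases hi' with rfl | hi'
        · exact absurd rfl hii
        · simp only [Function.update_self]
          rw [Function.update_of_ne (hne i' hi'), Function.update_of_ne (hne i' hi')]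
          refine ⟨?_, ?_, ?_⟩
          · intro h
            exact hc.2 (h ▸ hxU i' hi')
          · intro j h
            exact hc.2 (h ▸ hyU i' hi' j)
          · intro j j' h
            exact (hLm j).2.2 (h ▸ hyU i' hi' j')
      · rcases hi' with rfl | hi'
        · simp only [Function.update_self]
          rw [Function.update_of_ne (hne i hi), Function.update_of_ne (hne i hi)]
          refine ⟨?_, ?_, ?_⟩
          · intro h
            exact hc.2 (h ▸ hxU i hi)
          · intro j h
            exact (hLm j).2.2 (h ▸ hxU i hi)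
          · intro j j' h
            exact (hLm j').2.2 (h ▸ hyU i hi j)
        · rw [Function.update_of_ne (hne i hi), Function.update_of_ne (hne i hi),
            Function.update_of_ne (hne i' hi'), Function.update_of_ne (hne i' hi')]
          exact h2 i hi i' hi' hii

theorem stars {V : Type} [Fintype V] [DecidableEq V] (G : SimpleGraph V) [DecidableRel G.Adj]
    (d : ℕ) (hreg : ∀ v, (G.neighborFinset v).card = d) (V₀ : Finset V)
    (hdeg : ∀ v, d ≤ 10 * (G.neighborFinset v ∩ V₀).card) (t : ℕ) (ht : 40 * t ≤ d)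
    (hsz : 100 * t ^ 2 ≤ V₀.card) :
    ∃ (x : Fin t → V) (y : Fin t × Fin t → V),
      Function.Injective (Sum.elim x y) ∧ (∀ i, x i ∈ V₀) ∧ (∀ p, y p ∈ V₀) ∧
      (∀ p, G.Adj (x p.1) (y p)) := by
  rcases Nat.eq_zero_or_pos t with h0 | ht1
  · subst h0
    refine ⟨Fin.elim0, fun p => p.1.elim0, ?_, fun i => i.elim0, fun p => p.1.elim0,
      fun p => p.1.elim0⟩
    rintro (a | a)
    · exact a.elim0
    · exact a.1.elim0
  obtain ⟨x, y, h1, h2⟩ := stars_aux G d hreg V₀ hdeg t ht ht1 hsz univ
  refine ⟨x, fun p => y p.1 p.2, ?_, fun i => (h1 i (mem_univ _)).1,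
    fun p => ((h1 p.1 (mem_univ _)).2.1 p.2).1, fun p => ((h1 p.1 (mem_univ _)).2.1 p.2).2⟩
  rintro (i | ⟨i, j⟩) (i' | ⟨i', j'⟩) h
  · by_contra hne
    have hii : i ≠ i' := fun h' => hne (by rw [h'])
    exact (h2 i (mem_univ _) i' (mem_univ _) hii).1 h
  · exfalso
    simp only [Sum.elim_inl, Sum.elim_inr] at h
    by_cases hii : i = i'
    · subst hii
      have h3 := ((h1 i (mem_univ _)).2.1 j').2
      rw [← h] at h3
      exact G.loopless.irrefl _ h3
    · exact (h2 i (mem_univ _) i' (mem_univ _) hii).2.1 j' h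
  · exfalso
    simp only [Sum.elim_inl, Sum.elim_inr] at h
    by_cases hii : i' = i
    · subst hii
      have h3 := ((h1 i' (mem_univ _)).2.1 j).2
      rw [h] at h3
      exact G.loopless.irrefl _ h3
    · exact (h2 i' (mem_univ _) i (mem_univ _) hii).2.1 j h.symm
  · simp only [Sum.elim_inr] at h
    by_cases hii : i = i'
    · subst hii
      have h3 := (h1 i (mem_univ _)).2.2 h
      rw [h3]
    · exact absurd h ((h2 i (mem_univ _) i' (mem_univ _) hii).2.2 j j')

end Pool.Agent.HD
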