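import Mathlib

/-!
MP_134267_co, Theorem HD (helper33): definitions shared by all modules.
-/

namespace Pool.Agent.HD

open Finset

/-- The `(n,d,lam)` condition: `G` is `d`-regular and every eigenvector of the adjacency matrix
orthogonal to the all-ones vector (these vectors carry all the eigenvalues except the trivial
eigenvalue `d`, counted once) has an eigenvalue of absolute value at most `lam`. -/
structure IsNDL {V : Type} [Fintype V] [DecidableEq V] (G : SimpleGraph V) [DecidableRel G.Adj]
    (d : ℕ) (lam : ℝ) : Prop where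
  reg : ∀ v, (G.neighborFinset v).card = d
  spec : ∀ (mu : ℝ) (x : V → ℝ), x ≠ 0 → ∑ v, x v = 0 →
    (∀ u, ∑ v, (if G.Adj u v then x v else 0) = mu * x u) → |mu| ≤ lam

/-- `Lk adj S src tgt len`: `S` is the disjoint union of the vertex sets of paths `P x`
(`x` in the index type), where `P x` runs from `src x` to `tgt x` and has `len x` VERTICES.
(Disjointness, absence of repetitions and covering are all in the multiset identity.) -/
def Lk {V ι : Type} [Fintype ι] (adj : V → V → Prop) (S : Finset V) (src tgt : ι → V)
    (len : ι → ℕ) : Prop :=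
  ∃ P : ι → List V, (∀ x, (P x).IsChain adj) ∧ (∀ x, (P x).head? = some (src x)) ∧
    (∀ x, (P x).getLast? = some (tgt x)) ∧ (∀ x, (P x).length = len x) ∧
    ∑ x, ((P x : List V) : Multiset V) = S.val

/-- `Links adj S a b q`: `S` is the disjoint union of the interiors `I x` of paths from `a x` to
`b x`; the interior `I x` has `q x` vertices (`q x = 0` means that `a x` and `b x` are adjacent). -/
def Links {V ι : Type} [Fintype ι] (adj : V → V → Prop) (S : Finset V) (a b : ι → V)
    (q : ι → ℕ) : Prop :=
  ∃ I : ι → List V, (∀ x, (a x :: (I x ++ [b x])).IsChain adj) ∧ (∀ x, (I x).length = q x) ∧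
    ∑ x, ((I x : List V) : Multiset V) = S.val

/-- A permutation network on the vertex set `S` with in-ports `I` and out-ports `O`: for every
permutation the set `S` is covered by disjoint paths with exactly `n` vertices each which realise
the permutation. -/
def Net {V ι : Type} [Fintype ι] (adj : V → V → Prop) (S : Finset V) (I O : ι → V) (n : ℕ) :
    Prop :=
  ∀ σ : Equiv.Perm ι, Lk adj S I (fun x => O (σ x)) (fun _ => n)

/-- neighbours inside the reserve `W` -/
noncomputable def nb {V : Type} [DecidableEq V] (G : SimpleGraph V) (W : Finset V) (x : V) :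
    Finset V := by
  classical exact W.filter (fun y => G.Adj x y)

/-- Friedman-Pippenger context: reserve `W`, sets of `m` vertices are joined, trees of depth `h`
have at least `m` leaves, at most `K` vertices of the reserve are ever used. -/
structure FPCtx {V : Type} [DecidableEq V] (G : SimpleGraph V) (W : Finset V)
    (m h K : ℕ) : Prop where
  hm : 1 ≤ m
  hmh : m ≤ 2 ^ h
  join : ∀ A ⊆ W, ∀ B ⊆ W, m ≤ A.card → m ≤ B.card → Disjoint A B →
    ∃ a ∈ A, ∃ b ∈ B, G.Adj a b
  big : ∀ X : Finset V, m < X.card → X.card ≤ 2 * m →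
    3 * X.card + K < (X.biUnion (nb G W)).card

/-- Friedman-Pippenger state: `U` = used vertices (all vertices outside of the reserve `W` count as
used), `r` = residual demand (a vertex of the reserve which is not used has demand `2`). -/
structure FPState {V : Type} [DecidableEq V] (G : SimpleGraph V) (W : Finset V)
    (m : ℕ) (U : Finset V) (r : V → ℕ) : Prop where
  out : ∀ x, x ∉ W → x ∈ U
  r3 : ∀ x, r x ≤ 3
  r2 : ∀ x, x ∉ U → r x = 2
  good : ∀ X : Finset V, X.card ≤ 2 * m →
    ∑ x ∈ X, r x ≤ ((X.biUnion (nb G W)) \ U).card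

/-- `G` contains a spanning nearly balanced subdivision of the complete graph on `t` vertices:
branch vertices `b i`, a path `P i j` for every pair `i < j`; the interiors of the paths are
disjoint from each other and from the branch vertices, every vertex of `G` is on one of the paths
or is a branch vertex, and all the lengths are between `l - 1` and `l + 1`. -/
def HasSubdivision {V : Type} (G : SimpleGraph V) (t : ℕ) : Prop :=
  ∃ (b : Fin t ↪ V) (l : ℕ) (P : ∀ i j : Fin t, i < j → G.Walk (b i) (b j)),
    1 ≤ l ∧
    (∀ i j (h : i < j), (P i j h).IsPath ∧ l ≤ (P i j h).length + 1 ∧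
      (P i j h).length ≤ l + 1) ∧
    (∀ i j (h : i < j) k, b k ∈ (P i j h).support → k = i ∨ k = j) ∧
    (∀ i j (h : i < j) i' j' (h' : i' < j'), (i, j) ≠ (i', j') → ∀ v,
      v ∈ (P i j h).support → v ∈ (P i' j' h').support → v ∈ Set.range b) ∧
    (∀ v, v ∈ Set.range b ∨ ∃ i j, ∃ h : i < j, v ∈ (P i j h).support)

/-- number of adjacent pairs in `S × T` -/
def eST {V : Type} [DecidableEq V] (G : SimpleGraph V) [DecidableRel G.Adj] (S T : Finset V) : ℕ :=
  ((S ×ˢ T).filter (fun p => G.Adj p.1 p.2)).card

/-- number of reserve vertices of a switch -/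
def wsw (j q : ℕ) : ℕ := 2 * (2 * j + 1) + 2 * j * q

/-- seeds (vertices outside of the reserve) of the network with `2^κ` ports, `κ ≥ 1` -/
def znet : ℕ → ℕ
  | 0 => 0
  | 1 => 2
  | (k + 2) => 2 * znet (k + 1) + 4 * 2 ^ (k + 1)

/-- reserve vertices of the network with `2^κ` ports, `κ ≥ 1` -/
def wnet (j q : ℕ) : ℕ → ℕ
  | 0 => 0
  | 1 => wsw j q
  | (k + 2) => 2 * wnet j q (k + 1) + 2 * 2 ^ (k + 1) * wsw j q + 4 * 2 ^ (k + 1) * q

/-- number of vertices of each route of the network -/
def nnet (j q : ℕ) : ℕ → ℕ
  | 0 => 0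
  | 1 => 1 + (2 * j + 1) + j * q
  | (k + 2) => 2 * (1 + (2 * j + 1) + j * q) + nnet j q (k + 1) + 2 * q

end Pool.Agent.HD
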