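import Mathlib
import Pool.Agent.HD.Defs

/-!
MP_134267_co, Theorem HD, row M4 (helper93): perfect matchings from expander mixing.
-/

namespace Pool.Agent.HD

open Finset

/-- counting adjacent pairs by the first coordinate -/
lemma hall_eST_left {V : Type} [DecidableEq V] (G : SimpleGraph V) [DecidableRel G.Adj]
    (S T : Finset V) : eST G S T = ∑ a ∈ S, (T.filter (fun b => G.Adj a b)).card := by
  unfold eST
  rw [card_filter, sum_product]
  apply sum_congr rfl
  intro a _
  rw [card_filter]

/-- counting adjacent pairs by the second coordinate -/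
lemma hall_eST_right {V : Type} [DecidableEq V] (G : SimpleGraph V) [DecidableRel G.Adj]
    (S T : Finset V) : eST G S T = ∑ b ∈ T, (S.filter (fun a => G.Adj a b)).card := by
  unfold eST
  rw [card_filter, sum_product_right]
  apply sum_congr rfl
  intro a _
  rw [card_filter]

/-- the numerical core -/
lemma hall_real {rho L D s t : ℝ} (hL : 0 ≤ L) (hs : 0 < s) (_ht : 0 ≤ t)
    (hts : t ≤ s) (h : D * s ≤ rho * s * t + L * √(s * t)) : D - L ≤ rho * t := by
  have h1 : √(s * t) ≤ s := by
    rw [Real.sqrt_le_left hs.le]
    nlinarith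
  have h2 : L * √(s * t) ≤ L * s := mul_le_mul_of_nonneg_left h1 hL
  have h3 : (D - L) * s ≤ (rho * t) * s := by nlinarith
  exact le_of_mul_le_mul_right h3 hs

theorem hall_matching {V : Type} [Fintype V] [DecidableEq V] (G : SimpleGraph V)
    [DecidableRel G.Adj] (A B : Finset V) (hAB : A.card = B.card) (rho L D : ℝ)
    (hrho : 0 ≤ rho) (hL : 0 ≤ L) (hLD : 2 * L < D)
    (hA : ∀ a ∈ A, D ≤ ((B.filter (fun b => G.Adj a b)).card : ℝ))
    (hB : ∀ b ∈ B, D ≤ ((A.filter (fun a => G.Adj a b)).card : ℝ))
    (he : ∀ S ⊆ A, ∀ T ⊆ B,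
      |(eST G S T : ℝ) - rho * S.card * T.card| ≤ L * √(S.card * T.card)) :
    ∃ e : A ≃ B, ∀ a : A, G.Adj a (e a) := by
  -- Hall's condition
  have hall : ∀ S ⊆ A, S.card ≤ (S.biUnion (fun a => B.filter (fun b => G.Adj a b))).card := by
    intro S hS
    by_contra hlt
    push Not at hlt
    set T := S.biUnion (fun a => B.filter (fun b => G.Adj a b)) with hT
    have hTB : T ⊆ B := by
      intro b hb
      rw [hT, mem_biUnion] at hb
      obtain ⟨a, _, hb⟩ := hb
      exact (mem_filter.1 hb).1
    have hTmem : ∀ a ∈ S, ∀ b ∈ B, G.Adj a b → b ∈ T := by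
      intro a ha b hb hab
      rw [hT, mem_biUnion]
      exact ⟨a, ha, mem_filter.2 ⟨hb, hab⟩⟩
    have hSpos : (0 : ℝ) < S.card := by exact_mod_cast lt_of_le_of_lt (Nat.zero_le _) hlt
    have hltR : (T.card : ℝ) < S.card := by exact_mod_cast hlt
    -- edges from `S`
    have h1 : D * S.card ≤ eST G S T := by
      rw [hall_eST_left]
      push_cast
      have : ∀ a ∈ S, D ≤ ((T.filter (fun b => G.Adj a b)).card : ℝ) := by
        intro a ha
        refine (hA a (hS ha)).trans ?_
        exact_mod_cast card_le_card (by
          intro b hb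
          rw [mem_filter] at hb ⊢
          exact ⟨hTmem a ha b hb.1 hb.2, hb.2⟩)
      have := Finset.sum_le_sum this
      rw [sum_const, nsmul_eq_mul] at this
      linarith
    have h2 : D - L ≤ rho * T.card := by
      apply hall_real hL hSpos (Nat.cast_nonneg _) hltR.le
      have := abs_le.1 (he S hS T hTB)
      linarith [this.2]
    -- edges from `B \ T`
    have hS' : (B \ T).card = B.card - T.card := card_sdiff_of_subset hTB
    have hT' : (A \ S).card = A.card - S.card := card_sdiff_of_subset hS
    have hTle : T.card ≤ B.card := card_le_card hTB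
    have hSle : S.card ≤ A.card := card_le_card hS
    have hlt' : (A \ S).card < (B \ T).card := by omega
    have hltR' : ((A \ S).card : ℝ) < (B \ T).card := by exact_mod_cast hlt'
    have hSpos' : (0 : ℝ) < (B \ T).card := lt_of_le_of_lt (Nat.cast_nonneg _) hltR'
    have h3 : D * (B \ T).card ≤ eST G (A \ S) (B \ T) := by
      rw [hall_eST_right]
      push_cast
      have : ∀ b ∈ B \ T, D ≤ (((A \ S).filter (fun a => G.Adj a b)).card : ℝ) := by
        intro b hb
        rw [mem_sdiff] at hb
        refine (hB b hb.1).trans ?_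
        exact_mod_cast card_le_card (by
          intro a ha
          rw [mem_filter] at ha ⊢
          refine ⟨mem_sdiff.2 ⟨ha.1, fun haS => hb.2 (hTmem a haS b hb.1 ha.2)⟩, ha.2⟩)
      have := Finset.sum_le_sum this
      rw [sum_const, nsmul_eq_mul] at this
      linarith
    have h4 : D - L ≤ rho * (A \ S).card := by
      apply hall_real (s := (B \ T).card) hL hSpos' (Nat.cast_nonneg _) hltR'.le
      have := abs_le.1 (he (A \ S) sdiff_subset (B \ T) sdiff_subset)
      have h5 := this.2
      rw [mul_comm ((A \ S).card : ℝ) ((B \ T).card : ℝ)] at h5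
      linarith
    -- no edges between `S` and `B \ T`
    have h5 : eST G S (B \ T) = 0 := by
      unfold eST
      rw [card_eq_zero, filter_eq_empty_iff]
      intro p hp hadj
      rw [mem_product, mem_sdiff] at hp
      exact hp.2.2 (hTmem p.1 hp.1 p.2 hp.2.1 hadj)
    have h6 := (abs_le.1 (he S hS (B \ T) sdiff_subset)).1
    rw [h5] at h6
    push_cast at h6
    have h7 : L < rho * S.card := by nlinarith
    have h8 : L < rho * (B \ T).card := by nlinarith
    have h9 : rho * S.card * (B \ T).card ≤ L * √(S.card * (B \ T).card) := by linarith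
    have hsq : √((S.card : ℝ) * (B \ T).card) ^ 2 = S.card * (B \ T).card :=
      Real.sq_sqrt (by positivity)
    have hsqpos : 0 < √((S.card : ℝ) * (B \ T).card) := Real.sqrt_pos.2 (mul_pos hSpos hSpos')
    set z := √((S.card : ℝ) * (B \ T).card) with hz
    have h10 : rho * z ≤ L := by
      have : rho * z * z ≤ L * z := by
        calc rho * z * z = rho * z ^ 2 := by ring
          _ = rho * S.card * (B \ T).card := by rw [hsq]; ring
          _ ≤ L * z := h9
      exact le_of_mul_le_mul_right this hsqpos
    have h11 : L * L < (rho * z) * (rho * z) := by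
      calc L * L < (rho * S.card) * (rho * (B \ T).card) := by
            apply mul_lt_mul' h7.le h8 hL (lt_of_le_of_lt hL h7)
        _ = rho * rho * z ^ 2 := by rw [hsq]; ring
        _ = (rho * z) * (rho * z) := by ring
    have h12 : 0 ≤ rho * z := mul_nonneg hrho hsqpos.le
    nlinarith
  have hall' : ∀ s : Finset A, s.card ≤
      (s.biUnion (fun a : A => B.filter (fun b => G.Adj a b))).card := by
    intro s
    have h1 := hall (s.image Subtype.val) (by
      intro x hx
      rw [mem_image] at hx
      obtain ⟨y, _, rfl⟩ := hx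
      exact y.2)
    rw [card_image_of_injective _ Subtype.val_injective, image_biUnion] at h1
    exact h1
  obtain ⟨f, hf, hfm⟩ := (Finset.all_card_le_biUnion_card_iff_exists_injective _).1 hall'
  have hfB : ∀ a : A, f a ∈ B := fun a => (mem_filter.1 (hfm a)).1
  let g : A → B := fun a => ⟨f a, hfB a⟩
  have hg : Function.Bijective g := by
    rw [Fintype.bijective_iff_injective_and_card]
    refine ⟨fun a b hab => hf (congrArg Subtype.val hab), ?_⟩
    rw [Fintype.card_coe, Fintype.card_coe, hAB]
  exact ⟨Equiv.ofBijective g hg, fun a => (mem_filter.1 (hfm a)).2⟩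

end Pool.Agent.HD
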