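import Mathlib
import Pool.Agent.HD.Defs

/-!
MP_134267_co, Theorem HD, row M8a (helper93): filling classes, layers, concatenation of segments.
-/

namespace Pool.Agent.HD

open Finset

/-! ### filling -/

/-- a finite set can be cut into pieces of prescribed sizes -/
lemma fill_pieces {V ι : Type} [DecidableEq V] [DecidableEq ι] (s : Finset ι) (n : ι → ℕ) :
    ∀ S : Finset V, S.card = ∑ i ∈ s, n i →
      ∃ P : ι → Finset V, (∀ i ∈ s, (P i).card = n i) ∧ ∑ i ∈ s, (P i).val = S.val := by
  induction s using Finset.induction_on with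
  | empty =>
    intro S hS
    rw [sum_empty, card_eq_zero] at hS
    exact ⟨fun _ => ∅, by simp, by simp [hS]⟩
  | insert a s ha ih =>
    intro S hS
    rw [sum_insert ha] at hS
    obtain ⟨T, hTS, hT⟩ := exists_subset_card_eq (show n a ≤ S.card by omega)
    obtain ⟨P, hP1, hP2⟩ := ih (S \ T) (by rw [card_sdiff_of_subset hTS]; omega)
    refine ⟨fun i => if i = a then T else P i, ?_, ?_⟩
    · intro i hi
      rcases mem_insert.1 hi with rfl | hi
      · simp [hT]
      · have : i ≠ a := fun h => ha (h ▸ hi)
        simp [this, hP1 i hi]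
    · rw [sum_insert ha]
      have h0 : ∑ x ∈ s, ((fun i => if i = a then T else P i) x).val = ∑ x ∈ s, (P x).val := by
        apply sum_congr rfl
        intro x hx
        have : x ≠ a := fun h => ha (h ▸ hx)
        simp only [if_neg this]
      rw [h0, hP2]
      simp only [if_true]
      have hd : Disjoint T (S \ T) := disjoint_sdiff
      have h1 : (T.disjUnion (S \ T) hd).val = T.val + (S \ T).val := rfl
      rw [← h1, disjUnion_eq_union, union_sdiff_of_subset hTS]

/-- a finite set is the disjoint union of the fibres of a map -/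
lemma fill_fibres {V ι : Type} [DecidableEq V] [Fintype ι] [DecidableEq ι] (R : Finset V)
    (f : V → ι) : ∑ i, (R.filter (fun v => f v = i)).val = R.val := by
  ext x
  rw [Multiset.count_sum']
  have h : ∀ i, Multiset.count x (R.filter (fun v => f v = i)).val =
      if f x = i then Multiset.count x R.val else 0 := by
    intro i
    by_cases hi : f x = i
    · rw [if_pos hi]
      by_cases hx : x ∈ R
      · rw [Multiset.count_eq_one_of_mem (Finset.nodup _) (mem_filter.2 ⟨hx, hi⟩),
          Multiset.count_eq_one_of_mem R.nodup hx]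
      · rw [Multiset.count_eq_zero_of_notMem (fun h => hx (mem_filter.1 h).1),
          Multiset.count_eq_zero_of_notMem (fun h => hx h)]
    · rw [if_neg hi]
      apply Multiset.count_eq_zero_of_notMem
      intro h
      have h' : x ∈ R.filter (fun v => f v = i) := h
      exact hi (mem_filter.1 h').2
  rw [sum_congr rfl (fun i _ => h i)]
  simp

/-- filling classes up to exactly `T` elements from a spare class -/
theorem fill {V : Type} [DecidableEq V] (R : Finset V) (k T : ℕ) (hR : R.card = k * T)
    (f : V → Fin (k + 1)) (hf : ∀ i : Fin (k + 1), (R.filter (fun v => f v = i)).card ≤ T) :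
    ∃ B : Fin k → Finset V, (∀ i, (B i).card = T) ∧
      (∀ i, R.filter (fun v => f v = i.castSucc) ⊆ B i) ∧
      (∀ i, B i ⊆ R.filter (fun v => f v = i.castSucc) ∪ R.filter (fun v => f v = Fin.last k)) ∧
      (∑ i, (B i).val = R.val) := by
  have hfib := fill_fibres R f
  rw [Fin.sum_univ_castSucc] at hfib
  have hcard : ∑ i : Fin k, (R.filter (fun v => f v = i.castSucc)).card +
      (R.filter (fun v => f v = Fin.last k)).card = k * T := by
    have := congrArg Multiset.card hfib
    rw [Multiset.card_add, Multiset.card_sum] at this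
    rw [← hR]
    exact this
  have hsum : ∑ i : Fin k, (T - (R.filter (fun v => f v = i.castSucc)).card) +
      ∑ i : Fin k, (R.filter (fun v => f v = i.castSucc)).card = k * T := by
    rw [← sum_add_distrib]
    have : ∀ i : Fin k, T - (R.filter (fun v => f v = i.castSucc)).card +
        (R.filter (fun v => f v = i.castSucc)).card = T := by
      intro i
      have := hf i.castSucc
      omega
    rw [sum_congr rfl (fun i _ => this i)]
    simp
  obtain ⟨P, hP1, hP2⟩ := fill_pieces (univ : Finset (Fin k))
    (fun i => T - (R.filter (fun v => f v = i.castSucc)).card)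
    (R.filter (fun v => f v = Fin.last k)) (by omega)
  have hPsub : ∀ i, P i ⊆ R.filter (fun v => f v = Fin.last k) := by
    intro i x hx
    have h1 : x ∈ (R.filter (fun v => f v = Fin.last k)).val := by
      rw [← hP2, Multiset.mem_sum]
      exact ⟨i, mem_univ _, hx⟩
    exact h1
  have hdisj : ∀ i : Fin k, Disjoint (R.filter (fun v => f v = i.castSucc)) (P i) := by
    intro i
    rw [Finset.disjoint_left]
    intro x hx hx'
    have h1 := (mem_filter.1 hx).2
    have h2 := (mem_filter.1 (hPsub i hx')).2
    rw [h1] at h2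
    exact absurd h2 (Fin.castSucc_lt_last i).ne
  refine ⟨fun i => R.filter (fun v => f v = i.castSucc) ∪ P i, ?_, ?_, ?_, ?_⟩
  · intro i
    rw [card_union_of_disjoint (hdisj i), hP1 i (mem_univ _)]
    have := hf i.castSucc
    omega
  · intro i
    exact subset_union_left
  · intro i
    exact union_subset_union_right (hPsub i)
  · have : ∀ i : Fin k, (R.filter (fun v => f v = i.castSucc) ∪ P i).val =
        (R.filter (fun v => f v = i.castSucc)).val + (P i).val := by
      intro i
      rw [← disjUnion_eq_union _ _ (hdisj i)]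
      rfl
    rw [sum_congr rfl (fun i _ => this i), sum_add_distrib, hP2]
    exact hfib

/-! ### layers -/

/-- sum of singletons -/
lemma layers_sum_singleton {V ι : Type} [Fintype ι] (f : ι → V) :
    ∑ x, ({f x} : Multiset V) = (univ : Finset ι).val.map f := by
  have : (univ : Finset ι).val.map f = ((univ : Finset ι).val.map (fun x => ({f x} : Multiset V))).sum := by
    induction (univ : Finset ι).val using Multiset.induction_on with
    | empty => simp
    | cons a s ih => rw [Multiset.map_cons, Multiset.map_cons, Multiset.sum_cons, ih,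
        Multiset.singleton_add]
  rw [this]
  rfl

/-- one more layer -/
lemma layers_step {V ι : Type} [DecidableEq V] [Fintype ι] {adj : V → V → Prop} (C D : Finset V)
    (hM : ∃ e : C ≃ D, ∀ a : C, adj a (e a)) (π : ι → V)
    (hπ : ∑ x, ({π x} : Multiset V) = C.val) :
    ∃ π' : ι → V, (∑ x, ({π' x} : Multiset V) = D.val) ∧ ∀ x, adj (π x) (π' x) := by
  obtain ⟨e, he⟩ := hM
  have hmem : ∀ x, π x ∈ C := by
    intro x
    have : π x ∈ C.val := by
      rw [← hπ, Multiset.mem_sum]
      exact ⟨x, mem_univ _, by simp⟩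
    exact this
  refine ⟨fun x => (e ⟨π x, hmem x⟩ : V), ?_, fun x => he ⟨π x, hmem x⟩⟩
  let g : V → V := fun v => if h : v ∈ C then (e ⟨v, h⟩ : V) else v
  have hg : ∀ x, (e ⟨π x, hmem x⟩ : V) = g (π x) := by
    intro x
    simp only [g, dif_pos (hmem x)]
  rw [layers_sum_singleton] at hπ ⊢
  have h1 : (univ : Finset ι).val.map (fun x => (e ⟨π x, hmem x⟩ : V)) =
      ((univ : Finset ι).val.map π).map g := by
    rw [Multiset.map_map]
    apply Multiset.map_congr rfl
    intro x _
    exact hg x
  rw [h1, hπ]
  have hinj : Set.InjOn g C := by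
    intro a ha b hb hab
    have ha' : a ∈ C := ha
    have hb' : b ∈ C := hb
    simp only [g, dif_pos ha', dif_pos hb'] at hab
    have := e.injective (Subtype.ext hab)
    exact congrArg Subtype.val this
  rw [← Finset.image_val_of_injOn hinj]
  congr 1
  ext y
  rw [mem_image]
  constructor
  · rintro ⟨x, hx, rfl⟩
    simp only [g, dif_pos hx]
    exact (e ⟨x, hx⟩).2
  · intro hy
    obtain ⟨⟨x, hx⟩, hxy⟩ := e.surjective ⟨y, hy⟩
    refine ⟨x, hx, ?_⟩
    simp only [g, dif_pos hx, hxy]

/-- layers with perfect matchings between consecutive ones give a linkage -/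
theorem layers {V : Type} [DecidableEq V] {adj : V → V → Prop} (k T : ℕ)
    (B : ℕ → Finset V) (hB : ∀ i ≤ k, (B i).card = T)
    (hM : ∀ i < k, ∃ e : B i ≃ B (i + 1), ∀ a : B i, adj a (e a)) (S : Finset V)
    (hS : ∑ i ∈ range (k + 1), (B i).val = S.val) (σ : Fin T → V)
    (hσ : ∑ x, ({σ x} : Multiset V) = (B 0).val) :
    ∃ π : Fin T → V, (∑ x, ({π x} : Multiset V) = (B k).val) ∧
      Lk adj S σ π (fun _ => k + 1) := by
  induction k generalizing S with
  | zero =>
    refine ⟨σ, hσ, fun x => [σ x], ?_, ?_, ?_, ?_, ?_⟩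
    · intro x; simp
    · intro x; rfl
    · intro x; rfl
    · intro x; rfl
    · rw [zero_add, sum_range_one] at hS
      rw [← hS, ← hσ]
      apply sum_congr rfl
      intro x _
      rfl
  | succ k ih =>
    have hle : (∑ i ∈ range (k + 1), (B i).val) ≤ S.val := by
      rw [← hS, sum_range_succ _ (k + 1)]
      exact Multiset.le_add_right _ _
    let S' : Finset V := ⟨∑ i ∈ range (k + 1), (B i).val, Multiset.nodup_of_le hle S.nodup⟩
    obtain ⟨π, hπ, P, hP1, hP2, hP3, hP4, hP5⟩ := ih (fun i hi => hB i (by omega))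
      (fun i hi => hM i (by omega)) S' rfl
    obtain ⟨π', hπ', hadj⟩ := layers_step (B k) (B (k + 1)) (hM k (by omega)) π hπ
    refine ⟨π', hπ', fun x => P x ++ [π' x], ?_, ?_, ?_, ?_, ?_⟩
    · intro x
      rw [List.isChain_append]
      refine ⟨hP1 x, by simp, ?_⟩
      intro y hy z hz
      rw [hP3 x, Option.mem_def, Option.some_inj] at hy
      rw [List.head?_cons, Option.mem_def, Option.some_inj] at hz
      rw [← hy, ← hz]
      exact hadj x
    · intro x
      rw [List.head?_append, hP2 x]
      rfl
    · intro x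
      simp
    · intro x
      rw [List.length_append, hP4 x]
      rfl
    · have h1 : ∀ x, ((P x ++ [π' x] : List V) : Multiset V) = (P x : Multiset V) + {π' x} := by
        intro x
        rw [← Multiset.coe_add]
        rfl
      rw [sum_congr rfl (fun x _ => h1 x), sum_add_distrib, hP5, hπ', ← hS,
        sum_range_succ _ (k + 1)]

/-! ### segments -/

/-- the multiset of a concatenation -/
lemma segments_coe {V : Type} : ∀ (n : ℕ) (f : Fin n → List V),
    (((List.ofFn f).flatten : List V) : Multiset V) = ∑ i, ((f i : List V) : Multiset V)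
  | 0, f => by simp
  | n + 1, f => by
    rw [List.ofFn_succ, List.flatten_cons, ← Multiset.coe_add, segments_coe n, Fin.sum_univ_succ]

/-- the length of a concatenation -/
lemma segments_length {V : Type} : ∀ (n : ℕ) (f : Fin n → List V),
    ((List.ofFn f).flatten).length = ∑ i, (f i).length
  | 0, f => by simp
  | n + 1, f => by
    rw [List.ofFn_succ, List.flatten_cons, List.length_append, segments_length n,
      Fin.sum_univ_succ]

/-- the chain condition of a concatenation -/
lemma segments_chain {V : Type} {adj : V → V → Prop} : ∀ (n : ℕ) (P J : Fin n → List V)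
    (a b : Fin n → V) (t : V) (_ : ∀ i, (P i).IsChain adj) (_ : ∀ i, (P i).head? = some (a i))
    (_ : ∀ i, (P i).getLast? = some (b i))
    (_ : ∀ i : Fin n, (b i :: (J i ++ [if h : (i : ℕ) + 1 < n then a ⟨i + 1, h⟩ else t])).IsChain adj)
    (s : V) (F : List V) (_ : (s :: (F ++ [if h : 0 < n then a ⟨0, h⟩ else t])).IsChain adj),
    (s :: (F ++ (List.ofFn (fun i => P i ++ J i)).flatten ++ [t])).IsChain adj
  | 0, P, J, a, b, t, hP, hh, hl, hJ, s, F, hF => by
    simpa using hF
  | n + 1, P, J, a, b, t, hP, hh, hl, hJ, s, F, hF => by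
    have ih := segments_chain n (fun i => P i.succ) (fun i => J i.succ) (fun i => a i.succ)
      (fun i => b i.succ) t (fun i => hP _) (fun i => hh _) (fun i => hl _) (by
        intro i
        have := hJ i.succ
        by_cases h : (i : ℕ) + 1 < n
        · rw [dif_pos h]
          have h' : ((i.succ : Fin (n + 1)) : ℕ) + 1 < n + 1 := by
            rw [Fin.val_succ]; omega
          rw [dif_pos h'] at this
          exact this
        · rw [dif_neg h]
          have h' : ¬ ((i.succ : Fin (n + 1)) : ℕ) + 1 < n + 1 := by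
            rw [Fin.val_succ]; omega
          rw [dif_neg h'] at this
          exact this) (b 0) (J 0) (by
        have := hJ 0
        by_cases h : 0 < n
        · rw [dif_pos h]
          have h' : ((0 : Fin (n + 1)) : ℕ) + 1 < n + 1 := by
            rw [Fin.val_zero]; omega
          rw [dif_pos h'] at this
          exact this
        · rw [dif_neg h]
          have h' : ¬ ((0 : Fin (n + 1)) : ℕ) + 1 < n + 1 := by
            rw [Fin.val_zero]; omega
          rw [dif_neg h'] at this
          exact this)
    rw [dif_pos (Nat.succ_pos n)] at hF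
    have hP0 := hP 0
    have hh0 := hh 0
    have hl0 := hl 0
    obtain ⟨u, hu⟩ : ∃ u, P 0 = a 0 :: u := by
      cases hp : P 0 with
      | nil => rw [hp] at hh0; simp at hh0
      | cons x xs => rw [hp] at hh0; simp at hh0; exact ⟨xs, by rw [hh0]⟩
    obtain ⟨w, hw⟩ : ∃ w, P 0 = w ++ [b 0] := by
      rcases List.eq_nil_or_concat' (P 0) with hp | ⟨w, x, hp⟩
      · rw [hp] at hl0; simp at hl0
      · rw [hp] at hl0
        simp at hl0
        exact ⟨w, by rw [hp, hl0]⟩
    set rest := (List.ofFn (fun i : Fin n => P i.succ ++ J i.succ)).flatten with hrest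
    have hflat : (List.ofFn (fun i : Fin (n + 1) => P i ++ J i)).flatten = P 0 ++ (J 0 ++ rest) := by
      rw [List.ofFn_succ, List.flatten_cons, List.append_assoc]
    rw [hflat]
    -- second part of the chain
    have h1 : (P 0 ++ (J 0 ++ rest ++ [t])).IsChain adj := by
      rw [hw, List.append_assoc]
      have : (w ++ b 0 :: (J 0 ++ rest ++ [t])).IsChain adj := by
        rw [List.isChain_split]
        exact ⟨by rw [← hw]; exact hP0, ih⟩
      simpa using this
    have h2 : ((s :: F) ++ (P 0 ++ (J 0 ++ rest ++ [t]))).IsChain adj := by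
      rw [hu, List.cons_append] at h1 ⊢
      have : ((s :: F) ++ a 0 :: (u ++ (J 0 ++ rest ++ [t]))).IsChain adj := by
        rw [List.isChain_split]
        exact ⟨hF, h1⟩
      exact this
    simpa using h2

/-- concatenation of `g r` segments for every request `r`, with links in between;
`first r` = link from `s r` to the first segment, `out` = links from the end of the segment `i` to
the next one or to the final vertex `t r` -/
theorem segments {V ρ : Type} [Fintype ρ] {adj : V → V → Prop} (g : ρ → ℕ)
    (hg : ∀ r, 1 ≤ g r) (s t : ρ → V) (src tgt : (Σ r, Fin (g r)) → V)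
    (nseg q : (Σ r, Fin (g r)) → ℕ) (qf : ρ → ℕ) {S₁ S₂ S₃ S : Finset V}
    (h₁ : Lk adj S₁ src tgt nseg)
    (h₂ : Links adj S₂ tgt (fun x => if h : (x.2 : ℕ) + 1 < g x.1 then src ⟨x.1, ⟨x.2 + 1, h⟩⟩
      else t x.1) q)
    (h₃ : Links adj S₃ s (fun r => src ⟨r, ⟨0, hg r⟩⟩) qf)
    (hS : S₁.val + S₂.val + S₃.val = S.val) :
    Links adj S s t (fun r => qf r + ∑ i : Fin (g r), (nseg ⟨r, i⟩ + q ⟨r, i⟩)) := by
  obtain ⟨P, hP1, hP2, hP3, hP4, hP5⟩ := h₁
  obtain ⟨J, hJ1, hJ2, hJ3⟩ := h₂
  obtain ⟨F, hF1, hF2, hF3⟩ := h₃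
  refine ⟨fun r => F r ++ (List.ofFn (fun i : Fin (g r) => P ⟨r, i⟩ ++ J ⟨r, i⟩)).flatten,
    ?_, ?_, ?_⟩
  · intro r
    apply segments_chain (g r) (fun i => P ⟨r, i⟩) (fun i => J ⟨r, i⟩) (fun i => src ⟨r, i⟩)
      (fun i => tgt ⟨r, i⟩) (t r) (fun i => hP1 _) (fun i => hP2 _) (fun i => hP3 _)
      (fun i => hJ1 ⟨r, i⟩)
    have := hF1 r
    have hgr : 0 < g r := hg r
    rw [dif_pos hgr]
    exact this
  · intro r
    rw [List.length_append, segments_length, hF2]
    congr 1
    apply sum_congr rfl
    intro i _
    rw [List.length_append, hP4, hJ2]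
  · have h1 : ∀ r, ((F r ++ (List.ofFn (fun i : Fin (g r) => P ⟨r, i⟩ ++ J ⟨r, i⟩)).flatten :
        List V) : Multiset V) = (F r : Multiset V) + (∑ i : Fin (g r), (P ⟨r, i⟩ : Multiset V) +
          ∑ i : Fin (g r), (J ⟨r, i⟩ : Multiset V)) := by
      intro r
      rw [← Multiset.coe_add, segments_coe, ← sum_add_distrib]
      congr 1
    rw [sum_congr rfl (fun r _ => h1 r), sum_add_distrib, sum_add_distrib, hF3, ← hS]
    rw [← Fintype.sum_sigma' (f := fun r i => (P ⟨r, i⟩ : Multiset V)),
      ← Fintype.sum_sigma' (f := fun r i => (J ⟨r, i⟩ : Multiset V))]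
    rw [show ∑ x : (Σ r, Fin (g r)), (P ⟨x.1, x.2⟩ : Multiset V) = S₁.val from hP5,
      show ∑ x : (Σ r, Fin (g r)), (J ⟨x.1, x.2⟩ : Multiset V) = S₂.val from hJ3]
    rw [add_comm]

end Pool.Agent.HD
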