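import Pool.Agent.HD.Spec
import Pool.Agent.HD.Partition
import Pool.Agent.HD.Hall
import Pool.Agent.HD.Layer

/-!
MP_134267_co, row M8b (helper33): the walk through random layers.
-/

namespace Pool.Agent.HD

open Finset

/-- partition into layers of exactly `T` elements -/
theorem layer_partition {V : Type} [Fintype V] [DecidableEq V] (R : Finset V) (k T : ℕ)
    (hRk : R.card = k * T) (hk : 1 ≤ k) (Q : ℕ) (hQ : 1 ≤ Q)
    {A : Type} [Fintype A] (W : A → V → V → ℝ) (Λ d : A → ℝ) (hd0 : ∀ a, 0 ≤ d a)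
    (hΛ0 : ∀ a, 0 ≤ Λ a)
    (hΛ : ∀ a (x : V → ℝ), ∑ v ∈ R, (∑ c, W a v c * x c) ^ 2 ≤ Λ a * ∑ c, x c ^ 2)
    (hd : ∀ a, ∀ v ∈ R, ∑ c, W a v c ^ 2 ≤ d a)
    {B : Type} [Fintype B] (D : B → Finset V) (hD : ∀ b, D b ⊆ R) (Dmin : ℝ)
    (hDc : ∀ b, Dmin ≤ ((D b).card : ℝ))
    (h1 : 4 * (Fintype.card A : ℝ) * (k + 1) * Fintype.card V ≤ 8 ^ Q)
    (h2 : 4 * (Fintype.card B : ℝ) * (k + 1) < Real.exp (Dmin / (10 * (k + 1))))
    (h3 : 4 * ((k : ℝ) + 1) < Real.exp (R.card / (4 * (k + 1) ^ 3))) :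
    ∃ E : Fin k → Finset V, (∀ i, (E i).card = T) ∧ (∑ i, (E i).val = R.val) ∧
      (∀ b i, (D b).card ≤ 2 * (k + 1) * (D b ∩ E i).card) ∧
      (∀ a i (x : V → ℝ), ∑ v ∈ E i, (∑ c, W a v c * x c) ^ 2 ≤
        16 * (Λ a / (k + 1) + Q * d a) * ∑ c, x c ^ 2) := by
  obtain ⟨f, hf1, hf2, hf3⟩ := partition_lemma R k hk Q hQ W Λ d hd0 hΛ0 hΛ hd D hD Dmin hDc h1 h2 h3
  have hfT : ∀ i : Fin (k + 1), (R.filter (fun v => f v = i)).card ≤ T := by
    intro i
    have := hf1 i
    rw [hRk] at this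
    exact Nat.le_of_mul_le_mul_left this hk
  obtain ⟨E, hE1, hE2, hE3, hE4⟩ := fill R k T hRk f hfT
  refine ⟨E, hE1, hE4, ?_, ?_⟩
  · intro b i
    refine (hf2 b i.castSucc).trans ?_
    refine Nat.mul_le_mul_left _ (card_le_card ?_)
    intro v hv
    rw [mem_filter] at hv
    rw [mem_inter]
    exact ⟨hv.1, hE2 i (mem_filter.2 ⟨hD b hv.1, hv.2⟩)⟩
  · intro a i x
    have hsub : ∑ v ∈ E i, (∑ c, W a v c * x c) ^ 2 ≤
        ∑ v ∈ R.filter (fun v => f v = i.castSucc), (∑ c, W a v c * x c) ^ 2 +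
        ∑ v ∈ R.filter (fun v => f v = Fin.last k), (∑ c, W a v c * x c) ^ 2 := by
      refine (sum_le_sum_of_subset_of_nonneg (hE3 i) (fun _ _ _ => sq_nonneg _)).trans ?_
      rw [← sum_union_inter]
      exact le_add_of_nonneg_right (sum_nonneg fun _ _ => sq_nonneg _)
    have h4 := hf3 a i.castSucc x
    have h5 := hf3 a (Fin.last k) x
    calc _ ≤ _ := hsub
      _ ≤ _ := add_le_add h4 h5
      _ = _ := by ring

/-- transposition of a norm bound -/
theorem transpose_norm {V : Type} [Fintype V] [DecidableEq V] (M : V → V → ℝ)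
    (F : Finset V) (Λ : ℝ) (hΛ0 : 0 ≤ Λ)
    (h : ∀ x : V → ℝ, ∑ u ∈ F, (∑ v, M u v * x v) ^ 2 ≤ Λ * ∑ v, x v ^ 2) (x : V → ℝ) :
    ∑ v, (∑ u ∈ F, M u v * x u) ^ 2 ≤ Λ * ∑ u ∈ F, x u ^ 2 := by
  set y : V → ℝ := fun v => ∑ u ∈ F, M u v * x u with hy
  have h1 : ∑ v, y v ^ 2 = ∑ u ∈ F, x u * (∑ v, M u v * y v) := by
    have : ∀ v, y v ^ 2 = ∑ u ∈ F, x u * (M u v * y v) := by
      intro v
      rw [sq]
      nth_rewrite 1 [hy]
      rw [sum_mul]
      exact sum_congr rfl fun u _ => by ring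
    simp_rw [this]
    rw [sum_comm]
    exact sum_congr rfl fun u _ => by rw [mul_sum]
  have h2 : (∑ u ∈ F, x u * (∑ v, M u v * y v)) ^ 2 ≤
      (∑ u ∈ F, x u ^ 2) * ∑ u ∈ F, (∑ v, M u v * y v) ^ 2 :=
    sum_mul_sq_le_sq_mul_sq _ _ _
  rw [← h1] at h2
  have h3 := h y
  have hF : 0 ≤ ∑ u ∈ F, x u ^ 2 := sum_nonneg fun _ _ => sq_nonneg _
  have hY : 0 ≤ ∑ v, y v ^ 2 := sum_nonneg fun _ _ => sq_nonneg _
  have h4 : (∑ v, y v ^ 2) ^ 2 ≤ (∑ u ∈ F, x u ^ 2) * (Λ * ∑ v, y v ^ 2) :=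
    h2.trans (mul_le_mul_of_nonneg_left h3 hF)
  rcases hY.eq_or_lt with h0 | h0
  · change ∑ v, y v ^ 2 ≤ _
    rw [← h0]
    exact mul_nonneg hΛ0 hF
  · change ∑ v, y v ^ 2 ≤ _
    have : (∑ v, y v ^ 2) * (∑ v, y v ^ 2) ≤ (Λ * ∑ u ∈ F, x u ^ 2) * (∑ v, y v ^ 2) := by
      nlinarith [h4]
    exact le_of_mul_le_mul_right this h0

/-- the centred adjacency matrix -/
noncomputable def Mx {V : Type} [Fintype V] (G : SimpleGraph V) [DecidableRel G.Adj] (d : ℕ)
    (u v : V) : ℝ := (if G.Adj u v then (1 : ℝ) else 0) - (d : ℝ) / Fintype.card V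

theorem Mx_symm {V : Type} [Fintype V] (G : SimpleGraph V) [DecidableRel G.Adj] (d : ℕ)
    (u v : V) : Mx G d u v = Mx G d v u := by
  unfold Mx
  by_cases h : G.Adj u v
  · simp only [h, h.symm, if_true]
  · have h' : ¬ G.Adj v u := fun h' => h h'.symm
    simp only [h, h', if_false]

theorem Mx_sq_le {V : Type} [Fintype V] (G : SimpleGraph V) [DecidableRel G.Adj] (d : ℕ)
    (u v : V) : Mx G d u v ^ 2 ≤ (if G.Adj u v then (1 : ℝ) else 0) +
      ((d : ℝ) / Fintype.card V) ^ 2 := by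
  unfold Mx
  have h0 : (0 : ℝ) ≤ (d : ℝ) / Fintype.card V := by positivity
  split_ifs
  · nlinarith
  · nlinarith

theorem Mx_row_le {V : Type} [Fintype V] [DecidableEq V] (G : SimpleGraph V)
    [DecidableRel G.Adj] (d : ℕ) (u : V) (F : Finset V) :
    ∑ v ∈ F, Mx G d u v ^ 2 ≤ ((G.neighborFinset u ∩ F).card : ℝ) +
      F.card * ((d : ℝ) / Fintype.card V) ^ 2 := by
  refine (sum_le_sum fun v _ => Mx_sq_le G d u v).trans ?_
  rw [sum_add_distrib, sum_const, nsmul_eq_mul]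
  refine add_le_add_left (le_of_eq ?_) _
  rw [← sum_filter, sum_const, nsmul_eq_mul, mul_one]
  congr 2
  ext v
  rw [mem_filter, mem_inter, SimpleGraph.mem_neighborFinset, and_comm]

theorem Mx_row_full {V : Type} [Fintype V] [DecidableEq V] (G : SimpleGraph V)
    [DecidableRel G.Adj] (d : ℕ) (u : V) (hu : (G.neighborFinset u).card = d) :
    ∑ v, Mx G d u v ^ 2 ≤ (d : ℝ) := by
  have hn : (0 : ℝ) < Fintype.card V := by
    have : 0 < Fintype.card V := Fintype.card_pos_iff.2 ⟨u⟩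
    exact_mod_cast this
  set ρ : ℝ := (d : ℝ) / Fintype.card V with hρ
  have h1 : ∀ v, Mx G d u v ^ 2 = (1 - 2 * ρ) * (if G.Adj u v then (1 : ℝ) else 0) + ρ ^ 2 := by
    intro v
    unfold Mx
    rw [← hρ]
    split_ifs <;> ring
  simp_rw [h1]
  rw [sum_add_distrib, ← mul_sum, sum_const, nsmul_eq_mul, ← sum_filter, sum_const, nsmul_eq_mul,
    mul_one]
  have h2 : (univ.filter (fun v => G.Adj u v)).card = d := by
    rw [← hu]
    congr 1
    ext v
    rw [mem_filter, SimpleGraph.mem_neighborFinset]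
    exact ⟨fun h => h.2, fun h => ⟨mem_univ _, h⟩⟩
  rw [h2, card_univ]
  have h3 : (Fintype.card V : ℝ) * ρ ^ 2 = ρ * d := by
    rw [hρ]; field_simp
  rw [h3]
  have h4 : 0 ≤ ρ := by positivity
  have h5 : 0 ≤ ρ * d := by positivity
  nlinarith

/-- the sum over an initial segment, even and odd indices separately -/
theorem sum_even_odd {M : Type} [AddCommMonoid M] (f : ℕ → M) (m : ℕ) :
    ∑ i ∈ range (2 * m + 1), f i =
      ∑ i ∈ range (m + 1), f (2 * i) + ∑ i ∈ range m, f (2 * i + 1) := by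
  induction m with
  | zero => simp
  | succ m ih =>
    rw [show 2 * (m + 1) + 1 = (2 * m + 1) + 1 + 1 by ring, sum_range_succ, sum_range_succ, ih,
      sum_range_succ (fun i => f (2 * i)) (m + 1), sum_range_succ (fun i => f (2 * i + 1)) m]
    rw [show 2 * (m + 1) = 2 * m + 1 + 1 by ring]
    abel

/-- perfect matching between two layers -/
theorem match_layers {V : Type} [Fintype V] [DecidableEq V] (G : SimpleGraph V)
    [DecidableRel G.Adj] {d : ℕ} (E F : Finset V) (hEF : E.card = F.card) (Z D : ℝ)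
    (hZ : 0 ≤ Z) (hD0 : 0 ≤ D)
    (hn : ∀ x : V → ℝ, ∑ u ∈ E, (∑ c, (if c ∈ F then Mx G d u c else 0) * x c) ^ 2 ≤
      Z * ∑ c, x c ^ 2)
    (hZD : 4 * Z < D ^ 2)
    (hE : ∀ v, D ≤ ((G.neighborFinset v ∩ E).card : ℝ))
    (hF : ∀ v, D ≤ ((G.neighborFinset v ∩ F).card : ℝ)) :
    (∃ e : E ≃ F, ∀ a : E, G.Adj a (e a)) ∧ (∃ e : F ≃ E, ∀ a : F, G.Adj a (e a)) := by
  have hL : ∀ x : V → ℝ, (∀ v, v ∉ F → x v = 0) →
      ∑ u ∈ E, (∑ v ∈ F, ((if G.Adj u v then (1 : ℝ) else 0) - (d : ℝ) / Fintype.card V) * x v) ^ 2 ≤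
        (√Z) ^ 2 * ∑ v ∈ F, x v ^ 2 := by
    intro x hx
    rw [Real.sq_sqrt hZ]
    have h1 := hn x
    have h2 : ∀ u, ∑ c, (if c ∈ F then Mx G d u c else 0) * x c =
        ∑ v ∈ F, ((if G.Adj u v then (1 : ℝ) else 0) - (d : ℝ) / Fintype.card V) * x v := by
      intro u
      rw [← sum_filter_add_sum_filter_not univ (fun c => c ∈ F)]
      rw [sum_eq_zero (s := univ.filter (fun c => ¬ c ∈ F)), add_zero]
      · rw [show univ.filter (fun c => c ∈ F) = F by ext c; simp]
        refine sum_congr rfl fun c hc => ?_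
        rw [if_pos hc]
        rfl
      · intro c hc
        rw [if_neg (mem_filter.1 hc).2, zero_mul]
    have h3 : ∑ c, x c ^ 2 = ∑ v ∈ F, x v ^ 2 := by
      rw [← sum_subset (subset_univ F)]
      intro v _ hv
      rw [hx v hv]
      ring
    simp_rw [h2, h3] at h1
    exact h1
  have hmix := mixing_of_norm G ((d : ℝ) / Fintype.card V) (√Z) (Real.sqrt_nonneg _) E F hL
  have h2L : 2 * √Z < D := by
    have h4 : (2 * √Z) ^ 2 < D ^ 2 := by
      rw [mul_pow, Real.sq_sqrt hZ]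
      linarith
    exact lt_of_pow_lt_pow_left₀ 2 hD0 h4
  have key := hall_matching G E F hEF ((d : ℝ) / Fintype.card V) (√Z) D (by positivity)
    (Real.sqrt_nonneg _) h2L ?_ ?_ (fun S hS T hT => hmix S T hS hT)
  · obtain ⟨e, he⟩ := key
    refine ⟨⟨e, he⟩, ⟨e.symm, fun a => ?_⟩⟩
    have := he (e.symm a)
    rw [e.apply_symm_apply] at this
    exact this.symm
  · intro a _
    refine (hF a).trans (le_of_eq ?_)
    congr 2
    ext v
    rw [mem_filter, mem_inter, SimpleGraph.mem_neighborFinset, and_comm]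
  · intro b _
    refine (hE b).trans (le_of_eq ?_)
    congr 2
    ext v
    rw [mem_filter, mem_inter, SimpleGraph.mem_neighborFinset, and_comm, G.adj_comm]

/-- the walk through random layers -/
theorem walk {V : Type} [Fintype V] [DecidableEq V] (G : SimpleGraph V) [DecidableRel G.Adj]
    {d : ℕ} {lam : ℝ} (h : IsNDL G d lam) (T κ Q : ℕ) (hT : 1 ≤ T) (hκ : 1 ≤ κ) (hQ : 1 ≤ Q)
    (A₀ A₁ Ro Re : Finset V) (hA₀ : A₀.card = T) (hA₁ : A₁.card = T) (hRo : Ro.card = κ * T)
    (hRe : Re.card = (κ + 1) * T) (S : Finset V)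
    (hS : A₀.val + A₁.val + Ro.val + Re.val = S.val)
    (hdo : ∀ v, d ≤ 10 * (G.neighborFinset v ∩ Ro).card)
    (hde : ∀ v, d ≤ 10 * (G.neighborFinset v ∩ Re).card)
    (D₀ D₁ Λ₁ : ℝ) (hD00 : 0 ≤ D₀) (hD10 : 0 ≤ D₁) (hΛ10 : 0 ≤ Λ₁)
    (hl0 : ∀ v, D₀ ≤ ((G.neighborFinset v ∩ A₀).card : ℝ))
    (hl1 : ∀ v, D₀ ≤ ((G.neighborFinset v ∩ A₁).card : ℝ))
    (hu0 : ∀ v, ((G.neighborFinset v ∩ A₀).card : ℝ) ≤ D₁)
    (hu1 : ∀ v, ((G.neighborFinset v ∩ A₁).card : ℝ) ≤ D₁)
    (hn0 : ∀ x : V → ℝ, ∑ u ∈ A₀,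
        (∑ v, ((if G.Adj u v then (1 : ℝ) else 0) - (d : ℝ) / Fintype.card V) * x v) ^ 2 ≤
          Λ₁ * ∑ v, x v ^ 2)
    (hn1 : ∀ x : V → ℝ, ∑ u ∈ A₁,
        (∑ v, ((if G.Adj u v then (1 : ℝ) else 0) - (d : ℝ) / Fintype.card V) * x v) ^ 2 ≤
          Λ₁ * ∑ v, x v ^ 2)
    (hD₀ : D₀ ≤ (d : ℝ) / (20 * (κ + 2)))
    (hD₁ : 16 * ((d : ℝ) / (κ + 1) + Q) ≤ D₁)
    (hΛ₁ : 16 * (lam ^ 2 / (κ + 1) + Q * d) ≤ Λ₁)
    (hL : 64 * (Λ₁ / (κ + 2) + Q * (D₁ + T * ((d : ℝ) / Fintype.card V) ^ 2)) < D₀ ^ 2)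
    (h1 : 4 * ((Fintype.card V : ℝ) + 1) * (κ + 2) * Fintype.card V ≤ 8 ^ Q)
    (h1' : κ + 1 ≤ Fintype.card V)
    (h2 : 4 * (Fintype.card V : ℝ) * (κ + 2) < Real.exp ((d : ℝ) / 10 / (10 * (κ + 2))))
    (h3 : 4 * ((κ : ℝ) + 2) < Real.exp ((κ * T : ℝ) / (4 * (κ + 2) ^ 3)))
    (σ : Fin T → V) (hσ : ∑ x, ({σ x} : Multiset V) = A₀.val) :
    ∃ π : Fin T → V, (∑ x, ({π x} : Multiset V) = A₁.val) ∧
      Lk G.Adj S σ π (fun _ => 2 * κ + 3) := by
  classical
  have hκ0 : (0 : ℝ) ≤ κ := Nat.cast_nonneg κ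
  have hV1 : (1 : ℝ) ≤ Fintype.card V := by
    have : 1 ≤ Fintype.card V := by omega
    exact_mod_cast this
  have hd0 : (0 : ℝ) ≤ d := Nat.cast_nonneg d
  -- the odd layers
  obtain ⟨O, hO1, hO2, hO3, hO4⟩ := layer_partition Ro κ T hRo hκ Q hQ
    (A := Option V) (fun a u c => match a with
      | none => Mx G d u c
      | some v => if c = v ∧ G.Adj u v then 1 else 0)
    (fun a => match a with
      | none => lam ^ 2
      | some _ => d)
    (fun a => match a with
      | none => d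
      | some _ => 1)
    (by rintro (_ | v) <;> simp)
    (by rintro (_ | v) <;> simp [sq_nonneg])
    (by
      rintro (_ | v) x
      · refine (sum_le_sum_of_subset_of_nonneg (subset_univ Ro) (fun _ _ _ => sq_nonneg _)).trans ?_
        exact ndl_norm G h x
      · simp only
        have e1 : ∀ u, (∑ c, (if c = v ∧ G.Adj u v then (1 : ℝ) else 0) * x c) ^ 2 =
            if G.Adj u v then x v ^ 2 else 0 := by
          intro u
          by_cases hu : G.Adj u v
          · simp [hu]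
          · simp [hu]
        simp_rw [e1]
        rw [← sum_filter, sum_const, nsmul_eq_mul]
        refine mul_le_mul ?_ (single_le_sum (f := fun c => x c ^ 2) (fun c _ => sq_nonneg _)
          (mem_univ v)) (sq_nonneg _) hd0
        have e2 : (Ro.filter (fun u => G.Adj u v)).card ≤ (G.neighborFinset v).card := by
          refine card_le_card fun u hu => ?_
          rw [SimpleGraph.mem_neighborFinset]
          exact (mem_filter.1 hu).2.symm
        rw [h.reg v] at e2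
        exact_mod_cast e2)
    (by
      rintro (_ | v) u hu
      · exact Mx_row_full G d u (h.reg u)
      · simp only
        have e1 : ∀ c, (if c = v ∧ G.Adj u v then (1 : ℝ) else 0) ^ 2 ≤ if c = v then 1 else 0 := by
          intro c
          by_cases hc : c = v
          · by_cases hu : G.Adj u v <;> simp [hc, hu]
          · simp [hc]
        refine (sum_le_sum fun c _ => e1 c).trans ?_
        simp)
    (B := V) (fun v => G.neighborFinset v ∩ Ro) (fun v => inter_subset_right) ((d : ℝ) / 10)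
    (fun v => by
      have := hdo v
      have h' : (d : ℝ) ≤ 10 * ((G.neighborFinset v ∩ Ro).card : ℝ) := by exact_mod_cast this
      linarith)
    (by
      rw [Fintype.card_option]
      refine le_trans ?_ h1
      push_cast
      have : (0 : ℝ) ≤ 4 * ((Fintype.card V : ℝ) + 1) := by positivity
      refine mul_le_mul_of_nonneg_right ?_ (by positivity)
      refine mul_le_mul_of_nonneg_left ?_ this
      linarith)
    (by
      have e1 : (d : ℝ) / 10 / (10 * (κ + 2)) ≤ (d : ℝ) / 10 / (10 * (κ + 1)) := by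
        apply div_le_div_of_nonneg_left (by positivity) (by positivity)
        linarith
      have e2 := Real.exp_le_exp.2 e1
      have e3 : 4 * (Fintype.card V : ℝ) * (κ + 1) ≤ 4 * (Fintype.card V : ℝ) * (κ + 2) := by
        have : (0 : ℝ) ≤ 4 * (Fintype.card V : ℝ) := by positivity
        nlinarith
      linarith)
    (by
      have e1 : (κ * T : ℝ) / (4 * (κ + 2) ^ 3) ≤ (Ro.card : ℝ) / (4 * (κ + 1) ^ 3) := by
        rw [hRo]
        push_cast
        apply div_le_div_of_nonneg_left (by positivity) (by positivity)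
        have : ((κ : ℝ) + 1) ^ 3 ≤ (κ + 2) ^ 3 := by
          apply pow_le_pow_left₀ (by positivity)
          linarith
        linarith
      have e2 := Real.exp_le_exp.2 e1
      linarith)
  -- degrees and norms of the odd layers
  have hOl : ∀ v i, D₀ ≤ ((G.neighborFinset v ∩ O i).card : ℝ) := by
    intro v i
    have e1 := hO3 v i
    have e2 : (G.neighborFinset v ∩ Ro ∩ O i).card ≤ (G.neighborFinset v ∩ O i).card := by
      refine card_le_card ?_
      intro u hu
      rw [mem_inter] at hu ⊢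
      exact ⟨(mem_inter.1 hu.1).1, hu.2⟩
    have e3 := hdo v
    have e4 : d ≤ 20 * (κ + 1) * (G.neighborFinset v ∩ O i).card := by nlinarith
    have e5 : (d : ℝ) ≤ 20 * (κ + 1) * ((G.neighborFinset v ∩ O i).card : ℝ) := by
      exact_mod_cast e4
    refine hD₀.trans ?_
    rw [div_le_iff₀ (by positivity)]
    nlinarith [Nat.cast_nonneg (α := ℝ) (G.neighborFinset v ∩ O i).card]
  have hOu : ∀ v i, ((G.neighborFinset v ∩ O i).card : ℝ) ≤ D₁ := by
    intro v i
    have e1 := hO4 (some v) i (fun c => if c = v then 1 else 0)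
    simp only at e1
    have e2 : ∀ u, (∑ c, (if c = v ∧ G.Adj u v then (1 : ℝ) else 0) * (if c = v then 1 else 0)) ^ 2 =
        if G.Adj u v then 1 else 0 := by
      intro u
      by_cases hu : G.Adj u v
      · simp [hu]
      · simp [hu]
    simp_rw [e2] at e1
    rw [← sum_filter, sum_const, nsmul_eq_mul, mul_one] at e1
    have e3 : ∑ c, (if c = v then (1 : ℝ) else 0) ^ 2 = 1 := by
      simp
    rw [e3, mul_one, mul_one] at e1
    have e4 : (G.neighborFinset v ∩ O i) = (O i).filter (fun u => G.Adj u v) := by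
      ext u
      rw [mem_inter, mem_filter, SimpleGraph.mem_neighborFinset, and_comm, G.adj_comm]
    rw [e4]
    exact e1.trans hD₁
  have hOn : ∀ i (x : V → ℝ), ∑ u ∈ O i, (∑ v, Mx G d u v * x v) ^ 2 ≤ Λ₁ * ∑ v, x v ^ 2 := by
    intro i x
    have e1 := hO4 none i x
    simp only at e1
    refine e1.trans ?_
    exact mul_le_mul_of_nonneg_right hΛ₁ (sum_nonneg fun _ _ => sq_nonneg _)
  -- the family of the layers that are fixed before the even ones
  set F : Fin κ ⊕ Bool → Finset V := Sum.elim O (fun b => if b then A₁ else A₀) with hF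
  have hFc : ∀ a, (F a).card = T := by
    rintro (i | _ | _)
    · exact hO1 i
    · simpa [hF] using hA₀
    · simpa [hF] using hA₁
  have hFl : ∀ a v, D₀ ≤ ((G.neighborFinset v ∩ F a).card : ℝ) := by
    rintro (i | _ | _) v
    · exact hOl v i
    · simpa [hF] using hl0 v
    · simpa [hF] using hl1 v
  have hFu : ∀ a v, ((G.neighborFinset v ∩ F a).card : ℝ) ≤ D₁ := by
    rintro (i | _ | _) v
    · exact hOu v i
    · simpa [hF] using hu0 v
    · simpa [hF] using hu1 v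
  have hFn : ∀ a (x : V → ℝ), ∑ u ∈ F a, (∑ v, Mx G d u v * x v) ^ 2 ≤ Λ₁ * ∑ v, x v ^ 2 := by
    rintro (i | _ | _) x
    · exact hOn i x
    · simpa [hF, Mx] using hn0 x
    · simpa [hF, Mx] using hn1 x
  -- the even layers
  obtain ⟨E, hE1, hE2, hE3, hE4⟩ := layer_partition Re (κ + 1) T hRe (by omega) Q hQ
    (A := Fin κ ⊕ Bool) (fun a u c => if c ∈ F a then Mx G d u c else 0)
    (fun _ => Λ₁) (fun _ => D₁ + T * ((d : ℝ) / Fintype.card V) ^ 2)
    (fun _ => by positivity) (fun _ => hΛ10)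
    (by
      intro a x
      refine (sum_le_sum_of_subset_of_nonneg (subset_univ Re) (fun _ _ _ => sq_nonneg _)).trans ?_
      have e1 := transpose_norm (Mx G d) (F a) Λ₁ hΛ10 (hFn a) x
      have e2 : ∀ u, ∑ c, (if c ∈ F a then Mx G d u c else 0) * x c =
          ∑ c ∈ F a, Mx G d c u * x c := by
        intro u
        rw [← sum_filter_add_sum_filter_not univ (fun c => c ∈ F a)]
        rw [sum_eq_zero (s := univ.filter (fun c => ¬ c ∈ F a)), add_zero]
        · rw [show univ.filter (fun c => c ∈ F a) = F a by ext c; simp]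
          refine sum_congr rfl fun c hc => ?_
          rw [if_pos hc, Mx_symm]
        · intro c hc
          rw [if_neg (mem_filter.1 hc).2, zero_mul]
      simp_rw [e2]
      refine e1.trans (mul_le_mul_of_nonneg_left ?_ hΛ10)
      exact sum_le_sum_of_subset_of_nonneg (subset_univ _) (fun _ _ _ => sq_nonneg _))
    (by
      intro a u _
      have e1 : ∑ c, (if c ∈ F a then Mx G d u c else 0) ^ 2 = ∑ c ∈ F a, Mx G d u c ^ 2 := by
        rw [← sum_filter_add_sum_filter_not univ (fun c => c ∈ F a)]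
        rw [sum_eq_zero (s := univ.filter (fun c => ¬ c ∈ F a)), add_zero]
        · rw [show univ.filter (fun c => c ∈ F a) = F a by ext c; simp]
          refine sum_congr rfl fun c hc => ?_
          rw [if_pos hc]
        · intro c hc
          rw [if_neg (mem_filter.1 hc).2]
          ring
      rw [e1]
      refine (Mx_row_le G d u (F a)).trans ?_
      rw [hFc a]
      linarith [hFu a u])
    (B := V) (fun v => G.neighborFinset v ∩ Re) (fun v => inter_subset_right) ((d : ℝ) / 10)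
    (fun v => by
      have := hde v
      have h' : (d : ℝ) ≤ 10 * ((G.neighborFinset v ∩ Re).card : ℝ) := by exact_mod_cast this
      linarith)
    (by
      refine le_trans ?_ h1
      rw [Fintype.card_sum, Fintype.card_fin, Fintype.card_bool]
      push_cast
      refine mul_le_mul_of_nonneg_right ?_ (by positivity)
      have e1 : (κ : ℝ) + 2 ≤ (Fintype.card V : ℝ) + 1 := by
        have : ((κ + 1 : ℕ) : ℝ) ≤ Fintype.card V := by exact_mod_cast h1'
        push_cast at this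
        linarith
      have e2 : ((κ : ℝ) + 1 + 1) = κ + 2 := by ring
      rw [e2]
      refine mul_le_mul_of_nonneg_right ?_ (by positivity)
      linarith)
    (by
      have e2 : (10 * (((κ + 1 : ℕ) : ℝ) + 1)) = 10 * (κ + 2) := by push_cast; ring
      have e3 : (((κ + 1 : ℕ) : ℝ) + 1) = κ + 2 := by push_cast; ring
      rw [e2, e3]
      exact h2)
    (by
      have e3 : (((κ + 1 : ℕ) : ℝ) + 1) = κ + 2 := by push_cast; ring
      rw [e3]
      have e1 : (κ * T : ℝ) / (4 * (κ + 2) ^ 3) ≤ (Re.card : ℝ) / (4 * (κ + 2) ^ 3) := by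
        rw [hRe]
        push_cast
        apply div_le_div_of_nonneg_right _ (by positivity)
        nlinarith [Nat.cast_nonneg (α := ℝ) T]
      have e2 := Real.exp_le_exp.2 e1
      linarith)
  have hEl : ∀ v i, D₀ ≤ ((G.neighborFinset v ∩ E i).card : ℝ) := by
    intro v i
    have e1 := hE3 v i
    have e2 : (G.neighborFinset v ∩ Re ∩ E i).card ≤ (G.neighborFinset v ∩ E i).card := by
      refine card_le_card ?_
      intro u hu
      rw [mem_inter] at hu ⊢
      exact ⟨(mem_inter.1 hu.1).1, hu.2⟩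
    have e3 := hde v
    have e4 : d ≤ 20 * (κ + 2) * (G.neighborFinset v ∩ E i).card := by nlinarith
    have e5 : (d : ℝ) ≤ 20 * (κ + 2) * ((G.neighborFinset v ∩ E i).card : ℝ) := by
      exact_mod_cast e4
    refine hD₀.trans ?_
    rw [div_le_iff₀ (by positivity)]
    nlinarith [Nat.cast_nonneg (α := ℝ) (G.neighborFinset v ∩ E i).card]
  set Z : ℝ := 16 * (Λ₁ / (κ + 2) + Q * (D₁ + T * ((d : ℝ) / Fintype.card V) ^ 2)) with hZ
  have hZ0 : 0 ≤ Z := by positivity
  have hmatch : ∀ a i, (∃ e : E i ≃ F a, ∀ u : E i, G.Adj u (e u)) ∧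
      (∃ e : F a ≃ E i, ∀ u : F a, G.Adj u (e u)) := by
    intro a i
    refine match_layers G (d := d) (E i) (F a) (by rw [hE1 i, hFc a]) Z D₀ hZ0 hD00 ?_ ?_
      (fun v => hEl v i) (hFl a)
    · intro x
      have e1 := hE4 a i x
      have e3 : (((κ + 1 : ℕ) : ℝ) + 1) = κ + 2 := by push_cast; ring
      rw [e3] at e1
      exact e1
    · rw [hZ]
      linarith
  -- the sequence of the layers
  set F' : ℕ → Finset V := fun i => if i = 0 then A₀ else if h : i - 1 < κ then O ⟨i - 1, h⟩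
    else A₁ with hF'
  set E' : ℕ → Finset V := fun i => if h : i < κ + 1 then E ⟨i, h⟩ else ∅ with hE'
  set B : ℕ → Finset V := fun n => if n % 2 = 0 then F' (n / 2) else E' (n / 2) with hB
  have hF'a : ∀ i, ∃ a, F' i = F a := by
    intro i
    by_cases h0 : i = 0
    · exact ⟨Sum.inr false, by simp [hF', h0, hF]⟩
    · by_cases h1 : i - 1 < κ
      · exact ⟨Sum.inl ⟨i - 1, h1⟩, by simp [hF', h0, h1, hF]⟩
      · exact ⟨Sum.inr true, by simp [hF', h0, h1, hF]⟩
  have hE'a : ∀ i, i < κ + 1 → ∃ a, E' i = E a := fun i hi =>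
    ⟨⟨i, hi⟩, by simp only [hE']; rw [dif_pos hi]⟩
  have hBe : ∀ l, B (2 * l) = F' l := by
    intro l
    simp only [hB]
    rw [if_pos (by omega), show 2 * l / 2 = l by omega]
  have hBo : ∀ l, B (2 * l + 1) = E' l := by
    intro l
    simp only [hB]
    rw [if_neg (by omega), show (2 * l + 1) / 2 = l by omega]
  have hBc : ∀ i ≤ 2 * κ + 2, (B i).card = T := by
    intro i hi
    rcases Nat.even_or_odd' i with ⟨l, rfl | rfl⟩
    · rw [hBe l]
      obtain ⟨a, ha⟩ := hF'a l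
      rw [ha]
      exact hFc a
    · rw [hBo l]
      obtain ⟨a, ha⟩ := hE'a l (by omega)
      rw [ha]
      exact hE1 a
  have hM : ∀ i < 2 * κ + 2, ∃ e : B i ≃ B (i + 1), ∀ a : B i, G.Adj a (e a) := by
    intro i hi
    rcases Nat.even_or_odd' i with ⟨l, rfl | rfl⟩
    · rw [hBe l, hBo l]
      obtain ⟨a, ha⟩ := hF'a l
      obtain ⟨b, hb⟩ := hE'a l (by omega)
      rw [ha, hb]
      exact (hmatch a b).2
    · rw [hBo l, show 2 * l + 1 + 1 = 2 * (l + 1) by ring, hBe (l + 1)]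
      obtain ⟨a, ha⟩ := hF'a (l + 1)
      obtain ⟨b, hb⟩ := hE'a l (by omega)
      rw [ha, hb]
      exact (hmatch a b).1
  have hsum : ∑ i ∈ range (2 * κ + 2 + 1), (B i).val = S.val := by
    rw [show 2 * κ + 2 + 1 = 2 * (κ + 1) + 1 by ring, sum_even_odd]
    simp_rw [hBe, hBo]
    have e1 : ∑ i ∈ range (κ + 1), (E' i).val = Re.val := by
      rw [← hE2, sum_range]
      refine sum_congr rfl fun i _ => ?_
      simp only [hE']
      rw [dif_pos i.2]
    have e2 : ∑ i ∈ range (κ + 1 + 1), (F' i).val = A₀.val + Ro.val + A₁.val := by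
      rw [sum_range_succ, sum_range_succ']
      have e3 : F' 0 = A₀ := by simp [hF']
      have e4 : F' (κ + 1) = A₁ := by simp [hF']
      rw [e3, e4, ← hO2, sum_range]
      have e5 : ∀ i : Fin κ, F' (i + 1) = O i := by
        intro i
        simp [hF']
      simp_rw [e5]
      abel
    rw [e1, e2, ← hS]
    abel
  have hσ' : ∑ x, ({σ x} : Multiset V) = (B 0).val := by
    rw [hσ, show (0 : ℕ) = 2 * 0 by rfl, hBe 0]
    simp [hF']
  obtain ⟨π, hπ, hLk⟩ := layers (adj := G.Adj) (2 * κ + 2) T B hBc hM S hsum σ hσ'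
  refine ⟨π, ?_, hLk⟩
  rw [hπ, show 2 * κ + 2 = 2 * (κ + 1) by ring, hBe]
  simp [hF']

end Pool.Agent.HD
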