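import Pool.Agent.HD.Reserve
import Pool.Agent.HD.ParamsDef
import Pool.Agent.HD.Pads
import Pool.Agent.HD.Numerics
import Pool.Agent.HD.NetBuild
import Pool.Agent.HD.Walk
import Pool.Agent.HD.FPInit
import Pool.Agent.HD.Stars
import Pool.Agent.HD.NetAlg
import Pool.Agent.HD.Final

namespace Pool.Agent.HD

open Finset

theorem union_val_of_disjoint {V : Type} [DecidableEq V] {s t : Finset V} (h : Disjoint s t) :
    (s ∪ t).val = s.val + t.val := by
  rw [← Finset.disjUnion_eq_union _ _ h]
  rfl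

theorem enum_props {V ι : Type} [Fintype ι] (A : Finset V) (f : ι → V)
    (hf : ∑ x, ({f x} : Multiset V) = A.val) :
    Function.Injective f ∧ (∀ x, f x ∈ A) ∧ ∀ v ∈ A, ∃ x, f x = v := by
  classical
  rw [layers_sum_singleton] at hf
  refine ⟨?_, ?_, ?_⟩
  · intro x y hxy
    have h1 : (univ.val.map f).Nodup := by rw [hf]; exact A.nodup
    exact Multiset.inj_on_of_nodup_map h1 x (mem_univ_val x) y (mem_univ_val y) hxy
  · intro x
    rw [← mem_val, ← hf]
    exact Multiset.mem_map_of_mem f (mem_univ_val x)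
  · intro v hv
    rw [← mem_val, ← hf, Multiset.mem_map] at hv
    obtain ⟨x, _, hx⟩ := hv
    exact ⟨x, hx⟩

/-- two enumerations of the same finset differ by a permutation -/
theorem exists_perm {V ι : Type} [Fintype ι] (A : Finset V) (f g : ι → V)
    (hf : ∑ x, ({f x} : Multiset V) = A.val) (hg : ∑ x, ({g x} : Multiset V) = A.val) :
    ∃ τ : Equiv.Perm ι, ∀ x, g (τ x) = f x := by
  obtain ⟨f1, f2, f3⟩ := enum_props A f hf
  obtain ⟨g1, g2, g3⟩ := enum_props A g hg
  choose τ hτ using fun x => g3 (f x) (f2 x)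
  have hinj : Function.Injective τ := by
    intro x y hxy
    apply f1
    rw [← hτ x, ← hτ y, hxy]
  exact ⟨Equiv.ofBijective τ (Finite.injective_iff_bijective.1 hinj), hτ⟩

/-- enumeration of a finset by `Fin T` -/
theorem exists_enum {V : Type} (A : Finset V) (T : ℕ) (hA : A.card = T) :
    ∃ σ : Fin T → V, ∑ x, ({σ x} : Multiset V) = A.val := by
  classical
  subst hA
  refine ⟨fun x => (A.equivFin.symm x : V), ?_⟩
  have h1 : ∑ x : Fin A.card, ({((A.equivFin.symm x : A) : V)} : Multiset V) =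
      ∑ a : A, ({(a : V)} : Multiset V) :=
    Equiv.sum_comp A.equivFin.symm (fun a : A => ({(a : V)} : Multiset V))
  rw [h1, Finset.sum_coe_sort A (fun a => ({a} : Multiset V)), Finset.sum_multiset_singleton]

/-- a nodup multiset all of whose elements are in a finset -/
theorem le_val_of_nodup {V : Type} {M : Multiset V} {A : Finset V} (h : M.Nodup)
    (hM : ∀ v ∈ M, v ∈ A) : M ≤ A.val :=
  (Multiset.le_iff_subset h).2 fun v hv => hM v hv

theorem core {V : Type} [Fintype V] [DecidableEq V] (G : SimpleGraph V) [DecidableRel G.Adj]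
    {d : ℕ} {lam : ℝ} (h : IsNDL G d lam) (hlam0 : 0 ≤ lam) (t κn m hh κ Q K l : ℕ)
    (g qf : Pr t → ℕ) (hp : Params (Fintype.card V) d t lam κn m hh κ Q K l g qf) :
    HasSubdivision G t := by
  classical
  set n := Fintype.card V with hn
  set T := 2 ^ κn with hT
  set q := 2 * hh + 2 with hq
  set nn := nnet (hh + 1) q κn with hnn
  have hT1 : 1 ≤ T := Nat.one_le_two_pow
  have hcount : n = t + 2 * Fintype.card (Pr t) + T * (2 * κ + 3 + 2 * q + nn) + ∑ r, qf r :=
    hp.hcount
  -- sizes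
  have h2κ : (2 * κ + 1) * T ≤ n := by
    have e1 : T * (2 * κ + 3 + 2 * q + nn) ≤ n := by omega
    nlinarith
  have hdn : d ≤ n := by
    have hV : 0 < n := by
      have := hp.hst2
      have := hp.ht
      nlinarith [hp.hTn]
    obtain ⟨v⟩ : Nonempty V := Fintype.card_pos_iff.1 hV
    rw [← h.reg v]
    exact card_le_univ _
  have h4κ : n ≤ 4 * κ * T := hp.hκ4
  have hTn : 1000 * T ≤ n := hp.hTn
  have hT3 : 4 * (n : ℝ) < Real.exp ((T : ℝ) ^ 3 / (100 * (n : ℝ) ^ 2)) := by
    have := hp.hT3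
    rw [hT]
    push_cast
    exact this
  have hP : 10 ^ 9 * (Q : ℝ) * n ≤ d * T := by
    have := hp.hP
    rw [hT]
    push_cast
    exact this
  obtain ⟨N1, N2, N3, N4, N5, N6, N7, N8, N9, N10, N11⟩ := numerics n d T κ Q lam hlam0 hT1 hp.hκ
    hp.hQ h2κ h4κ hTn hdn hp.hQ8 hT3 hP hp.hlam
  -- step 1: five classes
  obtain ⟨f, hf1, hf2, -⟩ := partition_lemma (univ : Finset V) 4 (by norm_num) 1 le_rfl
    (A := Empty) (fun a => nomatch a) (fun a => nomatch a) (fun a => nomatch a)
    (fun a => nomatch a) (fun a => nomatch a) (fun a => nomatch a) (fun a => nomatch a)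
    (B := Option V) (fun b => match b with
      | none => univ
      | some v => G.neighborFinset v) (fun b => subset_univ _) (d : ℝ)
    (by
      rintro (_ | v)
      · simp only
        rw [card_univ]
        exact_mod_cast hdn
      · simp only
        rw [h.reg v])
    (by simp)
    (by
      rw [Fintype.card_option]
      push_cast
      exact N10)
    (by
      rw [card_univ]
      push_cast
      exact N11)
  set cls : Fin 5 → Finset V := fun i => univ.filter (fun v => f v = i) with hcls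
  have hclsdeg : ∀ i v, d ≤ 10 * (G.neighborFinset v ∩ cls i).card := by
    intro i v
    have e1 := hf2 (some v) i
    simp only at e1
    rw [h.reg v] at e1
    refine e1.trans (Nat.mul_le_mul_left _ (card_le_card ?_))
    intro u hu
    rw [mem_filter] at hu
    rw [mem_inter]
    exact ⟨hu.1, mem_filter.2 ⟨mem_univ _, hu.2⟩⟩
  have hclsn : ∀ i, n ≤ 10 * (cls i).card := by
    intro i
    have e1 := hf2 none i
    simp only at e1
    rw [card_univ] at e1
    exact e1
  have hclsn' : ∀ i, 4 * (cls i).card ≤ n := by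
    intro i
    have e1 := hf1 i
    rw [card_univ] at e1
    exact e1
  have hclsdisj : ∀ i j, i ≠ j → ∀ v, v ∈ cls i → v ∉ cls j := by
    intro i j hij v hi hj
    rw [mem_filter] at hi hj
    exact hij (hi.2.symm.trans hj.2)
  have hclssum : ∑ i, (cls i).val = (univ : Finset V).val := by
    have e1 : ∀ i, (cls i).val = ∑ v, if f v = i then ({v} : Multiset V) else 0 := by
      intro i
      rw [← sum_filter, Finset.sum_multiset_singleton]
    simp_rw [e1]
    rw [sum_comm]
    simp [Finset.sum_multiset_singleton]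
  -- step 2: pads
  obtain ⟨A₀, A₁, hA0, hA1, hA01, hA0c, hA1c, pl0, pl1, pu0, pu1, pn0, pn1⟩ :=
    pads G h (cls 2) (hclsdeg 2) (hclsn 2) T Q hT1 hTn hp.hQ hp.hQ8 N9 hT3
  -- step 3: stars
  obtain ⟨x, y, hxyinj, hx0, hy0, hxy⟩ := stars G d h.reg (cls 0) (hclsdeg 0) t hp.hst (by
    have e1 := hp.hst2
    have e2 := hclsn 0
    omega)
  have hxinj : Function.Injective x := fun a b hab =>
    Sum.inl_injective (hxyinj (by simpa using hab))
  have hyinj : Function.Injective y := fun a b hab =>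
    Sum.inr_injective (hxyinj (by simpa using hab))
  have hxy' : ∀ i p, x i ≠ y p := by
    intro i p hip
    have := hxyinj (a₁ := Sum.inl i) (a₂ := Sum.inr p) (by simpa using hip)
    exact absurd this (by simp)
  -- step 4: seeds
  obtain ⟨Z, hZsub, hZc⟩ : ∃ Z : Finset V, Z ⊆ cls 0 \ (univ.image x ∪ univ.image y) ∧
      Z.card = znet κn := by
    apply exists_subset_card_eq
    have e1 : (univ.image x ∪ univ.image y).card ≤ t + t ^ 2 := by
      refine (card_union_le _ _).trans ?_
      refine add_le_add (card_image_le.trans ?_) (card_image_le.trans ?_)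
      · rw [card_univ, Fintype.card_fin]
      · rw [card_univ, Fintype.card_prod, Fintype.card_fin, sq]
    have e2 := le_card_sdiff (univ.image x ∪ univ.image y) (cls 0)
    have e3 := hclsn 0
    have e4 := hp.hseed
    omega
  have hZ0 : ∀ z ∈ Z, z ∈ cls 0 := fun z hz => (mem_sdiff.1 (hZsub hz)).1
  have hZx : ∀ z ∈ Z, ∀ i, x i ≠ z := by
    intro z hz i hi
    exact (mem_sdiff.1 (hZsub hz)).2 (mem_union_left _ (hi ▸ mem_image_of_mem x (mem_univ i)))
  have hZy : ∀ z ∈ Z, ∀ p, y p ≠ z := by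
    intro z hz i hi
    exact (mem_sdiff.1 (hZsub hz)).2 (mem_union_right _ (hi ▸ mem_image_of_mem y (mem_univ i)))
  -- step 5: the Friedman-Pippenger context
  have hd1 : 1 ≤ d := by
    have e1 := hp.hst
    have e2 := hp.ht
    omega
  obtain ⟨hc, hs⟩ := fp_init G h hd1 hlam0 (by
    have := hp.hlam
    nlinarith) (cls 1) (hclsdeg 1) (hclsn 1) m hh K hp.hm2 hp.hm3 hp.hmh hp.hK hp.hm1
  -- step 6: enumerations
  set ι := (Σ r : Pr t, Fin (g r)) with hι
  have hιc : Fintype.card ι = T := by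
    rw [Fintype.card_sigma]
    simp only [Fintype.card_fin]
    exact hp.hgT
  obtain ⟨eι⟩ : Nonempty (ι ≃ Fin T) := by
    rw [← Fintype.card_eq, hιc, Fintype.card_fin]
  obtain ⟨σ, hσ⟩ := exists_enum A₀ T hA0c
  obtain ⟨π', hπ'⟩ := exists_enum A₁ T hA1c
  set σ₀ : ι → V := σ ∘ eι with hσ₀
  set π₀ : ι → V := π' ∘ eι with hπ₀
  have hσ₀e : ∑ a, ({σ₀ a} : Multiset V) = A₀.val := by
    rw [← hσ]
    exact Equiv.sum_comp eι (fun a => ({σ a} : Multiset V))
  have hπ₀e : ∑ a, ({π₀ a} : Multiset V) = A₁.val := by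
    rw [← hπ']
    exact Equiv.sum_comp eι (fun a => ({π' a} : Multiset V))
  obtain ⟨σi, σm, -⟩ := enum_props A₀ σ₀ hσ₀e
  obtain ⟨πi, πm, -⟩ := enum_props A₁ π₀ hπ₀e
  set s : Pr t → V := fun r => y (r.1.1, r.1.2) with hsdef
  set t' : Pr t → V := fun r => y (r.1.2, r.1.1) with htdef
  have hsi : Function.Injective s := by
    intro a b hab
    have := hyinj hab
    rw [Prod.mk.injEq] at this
    exact Subtype.ext (Prod.ext this.1 this.2)
  have hti : Function.Injective t' := by
    intro a b hab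
    have := hyinj hab
    rw [Prod.mk.injEq] at this
    exact Subtype.ext (Prod.ext this.2 this.1)
  have hst : ∀ a b, s a ≠ t' b := by
    intro a b hab
    have := hyinj hab
    rw [Prod.mk.injEq] at this
    have e1 := a.2
    have e2 := b.2
    rw [this.1, this.2] at e1
    exact absurd e1 (not_lt.2 e2.le)
  have hA0c2 : ∀ v ∈ A₀, v ∈ cls 2 := fun v hv => hA0 hv
  have hA1c2 : ∀ v ∈ A₁, v ∈ cls 2 := fun v hv => hA1 hv
  have hs0 : ∀ r, s r ∈ cls 0 := fun r => hy0 _
  have ht0 : ∀ r, t' r ∈ cls 0 := fun r => hy0 _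
  have hinj : Function.Injective (Sum.elim (Sum.elim σ₀ π₀) (Sum.elim s t')) := by
    refine Function.Injective.sumElim (Function.Injective.sumElim σi πi ?_)
      (Function.Injective.sumElim hsi hti hst) ?_
    · intro a b hab
      exact (disjoint_left.1 hA01) (σm a) (hab ▸ πm b)
    · rintro (a | a) (b | b) hab
      · simp only [Sum.elim_inl] at hab
        exact hclsdisj 2 0 (by decide) _ (hA0c2 _ (σm a)) (hab ▸ hs0 b)
      · simp only [Sum.elim_inl, Sum.elim_inr] at hab
        exact hclsdisj 2 0 (by decide) _ (hA0c2 _ (σm a)) (hab ▸ ht0 b)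
      · simp only [Sum.elim_inl, Sum.elim_inr] at hab
        exact hclsdisj 2 0 (by decide) _ (hA1c2 _ (πm a)) (hab ▸ hs0 b)
      · simp only [Sum.elim_inr] at hab
        exact hclsdisj 2 0 (by decide) _ (hA1c2 _ (πm a)) (hab ▸ ht0 b)
  have hend : ∀ a, Sum.elim (Sum.elim σ₀ π₀) (Sum.elim s t') a ∉ cls 1 ∧
      Sum.elim (Sum.elim σ₀ π₀) (Sum.elim s t') a ∉ Z := by
    rintro ((a | a) | (a | a))
    · exact ⟨hclsdisj 2 1 (by decide) _ (hA0c2 _ (σm a)),
        fun hz => hclsdisj 2 0 (by decide) _ (hA0c2 _ (σm a)) (hZ0 _ hz)⟩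
    · exact ⟨hclsdisj 2 1 (by decide) _ (hA1c2 _ (πm a)),
        fun hz => hclsdisj 2 0 (by decide) _ (hA1c2 _ (πm a)) (hZ0 _ hz)⟩
    · exact ⟨hclsdisj 0 1 (by decide) _ (hs0 a), fun hz => hZy _ hz _ rfl⟩
    · exact ⟨hclsdisj 0 1 (by decide) _ (ht0 a), fun hz => hZy _ hz _ rfl⟩
  have hZW : Disjoint Z (cls 1) := by
    rw [disjoint_left]
    intro z hz
    exact hclsdisj 0 1 (by decide) _ (hZ0 z hz)
  -- step 7: the reserve
  obtain ⟨SN, S₁, S₂, S₃, I, O, hSW, hScard, hNet, hL1, hL2, hL3⟩ :=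
    reserve_stage hc hs κn hp.hκn g hp.hg hp.hgT Z hZc hZW σ₀ π₀ s t' hinj
      (fun a => (hend a).1) (fun a => (hend a).2) q (hh + 1) le_rfl le_rfl qf hp.hqf hp.hcap
  -- step 8: the rest
  set mS : Multiset V := ∑ r : Pr t, (({s r} : Multiset V) + {t' r}) with hmS
  set m0 : Multiset V := ∑ i, ({x i} : Multiset V) + mS + Z.val with hm0
  set m1 : Multiset V := SN.val + S₁.val + S₂.val + S₃.val with hm1
  have hm0le : m0 ≤ (cls 0).val := by
    have e1 : m0 = (univ.image x ∪ (univ.image s ∪ univ.image t') ∪ Z).val := by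
      rw [union_val_of_disjoint, union_val_of_disjoint, union_val_of_disjoint]
      · rw [hm0, hmS, sum_add_distrib, layers_sum_singleton, layers_sum_singleton,
          layers_sum_singleton, image_val_of_injOn hxinj.injOn, image_val_of_injOn hsi.injOn,
          image_val_of_injOn hti.injOn]
      · rw [disjoint_left]
        intro v hv hv'
        obtain ⟨a, -, rfl⟩ := mem_image.1 hv
        obtain ⟨b, -, hb⟩ := mem_image.1 hv'
        exact hst a b hb.symm
      · rw [disjoint_left]
        intro v hv hv'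
        obtain ⟨a, -, rfl⟩ := mem_image.1 hv
        rcases mem_union.1 hv' with hv' | hv'
        · obtain ⟨b, -, hb⟩ := mem_image.1 hv'
          exact hxy' a _ hb.symm
        · obtain ⟨b, -, hb⟩ := mem_image.1 hv'
          exact hxy' a _ hb.symm
      · rw [disjoint_left]
        intro v hv hv'
        rcases mem_union.1 hv with hv | hv
        · obtain ⟨a, -, rfl⟩ := mem_image.1 hv
          exact hZx _ hv' a rfl
        · rcases mem_union.1 hv with hv | hv
          · obtain ⟨a, -, rfl⟩ := mem_image.1 hv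
            exact hZy _ hv' _ rfl
          · obtain ⟨a, -, rfl⟩ := mem_image.1 hv
            exact hZy _ hv' _ rfl
    rw [e1, val_le_iff]
    intro v hv
    rcases mem_union.1 hv with hv | hv
    · rcases mem_union.1 hv with hv | hv
      · obtain ⟨a, -, rfl⟩ := mem_image.1 hv
        exact hx0 a
      · rcases mem_union.1 hv with hv | hv
        · obtain ⟨a, -, rfl⟩ := mem_image.1 hv
          exact hs0 a
        · obtain ⟨a, -, rfl⟩ := mem_image.1 hv
          exact ht0 a
    · exact hZ0 v hv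
  have hm2le : A₀.val + A₁.val ≤ (cls 2).val := by
    rw [← union_val_of_disjoint hA01, val_le_iff]
    exact union_subset hA0 hA1
  have hall : m0 + m1 + (A₀.val + A₁.val) + (cls 3).val + (cls 4).val ≤
      (univ : Finset V).val := by
    rw [← hclssum, Fin.sum_univ_five]
    exact add_le_add (add_le_add (add_le_add (add_le_add hm0le hSW) hm2le) le_rfl) le_rfl
  obtain ⟨R, hR⟩ : ∃ R : Finset V, m0 + m1 + (A₀.val + A₁.val) + R.val =
      (univ : Finset V).val := by
    have e1 : m0 + m1 + (A₀.val + A₁.val) ≤ (univ : Finset V).val := by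
      refine le_trans ?_ hall
      rw [add_assoc (m0 + m1 + (A₀.val + A₁.val))]
      exact Multiset.le_add_right _ _
    refine ⟨⟨(univ : Finset V).val - (m0 + m1 + (A₀.val + A₁.val)),
      Multiset.nodup_of_le tsub_le_self (univ : Finset V).nodup⟩, ?_⟩
    exact add_tsub_cancel_of_le e1
  have hRsup : (cls 3).val + (cls 4).val ≤ R.val := by
    rw [← hR, add_assoc (m0 + m1 + (A₀.val + A₁.val))] at hall
    exact (add_le_add_iff_left _).1 hall
  have hcls3R : cls 3 ⊆ R := val_le_iff.1 ((Multiset.le_add_right _ _).trans hRsup)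
  have hcls4R : cls 4 ⊆ R := val_le_iff.1 ((Multiset.le_add_left _ _).trans hRsup)
  have hRcard : R.card = (2 * κ + 1) * T := by
    have e1 := congrArg Multiset.card hR
    rw [hm0, hm1, hmS] at e1
    simp only [Multiset.card_add, Multiset.card_sum, Multiset.card_singleton, sum_const,
      smul_eq_mul, card_univ, Fintype.card_fin, card_val, mul_one] at e1
    have e2 := net_card (hh + 1) q κn hp.hκn
    rw [hZc, hA0c, hA1c] at e1
    rw [← hn] at e1
    have e3 : (2 * κ + 1) * T + T * (2 + 2 * q + nn) = T * (2 * κ + 3 + 2 * q + nn) := by ring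
    have e4 : T * (2 + 2 * q + nn) = 2 * T + 2 * T * q + T * nn := by ring
    have e5 : znet κn + wnet (hh + 1) q κn = T * nn := e2
    have e6 : SN.card + S₁.card + S₂.card + S₃.card =
      wnet (hh + 1) q κn + 2 * T * q + ∑ r, qf r := hScard
    omega
  -- step 9: odd and even part
  obtain ⟨Ro, hRo1, hRo2, hRoc⟩ : ∃ Ro : Finset V, cls 3 ⊆ Ro ∧ Ro ⊆ R \ cls 4 ∧
      Ro.card = κ * T := by
    apply exists_subsuperset_card_eq
    · intro v hv
      exact mem_sdiff.2 ⟨hcls3R hv, hclsdisj 3 4 (by decide) v hv⟩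
    · have e1 := hclsn' 3
      nlinarith
    · rw [card_sdiff_of_subset hcls4R, hRcard]
      have e1 := hclsn' 4
      have e2 : (cls 4).card ≤ κ * T := by nlinarith
      have e3 : (2 * κ + 1) * T = κ * T + κ * T + T := by ring
      omega
  have hRoR : Ro ⊆ R := hRo2.trans sdiff_subset
  set Re := R \ Ro with hRe
  have hRec : Re.card = (κ + 1) * T := by
    rw [hRe, card_sdiff_of_subset hRoR, hRcard, hRoc]
    have e3 : (2 * κ + 1) * T = κ * T + (κ + 1) * T := by ring
    omega
  have hcls4Re : cls 4 ⊆ Re := by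
    intro v hv
    rw [hRe, mem_sdiff]
    exact ⟨hcls4R hv, fun hv' => (mem_sdiff.1 (hRo2 hv')).2 hv⟩
  have hRoRe : Ro.val + Re.val = R.val := by
    rw [hRe, ← union_val_of_disjoint disjoint_sdiff, union_sdiff_of_subset hRoR]
  -- step 10: walk
  obtain ⟨Sw, hSw⟩ : ∃ Sw : Finset V, A₀.val + A₁.val + Ro.val + Re.val = Sw.val := by
    have e1 : A₀.val + A₁.val + Ro.val + Re.val ≤ (univ : Finset V).val := by
      rw [add_assoc (A₀.val + A₁.val), hRoRe, ← hR]
      exact add_le_add (Multiset.le_add_left _ _) le_rfl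
    exact ⟨⟨_, Multiset.nodup_of_le e1 (univ : Finset V).nodup⟩, rfl⟩
  have hdo : ∀ v, d ≤ 10 * (G.neighborFinset v ∩ Ro).card := fun v =>
    (hclsdeg 3 v).trans (Nat.mul_le_mul_left _ (card_le_card (inter_subset_inter_left hRo1)))
  have hde : ∀ v, d ≤ 10 * (G.neighborFinset v ∩ Re).card := fun v =>
    (hclsdeg 4 v).trans (Nat.mul_le_mul_left _ (card_le_card (inter_subset_inter_left hcls4Re)))
  obtain ⟨π, hπ, hWalk⟩ := walk G h T κ Q hT1 hp.hκ hp.hQ A₀ A₁ Ro Re hA0c hA1c hRoc hRec Sw hSw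
    hdo hde ((d : ℝ) * T / (60 * n)) (320 * (d * T / n) + 32 * Q)
    (320 * (lam ^ 2 * T / n) + 32 * (Q * d)) (by positivity) (by positivity) (by positivity)
    pl0 pl1 pu0 pu1 pn0 pn1 N1 N2 N3 N4 N5 N6 N7 N8 σ hσ
  -- step 11: the permutation
  have hπe : ∑ a, ({(π ∘ eι) a} : Multiset V) = A₁.val := by
    rw [← hπ]
    exact Equiv.sum_comp eι (fun a => ({π a} : Multiset V))
  obtain ⟨τ, hτ⟩ := exists_perm A₁ (π ∘ eι) π₀ hπe hπ₀e
  have hW' : Lk G.Adj Sw σ₀ (π₀ ∘ τ) (fun _ => 2 * κ + 3) := by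
    have e1 := hWalk.reindex eι
    have e2 : π₀ ∘ τ = π ∘ eι := funext fun a => hτ a
    rw [e2]
    exact e1
  have hL1' : Links G.Adj S₁ (π₀ ∘ τ) (I ∘ τ) (fun _ => q) := hL1.reindex τ
  have hNet' : Lk G.Adj (Z ∪ SN) (I ∘ τ) O (fun _ => nn) := by
    have e1 := (hNet τ⁻¹).reindex τ
    have e2 : (fun a => O (τ⁻¹ a)) ∘ τ = O := by
      funext a
      simp
    rw [e2] at e1
    exact e1
  -- step 12: composition
  have hZSN : Disjoint Z SN := by
    have e1 : SN ⊆ cls 1 := by
      rw [← val_le_iff]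
      refine le_trans ?_ hSW
      rw [hm1, add_assoc, add_assoc]
      exact Multiset.le_add_right _ _
    exact hZW.mono_right e1
  have hZval : (Z ∪ SN).val = Z.val + SN.val := union_val_of_disjoint hZSN
  obtain ⟨Sc, hSc⟩ : ∃ Sc : Finset V, Sw.val + S₁.val + (Z ∪ SN).val = Sc.val := by
    have e1 : Sw.val + S₁.val + (Z ∪ SN).val ≤ (univ : Finset V).val := by
      rw [← hSw, add_assoc (A₀.val + A₁.val), hRoRe, hZval, ← hR, hm0, hm1]
      have e2 : ∑ i, ({x i} : Multiset V) + mS + Z.val + (SN.val + S₁.val + S₂.val + S₃.val) +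
          (A₀.val + A₁.val) + R.val = (A₀.val + A₁.val + R.val + S₁.val + (Z.val + SN.val)) +
            (∑ i, ({x i} : Multiset V) + mS + S₂.val + S₃.val) := by abel
      rw [e2]
      exact Multiset.le_add_right _ _
    exact ⟨⟨_, Multiset.nodup_of_le e1 (univ : Finset V).nodup⟩, rfl⟩
  have hComp := Lk.comp hW' hL1' hNet' hSc
  -- step 13: segments
  obtain ⟨Sf, hSf⟩ : ∃ Sf : Finset V, Sc.val + S₂.val + S₃.val = Sf.val := by
    have e1 : Sc.val + S₂.val + S₃.val ≤ (univ : Finset V).val := by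
      rw [← hSc, ← hSw, add_assoc (A₀.val + A₁.val), hRoRe, hZval, ← hR, hm0, hm1]
      have e2 : ∑ i, ({x i} : Multiset V) + mS + Z.val + (SN.val + S₁.val + S₂.val + S₃.val) +
          (A₀.val + A₁.val) + R.val = (A₀.val + A₁.val + R.val + S₁.val + (Z.val + SN.val) +
            S₂.val + S₃.val) + (∑ i, ({x i} : Multiset V) + mS) := by abel
      rw [e2]
      exact Multiset.le_add_right _ _
    exact ⟨⟨_, Multiset.nodup_of_le e1 (univ : Finset V).nodup⟩, rfl⟩
  have hSeg := segments g hp.hg s t' σ₀ O _ _ qf hComp hL2 hL3 hSf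
  -- step 14: assembly
  refine assemble G t x y hxy Sf l _ ?_ hSeg ?_
  · intro r
    have e1 := hp.hl r
    simp only [sum_const, card_univ, Fintype.card_fin, smul_eq_mul]
    rw [← hnn] at e1
    have e2 : 2 * κ + 3 + q + nn + q = 2 * κ + 3 + 2 * q + nn := by ring
    rw [e2]
    exact e1
  · change ∑ i, ({x i} : Multiset V) + mS + Sf.val = _
    rw [← hSf, ← hSc, ← hSw, add_assoc (A₀.val + A₁.val), hRoRe, hZval, ← hR, hm0, hm1]
    abel

end Pool.Agent.HD
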