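import Pool.Agent.HD.Defs
import Pool.Agent.Helper43.FP.Ext

/-!
MP_134267_co, row M5a (helper43): Friedman-Pippenger step and the link lemma.
-/

namespace Pool.Agent.HD

open Finset

theorem nb_sub {V : Type} [DecidableEq V] (G : SimpleGraph V) (W : Finset V) (x : V) :
    nb G W x ⊆ W := by
  classical
  intro y hy
  exact (Finset.mem_filter.1 hy).1

theorem mem_nb {V : Type} [DecidableEq V] {G : SimpleGraph V} {W : Finset V} {x y : V} :
    y ∈ nb G W x ↔ y ∈ W ∧ G.Adj x y := by
  classical
  exact Finset.mem_filter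

theorem FPState.good' {V : Type} [DecidableEq V] {G : SimpleGraph V} {W : Finset V} {m : ℕ}
    {U : Finset V} {r : V → ℕ} (hs : FPState G W m U r) :
    Helper43.FP.Good (nb G W) (2 * m) U r := hs.good

theorem FPState.step {V : Type} [DecidableEq V] {G : SimpleGraph V} {W : Finset V} {m h K : ℕ}
    (hc : FPCtx G W m h K) {U : Finset V} {r : V → ℕ} (hs : FPState G W m U r)
    (hcap : (U ∩ W).card ≤ K) {s : V} (hsU : s ∈ U) (hr : 1 ≤ r s) :
    ∃ y, y ∉ U ∧ G.Adj s y ∧
      FPState G W m (insert y U) (Function.update r s (r s - 1)) := by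
  have hm := hc.hm
  obtain ⟨y, hy1, hy2, hy3⟩ := hs.good'.extend (m := m + 1) (by omega) (by omega) (by omega)
    (by
      intro X hX1 hX2
      have h1 := hc.big X (by omega) hX1
      have h2 : ∑ x ∈ X, r x ≤ 3 * X.card := by
        calc ∑ x ∈ X, r x ≤ ∑ _x ∈ X, 3 := Finset.sum_le_sum fun x _ => hs.r3 x
          _ = 3 * X.card := by rw [Finset.sum_const, smul_eq_mul, mul_comm]
      have h3 : (X.biUnion (nb G W)).card ≤ (Helper43.FP.nb (nb G W) X \ U).card + (U ∩ W).card := by
        have h4 : X.biUnion (nb G W) ⊆ (Helper43.FP.nb (nb G W) X \ U) ∪ (U ∩ W) := by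
          intro z hz
          have hzW : z ∈ W := by
            obtain ⟨x, _, hx⟩ := Finset.mem_biUnion.1 hz
            exact nb_sub G W x hx
          rw [mem_union, mem_sdiff, mem_inter]
          by_cases hzU : z ∈ U
          · exact Or.inr ⟨hzU, hzW⟩
          · exact Or.inl ⟨hz, hzU⟩
        exact le_trans (Finset.card_le_card h4) (Finset.card_union_le _ _)
      omega) s hr
  rw [mem_nb] at hy1
  refine ⟨y, hy2, hy1.2, ⟨?_, ?_, ?_, hy3⟩⟩
  · intro x hx
    exact mem_insert_of_mem (hs.out x hx)
  · intro x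
    by_cases hx : x = s
    · subst hx
      rw [Function.update_self]
      have := hs.r3 x
      omega
    · rw [Function.update_of_ne hx]
      exact hs.r3 x
  · intro x hx
    rw [mem_insert, not_or] at hx
    rw [Function.update_of_ne]
    · exact hs.r2 x hx.2
    · rintro rfl; exact hx.2 hsU

/-- state with history: `par y` is the parent of the new vertex `y ∈ U' \ U` -/
structure TS {V : Type} [DecidableEq V] (G : SimpleGraph V) (W : Finset V) (m : ℕ)
    (U : Finset V) (r : V → ℕ) (U' : Finset V) (par : V → V) (r' : V → ℕ) : Prop where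
  st : FPState G W m U' r'
  sub : U ⊆ U'
  adj : ∀ y ∈ U', y ∉ U → G.Adj (par y) y
  cnt : ∀ x, r' x + ((U' \ U).filter fun y => par y = x).card = r x

theorem TS.refl {V : Type} [DecidableEq V] {G : SimpleGraph V} {W : Finset V} {m : ℕ}
    {U : Finset V} {r : V → ℕ} (hs : FPState G W m U r) (par : V → V) :
    TS G W m U r U par r :=
  ⟨hs, Finset.Subset.refl _, fun y hy hy' => absurd hy hy', fun x => by simp⟩

theorem TS.step {V : Type} [DecidableEq V] {G : SimpleGraph V} {W : Finset V} {m h K : ℕ}
    (hc : FPCtx G W m h K) {U : Finset V} {r : V → ℕ} {U' : Finset V} {par : V → V} {r' : V → ℕ}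
    (ht : TS G W m U r U' par r') (hcap : (U' ∩ W).card ≤ K) {s : V} (hsU : s ∈ U')
    (hr : 1 ≤ r' s) :
    ∃ y, y ∉ U' ∧ TS G W m U r (insert y U') (Function.update par y s)
      (Function.update r' s (r' s - 1)) := by
  obtain ⟨y, hy1, hy2, hy3⟩ := ht.st.step hc hcap hsU hr
  have hyU : y ∉ U := fun hy => hy1 (ht.sub hy)
  refine ⟨y, hy1, ⟨hy3, ?_, ?_, ?_⟩⟩
  · exact fun x hx => mem_insert_of_mem (ht.sub hx)
  · intro x hx hxU
    by_cases hxy : x = y
    · subst hxy
      rw [Function.update_self]
      exact hy2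
    · rw [Function.update_of_ne hxy]
      exact ht.adj x (by rw [mem_insert] at hx; tauto) hxU
  · intro x
    have h1 := ht.cnt x
    have hset : (insert y U' \ U) = insert y (U' \ U) := by
      ext z; simp only [mem_sdiff, mem_insert]
      constructor
      · rintro ⟨h1 | h1, h2⟩
        · exact Or.inl h1
        · exact Or.inr ⟨h1, h2⟩
      · rintro (h1 | h1)
        · subst h1; exact ⟨Or.inl rfl, hyU⟩
        · exact ⟨Or.inr h1.1, h1.2⟩
    have hynot : y ∉ U' \ U := fun hy => hy1 (mem_sdiff.1 hy).1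
    have hfil : ((U' \ U).filter fun z => Function.update par y s z = x)
        = (U' \ U).filter fun z => par z = x := by
      apply Finset.filter_congr
      intro z hz
      rw [Function.update_of_ne]
      rintro rfl; exact hynot hz
    rw [hset, Finset.filter_insert, Function.update_self, hfil]
    by_cases hx : s = x
    · subst hx
      rw [if_pos rfl, Function.update_self, Finset.card_insert_of_notMem]
      · omega
      · intro hmem
        exact hynot (Finset.mem_filter.1 hmem).1
    · rw [if_neg hx, Function.update_of_ne (Ne.symm hx)]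
      exact h1

/-- rollback to the vertices of a list on which `par` is injective -/
theorem TS.back {V : Type} [DecidableEq V] {G : SimpleGraph V} {W : Finset V} {m : ℕ}
    {U : Finset V} {r : V → ℕ} {U' : Finset V} {par : V → V} {r' : V → ℕ}
    (hs : FPState G W m U r) (ht : TS G W m U r U' par r') (I : List V) {a b : V} (ha : a ∈ U) (hb : b ∈ U)
    (hI : ∀ x ∈ I, x ∈ U' ∧ x ∉ U) (hpar : ∀ x ∈ I, par x = a ∨ par x = b ∨ par x ∈ I)
    (hinj : ∀ x ∈ I, ∀ y ∈ I, par x = par y → x = y) :
    FPState G W m (U ∪ I.toFinset)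
      (fun x => if x ∈ I then 1 else if x = a ∨ x = b then r x - 1 else r x) := by
  have hsub : U ∪ I.toFinset ⊆ U' := by
    intro x hx
    rw [mem_union, List.mem_toFinset] at hx
    rcases hx with hx | hx
    · exact ht.sub hx
    · exact (hI x hx).1
  refine ⟨?_, ?_, ?_, ?_⟩
  · intro x hx
    exact mem_union_left _ (hs.out x hx)
  · intro x
    have := hs.r3 x
    split_ifs <;> omega
  · intro x hx
    rw [mem_union, not_or, List.mem_toFinset] at hx
    rw [if_neg hx.2, if_neg, hs.r2 x hx.1]
    rintro (rfl | rfl)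
    · exact hx.1 ha
    · exact hx.1 hb
  · refine ht.st.good'.rollback (W'' := U ∪ I.toFinset) hsub par ?_ ?_
    · intro y hy
      rw [mem_sdiff, mem_union, not_or] at hy
      rw [mem_nb]
      refine ⟨?_, ht.adj y hy.1 hy.2.1⟩
      by_contra hyW
      exact hy.2.1 (hs.out y hyW)
    · intro x
      have h1 := ht.cnt x
      have h2 : ((U' \ U).filter fun y => par y = x).card
          = ((U' \ (U ∪ I.toFinset)).filter fun y => par y = x).card
            + (I.toFinset.filter fun y => par y = x).card := by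
        rw [← Finset.card_union_of_disjoint]
        · congr 1
          ext z
          simp only [mem_filter, mem_sdiff, mem_union, List.mem_toFinset]
          constructor
          · rintro ⟨⟨h1, h2⟩, h3⟩
            by_cases hz : z ∈ I
            · exact Or.inr ⟨hz, h3⟩
            · exact Or.inl ⟨⟨h1, by tauto⟩, h3⟩
          · rintro (⟨⟨h1, h2⟩, h3⟩ | ⟨h1, h2⟩)
            · exact ⟨⟨h1, by tauto⟩, h3⟩
            · exact ⟨hI z h1, h2⟩
        · rw [Finset.disjoint_left]
          intro z hz hz'
          simp only [mem_filter, mem_sdiff, mem_union, List.mem_toFinset] at hz hz'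
          tauto
      have h3 : (I.toFinset.filter fun y => par y = x).card ≤ 1 := by
        rw [Finset.card_le_one]
        intro y hy z hz
        rw [mem_filter, List.mem_toFinset] at hy hz
        exact hinj y hy.1 z hz.1 (hy.2.trans hz.2.symm)
      have h4 : x ∉ I → ¬ (x = a ∨ x = b) → (I.toFinset.filter fun y => par y = x).card = 0 := by
        intro hx1 hx2
        rw [Finset.card_eq_zero, Finset.filter_eq_empty_iff]
        intro y hy hyx
        rw [List.mem_toFinset] at hy
        rcases hpar y hy with h | h | h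
        · exact hx2 (Or.inl (hyx.symm.trans h))
        · exact hx2 (Or.inr (hyx.symm.trans h))
        · exact hx1 (hyx ▸ h)
      split_ifs with hx1 hx2
      · have h5 : r x = 2 := hs.r2 x (hI x hx1).2
        omega
      · omega
      · have := h4 hx1 hx2
        omega

/-- `PE par s J e`: from `s` through the vertices of `J` to `e`, every vertex being the parent of the
next one -/
def PE {V : Type} (par : V → V) : V → List V → V → Prop
  | s, [], e => s = e
  | s, y :: J, e => par y = s ∧ PE par y J e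

theorem PE.congr {V : Type} {par par' : V → V} {J : List V} :
    ∀ {s e : V}, (∀ x ∈ J, par' x = par x) → PE par s J e → PE par' s J e := by
  induction J with
  | nil => intro s e _ h; exact h
  | cons y J ih =>
    intro s e hp h
    refine ⟨?_, ih (fun x hx => hp x (List.mem_cons_of_mem _ hx)) h.2⟩
    rw [hp y List.mem_cons_self]
    exact h.1

theorem PE.append {V : Type} {par : V → V} {J K : List V} :
    ∀ {s e f : V}, PE par s J e → PE par e K f → PE par s (J ++ K) f := by
  induction J with
  | nil =>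
    intro s e f h h'
    have h1 : s = e := h
    subst h1
    exact h'
  | cons y J ih =>
    intro s e f h h'
    exact ⟨h.1, ih h.2 h'⟩

theorem PE.par_mem {V : Type} {par : V → V} {J : List V} :
    ∀ {s e : V}, PE par s J e → ∀ x ∈ J, par x = s ∨ par x ∈ J := by
  induction J with
  | nil => intro s e _ x hx; exact absurd hx List.not_mem_nil
  | cons y J ih =>
    intro s e h x hx
    rw [List.mem_cons] at hx
    rcases hx with rfl | hx
    · exact Or.inl h.1
    · rcases ih h.2 x hx with h1 | h1
      · exact Or.inr (h1 ▸ List.mem_cons_self)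
      · exact Or.inr (List.mem_cons_of_mem _ h1)

theorem PE.inj {V : Type} {par : V → V} {J : List V} :
    ∀ {s e : V}, PE par s J e → (s :: J).Nodup → ∀ x ∈ J, ∀ y ∈ J, par x = par y → x = y := by
  induction J with
  | nil => intro s e _ _ x hx; exact absurd hx List.not_mem_nil
  | cons z J ih =>
    intro s e h hn x hx y hy hxy
    rw [List.nodup_cons] at hn
    rw [List.mem_cons] at hx hy
    rcases hx with rfl | hx
    · rcases hy with rfl | hy
      · rfl
      · exfalso
        apply hn.1
        have h1 := h.1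
        rw [← h1, hxy, List.mem_cons]
        exact PE.par_mem h.2 y hy
    · rcases hy with rfl | hy
      · exfalso
        apply hn.1
        have h1 := h.1
        rw [← h1, ← hxy, List.mem_cons]
        exact PE.par_mem h.2 x hx
      · exact ih h.2 hn.2 x hx y hy hxy

theorem PE.chain {V : Type} {G : SimpleGraph V} {par : V → V} {J : List V} :
    ∀ {s e : V}, PE par s J e → (∀ x ∈ J, G.Adj (par x) x) →
      (s :: J).IsChain G.Adj ∧ (s :: J).getLast? = some e := by
  induction J with
  | nil =>
    intro s e h _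
    have h1 : s = e := h
    subst h1
    exact ⟨List.isChain_singleton _, rfl⟩
  | cons y J ih =>
    intro s e h ha
    have h1 := ih h.2 (fun x hx => ha x (List.mem_cons_of_mem _ hx))
    refine ⟨?_, ?_⟩
    · rw [List.isChain_cons_cons]
      refine ⟨?_, h1.1⟩
      have := ha y List.mem_cons_self
      rw [h.1] at this
      exact this
    · rw [List.getLast?_cons_cons]
      exact h1.2

theorem card_insert_inter_le {V : Type} [DecidableEq V] (y : V) (U W : Finset V) :
    (insert y U ∩ W).card ≤ (U ∩ W).card + 1 := by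
  calc (insert y U ∩ W).card ≤ (insert y (U ∩ W)).card := by
        apply Finset.card_le_card
        intro z hz
        rw [mem_inter, mem_insert] at hz
        rw [mem_insert, mem_inter]
        tauto
    _ ≤ (U ∩ W).card + 1 := Finset.card_insert_le _ _

theorem TS.path {V : Type} [DecidableEq V] {G : SimpleGraph V} {W : Finset V} {m h K : ℕ}
    (hc : FPCtx G W m h K) {U : Finset V} {r : V → ℕ} (p : ℕ) :
    ∀ {U' : Finset V} {par : V → V} {r' : V → ℕ}, TS G W m U r U' par r' →
    ∀ {s : V}, s ∈ U' → 1 ≤ r' s → (U' ∩ W).card + p ≤ K →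
    ∃ (J : List V) (U'' : Finset V) (par'' : V → V) (r'' : V → ℕ) (e : V),
      TS G W m U r U'' par'' r'' ∧ U' ⊆ U'' ∧ (∀ x ∈ U', par'' x = par x) ∧
      (∀ x ∈ U', x ≠ s → r'' x = r' x) ∧ (U'' ∩ W).card ≤ (U' ∩ W).card + (p + 1) ∧
      J.length = p + 1 ∧ PE par'' s J e ∧ J.Nodup ∧ (∀ x ∈ J, x ∈ U'' ∧ x ∉ U') ∧
      e ∈ U'' ∧ e ∉ U' ∧ r'' e = 2 := by
  induction p with
  | zero =>
    intro U' par r' ht s hs hr hcap
    obtain ⟨y, hy, ht1⟩ := ht.step hc (by omega) hs hr
    have hys : y ≠ s := by rintro rfl; exact hy hs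
    refine ⟨[y], insert y U', Function.update par y s, Function.update r' s (r' s - 1), y, ht1,
      Finset.subset_insert _ _, ?_, ?_, card_insert_inter_le _ _ _, rfl, ?_,
      List.nodup_singleton _, ?_, mem_insert_self _ _, hy, ?_⟩
    · intro x hx
      rw [Function.update_of_ne]
      rintro rfl; exact hy hx
    · intro x _ hxs
      rw [Function.update_of_ne hxs]
    · exact ⟨Function.update_self _ _ _, rfl⟩
    · intro x hx
      rw [List.mem_singleton] at hx
      subst hx
      exact ⟨mem_insert_self _ _, hy⟩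
    · rw [Function.update_of_ne hys]
      exact ht.st.r2 y hy
  | succ p ih =>
    intro U' par r' ht s hs hr hcap
    obtain ⟨y, hy, ht1⟩ := ht.step hc (by omega) hs hr
    have hys : y ≠ s := by rintro rfl; exact hy hs
    have hcard := card_insert_inter_le y U' W
    have hry : Function.update r' s (r' s - 1) y = 2 := by
      rw [Function.update_of_ne hys]
      exact ht.st.r2 y hy
    obtain ⟨J, U'', par'', r'', e, h1, h2, h3, h4, h5, h6, h7, h8, h9, h10, h11, h12⟩ :=
      ih ht1 (mem_insert_self y U') (by rw [hry]; omega) (by omega)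
    refine ⟨y :: J, U'', par'', r'', e, h1, fun x hx => h2 (mem_insert_of_mem hx), ?_, ?_, ?_, ?_,
      ?_, ?_, ?_, h10, fun he => h11 (mem_insert_of_mem he), h12⟩
    · intro x hx
      rw [h3 x (mem_insert_of_mem hx), Function.update_of_ne]
      rintro rfl; exact hy hx
    · intro x hx hxs
      rw [h4 x (mem_insert_of_mem hx) (by rintro rfl; exact hy hx), Function.update_of_ne hxs]
    · omega
    · rw [List.length_cons, h6]
    · refine ⟨?_, h7⟩
      rw [h3 y (mem_insert_self _ _), Function.update_self]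
    · rw [List.nodup_cons]
      exact ⟨fun hyJ => (h9 y hyJ).2 (mem_insert_self _ _), h8⟩
    · intro x hx
      rw [List.mem_cons] at hx
      rcases hx with rfl | hx
      · exact ⟨h2 (mem_insert_self _ _), hy⟩
      · exact ⟨(h9 x hx).1, fun hxU => (h9 x hx).2 (mem_insert_of_mem hxU)⟩

theorem TS.tree {V : Type} [DecidableEq V] {G : SimpleGraph V} {W : Finset V} {m h K : ℕ}
    (hc : FPCtx G W m h K) {U : Finset V} {r : V → ℕ} (g : ℕ) :
    ∀ {U' : Finset V} {par : V → V} {r' : V → ℕ}, TS G W m U r U' par r' →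
    ∀ {s : V}, s ∈ U' → r' s = 2 → (U' ∩ W).card + 2 ^ (g + 1) ≤ K + 2 →
    ∃ (L : Finset V) (U'' : Finset V) (par'' : V → V) (r'' : V → ℕ),
      TS G W m U r U'' par'' r'' ∧ U' ⊆ U'' ∧ (∀ x ∈ U', par'' x = par x) ∧
      (∀ x ∈ U', x ≠ s → r'' x = r' x) ∧ (U'' ∩ W).card + 2 ≤ (U' ∩ W).card + 2 ^ (g + 1) ∧
      L.card = 2 ^ g ∧ L ⊆ U'' ∧ (∀ y ∈ L, y = s ∨ y ∉ U') ∧
      ∀ y ∈ L, ∃ J : List V, J.length = g ∧ PE par'' s J y ∧ J.Nodup ∧
        ∀ x ∈ J, x ∈ U'' ∧ x ∉ U' := by
  induction g with
  | zero =>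
    intro U' par r' ht s hs hr hcap
    refine ⟨{s}, U', par, r', ht, Finset.Subset.refl _, fun _ _ => rfl, fun _ _ _ => rfl, by omega,
      by rw [Finset.card_singleton]; rfl, ?_, ?_, ?_⟩
    · intro x hx
      rw [mem_singleton] at hx
      subst hx; exact hs
    · intro y hy
      rw [mem_singleton] at hy
      exact Or.inl hy
    · intro y hy
      rw [mem_singleton] at hy
      subst hy
      exact ⟨[], rfl, rfl, List.nodup_nil, fun x hx => absurd hx List.not_mem_nil⟩
  | succ g ih =>
    intro U' par r' ht s hs hr hcap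
    have hpow : 2 ^ (g + 1 + 1) = 2 ^ (g + 1) + 2 ^ (g + 1) := by ring
    have hpow2 : 2 ≤ 2 ^ (g + 1) := by
      have : 0 < 2 ^ g := by positivity
      have : 2 ^ (g + 1) = 2 * 2 ^ g := by ring
      omega
    obtain ⟨y, hy, ht1⟩ := ht.step hc (by omega) hs (by omega)
    have hys : y ≠ s := by rintro rfl; exact hy hs
    have hcard := card_insert_inter_le y U' W
    have hr1s : Function.update r' s (r' s - 1) s = 1 := by
      rw [Function.update_self]; omega
    have hr1y : Function.update r' s (r' s - 1) y = 2 := by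
      rw [Function.update_of_ne hys]; exact ht.st.r2 y hy
    obtain ⟨z, hz, ht2⟩ := ht1.step hc (by omega) (mem_insert_of_mem hs) (by omega)
    have hzs : z ≠ s := by rintro rfl; exact hz (mem_insert_of_mem hs)
    have hzy : z ≠ y := by rintro rfl; exact hz (mem_insert_self _ _)
    have hcard2 := card_insert_inter_le z (insert y U') W
    have hzU : z ∉ U' := fun h => hz (mem_insert_of_mem h)
    generalize hR2 : Function.update (Function.update r' s (r' s - 1)) s
      (Function.update r' s (r' s - 1) s - 1) = R2 at ht2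
    have hR2y : R2 y = 2 := by
      rw [← hR2, Function.update_of_ne hys]; exact hr1y
    have hR2z : R2 z = 2 := by
      rw [← hR2, Function.update_of_ne hzs, Function.update_of_ne hzs]; exact ht.st.r2 z hzU
    have hR2o : ∀ x, x ≠ s → R2 x = r' x := by
      intro x hx
      rw [← hR2, Function.update_of_ne hx, Function.update_of_ne hx]
    generalize hP2 : Function.update (Function.update par y s) z s = P2 at ht2
    have hP2y : P2 y = s := by
      rw [← hP2, Function.update_of_ne hzy.symm, Function.update_self]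
    have hP2z : P2 z = s := by
      rw [← hP2, Function.update_self]
    have hP2o : ∀ x ∈ U', P2 x = par x := by
      intro x hx
      rw [← hP2, Function.update_of_ne, Function.update_of_ne]
      · rintro rfl; exact hy hx
      · rintro rfl; exact hzU hx
    generalize hU2 : insert z (insert y U') = U2 at ht2 hcard2
    have hyU2 : y ∈ U2 := by
      rw [← hU2]; exact mem_insert_of_mem (mem_insert_self _ _)
    have hzU2 : z ∈ U2 := by
      rw [← hU2]; exact mem_insert_self _ _
    have hU'U2 : U' ⊆ U2 := by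
      rw [← hU2]; exact fun x hx => mem_insert_of_mem (mem_insert_of_mem hx)
    obtain ⟨L1, U3, P3, R3, a1, a2, a3, a4, a5, a6, a7, a8, a9⟩ := ih ht2 hyU2 hR2y (by omega)
    have hR3z : R3 z = 2 := by
      rw [a4 z hzU2 hzy]; exact hR2z
    obtain ⟨L2, U4, P4, R4, b1, b2, b3, b4, b5, b6, b7, b8, b9⟩ := ih a1 (a2 hzU2) hR3z (by omega)
    refine ⟨L1 ∪ L2, U4, P4, R4, b1, fun x hx => b2 (a2 (hU'U2 hx)), ?_, ?_, by omega, ?_, ?_, ?_,
      ?_⟩
    · intro x hx
      rw [b3 x (a2 (hU'U2 hx)), a3 x (hU'U2 hx), hP2o x hx]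
    · intro x hx hxs
      rw [b4 x (a2 (hU'U2 hx)) (by rintro rfl; exact hzU hx),
        a4 x (hU'U2 hx) (by rintro rfl; exact hy hx), hR2o x hxs]
    · rw [Finset.card_union_of_disjoint, a6, b6]
      · ring
      · rw [Finset.disjoint_left]
        intro x hx1 hx2
        rcases b8 x hx2 with h | h
        · subst h
          rcases a8 x hx1 with h | h
          · exact hzy h
          · exact h hzU2
        · exact h (a7 hx1)
    · intro x hx
      rw [mem_union] at hx
      rcases hx with hx | hx
      · exact b2 (a7 hx)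
      · exact b7 hx
    · intro x hx
      right
      rw [mem_union] at hx
      rcases hx with hx | hx
      · rcases a8 x hx with h | h
        · subst h; exact hy
        · exact fun h' => h (hU'U2 h')
      · rcases b8 x hx with h | h
        · subst h; exact hzU
        · exact fun h' => h (a2 (hU'U2 h'))
    · intro x hx
      rw [mem_union] at hx
      rcases hx with hx | hx
      · obtain ⟨J, j1, j2, j3, j4⟩ := a9 x hx
        refine ⟨y :: J, by rw [List.length_cons, j1], ⟨?_, ?_⟩, ?_, ?_⟩
        · rw [b3 y (a2 hyU2), a3 y hyU2, hP2y]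
        · exact j2.congr (fun w hw => b3 w (j4 w hw).1)
        · rw [List.nodup_cons]
          exact ⟨fun hyJ => (j4 y hyJ).2 hyU2, j3⟩
        · intro w hw
          rw [List.mem_cons] at hw
          rcases hw with rfl | hw
          · exact ⟨b2 (a2 hyU2), hy⟩
          · exact ⟨b2 (j4 w hw).1, fun h' => (j4 w hw).2 (hU'U2 h')⟩
      · obtain ⟨J, j1, j2, j3, j4⟩ := b9 x hx
        refine ⟨z :: J, by rw [List.length_cons, j1], ⟨?_, j2⟩, ?_, ?_⟩
        · rw [b3 z (a2 hzU2), a3 z hzU2, hP2z]
        · rw [List.nodup_cons]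
          exact ⟨fun hzJ => (j4 z hzJ).2 (a2 hzU2), j3⟩
        · intro w hw
          rw [List.mem_cons] at hw
          rcases hw with rfl | hw
          · exact ⟨b2 (a2 hzU2), hzU⟩
          · exact ⟨(j4 w hw).1, fun h' => (j4 w hw).2 (a2 (hU'U2 h'))⟩

theorem FPState.link {V : Type} [DecidableEq V] {G : SimpleGraph V} {W : Finset V} {m h K : ℕ}
    (hc : FPCtx G W m h K) {U : Finset V} {r : V → ℕ} (hs : FPState G W m U r) {q : ℕ}
    (hq : 2 * h + 2 ≤ q) (hcap : (U ∩ W).card + q + 2 ^ (h + 2) ≤ K)
    {a b : V} (ha : a ∈ U) (hb : b ∈ U) (hab : a ≠ b) (hra : 1 ≤ r a) (hrb : 1 ≤ r b) :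
    ∃ I : List V, (a :: (I ++ [b])).IsChain G.Adj ∧ I.length = q ∧ I.Nodup ∧
      (∀ x ∈ I, x ∉ U) ∧
      FPState G W m (U ∪ I.toFinset)
        (fun x => if x ∈ I then 1 else if x = a ∨ x = b then r x - 1 else r x) := by
  have hpow : 2 ^ (h + 2) = 2 ^ (h + 1) + 2 ^ (h + 1) := by ring
  have hpow1 : 2 ≤ 2 ^ (h + 1) := by
    have : 0 < 2 ^ h := by positivity
    have : 2 ^ (h + 1) = 2 * 2 ^ h := by ring
    omega
  obtain ⟨J1, U1, P1, R1, e, a1, a2, a3, a4, a5, a6, a7, a8, a9, a10, a11, a12⟩ :=
    (TS.refl hs id).path hc (q - 2 * h - 2) ha hra (by omega)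
  obtain ⟨L1, U2, P2, R2, b1, b2, b3, b4, b5, b6, b7, b8, b9⟩ :=
    a1.tree hc h a10 a12 (by omega)
  have hbU1 : b ∈ U1 := a2 hb
  have hbU2 : b ∈ U2 := b2 hbU1
  have hbe : b ≠ e := by rintro rfl; exact a11 hb
  have hR2b : R2 b = r b := by rw [b4 b hbU1 hbe, a4 b hb hab.symm]
  obtain ⟨J2, U3, P3, R3, f, c1, c2, c3, c4, c5, c6, c7, c8, c9, c10, c11, c12⟩ :=
    b1.path hc 0 hbU2 (by omega) (by omega)
  obtain ⟨L2, U4, P4, R4, d1, d2, d3, d4, d5, d6, d7, d8, d9⟩ :=
    c1.tree hc h c10 c12 (by omega)
  -- the leaves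
  have hL1U : ∀ x ∈ L1, x ∉ U := by
    intro x hx
    rcases b8 x hx with h1 | h1
    · subst h1; exact a11
    · exact fun h' => h1 (a2 h')
  have hL2U2 : ∀ x ∈ L2, x ∉ U2 := by
    intro x hx
    rcases d8 x hx with h1 | h1
    · subst h1; exact c11
    · exact fun h' => h1 (c2 h')
  have hinW : ∀ x, x ∉ U → x ∈ W := by
    intro x hx
    by_contra hxW
    exact hx (hs.out x hxW)
  obtain ⟨y, hy, z, hz, hyz⟩ := hc.join L1 (fun x hx => hinW x (hL1U x hx)) L2
    (fun x hx => hinW x (fun h' => hL2U2 x hx (b2 (a2 h')))) (by rw [b6]; exact hc.hmh)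
    (by rw [d6]; exact hc.hmh) (by
      rw [Finset.disjoint_left]
      intro x hx hx'
      exact hL2U2 x hx' (b7 hx))
  obtain ⟨K1, k1, k2, k3, k4⟩ := b9 y hy
  obtain ⟨K2, l1, l2, l3, l4⟩ := d9 z hz
  -- the two paths in terms of P4
  have hA : PE P4 a (J1 ++ K1) y := by
    refine PE.append (e := e) ?_ ?_
    · refine (a7.congr (fun x hx => b3 x (a9 x hx).1)).congr (fun x hx => ?_)
      rw [d3 x (c2 (b2 (a9 x hx).1)), c3 x (b2 (a9 x hx).1)]
    · refine k2.congr (fun x hx => ?_)
      rw [d3 x (c2 (k4 x hx).1), c3 x (k4 x hx).1]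
  have hB : PE P4 b (J2 ++ K2) z := by
    refine PE.append (e := f) (c7.congr (fun x hx => d3 x (c9 x hx).1)) l2
  have hAmem : ∀ x ∈ J1 ++ K1, x ∈ U2 ∧ x ∉ U := by
    intro x hx
    rw [List.mem_append] at hx
    rcases hx with hx | hx
    · exact ⟨b2 (a9 x hx).1, (a9 x hx).2⟩
    · exact ⟨(k4 x hx).1, fun h' => (k4 x hx).2 (a2 h')⟩
  have hBmem : ∀ x ∈ J2 ++ K2, x ∈ U4 ∧ x ∉ U2 := by
    intro x hx
    rw [List.mem_append] at hx
    rcases hx with hx | hx
    · exact ⟨d2 (c9 x hx).1, (c9 x hx).2⟩
    · exact ⟨(l4 x hx).1, fun h' => (l4 x hx).2 (c2 h')⟩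
  have hAn : (a :: (J1 ++ K1)).Nodup := by
    rw [List.nodup_cons, List.nodup_append]
    refine ⟨fun h' => (hAmem a h').2 ha, a8, k3, ?_⟩
    intro x hx x' hx' hxx
    subst hxx
    exact (k4 x hx').2 (a9 x hx).1
  have hBn : (b :: (J2 ++ K2)).Nodup := by
    rw [List.nodup_cons, List.nodup_append]
    refine ⟨fun h' => (hBmem b h').2 hbU2, c8, l3, ?_⟩
    intro x hx x' hx' hxx
    subst hxx
    exact (l4 x hx').2 (c9 x hx).1
  generalize hAA : J1 ++ K1 = A at hA hAmem hAn
  generalize hBB : J2 ++ K2 = B at hB hBmem hBn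
  have hAU4 : ∀ x ∈ A, x ∈ U4 ∧ x ∉ U := fun x hx => ⟨d2 (c2 (hAmem x hx).1), (hAmem x hx).2⟩
  have hBU4 : ∀ x ∈ B, x ∈ U4 ∧ x ∉ U := fun x hx =>
    ⟨(hBmem x hx).1, fun h' => (hBmem x hx).2 (b2 (a2 h'))⟩
  have hdisj : ∀ x ∈ A, x ∉ B := fun x hx hx' => (hBmem x hx').2 (hAmem x hx).1
  have hmemI : ∀ x, x ∈ A ++ B.reverse ↔ x ∈ A ∨ x ∈ B := by
    intro x
    rw [List.mem_append, List.mem_reverse]
  have hcA := hA.chain (G := G) (fun x hx => d1.adj x (hAU4 x hx).1 (hAU4 x hx).2)
  have hcB := hB.chain (G := G) (fun x hx => d1.adj x (hBU4 x hx).1 (hBU4 x hx).2)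
  refine ⟨A ++ B.reverse, ?_, ?_, ?_, ?_, ?_⟩
  · have e1 : a :: (A ++ B.reverse ++ [b]) = (a :: A) ++ (b :: B).reverse := by
      rw [List.reverse_cons, List.cons_append, List.append_assoc]
    rw [e1, List.isChain_append]
    refine ⟨hcA.1, ?_, ?_⟩
    · rw [List.isChain_reverse]
      refine hcB.1.imp ?_
      intro u v huv
      exact huv.symm
    · intro u hu v hv
      rw [hcA.2, Option.mem_some_iff] at hu
      rw [List.head?_reverse, hcB.2, Option.mem_some_iff] at hv
      rw [← hu, ← hv]
      exact hyz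
  · rw [List.length_append, List.length_reverse, ← hAA, ← hBB, List.length_append,
      List.length_append, a6, k1, c6, l1]
    omega
  · rw [List.nodup_append]
    refine ⟨(List.nodup_cons.1 hAn).2, List.nodup_reverse.2 (List.nodup_cons.1 hBn).2, ?_⟩
    intro x hx x' hx' hxx
    subst hxx
    rw [List.mem_reverse] at hx'
    exact hdisj x hx hx'
  · intro x hx
    rcases (hmemI x).1 hx with hx | hx
    · exact (hAU4 x hx).2
    · exact (hBU4 x hx).2
  · refine d1.back hs (A ++ B.reverse) ha hb ?_ ?_ ?_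
    · intro x hx
      rcases (hmemI x).1 hx with hx | hx
      · exact hAU4 x hx
      · exact hBU4 x hx
    · intro x hx
      rcases (hmemI x).1 hx with hx | hx
      · rcases hA.par_mem x hx with h1 | h1
        · exact Or.inl h1
        · exact Or.inr (Or.inr ((hmemI _).2 (Or.inl h1)))
      · rcases hB.par_mem x hx with h1 | h1
        · exact Or.inr (Or.inl h1)
        · exact Or.inr (Or.inr ((hmemI _).2 (Or.inr h1)))
    · have cross : ∀ x ∈ A, ∀ x' ∈ B, P4 x ≠ P4 x' := by
        intro x hx x' hx' heq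
        rcases hA.par_mem x hx with h1 | h1
        · rcases hB.par_mem x' hx' with h2 | h2
          · exact hab (h1.symm.trans (heq.trans h2))
          · rw [← heq, h1] at h2
            exact (hBU4 a h2).2 ha
        · rcases hB.par_mem x' hx' with h2 | h2
          · rw [heq, h2] at h1
            exact (hAU4 b h1).2 hb
          · rw [← heq] at h2
            exact hdisj _ h1 h2
      intro x hx x' hx' heq
      rcases (hmemI x).1 hx with hx | hx
      · rcases (hmemI x').1 hx' with hx' | hx'
        · exact hA.inj hAn x hx x' hx' heq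
        · exact absurd heq (cross x hx x' hx')
      · rcases (hmemI x').1 hx' with hx' | hx'
        · exact absurd heq.symm (cross x' hx' x hx)
        · exact hB.inj hBn x hx x' hx' heq

end Pool.Agent.HD
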