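import Pool.Agent.HD.Defs
import Pool.Agent.Exp.Spec

/-!
MP_134267_co, Theorem HD: the literal definition of an (n, d, lam)-graph implies `IsNDL`.
-/

set_option autoImplicit false

namespace Pool.Agent.HD

open Finset

/-- the literal definition: `d`-regular, and every root of the characteristic polynomial of the adjacency matrix other
than `d` (counted once) has absolute value at most `lam` -/
theorem IsNDL.of_literal {V : Type} [Fintype V] [DecidableEq V] (G : SimpleGraph V) [DecidableRel G.Adj]
    {d : ℕ} {lam : ℝ} (hreg : G.IsRegularOfDegree d)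
    (hspec : ∀ mu ∈ (G.adjMatrix ℝ).charpoly.roots.erase (d : ℝ), |mu| ≤ lam) : IsNDL G d lam where
  reg := fun v => hreg v
  spec := by
    intro mu x hx0 hx he
    have h : Exp.IsNDL G d lam := ⟨hreg, hspec⟩
    refine h.eigen hx0 hx ?_
    funext u
    rw [← he u]
    simp only [Matrix.mulVec, dotProduct, SimpleGraph.adjMatrix_apply, ite_mul, one_mul, zero_mul]

end Pool.Agent.HD
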