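import Pool.Agent.HD.Defs
import Pool.Agent.Exp.Moment3

/-!
# Row M2 of Theorem HD: the moment bound for Bernoulli restrictions
-/

namespace Pool.Agent.HD

open Finset Matrix

open Classical in
theorem moment_tail {α C : Type} [Fintype α] [DecidableEq α] [Fintype C] [DecidableEq C]
    (W : α → C → ℝ) (K : ℕ) (hK : 1 ≤ K) (i : Fin K) (Λ d : ℝ) (hd0 : 0 ≤ d) (hΛ0 : 0 ≤ Λ)
    (hΛ : ∀ x : C → ℝ, ∑ v, (∑ c, W v c * x c) ^ 2 ≤ Λ * ∑ c, x c ^ 2)
    (hd : ∀ v, ∑ c, W v c ^ 2 ≤ d) (Q : ℕ) (hQ : 1 ≤ Q) :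
    8 ^ Q * ((univ.filter (fun f : α → Fin K => ∃ x : C → ℝ,
        8 * (Λ / K + Q * d) * ∑ c, x c ^ 2 <
          ∑ v ∈ univ.filter (fun v => f v = i), (∑ c, W v c * x c) ^ 2)).card : ℝ) ≤
      (Fintype.card C : ℝ) * (K : ℝ) ^ Fintype.card α := by
  have hK0 : (0 : ℝ) < K := by exact_mod_cast hK
  have hQ0 : (0 : ℝ) < Q := by exact_mod_cast hQ
  set T : ℝ := 8 * (Λ / K + Q * d) with hTdef
  have hT0 : 0 ≤ T := by positivity
  rcases hT0.lt_or_eq with hTpos | hTzero
  · have h := Pool.Agent.Exp.bad_weight_le (V := α) (κ := Fin K) (ι := C)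
      (fun _ => 1 / (K : ℝ)) ∅ {i} (fun _ => W) (fun _ => True) (s := d) (L := Λ) (T := T)
      (fun _ => by positivity) (Finset.disjoint_empty_left _) hd0 hΛ0
      (by
        simp only [Finset.compl_empty, Finset.sum_const, Finset.card_univ, Fintype.card_fin,
          nsmul_eq_mul]
        positivity)
      (fun A _ v _ => by
        refine le_trans (le_of_eq ?_) (hd v)
        simp only [dotProduct, sq])
      (fun A _ x => by
        have h1 : ∑ v ∈ Aᶜ, (W v ⬝ᵥ x) ^ 2 ≤ ∑ v, (∑ c, W v c * x c) ^ 2 :=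
          Finset.sum_le_sum_of_subset_of_nonneg (Finset.subset_univ _) fun v _ _ => sq_nonneg _
        refine (h1.trans (hΛ x)).trans (le_of_eq ?_)
        simp only [dotProduct, sq])
      (q := Q) hQ hTpos
    -- total weight one
    have hw : ∀ f : α → Fin K, Pool.Agent.Exp.cwt (fun _ => 1 / (K : ℝ)) f
        = (1 / (K : ℝ)) ^ Fintype.card α := by
      intro f
      simp [Pool.Agent.Exp.cwt]
    have hG : Pool.Agent.Exp.Gw (V := α) (fun _ : Fin K => 1 / (K : ℝ)) ∅ (fun _ => True) = 1 := by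
      simp only [Pool.Agent.Exp.Gw, if_true, mul_one, hw, Finset.sum_const, Finset.card_univ,
        Fintype.card_fun, Fintype.card_fin, nsmul_eq_mul]
      push_cast
      rw [← mul_pow]
      simp [hK0.ne']
    rw [hG, one_mul] at h
    have hratio : ((∑ k ∈ ({i} : Finset (Fin K)), 1 / (K : ℝ)) / (∑ k ∈ (∅ : Finset (Fin K))ᶜ,
        1 / (K : ℝ)) * Λ + Q * d) / T = 1 / 8 := by
      have e1 : (∑ k ∈ (∅ : Finset (Fin K))ᶜ, 1 / (K : ℝ)) = 1 := by
        simp [hK0.ne']
      rw [e1]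
      simp only [Finset.sum_singleton, div_one]
      have e2 : 1 / (K : ℝ) * Λ + Q * d = Λ / K + Q * d := by ring
      rw [e2, hTdef]
      have e3 : Λ / K + Q * d ≠ 0 := by
        intro h0
        rw [hTdef, h0] at hTpos
        simp at hTpos
      rw [mul_comm (8 : ℝ), ← div_div, div_self e3]
    rw [hratio] at h
    have hlow : (1 / (K : ℝ)) ^ Fintype.card α * ((univ.filter (fun f : α → Fin K => ∃ x : C → ℝ,
        T * ∑ c, x c ^ 2 <
          ∑ v ∈ univ.filter (fun v => f v = i), (∑ c, W v c * x c) ^ 2)).card : ℝ)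
        ≤ ∑ χ : α → Fin K, Pool.Agent.Exp.cwt (fun _ => 1 / (K : ℝ)) χ *
          (if True ∧ ¬ ∀ x : C → ℝ, ∑ v ∈ Pool.Agent.Exp.clsS {i} χ, (W v ⬝ᵥ x) ^ 2
            ≤ T * (x ⬝ᵥ x) then 1 else 0) := by
      simp only [hw]
      rw [← Finset.mul_sum, Finset.sum_boole]
      refine mul_le_mul_of_nonneg_left ?_ (by positivity)
      have : (univ.filter (fun f : α → Fin K => ∃ x : C → ℝ, T * ∑ c, x c ^ 2 <
          ∑ v ∈ univ.filter (fun v => f v = i), (∑ c, W v c * x c) ^ 2))
          ⊆ univ.filter (fun χ : α → Fin K => True ∧ ¬ ∀ x : C → ℝ,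
            ∑ v ∈ Pool.Agent.Exp.clsS {i} χ, (W v ⬝ᵥ x) ^ 2 ≤ T * (x ⬝ᵥ x)) := by
        intro f hf
        rw [Finset.mem_filter] at hf ⊢
        refine ⟨Finset.mem_univ _, trivial, ?_⟩
        obtain ⟨x, hx⟩ := hf.2
        intro hall
        have h1 := hall x
        have e1 : x ⬝ᵥ x = ∑ c, x c ^ 2 := by simp only [dotProduct, sq]
        have e2 : Pool.Agent.Exp.clsS {i} f = univ.filter (fun v => f v = i) := by
          ext v
          simp [Pool.Agent.Exp.clsS]
        rw [e1, e2] at h1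
        exact absurd hx (not_lt.2 h1)
      exact_mod_cast Finset.card_le_card this
    have hfin := hlow.trans h
    have hKp : (0 : ℝ) < (K : ℝ) ^ Fintype.card α := by positivity
    have h8 : (0 : ℝ) < 8 ^ Q := by positivity
    rw [one_div, inv_pow, one_div, inv_pow] at hfin
    rw [inv_mul_le_iff₀ hKp] at hfin
    have h9 := mul_le_mul_of_nonneg_left hfin h8.le
    refine h9.trans (le_of_eq ?_)
    field_simp
  · -- degenerate case
    have hempty : (univ.filter (fun f : α → Fin K => ∃ x : C → ℝ, T * ∑ c, x c ^ 2 <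
        ∑ v ∈ univ.filter (fun v => f v = i), (∑ c, W v c * x c) ^ 2)) = ∅ := by
      rw [Finset.filter_eq_empty_iff]
      rintro f - ⟨x, hx⟩
      have hΛK : Λ / K + Q * d = 0 := by
        have : T = 0 := hTzero.symm
        rw [hTdef] at this
        linarith
      have h1 : 0 ≤ Λ / K := by positivity
      have h2 : 0 ≤ (Q : ℝ) * d := by positivity
      have h3 : Λ / K = 0 := by linarith
      have h4 : Λ = 0 := by
        rcases (div_eq_zero_iff).1 h3 with h | h
        · exact h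
        · exact absurd h hK0.ne'
      have h5 := hΛ x
      rw [h4, zero_mul] at h5
      have h6 : ∑ v ∈ univ.filter (fun v => f v = i), (∑ c, W v c * x c) ^ 2
          ≤ ∑ v, (∑ c, W v c * x c) ^ 2 :=
        Finset.sum_le_sum_of_subset_of_nonneg (Finset.filter_subset _ _) fun v _ _ => sq_nonneg _
      rw [← hTzero, zero_mul] at hx
      linarith
    rw [hempty]
    simp only [Finset.card_empty, Nat.cast_zero, mul_zero]
    positivity

end Pool.Agent.HD
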