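import Pool.Agent.HD.FP

/-!
MP_134267_co, row M5b (helper43): many links at once.
-/

namespace Pool.Agent.HD

open Finset

open Classical in
theorem multi_aux {V ι : Type} [DecidableEq V] [Fintype ι] {G : SimpleGraph V}
    {W : Finset V} {m h K : ℕ}
    (hc : FPCtx G W m h K) {U : Finset V} {r : V → ℕ} (hs : FPState G W m U r) (a b : ι → V)
    (q : ι → ℕ) (hq : ∀ i, 2 * h + 2 ≤ q i)
    (hcap : (U ∩ W).card + ∑ i, q i + 2 ^ (h + 2) ≤ K)
    (ha : ∀ i, a i ∈ U) (hb : ∀ i, b i ∈ U) (hab : ∀ i, a i ≠ b i)
    (hr : ∀ v, (univ.filter (fun i => a i = v)).card + (univ.filter (fun i => b i = v)).card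
      ≤ r v) (s : Finset ι) :
    ∃ (S : Finset V) (I : ι → List V), Disjoint S U ∧ S.card = ∑ i ∈ s, q i ∧
      (∀ i ∈ s, (a i :: (I i ++ [b i])).IsChain G.Adj) ∧ (∀ i ∈ s, (I i).length = q i) ∧
      ∑ i ∈ s, ((I i : List V) : Multiset V) = S.val ∧
      FPState G W m (U ∪ S) (fun x => if x ∈ S then 1 else
        r x - (s.filter (fun i => a i = x)).card - (s.filter (fun i => b i = x)).card) := by
  induction s using Finset.induction_on with
  | empty =>
    refine ⟨∅, fun _ => [], Finset.disjoint_empty_left _, by simp, by simp, by simp, by simp, ?_⟩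
    have e1 : U ∪ ∅ = U := Finset.union_empty U
    rw [e1]
    have e2 : (fun x => if x ∈ (∅ : Finset V) then 1 else
        r x - ((∅ : Finset ι).filter (fun i => a i = x)).card
          - ((∅ : Finset ι).filter (fun i => b i = x)).card) = r := by
      funext x
      rw [if_neg (Finset.notMem_empty x)]
      simp
    rw [e2]
    exact hs
  | insert i s his ih =>
    obtain ⟨S, I, h1, h2, h3, h4, h5, h6⟩ := ih
    have haS : ∀ j, a j ∉ S := fun j hj => (Finset.disjoint_left.1 h1) hj (ha j)
    have hbS : ∀ j, b j ∉ S := fun j hj => (Finset.disjoint_left.1 h1) hj (hb j)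
    have hcount : ∀ (c : ι → V) (v : V), c i = v →
        (s.filter (fun j => c j = v)).card + 1 ≤ (univ.filter (fun j => c j = v)).card := by
      intro c v hcv
      have hnot : i ∉ s.filter (fun j => c j = v) := fun hi => his (Finset.mem_filter.1 hi).1
      rw [← Finset.card_insert_of_notMem hnot]
      apply Finset.card_le_card
      intro j hj
      rw [mem_insert, mem_filter] at hj
      rw [mem_filter]
      refine ⟨mem_univ _, ?_⟩
      rcases hj with rfl | hj
      · exact hcv
      · exact hj.2
    have hcount0 : ∀ (c : ι → V) (v : V),
        (s.filter (fun j => c j = v)).card ≤ (univ.filter (fun j => c j = v)).card := by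
      intro c v
      apply Finset.card_le_card
      intro j hj
      rw [mem_filter] at hj
      rw [mem_filter]
      exact ⟨mem_univ _, hj.2⟩
    have hsum : q i + ∑ j ∈ s, q j ≤ ∑ j, q j := by
      rw [← Finset.sum_insert his]
      exact Finset.sum_le_sum_of_subset (Finset.subset_univ _)
    have hcard : ((U ∪ S) ∩ W).card ≤ (U ∩ W).card + S.card := by
      calc ((U ∪ S) ∩ W).card ≤ ((U ∩ W) ∪ S).card := by
            apply Finset.card_le_card
            intro z hz
            rw [mem_inter, mem_union] at hz
            rw [mem_union, mem_inter]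
            tauto
        _ ≤ (U ∩ W).card + S.card := Finset.card_union_le _ _
    obtain ⟨J, j1, j2, j3, j4, j5⟩ := h6.link hc (hq i) (by omega)
      (mem_union_left S (ha i)) (mem_union_left S (hb i)) (hab i)
      (by
        rw [if_neg (haS i)]
        have g1 := hcount a (a i) rfl
        have g2 := hcount0 b (a i)
        have g3 := hr (a i)
        omega)
      (by
        rw [if_neg (hbS i)]
        have g1 := hcount b (b i) rfl
        have g2 := hcount0 a (b i)
        have g3 := hr (b i)
        omega)
    have hJU : ∀ x ∈ J, x ∉ U := fun x hx h' => j4 x hx (mem_union_left S h')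
    have hJS : ∀ x ∈ J, x ∉ S := fun x hx h' => j4 x hx (mem_union_right U h')
    have hdis : Disjoint S J.toFinset := by
      rw [Finset.disjoint_left]
      intro x hx hx'
      exact hJS x (List.mem_toFinset.1 hx') hx
    refine ⟨S ∪ J.toFinset, Function.update I i J, ?_, ?_, ?_, ?_, ?_, ?_⟩
    · rw [Finset.disjoint_left]
      intro x hx hxU
      rw [mem_union, List.mem_toFinset] at hx
      rcases hx with hx | hx
      · exact (Finset.disjoint_left.1 h1) hx hxU
      · exact hJU x hx hxU
    · rw [Finset.card_union_of_disjoint hdis, h2, List.toFinset_card_of_nodup j3, j2,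
        Finset.sum_insert his, add_comm]
    · intro j hj
      rw [mem_insert] at hj
      by_cases hji : j = i
      · subst hji
        rw [Function.update_self]
        exact j1
      · rw [Function.update_of_ne hji]
        exact h3 j (by tauto)
    · intro j hj
      rw [mem_insert] at hj
      by_cases hji : j = i
      · subst hji
        rw [Function.update_self]
        exact j2
      · rw [Function.update_of_ne hji]
        exact h4 j (by tauto)
    · rw [Finset.sum_insert his, Function.update_self]
      have e1 : ∑ x ∈ s, ((Function.update I i J x : List V) : Multiset V)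
          = ∑ x ∈ s, ((I x : List V) : Multiset V) := by
        apply Finset.sum_congr rfl
        intro x hx
        rw [Function.update_of_ne]
        rintro rfl; exact his hx
      rw [e1, h5, ← Finset.disjUnion_eq_union _ _ hdis, Finset.disjUnion_val,
        List.toFinset_val, j3.dedup, add_comm]
    · have e1 : U ∪ (S ∪ J.toFinset) = U ∪ S ∪ J.toFinset := (Finset.union_assoc _ _ _).symm
      rw [e1]
      have e2 : (fun x => if x ∈ S ∪ J.toFinset then 1 else
          r x - ((insert i s).filter (fun j => a j = x)).card
            - ((insert i s).filter (fun j => b j = x)).card)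
          = (fun x => if x ∈ J then 1 else if x = a i ∨ x = b i then
              (if x ∈ S then 1 else r x - (s.filter (fun i => a i = x)).card
                - (s.filter (fun i => b i = x)).card) - 1
              else (if x ∈ S then 1 else r x - (s.filter (fun i => a i = x)).card
                - (s.filter (fun i => b i = x)).card)) := by
        funext x
        by_cases hxJ : x ∈ J
        · rw [if_pos hxJ, if_pos (mem_union_right _ (List.mem_toFinset.2 hxJ))]
        · rw [if_neg hxJ]
          by_cases hxS : x ∈ S
          · rw [if_pos (mem_union_left _ hxS), if_neg, if_pos hxS]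
            rintro (rfl | rfl)
            · exact haS i hxS
            · exact hbS i hxS
          · have hnm : x ∉ S ∪ J.toFinset := by
              rw [mem_union, List.mem_toFinset]; tauto
            rw [if_neg hnm, if_neg hxS, Finset.filter_insert, Finset.filter_insert]
            by_cases hxa : a i = x
            · have hxb : b i ≠ x := fun hxb => hab i (hxa.trans hxb.symm)
              rw [if_pos hxa, if_neg hxb, if_pos (Or.inl hxa.symm), Finset.card_insert_of_notMem]
              · omega
              · exact fun hi => his (Finset.mem_filter.1 hi).1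
            · by_cases hxb : b i = x
              · rw [if_neg hxa, if_pos hxb, if_pos (Or.inr hxb.symm), Finset.card_insert_of_notMem]
                · omega
                · exact fun hi => his (Finset.mem_filter.1 hi).1
              · rw [if_neg hxa, if_neg hxb, if_neg]
                rintro (h | h)
                · exact hxa h.symm
                · exact hxb h.symm
      rw [e2]
      exact j5

theorem FPState.multi_link {V ι : Type} [DecidableEq V] [Fintype ι] {G : SimpleGraph V}
    {W : Finset V} {m h K : ℕ}
    (hc : FPCtx G W m h K) {U : Finset V} {r : V → ℕ} (hs : FPState G W m U r) (a b : ι → V)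
    (q : ι → ℕ) (hq : ∀ i, 2 * h + 2 ≤ q i)
    (hcap : (U ∩ W).card + ∑ i, q i + 2 ^ (h + 2) ≤ K)
    (ha : ∀ i, a i ∈ U) (hb : ∀ i, b i ∈ U) (hab : ∀ i, a i ≠ b i)
    (hr : ∀ v, (univ.filter (fun i => a i = v)).card + (univ.filter (fun i => b i = v)).card
      ≤ r v) :
    ∃ S : Finset V, Disjoint S U ∧ S.card = ∑ i, q i ∧ Links G.Adj S a b q ∧
      FPState G W m (U ∪ S) (fun x => if x ∈ S then 1 else
        r x - (univ.filter (fun i => a i = x)).card - (univ.filter (fun i => b i = x)).card) := by
  obtain ⟨S, I, h1, h2, h3, h4, h5, h6⟩ := multi_aux hc hs a b q hq hcap ha hb hab hr univ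
  exact ⟨S, h1, h2, ⟨I, fun x => h3 x (mem_univ x), fun x => h4 x (mem_univ x), h5⟩, h6⟩

end Pool.Agent.HD
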