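import Pool.Agent.HD.ParamsDisc
import Pool.Agent.HD.ParamsDef
import Pool.Agent.HD.NetBuild

/-!
MP_134267_co, Theorem HD, row M9c (helper95): all numerical parameters exist. `C = 10 ^ 16`,
`c = 2 ^ (-110)`, `2 ^ κn` is the power of two with `10 ^ 5 l ^ 3 2 ^ κn ≤ n < 2 * 10 ^ 5 l ^ 3 2 ^ κn`,
`l = log₂ n + 1`. The discrete half is `params_discrete` (helper28).
-/

set_option autoImplicit false

namespace Pool.Agent.HD

open Finset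

theorem par_pow (l : ℕ) (hl : 200 ≤ l) : 10 ^ 18 * l ^ 10 ≤ 2 ^ (l - 1) := by
  induction l, hl using Nat.le_induction with
  | base => norm_num
  | succ l hl ih =>
    have h1 : 200 ^ 10 * (l + 1) ^ 10 ≤ 201 ^ 10 * l ^ 10 := by
      rw [← mul_pow, ← mul_pow]
      exact Nat.pow_le_pow_left (by omega) 10
    have h2 : 201 ^ 10 * l ^ 10 ≤ 200 ^ 10 * (2 * l ^ 10) := by
      have : (201 : ℕ) ^ 10 ≤ 200 ^ 10 * 2 := by norm_num
      calc 201 ^ 10 * l ^ 10 ≤ (200 ^ 10 * 2) * l ^ 10 := Nat.mul_le_mul_right _ this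
        _ = _ := by ring
    have h3 : (l + 1) ^ 10 ≤ 2 * l ^ 10 := Nat.le_of_mul_le_mul_left (h1.trans h2) (by norm_num)
    have h4 : 2 ^ (l + 1 - 1) = 2 * 2 ^ (l - 1) := by
      rw [← pow_succ']
      congr 1
      omega
    rw [h4]
    calc 10 ^ 18 * (l + 1) ^ 10 ≤ 10 ^ 18 * (2 * l ^ 10) := Nat.mul_le_mul_left _ h3
      _ = 2 * (10 ^ 18 * l ^ 10) := by ring
      _ ≤ _ := Nat.mul_le_mul_left _ ih

/-- `n` is large, and the integer `ℓ = ⌊log₂ n⌋ + 1` replaces `log n` -/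
theorem par_large (n t : ℕ) (ht : 2 ≤ t)
    (h : (t : ℝ) ≤ 1 / 2 ^ 110 * √(n / (Real.log n) ^ 3)) :
    ∃ l : ℕ, 200 ≤ l ∧ n < 2 ^ l ∧ 2 ^ (l - 1) ≤ n ∧ (l : ℝ) ≤ 2 * Real.log n ∧
      2 ^ 210 * (l ^ 3 * t ^ 2) ≤ n := by
  have ht' : (2 : ℝ) ≤ t := by exact_mod_cast ht
  have hpos : 0 < √(n / (Real.log n) ^ 3) := by
    by_contra hcon
    have : √(n / (Real.log n) ^ 3) ≤ 0 := not_lt.1 hcon
    nlinarith [show (0 : ℝ) < 1 / 2 ^ 110 by positivity]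
  have hpos' : 0 < n / (Real.log n) ^ 3 := Real.sqrt_pos.1 hpos
  have hn2 : 2 ≤ n := by
    by_contra hcon
    have : n = 0 ∨ n = 1 := by omega
    rcases this with rfl | rfl
    · simp at hpos'
    · simp at hpos'
  have hL0 : (0.69 : ℝ) < Real.log n := by
    have h1 : Real.log 2 ≤ Real.log n := Real.log_le_log (by norm_num) (by exact_mod_cast hn2)
    have h2 := Real.log_two_gt_d9
    linarith
  obtain ⟨L, hL⟩ : ∃ L : ℝ, L = Real.log n := ⟨_, rfl⟩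
  rw [← hL] at hL0 h hpos hpos' ⊢
  have hL3 : 0 < L ^ 3 := by positivity
  -- square
  have hsq : (t : ℝ) ^ 2 ≤ 1 / 2 ^ 220 * (n / L ^ 3) := by
    calc (t : ℝ) ^ 2 ≤ (1 / 2 ^ 110 * √(n / L ^ 3)) ^ 2 :=
          pow_le_pow_left₀ (by positivity) h 2
      _ = 1 / 2 ^ 220 * (n / L ^ 3) := by
          rw [mul_pow, Real.sq_sqrt hpos'.le]
          norm_num
  have hsq2 : 2 ^ 220 * (L ^ 3 * (t : ℝ) ^ 2) ≤ n := by
    have h1 : 2 ^ 220 * (L ^ 3 * (t : ℝ) ^ 2) ≤ 2 ^ 220 * (L ^ 3 * (1 / 2 ^ 220 * (n / L ^ 3))) := by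
      gcongr
    have h2 : 2 ^ 220 * (L ^ 3 * (1 / 2 ^ 220 * (n / L ^ 3))) = (n : ℝ) := by
      field_simp
    linarith
  have hnbig : (2 : ℝ) ^ 205 ≤ n := by
    have h1 : (0.3 : ℝ) ≤ L ^ 3 := by
      calc (0.3 : ℝ) ≤ 0.69 ^ 3 := by norm_num
        _ ≤ L ^ 3 := pow_le_pow_left₀ (by norm_num) hL0.le 3
    have h2 : (4 : ℝ) ≤ (t : ℝ) ^ 2 := by nlinarith
    have h3 : (1 : ℝ) ≤ L ^ 3 * (t : ℝ) ^ 2 := by nlinarith
    calc (2 : ℝ) ^ 205 ≤ 2 ^ 220 * 1 := by norm_num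
      _ ≤ 2 ^ 220 * (L ^ 3 * (t : ℝ) ^ 2) := by gcongr
      _ ≤ n := hsq2
  have hn0 : n ≠ 0 := by omega
  refine ⟨Nat.log 2 n + 1, ?_, Nat.lt_pow_succ_log_self (by norm_num) n, ?_, ?_, ?_⟩
  · have : 205 ≤ Nat.log 2 n := by
      rw [Nat.le_log_iff_pow_le (by norm_num) hn0]
      exact_mod_cast hnbig
    omega
  · rw [Nat.add_sub_cancel]
    exact Nat.pow_log_le_self 2 hn0
  · have h1 : ((2 : ℝ) ^ Nat.log 2 n) ≤ n := by
      exact_mod_cast Nat.pow_log_le_self 2 hn0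
    have h2 : (Nat.log 2 n : ℝ) * Real.log 2 ≤ L := by
      rw [hL, ← Real.log_pow]
      exact Real.log_le_log (by positivity) h1
    have h3 := Real.log_two_gt_d9
    have h4 : (205 : ℝ) ≤ Nat.log 2 n := by
      have : 205 ≤ Nat.log 2 n := by
        rw [Nat.le_log_iff_pow_le (by norm_num) hn0]
        exact_mod_cast hnbig
      exact_mod_cast this
    push_cast
    nlinarith
  · have h1 : ((2 : ℝ) ^ Nat.log 2 n) ≤ n := by
      exact_mod_cast Nat.pow_log_le_self 2 hn0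
    have h2 : (Nat.log 2 n : ℝ) * Real.log 2 ≤ L := by
      rw [hL, ← Real.log_pow]
      exact Real.log_le_log (by positivity) h1
    have h3 := Real.log_two_gt_d9
    have h4 : (205 : ℝ) ≤ Nat.log 2 n := by
      have : 205 ≤ Nat.log 2 n := by
        rw [Nat.le_log_iff_pow_le (by norm_num) hn0]
        exact_mod_cast hnbig
      exact_mod_cast this
    have h5 : ((Nat.log 2 n : ℝ) + 1) ≤ 2 * L := by nlinarith
    have h6 : ((Nat.log 2 n : ℝ) + 1) ^ 3 ≤ 8 * L ^ 3 := by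
      calc ((Nat.log 2 n : ℝ) + 1) ^ 3 ≤ (2 * L) ^ 3 := pow_le_pow_left₀ (by positivity) h5 3
        _ = 8 * L ^ 3 := by ring
    have h7 : (2 : ℝ) ^ 210 * (((Nat.log 2 n : ℝ) + 1) ^ 3 * (t : ℝ) ^ 2) ≤ n := by
      calc (2 : ℝ) ^ 210 * (((Nat.log 2 n : ℝ) + 1) ^ 3 * (t : ℝ) ^ 2)
          ≤ 2 ^ 210 * ((8 * L ^ 3) * (t : ℝ) ^ 2) := by gcongr
        _ = 2 ^ 213 * (L ^ 3 * (t : ℝ) ^ 2) := by ring
        _ ≤ 2 ^ 220 * (L ^ 3 * (t : ℝ) ^ 2) := by gcongr <;> norm_num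
        _ ≤ n := hsq2
    exact_mod_cast h7


/-- the choice of the number of tokens -/
theorem par_tokens (n t l : ℕ) (hl : 200 ≤ l) (hn : n < 2 ^ l)
    (h : 2 ^ 210 * (l ^ 3 * t ^ 2) ≤ n) (ht : 2 ≤ t) :
    ∃ κn : ℕ, 1 ≤ κn ∧ κn ≤ l ∧ 10 ^ 5 * (l ^ 3 * 2 ^ κn) ≤ n ∧ n < 2 * (10 ^ 5 * (l ^ 3 * 2 ^ κn)) ∧
      2 ^ 190 * t ^ 2 ≤ 2 ^ κn := by
  have hl3 : 0 < l ^ 3 := by positivity
  have hA : 0 < 10 ^ 5 * l ^ 3 := by positivity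
  have h4 : 4 ≤ t ^ 2 := by nlinarith
  have hdiv : 2 ^ 190 * t ^ 2 * 2 ≤ n / (10 ^ 5 * l ^ 3) := by
    rw [Nat.le_div_iff_mul_le hA]
    calc 2 ^ 190 * t ^ 2 * 2 * (10 ^ 5 * l ^ 3) = (2 ^ 190 * 2 * 10 ^ 5) * (l ^ 3 * t ^ 2) := by ring
      _ ≤ 2 ^ 210 * (l ^ 3 * t ^ 2) := Nat.mul_le_mul_right _ (by norm_num)
      _ ≤ n := h
  have hne : n / (10 ^ 5 * l ^ 3) ≠ 0 := by
    intro h0
    rw [h0] at hdiv
    have h6 : 0 < 2 ^ 190 * t ^ 2 * 2 := by positivity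
    exact absurd hdiv (not_le.2 h6)
  have h1 : 2 ^ Nat.log 2 (n / (10 ^ 5 * l ^ 3)) ≤ n / (10 ^ 5 * l ^ 3) := Nat.pow_log_le_self 2 hne
  have h2 : n / (10 ^ 5 * l ^ 3) < 2 ^ (Nat.log 2 (n / (10 ^ 5 * l ^ 3)) + 1) :=
    Nat.lt_pow_succ_log_self (by norm_num) _
  obtain ⟨κn, hκ⟩ : ∃ κn, κn = Nat.log 2 (n / (10 ^ 5 * l ^ 3)) := ⟨_, rfl⟩
  rw [← hκ] at h1 h2
  have h3 : 2 ^ 190 * t ^ 2 ≤ 2 ^ κn := by
    rw [pow_succ] at h2
    exact Nat.le_of_mul_le_mul_right (hdiv.trans h2.le) (by norm_num)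
  have h5 : 10 ^ 5 * (l ^ 3 * 2 ^ κn) ≤ n := by
    calc 10 ^ 5 * (l ^ 3 * 2 ^ κn) = 2 ^ κn * (10 ^ 5 * l ^ 3) := by ring
      _ ≤ n / (10 ^ 5 * l ^ 3) * (10 ^ 5 * l ^ 3) := Nat.mul_le_mul_right _ h1
      _ ≤ n := Nat.div_mul_le_self _ _
  refine ⟨κn, ?_, ?_, h5, ?_, h3⟩
  · by_contra hcon
    have h7 : κn = 0 := by omega
    rw [h7, pow_zero] at h3
    have h8 : 0 < t ^ 2 := by positivity
    have h9 : 1 < 2 ^ 190 * t ^ 2 := by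
      calc 1 < 2 ^ 190 * 1 := by norm_num
        _ ≤ _ := Nat.mul_le_mul_left _ h8
    exact absurd h3 (not_le.2 h9)
  · have : 2 ^ κn ≤ 2 ^ l := by
      calc 2 ^ κn = 1 * 2 ^ κn := (one_mul _).symm
        _ ≤ (10 ^ 5 * l ^ 3) * 2 ^ κn := Nat.mul_le_mul_right _ hA
        _ = 10 ^ 5 * (l ^ 3 * 2 ^ κn) := by ring
        _ ≤ n := h5
        _ ≤ 2 ^ l := hn.le
    exact (Nat.pow_le_pow_iff_right (by norm_num)).1 this
  · rw [pow_succ] at h2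
    have := (Nat.div_lt_iff_lt_mul hA).1 h2
    calc n < 2 ^ κn * 2 * (10 ^ 5 * l ^ 3) := this
      _ = _ := by ring

/-- the size of the network -/
theorem par_sizes (l κn hh : ℕ) (hl : 200 ≤ l) (hκ1 : 1 ≤ κn) (hκ : κn ≤ l) (hh' : hh ≤ l) :
    wnet (hh + 1) (2 * hh + 2) κn ≤ 34 * (l ^ 3 * 2 ^ κn) ∧ znet κn ≤ l ^ 3 * 2 ^ κn ∧
      2 ^ κn * nnet (hh + 1) (2 * hh + 2) κn ≤ 35 * (l ^ 3 * 2 ^ κn) := by
  have hw : wsw (hh + 1) (2 * hh + 2) + 2 * (2 * hh + 2) ≤ 34 * l ^ 2 := by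
    rw [wsw]
    nlinarith [Nat.mul_le_mul hh' hh']
  have h1 : wnet (hh + 1) (2 * hh + 2) κn ≤ 34 * (l ^ 3 * 2 ^ κn) := by
    calc wnet (hh + 1) (2 * hh + 2) κn
        ≤ κn * 2 ^ κn * (wsw (hh + 1) (2 * hh + 2) + 2 * (2 * hh + 2)) := wnet_le _ _ _
      _ ≤ l * 2 ^ κn * (34 * l ^ 2) := by gcongr
      _ = _ := by ring
  have h2 : znet κn ≤ l ^ 3 * 2 ^ κn := by
    calc znet κn ≤ 2 * κn * 2 ^ κn := znet_le _
      _ ≤ l ^ 3 * 2 ^ κn := by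
        refine Nat.mul_le_mul_right _ ?_
        calc 2 * κn ≤ 2 * l := by omega
          _ ≤ l * l * l := by nlinarith
          _ = l ^ 3 := by ring
  refine ⟨h1, h2, ?_⟩
  rw [← net_card _ _ _ hκ1]
  omega

theorem par_card (t : ℕ) : Fintype.card (Pr t) ≤ t ^ 2 := by
  classical
  calc Fintype.card (Pr t) ≤ Fintype.card (Fin t × Fin t) := Fintype.card_subtype_le _
    _ = t ^ 2 := by rw [Fintype.card_prod, Fintype.card_fin, sq]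

/-- the exponential inequality -/
theorem par_exp (n l T : ℕ) (hl : 200 ≤ l) (hn : n < 2 ^ l) (hn' : 2 ^ (l - 1) ≤ n)
    (hT : n < 2 * (10 ^ 5 * (l ^ 3 * T))) :
    4 * (n : ℝ) < Real.exp ((T : ℝ) ^ 3 / (100 * (n : ℝ) ^ 2)) := by
  have hn0 : 0 < n := lt_of_lt_of_le (by positivity) hn'
  have hnR : (0 : ℝ) < n := by exact_mod_cast hn0
  have hlR : (200 : ℝ) ≤ l := by exact_mod_cast hl
  have h1 : ((10 : ℝ) ^ 18 * (l : ℝ) ^ 10) ≤ n := by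
    exact_mod_cast (par_pow l hl).trans hn'
  have h2 : (n : ℝ) ≤ 2 * (10 ^ 5 * ((l : ℝ) ^ 3 * T)) := by exact_mod_cast hT.le
  have h3 : (n : ℝ) ^ 3 ≤ 8 * 10 ^ 15 * ((l : ℝ) ^ 9 * (T : ℝ) ^ 3) := by
    calc (n : ℝ) ^ 3 ≤ (2 * (10 ^ 5 * ((l : ℝ) ^ 3 * T))) ^ 3 :=
          pow_le_pow_left₀ hnR.le h2 3
      _ = 8 * 10 ^ 15 * ((l : ℝ) ^ 9 * (T : ℝ) ^ 3) := by ring
  have h4 : (l : ℝ) + 2 ≤ (T : ℝ) ^ 3 / (100 * (n : ℝ) ^ 2) := by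
    rw [le_div_iff₀ (by positivity)]
    have h5 : 8 * 10 ^ 15 * (l : ℝ) ^ 9 * (((l : ℝ) + 2) * (100 * (n : ℝ) ^ 2)) ≤
        8 * 10 ^ 15 * (l : ℝ) ^ 9 * (T : ℝ) ^ 3 := by
      calc 8 * 10 ^ 15 * (l : ℝ) ^ 9 * (((l : ℝ) + 2) * (100 * (n : ℝ) ^ 2))
          = (8 * 10 ^ 17 * (l : ℝ) ^ 9 * ((l : ℝ) + 2)) * (n : ℝ) ^ 2 := by ring
        _ ≤ (10 ^ 18 * (l : ℝ) ^ 10) * (n : ℝ) ^ 2 := by
            refine mul_le_mul_of_nonneg_right ?_ (by positivity)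
            have h6 : 8 * ((l : ℝ) + 2) ≤ 10 * l := by linarith
            calc 8 * 10 ^ 17 * (l : ℝ) ^ 9 * ((l : ℝ) + 2)
                = 10 ^ 17 * (l : ℝ) ^ 9 * (8 * ((l : ℝ) + 2)) := by ring
              _ ≤ 10 ^ 17 * (l : ℝ) ^ 9 * (10 * l) := by gcongr
              _ = 10 ^ 18 * (l : ℝ) ^ 10 := by ring
        _ ≤ n * (n : ℝ) ^ 2 := by gcongr
        _ = (n : ℝ) ^ 3 := by ring
        _ ≤ 8 * 10 ^ 15 * ((l : ℝ) ^ 9 * (T : ℝ) ^ 3) := h3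
        _ = _ := by ring
    exact le_of_mul_le_mul_left h5 (by positivity)
  have h7 : (4 : ℝ) * n < 2 ^ (l + 2) := by
    have : 4 * n < 2 ^ (l + 2) := by
      rw [pow_add]
      omega
    exact_mod_cast this
  have h8 : (2 : ℝ) ^ (l + 2) ≤ Real.exp ((l : ℝ) + 2) := by
    have h9 : (2 : ℝ) ≤ Real.exp 1 := by
      have := Real.exp_one_gt_d9
      linarith
    calc (2 : ℝ) ^ (l + 2) ≤ (Real.exp 1) ^ (l + 2) := pow_le_pow_left₀ (by norm_num) h9 _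
      _ = Real.exp ((l : ℝ) + 2) := by
          rw [← Real.exp_nat_mul]
          push_cast
          ring_nf
  exact (h7.trans_le h8).trans_le (Real.exp_le_exp.2 h4)

theorem parameters : ∃ C c : ℝ, 0 < C ∧ 0 < c ∧ c < 1 ∧ ∀ (n d t : ℕ) (lam : ℝ), 0 ≤ lam →
    C * lam ≤ d → C * (Real.log n) ^ 4 ≤ d → d ≤ n → 2 ≤ t → (t : ℝ) ≤ c * d →
    (t : ℝ) ≤ c * √(n / (Real.log n) ^ 3) →
    ∃ (κn m hh κ Q K l : ℕ) (g qf : Pr t → ℕ), Params n d t lam κn m hh κ Q K l g qf := by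
  refine ⟨10 ^ 16, 1 / 2 ^ 110, by norm_num, by norm_num, by norm_num, ?_⟩
  intro n d t lam hlam0 hlam hdL hdn ht htd htn
  obtain ⟨l, hl, hn, hn', hlL, hlt⟩ := par_large n t ht htn
  obtain ⟨κn, hκ1, hκl, hT1, hT2, hTt⟩ := par_tokens n t l hl hn hlt ht
  -- the trees
  obtain ⟨m, hm⟩ : ∃ m, m = n / 400 + 1 := ⟨_, rfl⟩
  have hnbig : 10 ^ 18 * l ^ 10 ≤ n := (par_pow l hl).trans hn'
  have hl10 : 1 ≤ l ^ 10 := Nat.one_le_pow _ _ (by omega)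
  have hn18 : 10 ^ 18 ≤ n := by
    calc 10 ^ 18 = 10 ^ 18 * 1 := (mul_one _).symm
      _ ≤ 10 ^ 18 * l ^ 10 := Nat.mul_le_mul_left _ hl10
      _ ≤ n := hnbig
  have hm1 : 2 ≤ m := by omega
  obtain ⟨hh, hhd⟩ : ∃ hh, hh = Nat.clog 2 m := ⟨_, rfl⟩
  have hmh : m ≤ 2 ^ hh := by
    rw [hhd]
    exact Nat.le_pow_clog (by norm_num) m
  have hhl : hh ≤ l := by
    rw [hhd, Nat.clog_le_iff_le_pow (by norm_num)]
    omega
  have hhm : 2 ^ hh ≤ 2 * m := by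
    have h1 : 2 ^ (Nat.clog 2 m - 1) < m := Nat.pow_pred_clog_lt_self (by norm_num) (by omega)
    have h2 : 0 < Nat.clog 2 m := Nat.clog_pos (by norm_num) hm1
    rw [hhd]
    calc 2 ^ Nat.clog 2 m = 2 ^ (Nat.clog 2 m - 1 + 1) := by
          congr 1
          omega
      _ = 2 * 2 ^ (Nat.clog 2 m - 1) := by rw [pow_succ']
      _ ≤ 2 * m := by omega
  obtain ⟨hw, hz, hnn⟩ := par_sizes l κn hh hl hκ1 hκl hhl
  -- abbreviations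
  obtain ⟨T, hTd⟩ : ∃ T, T = 2 ^ κn := ⟨_, rfl⟩
  obtain ⟨X, hX⟩ : ∃ X, X = l ^ 3 * 2 ^ κn := ⟨_, rfl⟩
  have hMt := par_card t
  have hl3 : 200 * (200 * l) ≤ l ^ 3 := by
    calc 200 * (200 * l) ≤ l * (l * l) := by gcongr
      _ = l ^ 3 := by ring
  have hlT : 200 * (200 * (l * 2 ^ κn)) ≤ X := by
    rw [hX]
    calc 200 * (200 * (l * 2 ^ κn)) = 200 * (200 * l) * 2 ^ κn := by ring
      _ ≤ l ^ 3 * 2 ^ κn := Nat.mul_le_mul_right _ hl3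
  have hTl : 200 * 2 ^ κn ≤ l * 2 ^ κn := Nat.mul_le_mul_right _ hl
  have hhT : hh * 2 ^ κn ≤ l * 2 ^ κn := Nat.mul_le_mul_right _ hhl
  rw [← hX] at hw hz hnn hT1 hT2
  have htt : t ≤ t ^ 2 := by nlinarith
  have ht2T : 10 ^ 6 * t ^ 2 ≤ 2 ^ κn := (Nat.mul_le_mul_right _ (by norm_num)).trans hTt
  obtain ⟨κ, l', g, qf, e1, e2, e3, e4, e5, e6, e7, e8⟩ :=
    params_discrete n t κn hh ht (by omega)
      (by
        have : 2 ^ κn * (nnet (hh + 1) (2 * hh + 2) κn + 10 * hh + 30) =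
            2 ^ κn * nnet (hh + 1) (2 * hh + 2) κn + 10 * (hh * 2 ^ κn) + 30 * 2 ^ κn := by ring
        rw [this]
        omega)
      (by omega)
  refine ⟨κn, m, hh, κ, l + 1, n / 20, l', g, qf, ?_⟩
  have hdR : (2 : ℝ) ^ 110 * t ≤ d := by
    have h1 : (2 : ℝ) ^ 110 * t ≤ 2 ^ 110 * (1 / 2 ^ 110 * (d : ℝ)) :=
      mul_le_mul_of_nonneg_left htd (by positivity)
    have h2 : (2 : ℝ) ^ 110 * (1 / 2 ^ 110 * (d : ℝ)) = d := by
      rw [← mul_assoc, mul_one_div_cancel (by positivity), one_mul]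
    linarith
  have hdN : 2 ^ 110 * t ≤ d := by exact_mod_cast hdR
  have hl4 : (10 : ℝ) ^ 15 * (l : ℝ) ^ 4 ≤ 2 * d := by
    have h1 : (l : ℝ) ^ 4 ≤ 16 * (Real.log n) ^ 4 := by
      calc (l : ℝ) ^ 4 ≤ (2 * Real.log n) ^ 4 := pow_le_pow_left₀ (by positivity) hlL 4
        _ = 16 * (Real.log n) ^ 4 := by ring
    linarith
  exact {
    ht := ht
    hκn := hκ1
    hm1 := by omega
    hm2 := by omega
    hm3 := by omega
    hmh := hmh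
    hκ := e1
    hκ4 := e2
    hg := e3
    hgT := e4
    hqf := e5
    hl := e6
    hcount := e7
    hcap := by
      have h1 : 2 * 2 ^ κn * (2 * hh + 2) = 4 * (hh * 2 ^ κn) + 4 * 2 ^ κn := by ring
      have h2 : 2 ^ (hh + 2) = 4 * 2 ^ hh := by ring
      rw [h1, h2]
      omega
    hK := by omega
    hst := (Nat.mul_le_mul_right _ (by norm_num)).trans hdN
    hst2 := by omega
    hseed := by omega
    hTn := by omega
    hQ := by omega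
    hQ8 := by
      have h1 : (n : ℝ) + 1 ≤ 2 ^ l := by exact_mod_cast hn
      have h2 : (n : ℝ) ≤ 2 ^ l := by linarith
      calc 4 * ((n : ℝ) + 1) * n * n ≤ 4 * 2 ^ l * 2 ^ l * 2 ^ l := by gcongr
        _ = 4 * 8 ^ l := by
            have : (8 : ℝ) ^ l = 2 ^ l * 2 ^ l * 2 ^ l := by
              rw [← mul_pow, ← mul_pow]
              norm_num
            rw [this]
            ring
        _ ≤ 8 ^ (l + 1) := by
            rw [pow_succ]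
            nlinarith [pow_pos (show (0 : ℝ) < 8 by norm_num) l]
    hT3 := by
      have := par_exp n l (2 ^ κn) hl hn hn' (by rw [← hX]; exact hT2)
      push_cast at this
      exact this
    hP := by
      have h1 : (n : ℝ) ≤ 2 * (10 ^ 5 * ((l : ℝ) ^ 3 * 2 ^ κn)) := by
        have : n ≤ 2 * (10 ^ 5 * (l ^ 3 * 2 ^ κn)) := by rw [← hX]; exact hT2.le
        exact_mod_cast this
      have h2 : (200 : ℝ) ≤ l := by exact_mod_cast hl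
      push_cast
      calc 10 ^ 9 * ((l : ℝ) + 1) * n
          ≤ 10 ^ 9 * ((l : ℝ) + 1) * (2 * (10 ^ 5 * ((l : ℝ) ^ 3 * 2 ^ κn))) := by gcongr
        _ = (2 * 10 ^ 14 * ((l : ℝ) + 1) * (l : ℝ) ^ 3) * 2 ^ κn := by ring
        _ ≤ d * 2 ^ κn := by
            refine mul_le_mul_of_nonneg_right ?_ (by positivity)
            have h3 : 4 * ((l : ℝ) + 1) ≤ 10 * l := by linarith
            have h4 : 2 * (2 * 10 ^ 14 * ((l : ℝ) + 1) * (l : ℝ) ^ 3) ≤ 10 ^ 15 * (l : ℝ) ^ 4 := by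
              calc 2 * (2 * 10 ^ 14 * ((l : ℝ) + 1) * (l : ℝ) ^ 3)
                  = 10 ^ 14 * (l : ℝ) ^ 3 * (4 * ((l : ℝ) + 1)) := by ring
                _ ≤ 10 ^ 14 * (l : ℝ) ^ 3 * (10 * l) := by gcongr
                _ = _ := by ring
            linarith
    hlam := by linarith }

end Pool.Agent.HD
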