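import Mathlib

/-!
MP_134267_co, Theorem HD, row M9c, the asymptotic inequality (helper28).
-/

namespace Pool.Agent.HD

open Filter

theorem asym : ∃ n₀ : ℕ, ∀ n : ℕ, n₀ ≤ n → 100 ≤ Real.log n ∧ ∀ T : ℕ,
    (n : ℝ) < 2000 * (Real.log n) ^ 3 * T →
      4 * (n : ℝ) < Real.exp ((T : ℝ) ^ 3 / (100 * (n : ℝ) ^ 2)) := by
  have h1 : ∀ᶠ x : ℝ in atTop, ‖Real.log x ^ 10‖ ≤ (1 / (4 * 10 ^ 12)) * ‖x‖ :=
    (Real.isLittleO_pow_log_id_atTop (n := 10)).bound (by norm_num)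
  have h2 : ∀ᶠ x : ℝ in atTop, 100 ≤ Real.log x := Real.tendsto_log_atTop.eventually_ge_atTop 100
  have h3 : ∀ᶠ x : ℝ in atTop, (1 : ℝ) ≤ x := eventually_ge_atTop 1
  have h4 : ∀ᶠ n : ℕ in atTop, ‖Real.log (n : ℝ) ^ 10‖ ≤ (1 / (4 * 10 ^ 12)) * ‖(n : ℝ)‖ ∧
      100 ≤ Real.log (n : ℝ) ∧ (1 : ℝ) ≤ (n : ℝ) :=
    tendsto_natCast_atTop_atTop.eventually (h1.and (h2.and h3))
  obtain ⟨n₀, hn₀⟩ := eventually_atTop.mp h4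
  refine ⟨n₀, fun n hn => ?_⟩
  obtain ⟨ha, hb, hc⟩ := hn₀ n hn
  refine ⟨hb, fun T hT => ?_⟩
  set L : ℝ := Real.log n with hL
  have hn0 : (0 : ℝ) < n := by linarith
  have hL0 : 0 < L := by linarith
  have ha' : 4 * 10 ^ 12 * L ^ 10 ≤ n := by
    rw [Real.norm_of_nonneg (by positivity), Real.norm_of_nonneg hn0.le] at ha
    have := mul_le_mul_of_nonneg_left ha (show (0 : ℝ) ≤ 4 * 10 ^ 12 by norm_num)
    calc 4 * 10 ^ 12 * L ^ 10 ≤ 4 * 10 ^ 12 * ((1 / (4 * 10 ^ 12)) * n) := this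
      _ = n := by ring
  -- the cube
  have hT3 : (n : ℝ) ^ 3 ≤ (2000 * L ^ 3 * T) ^ 3 := pow_le_pow_left₀ hn0.le hT.le 3
  have hT3' : (n : ℝ) ^ 3 ≤ 8 * 10 ^ 9 * L ^ 9 * (T : ℝ) ^ 3 := by
    calc (n : ℝ) ^ 3 ≤ (2000 * L ^ 3 * T) ^ 3 := hT3
      _ = 8 * 10 ^ 9 * L ^ 9 * (T : ℝ) ^ 3 := by ring
  -- the exponent is at least 5 L
  have hex : 5 * L ≤ (T : ℝ) ^ 3 / (100 * (n : ℝ) ^ 2) := by
    rw [le_div_iff₀ (by positivity)]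
    have h5 : 4 * 10 ^ 12 * L ^ 10 * (n : ℝ) ^ 2 ≤ 8 * 10 ^ 9 * L ^ 9 * (T : ℝ) ^ 3 := by
      calc 4 * 10 ^ 12 * L ^ 10 * (n : ℝ) ^ 2 ≤ n * (n : ℝ) ^ 2 :=
            mul_le_mul_of_nonneg_right ha' (by positivity)
        _ = (n : ℝ) ^ 3 := by ring
        _ ≤ _ := hT3'
    have h6 : L ^ 9 * (500 * L * (n : ℝ) ^ 2) ≤ L ^ 9 * (T : ℝ) ^ 3 := by
      have e1 : 4 * 10 ^ 12 * L ^ 10 * (n : ℝ) ^ 2 = 8 * 10 ^ 9 * (L ^ 9 * (500 * L * (n : ℝ) ^ 2)) := by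
        ring
      have e2 : 8 * 10 ^ 9 * L ^ 9 * (T : ℝ) ^ 3 = 8 * 10 ^ 9 * (L ^ 9 * (T : ℝ) ^ 3) := by ring
      rw [e1, e2] at h5
      exact le_of_mul_le_mul_left h5 (by norm_num)
    have h7 := le_of_mul_le_mul_left h6 (by positivity)
    linarith
  have hn : (n : ℝ) = Real.exp L := by rw [hL, Real.exp_log hn0]
  have h4 : (4 : ℝ) < Real.exp L := by
    have := Real.add_one_le_exp L
    linarith
  calc 4 * (n : ℝ) < Real.exp L * Real.exp L := by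
        rw [← hn] at h4 ⊢
        exact mul_lt_mul_of_pos_right h4 hn0
    _ = Real.exp (L + L) := by rw [Real.exp_add]
    _ ≤ Real.exp ((T : ℝ) ^ 3 / (100 * (n : ℝ) ^ 2)) := Real.exp_le_exp.mpr (by linarith)

end Pool.Agent.HD
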