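import Pool.Agent.HD.ParamsDef

/-!
MP_134267_co, Theorem HD, row M9c, the discrete half (helper28): choice of the number of layers, of
the numbers of segments and of the lengths of the first links.
-/

namespace Pool.Agent.HD

open Finset

/-- an integer is a balanced sum over a nonempty finite type -/
theorem balanced_sum {ρ : Type} [Fintype ρ] (hρ : 0 < Fintype.card ρ) (N : ℕ) :
    ∃ f : ρ → ℕ, ∑ r, f r = N ∧
      ∀ r, N / Fintype.card ρ ≤ f r ∧ f r ≤ N / Fintype.card ρ + 1 := by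
  classical
  obtain ⟨M, hM⟩ : ∃ M, M = Fintype.card ρ := ⟨_, rfl⟩
  obtain ⟨e⟩ : Nonempty (ρ ≃ Fin M) := ⟨Fintype.equivFinOfCardEq hM.symm⟩
  rw [← hM] at hρ ⊢
  refine ⟨fun r => N / M + if (e r : ℕ) < N % M then 1 else 0, ?_, ?_⟩
  · rw [Finset.sum_add_distrib, Finset.sum_const, Finset.card_univ, ← hM, smul_eq_mul]
    have h1 : ∑ r : ρ, (if (e r : ℕ) < N % M then 1 else 0) =
        ∑ i : Fin M, (if (i : ℕ) < N % M then 1 else 0) :=
      Equiv.sum_comp e (fun i : Fin M => if (i : ℕ) < N % M then 1 else 0)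
    have h2 : ∑ i : Fin M, (if (i : ℕ) < N % M then 1 else 0) = N % M := by
      rw [Fin.sum_univ_eq_sum_range (fun i => if i < N % M then 1 else 0) M, Finset.sum_ite]
      simp only [Finset.sum_const_zero, add_zero, Finset.sum_const, smul_eq_mul, mul_one]
      have h3 : (Finset.range M).filter (fun i => i < N % M) = Finset.range (N % M) := by
        ext i
        simp only [Finset.mem_filter, Finset.mem_range]
        have := Nat.mod_lt N hρ
        omega
      rw [h3, Finset.card_range]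
    rw [h1, h2]
    exact Nat.div_add_mod N M
  · intro r
    constructor
    · exact Nat.le_add_right _ _
    · show N / M + (if (e r : ℕ) < N % M then 1 else 0) ≤ N / M + 1
      split_ifs <;> omega

theorem params_discrete (n t κn hh : ℕ) (ht : 2 ≤ t) (hM : 1000 * Fintype.card (Pr t) ≤ 2 ^ κn)
    (h1 : 1000 * (2 ^ κn * (nnet (hh + 1) (2 * hh + 2) κn + 10 * hh + 30)) ≤ n)
    (h2 : 1000 * (t + 2 * Fintype.card (Pr t)) ≤ n) :
    ∃ (κ l : ℕ) (g qf : Pr t → ℕ), 1 ≤ κ ∧ n ≤ 4 * κ * 2 ^ κn ∧ (∀ r, 1 ≤ g r) ∧ ∑ r, g r = 2 ^ κn ∧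
      (∀ r, 2 * hh + 2 ≤ qf r) ∧
      (∀ r, l ≤ qf r + g r * (2 * κ + 3 + 2 * (2 * hh + 2) + nnet (hh + 1) (2 * hh + 2) κn) ∧
        qf r + g r * (2 * κ + 3 + 2 * (2 * hh + 2) + nnet (hh + 1) (2 * hh + 2) κn) ≤ l + 1) ∧
      n = t + 2 * Fintype.card (Pr t) +
        2 ^ κn * (2 * κ + 3 + 2 * (2 * hh + 2) + nnet (hh + 1) (2 * hh + 2) κn) + ∑ r, qf r ∧
      100 * ∑ r, qf r ≤ n := by
  classical
  have hMpos : 0 < Fintype.card (Pr t) := by
    rw [Fintype.card_pos_iff]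
    exact ⟨⟨(⟨0, by omega⟩, ⟨1, by omega⟩), by simp [Fin.lt_def]⟩⟩
  obtain ⟨g, hgT, hg⟩ := balanced_sum (ρ := Pr t) hMpos (2 ^ κn)
  obtain ⟨f, hfB, hf⟩ := balanced_sum (ρ := Pr t) hMpos (n - t - 2 * Fintype.card (Pr t))
  have hcard : ∀ x : ℕ, ∑ _r : Pr t, x = Fintype.card (Pr t) * x := by
    intro x; rw [Finset.sum_const, Finset.card_univ, smul_eq_mul]
  generalize hT : 2 ^ κn = T at *
  generalize hMM : Fintype.card (Pr t) = M at *
  generalize hNN : nnet (hh + 1) (2 * hh + 2) κn = ν at *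
  obtain ⟨B, hB⟩ : ∃ B, B = n - t - 2 * M := ⟨_, rfl⟩
  rw [← hB] at hfB hf
  obtain ⟨g₀, hg₀⟩ : ∃ g₀, g₀ = T / M := ⟨_, rfl⟩
  rw [← hg₀] at hg
  obtain ⟨l, hl⟩ : ∃ l, l = B / M := ⟨_, rfl⟩
  rw [← hl] at hf
  have hTpos : 0 < T := by omega
  -- sizes of the quotients
  have e1 : M * g₀ ≤ T := by rw [hg₀]; exact Nat.mul_div_le T M
  have e2 : T < M * (g₀ + 1) := by rw [hg₀]; exact Nat.lt_mul_div_succ T hMpos
  have e3 : M * l ≤ B := by rw [hl]; exact Nat.mul_div_le B M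
  have e4 : B < M * (l + 1) := by rw [hl]; exact Nat.lt_mul_div_succ B hMpos
  have hg₀1 : 1 ≤ g₀ := by
    rw [hg₀, Nat.le_div_iff_mul_le hMpos]; omega
  have hn30 : 30000 * T ≤ n := by
    have : T * 30 ≤ T * (ν + 10 * hh + 30) := Nat.mul_le_mul_left T (by omega)
    omega
  have hB2 : B + t + 2 * M = n := by omega
  have hB3 : 999 * n ≤ 1000 * B := by omega
  have e5 : 1000 * (M * (g₀ + 1)) ≤ 1001 * T := by
    have : M * (g₀ + 1) = M * g₀ + M := by ring
    omega
  have e6 : 999 * n < 1000 * (M * (l + 1)) := by omega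
  set a : ℕ := 2 * hh + 2 with ha
  set A : ℕ := 3 + 2 * (2 * hh + 2) + ν with hA
  -- `1001 * T * y ≤ 1.001 n` for the small multipliers `y`
  have hW : ∀ y : ℕ, y ≤ ν + 10 * hh + 30 → 1000 * (T * y) ≤ n := fun y hy =>
    le_trans (Nat.mul_le_mul_left _ (Nat.mul_le_mul_left T hy)) h1
  have hMy : ∀ y : ℕ, 1000 * (M * (g₀ + 1) * y) ≤ 1001 * (T * y) := by
    intro y
    calc 1000 * (M * (g₀ + 1) * y) = 1000 * (M * (g₀ + 1)) * y := by ring
      _ ≤ 1001 * T * y := Nat.mul_le_mul_right y e5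
      _ = 1001 * (T * y) := by ring
  have hMa : 1000 * (M * a) ≤ T * a := by
    calc 1000 * (M * a) = 1000 * M * a := by ring
      _ ≤ T * a := Nat.mul_le_mul_right a hM
  have hnpos : 0 < n := by omega
  -- there is room for at least zero layers
  have hAl : (g₀ + 1) * A + a ≤ l := by
    by_contra hcon
    have hc : l + 1 ≤ (g₀ + 1) * A + a := by omega
    have h3 : M * (l + 1) ≤ M * (g₀ + 1) * A + M * a := by
      calc M * (l + 1) ≤ M * ((g₀ + 1) * A + a) := Nat.mul_le_mul_left M hc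
        _ = M * (g₀ + 1) * A + M * a := by ring
    have h4 := hMy A
    have h5 := hW (A + a) (by omega)
    have h6 : T * (A + a) = T * A + T * a := by ring
    omega
  -- the number of layers
  obtain ⟨D, hD⟩ : ∃ D, D = (l - a) / (g₀ + 1) := ⟨_, rfl⟩
  have hAD : A ≤ D := by
    rw [hD, Nat.le_div_iff_mul_le (by omega)]
    have : A * (g₀ + 1) = (g₀ + 1) * A := by ring
    omega
  obtain ⟨κ, hκ⟩ : ∃ κ, κ = (D - A) / 2 := ⟨_, rfl⟩
  obtain ⟨seg, hseg⟩ : ∃ seg, seg = 2 * κ + 3 + 2 * (2 * hh + 2) + ν := ⟨_, rfl⟩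
  have hs1 : seg ≤ D := by omega
  have hs2 : D < seg + 2 := by omega
  have hs3 : (g₀ + 1) * seg + a ≤ l := by
    have h3 : (g₀ + 1) * seg ≤ l - a := by
      calc (g₀ + 1) * seg ≤ (g₀ + 1) * D := Nat.mul_le_mul_left _ hs1
        _ ≤ l - a := by rw [hD]; exact Nat.mul_div_le (l - a) (g₀ + 1)
    have : a ≤ l := by omega
    omega
  have hs4 : l + 1 ≤ (g₀ + 1) * (seg + 2) + a := by
    have h3 : l - a < (g₀ + 1) * (D + 1) := by
      rw [hD]; exact Nat.lt_mul_div_succ (l - a) (by omega)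
    have h4 : (g₀ + 1) * (D + 1) ≤ (g₀ + 1) * (seg + 2) := Nat.mul_le_mul_left _ (by omega)
    omega
  have hgseg : ∀ r, g r * seg ≤ (g₀ + 1) * seg := fun r => Nat.mul_le_mul_right seg (hg r).2
  have hgseg' : ∀ r, g₀ * seg ≤ g r * seg := fun r => Nat.mul_le_mul_right seg (hg r).1
  have hqf : ∀ r, (f r - g r * seg) + g r * seg = f r := by
    intro r
    have := (hf r).1
    have := hgseg r
    omega
  have hsum : T * seg + ∑ r, (f r - g r * seg) = B := by
    have h3 : ∑ r, ((f r - g r * seg) + g r * seg) = B := by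
      rw [Finset.sum_congr rfl (fun r _ => hqf r), hfB]
    rw [Finset.sum_add_distrib, ← Finset.sum_mul, hgT] at h3
    omega
  have hTs : 1000 * (M * seg) ≤ n := by
    calc 1000 * (M * seg) = 1000 * M * seg := by ring
      _ ≤ T * seg := Nat.mul_le_mul_right seg hM
      _ ≤ n := by omega
  refine ⟨κ, l, g, fun r => f r - g r * seg, ?_, ?_, ?_, hgT, ?_, ?_, ?_, ?_⟩
  · -- `1 ≤ κ` from the next one
    by_contra hk
    have hk0 : κ = 0 := by omega
    have h3 : M * (l + 1) ≤ M * (g₀ + 1) * (seg + 2) + M * a := by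
      calc M * (l + 1) ≤ M * ((g₀ + 1) * (seg + 2) + a) := Nat.mul_le_mul_left M hs4
        _ = M * (g₀ + 1) * (seg + 2) + M * a := by ring
    have h4 := hMy (seg + 2)
    have h5 := hW (seg + 2 + a) (by omega)
    have h6 : T * (seg + 2 + a) = T * (seg + 2) + T * a := by ring
    omega
  · have h3 : M * (l + 1) ≤ M * (g₀ + 1) * (seg + 2) + M * a := by
      calc M * (l + 1) ≤ M * ((g₀ + 1) * (seg + 2) + a) := Nat.mul_le_mul_left M hs4
        _ = M * (g₀ + 1) * (seg + 2) + M * a := by ring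
    have h4 := hMy (seg + 2)
    have h5 := hW (A + 2 + a) (by omega)
    have h6 : T * (A + 2 + a) = T * A + T * 2 + T * a := by ring
    have h7 : T * (seg + 2) = 2 * (κ * T) + T * A + T * 2 := by
      rw [hseg, hA]; ring
    have h8 : 4 * κ * T = 4 * (κ * T) := by ring
    rw [h8]
    omega
  · intro r
    have := (hg r).1
    omega
  · intro r
    show 2 * hh + 2 ≤ f r - g r * seg
    have := (hf r).1
    have := hgseg r
    omega
  · intro r
    show l ≤ (f r - g r * seg) + g r * (2 * κ + 3 + 2 * (2 * hh + 2) + ν) ∧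
      (f r - g r * seg) + g r * (2 * κ + 3 + 2 * (2 * hh + 2) + ν) ≤ l + 1
    rw [← hseg, hqf r]
    exact hf r
  · show n = t + 2 * M + T * (2 * κ + 3 + 2 * (2 * hh + 2) + ν) + ∑ r, (f r - g r * seg)
    rw [← hseg]
    omega
  · show 100 * ∑ r, (f r - g r * seg) ≤ n
    have h3 : ∀ r ∈ (Finset.univ : Finset (Pr t)), f r - g r * seg ≤ seg + 2 * (g₀ + 1) + a := by
      intro r _
      have i1 := (hf r).2
      have i2 := hgseg' r
      have i3 : (g₀ + 1) * (seg + 2) = g₀ * seg + seg + 2 * (g₀ + 1) := by ring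
      omega
    have h4 := Finset.sum_le_sum h3
    rw [hcard] at h4
    have h5 : M * (seg + 2 * (g₀ + 1) + a) = M * seg + 2 * (M * (g₀ + 1)) + M * a := by ring
    have h6 := hW a (by omega)
    omega

end Pool.Agent.HD
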