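import Pool.Agent.HD.Defs
import Pool.Agent.HD.Multi
import Pool.Agent.HD.NetBuild

/-!
# Row M9r: everything that is built inside the reserve
-/

set_option autoImplicit false

namespace Pool.Agent.HD

open Finset

/-- a linkage over a sum type splits -/
theorem Links.sum_split {V ι κ : Type} [Fintype ι] [Fintype κ] {adj : V → V → Prop}
    {S : Finset V} {a b : ι → V} {a' b' : κ → V} {q : ι → ℕ} {q' : κ → ℕ}
    (h : Links adj S (Sum.elim a a') (Sum.elim b b') (Sum.elim q q')) :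
    ∃ S₁ S₂ : Finset V, S₁.val + S₂.val = S.val ∧ Links adj S₁ a b q ∧ Links adj S₂ a' b' q' := by
  obtain ⟨I, h1, h2, h3⟩ := h
  rw [Fintype.sum_sum_type] at h3
  have hnd : (∑ x : ι, ((I (Sum.inl x) : List V) : Multiset V) +
      ∑ x : κ, ((I (Sum.inr x) : List V) : Multiset V)).Nodup := by
    rw [h3]
    exact S.nodup
  have hnd1 := (Multiset.nodup_add.1 hnd).1
  have hnd2 := (Multiset.nodup_add.1 hnd).2.1
  exact ⟨⟨_, hnd1⟩, ⟨_, hnd2⟩, h3,
    ⟨fun x => I (Sum.inl x), fun x => h1 (Sum.inl x), fun x => h2 (Sum.inl x), rfl⟩,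
    ⟨fun x => I (Sum.inr x), fun x => h1 (Sum.inr x), fun x => h2 (Sum.inr x), rfl⟩⟩

/-- the code of the target of the second link of a segment -/
def rsvNx {ρ : Type} (g : ρ → ℕ) (x : Σ r, Fin (g r)) : (Σ r, Fin (g r)) ⊕ ρ :=
  if h : (x.2 : ℕ) + 1 < g x.1 then Sum.inl ⟨x.1, ⟨x.2 + 1, h⟩⟩ else Sum.inr x.1

theorem rsvNx_inj {ρ : Type} (g : ρ → ℕ) : Function.Injective (rsvNx g) := by
  rintro ⟨r, i⟩ ⟨r', i'⟩ h
  unfold rsvNx at h
  by_cases h1 : (i : ℕ) + 1 < g r
  · by_cases h2 : (i' : ℕ) + 1 < g r'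
    · rw [dif_pos h1, dif_pos h2] at h
      have h3 := Sum.inl.inj h
      have h4 : r = r' := congrArg Sigma.fst h3
      subst h4
      have h5 := eq_of_heq (Sigma.mk.inj h3).2
      have h6 : (i : ℕ) + 1 = (i' : ℕ) + 1 := congrArg Fin.val h5
      have h7 : i = i' := Fin.ext (by omega)
      rw [h7]
    · rw [dif_pos h1, dif_neg h2] at h
      exact absurd h (by simp)
  · by_cases h2 : (i' : ℕ) + 1 < g r'
    · rw [dif_neg h1, dif_pos h2] at h
      exact absurd h (by simp)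
    · rw [dif_neg h1, dif_neg h2] at h
      have h4 : r = r' := Sum.inr.inj h
      subst h4
      have h7 : i = i' := Fin.ext (by have := i.2; have := i'.2; omega)
      rw [h7]

theorem rsvNx_ne {ρ : Type} (g : ρ → ℕ) (x : Σ r, Fin (g r)) (r : ρ) (h0 : 0 < g r) :
    rsvNx g x ≠ Sum.inl ⟨r, ⟨0, h0⟩⟩ := by
  intro h
  unfold rsvNx at h
  by_cases h1 : (x.2 : ℕ) + 1 < g x.1
  · rw [dif_pos h1] at h
    have h3 := Sum.inl.inj h
    obtain ⟨r', i⟩ := x
    have h4 : r' = r := congrArg Sigma.fst h3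
    subst h4
    have h5 := eq_of_heq (Sigma.mk.inj h3).2
    have h6 : (i : ℕ) + 1 = 0 := congrArg Fin.val h5
    omega
  · rw [dif_neg h1] at h
    exact absurd h (by simp)

theorem reserve_stage {V : Type} [Fintype V] [DecidableEq V] {G : SimpleGraph V}
    {W : Finset V} {m hh K : ℕ} (hc : FPCtx G W m hh K)
    (hs : FPState G W m (univ \ W) (fun x => if x ∈ W then 2 else 3))
    (κn : ℕ) (hκn : 1 ≤ κn) {ρ : Type} [Fintype ρ] [DecidableEq ρ] (g : ρ → ℕ)
    (hg : ∀ r, 1 ≤ g r) (hgT : ∑ r, g r = 2 ^ κn) (Z : Finset V) (hZ : Z.card = znet κn)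
    (hZW : Disjoint Z W) (σ π : (Σ r, Fin (g r)) → V) (s t : ρ → V)
    (hinj : Function.Injective (Sum.elim (Sum.elim σ π) (Sum.elim s t)))
    (hW : ∀ x, Sum.elim (Sum.elim σ π) (Sum.elim s t) x ∉ W)
    (hZ' : ∀ x, Sum.elim (Sum.elim σ π) (Sum.elim s t) x ∉ Z)
    (q j : ℕ) (hq : 2 * hh + 2 ≤ q) (hj : hh + 1 ≤ j) (qf : ρ → ℕ) (hqf : ∀ r, 2 * hh + 2 ≤ qf r)
    (hcap : wnet j q κn + 2 * 2 ^ κn * q + ∑ r, qf r + 2 ^ (hh + 2) ≤ K) :
    ∃ (SN S₁ S₂ S₃ : Finset V) (I O : (Σ r, Fin (g r)) → V),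
      SN.val + S₁.val + S₂.val + S₃.val ≤ W.val ∧
      SN.card + S₁.card + S₂.card + S₃.card = wnet j q κn + 2 * 2 ^ κn * q + ∑ r, qf r ∧
      Net G.Adj (Z ∪ SN) I O (nnet j q κn) ∧
      Links G.Adj S₁ π I (fun _ => q) ∧
      Links G.Adj S₂ O (fun x => if h : (x.2 : ℕ) + 1 < g x.1 then σ ⟨x.1, ⟨x.2 + 1, h⟩⟩
        else t x.1) (fun _ => q) ∧
      Links G.Adj S₃ s (fun r => σ ⟨r, ⟨0, hg r⟩⟩) qf := by
  classical
  have hcard : Fintype.card (Σ r, Fin (g r)) = 2 ^ κn := by
    rw [Fintype.card_sigma, ← hgT]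
    simp
  have hU0W : (univ \ W) ∩ W = ∅ := Finset.sdiff_inter_self W univ
  have hmemU0 : ∀ v, v ∉ W → v ∈ univ \ W := fun v hv => by
    rw [Finset.mem_sdiff]
    exact ⟨mem_univ _, hv⟩
  obtain ⟨I, O, SN, r', hSN, hSNc, hNet, hI, hO, hIO, hIm, hOm, hIr, hOr, hr', hst⟩ :=
    FPState.build_net hc hq hj κn hκn hcard hs Z hZ
      (fun z hz => hmemU0 z (Finset.disjoint_left.1 hZW hz))
      (fun z hz => by
        show (if z ∈ W then 2 else 3) = 3
        rw [if_neg (Finset.disjoint_left.1 hZW hz)])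
      (by rw [hU0W, Finset.card_empty]; omega)
  have hSNW : SN ⊆ W := by
    intro v hv
    by_contra hvW
    exact Finset.disjoint_left.1 hSN hv (hmemU0 v hvW)
  -- the value function
  set E : ((Σ r, Fin (g r)) ⊕ (Σ r, Fin (g r))) ⊕ (ρ ⊕ ρ) → V :=
    Sum.elim (Sum.elim σ π) (Sum.elim s t) with hE
  have hEout : ∀ x, E x ∉ Z ∪ SN := by
    intro x hx
    rcases Finset.mem_union.1 hx with h | h
    · exact hZ' x h
    · exact hW x (hSNW h)
  have hIOm : ∀ x, Sum.elim I O x ∈ Z ∪ SN := by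
    rintro (x | x)
    · exact hIm x
    · exact hOm x
  have hIOinj : Function.Injective (Sum.elim I O) := by
    rintro (x | x) (y | y) h
    · exact congrArg Sum.inl (hI h)
    · exact absurd h (hIO x y)
    · exact absurd h.symm (hIO y x)
    · exact congrArg Sum.inr (hO h)
  have hVinj : Function.Injective (Sum.elim E (Sum.elim I O)) := by
    rintro (x | x) (y | y) h
    · exact congrArg Sum.inl (hinj h)
    · exfalso
      have h' : E x = Sum.elim I O y := h
      exact hEout x (h' ▸ hIOm y)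
    · exfalso
      have h' : Sum.elim I O x = E y := h
      exact hEout y (h' ▸ hIOm x)
    · exact congrArg Sum.inr (hIOinj h)
  -- codes of the sources and of the targets
  let nxE : (Σ r, Fin (g r)) ⊕ ρ → ((Σ r, Fin (g r)) ⊕ (Σ r, Fin (g r))) ⊕ (ρ ⊕ ρ) :=
    Sum.elim (fun x => Sum.inl (Sum.inl x)) (fun r => Sum.inr (Sum.inr r))
  have hnxE : Function.Injective nxE := by
    rintro (x | x) (y | y) h
    · simpa [nxE] using h
    · simp [nxE] at h
    · simp [nxE] at h
    · simpa [nxE] using h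
  let ca : ((Σ r, Fin (g r)) ⊕ (Σ r, Fin (g r))) ⊕ ρ →
      (((Σ r, Fin (g r)) ⊕ (Σ r, Fin (g r))) ⊕ (ρ ⊕ ρ)) ⊕ ((Σ r, Fin (g r)) ⊕ (Σ r, Fin (g r))) :=
    Sum.elim (Sum.elim (fun x => Sum.inl (Sum.inl (Sum.inr x))) (fun x => Sum.inr (Sum.inr x)))
      (fun r => Sum.inl (Sum.inr (Sum.inl r)))
  let cb : ((Σ r, Fin (g r)) ⊕ (Σ r, Fin (g r))) ⊕ ρ →
      (((Σ r, Fin (g r)) ⊕ (Σ r, Fin (g r))) ⊕ (ρ ⊕ ρ)) ⊕ ((Σ r, Fin (g r)) ⊕ (Σ r, Fin (g r))) :=
    Sum.elim (Sum.elim (fun x => Sum.inr (Sum.inl x)) (fun x => Sum.inl (nxE (rsvNx g x))))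
      (fun r => Sum.inl (nxE (Sum.inl ⟨r, ⟨0, hg r⟩⟩)))
  have hcode : Function.Injective (Sum.elim ca cb) := by
    have hnxne1 : ∀ z x, nxE z ≠ Sum.inl (Sum.inr x) := by
      rintro (z | z) x h <;> simp [nxE] at h
    have hnxne2 : ∀ z x, nxE z ≠ Sum.inr (Sum.inl x) := by
      rintro (z | z) x h <;> simp [nxE] at h
    rintro (((x | x) | x) | ((x | x) | x)) (((y | y) | y) | ((y | y) | y)) h
    all_goals simp only [Sum.elim_inl, Sum.elim_inr, ca, cb, Sum.inl.injEq, Sum.inr.injEq,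
      reduceCtorEq] at h
    all_goals first
      | (rw [h])
      | (exact absurd h.symm (hnxne1 _ _))
      | (exact absurd h (hnxne1 _ _))
      | (exact absurd h.symm (hnxne2 _ _))
      | (exact absurd h (hnxne2 _ _))
      | skip
    · have h1 := rsvNx_inj g (hnxE h)
      rw [h1]
    · exact absurd (hnxE h) (rsvNx_ne g x y (hg y))
    · exact absurd (hnxE h).symm (rsvNx_ne g y x (hg x))
    · have h1 := Sum.inl.inj (hnxE h)
      have h2 : x = y := congrArg Sigma.fst h1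
      rw [h2]
  -- sources and targets
  have hnx : ∀ x : (Σ r, Fin (g r)), E (nxE (rsvNx g x)) =
      if h : (x.2 : ℕ) + 1 < g x.1 then σ ⟨x.1, ⟨x.2 + 1, h⟩⟩ else t x.1 := by
    intro x
    unfold rsvNx
    by_cases h1 : (x.2 : ℕ) + 1 < g x.1
    · rw [dif_pos h1, dif_pos h1]
      rfl
    · rw [dif_neg h1, dif_neg h1]
      rfl
  let A : ((Σ r, Fin (g r)) ⊕ (Σ r, Fin (g r))) ⊕ ρ → V := Sum.elim (Sum.elim π O) s
  let B : ((Σ r, Fin (g r)) ⊕ (Σ r, Fin (g r))) ⊕ ρ → V :=
    Sum.elim (Sum.elim I (fun x => if h : (x.2 : ℕ) + 1 < g x.1 then σ ⟨x.1, ⟨x.2 + 1, h⟩⟩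
        else t x.1)) (fun r => σ ⟨r, ⟨0, hg r⟩⟩)
  have hA : ∀ x, A x = Sum.elim E (Sum.elim I O) (ca x) := by
    rintro ((x | x) | x) <;> rfl
  have hB : ∀ x, B x = Sum.elim E (Sum.elim I O) (cb x) := by
    rintro ((x | x) | x)
    · rfl
    · exact (hnx x).symm
    · rfl
  have hABinj : Function.Injective (Sum.elim A B) := by
    have h1 : Sum.elim A B = (Sum.elim E (Sum.elim I O)) ∘ (Sum.elim ca cb) := by
      funext x
      rcases x with x | x
      · exact hA x
      · exact hB x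
    rw [h1]
    exact hVinj.comp hcode
  -- values are used, demands are positive
  have hval : ∀ z, Sum.elim E (Sum.elim I O) z ∈ (univ \ W) ∪ SN ∧
      1 ≤ r' (Sum.elim E (Sum.elim I O) z) := by
    rintro (z | z)
    · have h1 : E z ∉ W := hW z
      refine ⟨Finset.mem_union_left _ (hmemU0 _ h1), ?_⟩
      show 1 ≤ r' (E z)
      rw [hr' (E z) (hEout z)]
      simp only [if_neg h1]
      omega
    · rcases z with z | z
      · refine ⟨?_, hIr z⟩
        show I z ∈ _
        rcases Finset.mem_union.1 (hIm z) with h | h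
        · exact Finset.mem_union_left _ (hmemU0 _ (Finset.disjoint_left.1 hZW h))
        · exact Finset.mem_union_right _ h
      · refine ⟨?_, hOr z⟩
        show O z ∈ _
        rcases Finset.mem_union.1 (hOm z) with h | h
        · exact Finset.mem_union_left _ (hmemU0 _ (Finset.disjoint_left.1 hZW h))
        · exact Finset.mem_union_right _ h
  let Q : ((Σ r, Fin (g r)) ⊕ (Σ r, Fin (g r))) ⊕ ρ → ℕ :=
    Sum.elim (Sum.elim (fun _ => q) (fun _ => q)) qf
  have hQsum : ∑ x, Q x = 2 * 2 ^ κn * q + ∑ r, qf r := by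
    rw [Fintype.sum_sum_type, Fintype.sum_sum_type]
    simp only [Q, Sum.elim_inl, Sum.elim_inr, Finset.sum_const, Finset.card_univ, hcard,
      smul_eq_mul]
    ring
  obtain ⟨S, hSd, hSc, hSL, -⟩ := FPState.multi_link hc hst A B Q
    (by
      rintro ((x | x) | x)
      · exact hq
      · exact hq
      · exact hqf x)
    (by
      have h1 : (((univ \ W) ∪ SN) ∩ W).card ≤ SN.card := by
        apply Finset.card_le_card
        intro v hv
        rw [Finset.mem_inter, Finset.mem_union, Finset.mem_sdiff] at hv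
        rcases hv.1 with h | h
        · exact absurd hv.2 h.2
        · exact h
      rw [hQsum]
      omega)
    (fun x => by rw [hA x]; exact (hval _).1)
    (fun x => by rw [hB x]; exact (hval _).1)
    (fun x h => by
      have h1 := @hABinj (Sum.inl x) (Sum.inr x) h
      exact absurd h1 (by simp))
    (fun v => by
      by_cases hv1 : ∃ x, A x = v
      · obtain ⟨x, rfl⟩ := hv1
        refine (nb_count_le_one A B hABinj _).trans ?_
        rw [hA x]
        exact (hval _).2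
      · by_cases hv2 : ∃ x, B x = v
        · obtain ⟨x, rfl⟩ := hv2
          refine (nb_count_le_one A B hABinj _).trans ?_
          rw [hB x]
          exact (hval _).2
        · push Not at hv1 hv2
          rw [nb_count_zero hv1, nb_count_zero hv2]
          exact Nat.zero_le _)
  obtain ⟨S12, S3, h12, hL12, hL3⟩ := Links.sum_split hSL
  obtain ⟨S1, S2, h1, hL1, hL2⟩ := Links.sum_split hL12
  refine ⟨SN, S1, S2, S3, I, O, ?_, ?_, hNet, hL1, hL2, hL3⟩
  · have h2 : SN.val + S1.val + S2.val + S3.val = SN.val + S.val := by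
      rw [← h12, ← h1, add_assoc, add_assoc, add_assoc]
    rw [h2]
    have hdis : Disjoint SN S := by
      rw [Finset.disjoint_left]
      intro v hv hv'
      exact Finset.disjoint_left.1 hSd hv' (Finset.mem_union_right _ hv)
    have h3 : SN.val + S.val = (SN.disjUnion S hdis).val := rfl
    rw [h3, Finset.val_le_iff]
    intro v hv
    rw [Finset.mem_disjUnion] at hv
    rcases hv with hv | hv
    · exact hSNW hv
    · by_contra hvW
      exact Finset.disjoint_left.1 hSd hv (Finset.mem_union_left _ (hmemU0 v hvW))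
  · have h2 : S.card = S1.card + S2.card + S3.card := by
      have h3 := congrArg Multiset.card h12
      have h4 := congrArg Multiset.card h1
      rw [Multiset.card_add] at h3 h4
      simp only [Finset.card_val] at h3 h4
      omega
    rw [hSNc]
    have h5 : S.card = 2 * 2 ^ κn * q + ∑ r, qf r := by rw [hSc, hQsum]
    omega

end Pool.Agent.HD
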