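import Pool.Agent.HD.Walk

/-!
MP_134267_co (helper33): the walk through random layers, general form (for the stages of HD2).
-/

namespace Pool.Agent.HD

open Finset

/-- perfect matching between two layers, degrees only for the vertices of the layers -/
theorem match_layers_gen {V : Type} [Fintype V] [DecidableEq V] (G : SimpleGraph V)
    [DecidableRel G.Adj] {d : ℕ} (E F : Finset V) (hEF : E.card = F.card) (Z D : ℝ)
    (hZ : 0 ≤ Z) (hD0 : 0 ≤ D)
    (hn : ∀ x : V → ℝ, ∑ u ∈ E, (∑ c, (if c ∈ F then Mx G d u c else 0) * x c) ^ 2 ≤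
      Z * ∑ c, x c ^ 2)
    (hZD : 4 * Z < D ^ 2)
    (hE : ∀ v ∈ F, D ≤ ((G.neighborFinset v ∩ E).card : ℝ))
    (hF : ∀ v ∈ E, D ≤ ((G.neighborFinset v ∩ F).card : ℝ)) :
    (∃ e : E ≃ F, ∀ a : E, G.Adj a (e a)) ∧ (∃ e : F ≃ E, ∀ a : F, G.Adj a (e a)) := by
  have hL : ∀ x : V → ℝ, (∀ v, v ∉ F → x v = 0) →
      ∑ u ∈ E, (∑ v ∈ F, ((if G.Adj u v then (1 : ℝ) else 0) - (d : ℝ) / Fintype.card V) * x v) ^ 2 ≤
        (√Z) ^ 2 * ∑ v ∈ F, x v ^ 2 := by
    intro x hx
    rw [Real.sq_sqrt hZ]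
    have h1 := hn x
    have h2 : ∀ u, ∑ c, (if c ∈ F then Mx G d u c else 0) * x c =
        ∑ v ∈ F, ((if G.Adj u v then (1 : ℝ) else 0) - (d : ℝ) / Fintype.card V) * x v := by
      intro u
      rw [← sum_filter_add_sum_filter_not univ (fun c => c ∈ F)]
      rw [sum_eq_zero (s := univ.filter (fun c => ¬ c ∈ F)), add_zero]
      · rw [show univ.filter (fun c => c ∈ F) = F by ext c; simp]
        refine sum_congr rfl fun c hc => ?_
        rw [if_pos hc]
        rfl
      · intro c hc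
        rw [if_neg (mem_filter.1 hc).2, zero_mul]
    have h3 : ∑ c, x c ^ 2 = ∑ v ∈ F, x v ^ 2 := by
      rw [← sum_subset (subset_univ F)]
      intro v _ hv
      rw [hx v hv]
      ring
    simp_rw [h2, h3] at h1
    exact h1
  have hmix := mixing_of_norm G ((d : ℝ) / Fintype.card V) (√Z) (Real.sqrt_nonneg _) E F hL
  have h2L : 2 * √Z < D := by
    have h4 : (2 * √Z) ^ 2 < D ^ 2 := by
      rw [mul_pow, Real.sq_sqrt hZ]
      linarith
    exact lt_of_pow_lt_pow_left₀ 2 hD0 h4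
  have key := hall_matching G E F hEF ((d : ℝ) / Fintype.card V) (√Z) D (by positivity)
    (Real.sqrt_nonneg _) h2L ?_ ?_ (fun S hS T hT => hmix S T hS hT)
  · obtain ⟨e, he⟩ := key
    refine ⟨⟨e, he⟩, ⟨e.symm, fun a => ?_⟩⟩
    have := he (e.symm a)
    rw [e.apply_symm_apply] at this
    exact this.symm
  · intro a ha
    refine (hF a ha).trans (le_of_eq ?_)
    congr 2
    ext v
    rw [mem_filter, mem_inter, SimpleGraph.mem_neighborFinset, and_comm]
  · intro b hb
    refine (hE b hb).trans (le_of_eq ?_)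
    congr 2
    ext v
    rw [mem_filter, mem_inter, SimpleGraph.mem_neighborFinset, and_comm, G.adj_comm]

/-- the walk through random layers, general form: all the vertices are in `U`, the hypotheses are
norm bounds, degree bounds and row norms (as numbers) -/
theorem walk_gen {V : Type} [Fintype V] [DecidableEq V] (G : SimpleGraph V) [DecidableRel G.Adj]
    {d : ℕ} (T κ Q : ℕ) (hκ : 1 ≤ κ) (hQ : 1 ≤ Q)
    (A₀ A₁ Ro Re U : Finset V) (hA₀ : A₀.card = T) (hA₁ : A₁.card = T) (hRo : Ro.card = κ * T)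
    (hRe : Re.card = (κ + 1) * T) (S : Finset V)
    (hS : A₀.val + A₁.val + Ro.val + Re.val = S.val) (hSU : S ⊆ U)
    (δ ΔR ΛR dR : ℝ) (hΔR0 : 0 ≤ ΔR) (hΛR0 : 0 ≤ ΛR) (hdR0 : 0 ≤ dR)
    (hdo : ∀ v ∈ U, δ ≤ ((G.neighborFinset v ∩ Ro).card : ℝ))
    (hde : ∀ v ∈ U, δ ≤ ((G.neighborFinset v ∩ Re).card : ℝ))
    (hdu : ∀ v ∈ U, ((G.neighborFinset v ∩ Ro).card : ℝ) ≤ ΔR)
    (hrow : ∀ u ∈ Ro, ∑ v ∈ U, Mx G d u v ^ 2 ≤ dR)
    (hnR : ∀ x : V → ℝ, ∑ u ∈ Ro, (∑ v ∈ U, Mx G d u v * x v) ^ 2 ≤ ΛR * ∑ v, x v ^ 2)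
    (D₀ D₁ Λ₁ : ℝ) (hD00 : 0 ≤ D₀) (hD10 : 0 ≤ D₁) (hΛ10 : 0 ≤ Λ₁)
    (hl0 : ∀ v ∈ U, D₀ ≤ ((G.neighborFinset v ∩ A₀).card : ℝ))
    (hl1 : ∀ v ∈ U, D₀ ≤ ((G.neighborFinset v ∩ A₁).card : ℝ))
    (hu0 : ∀ v ∈ U, ((G.neighborFinset v ∩ A₀).card : ℝ) ≤ D₁)
    (hu1 : ∀ v ∈ U, ((G.neighborFinset v ∩ A₁).card : ℝ) ≤ D₁)
    (hn0 : ∀ x : V → ℝ, ∑ u ∈ A₀, (∑ v ∈ U, Mx G d u v * x v) ^ 2 ≤ Λ₁ * ∑ v, x v ^ 2)
    (hn1 : ∀ x : V → ℝ, ∑ u ∈ A₁, (∑ v ∈ U, Mx G d u v * x v) ^ 2 ≤ Λ₁ * ∑ v, x v ^ 2)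
    (hD₀ : D₀ ≤ δ / (2 * (κ + 2)))
    (hD₁ : 16 * (ΔR / (κ + 1) + Q) ≤ D₁)
    (hΛ₁ : 16 * (ΛR / (κ + 1) + Q * dR) ≤ Λ₁)
    (hL : 64 * (Λ₁ / (κ + 2) + Q * (D₁ + T * ((d : ℝ) / Fintype.card V) ^ 2)) < D₀ ^ 2)
    (h1 : 4 * ((Fintype.card V : ℝ) + 1) * (κ + 2) * Fintype.card V ≤ 8 ^ Q)
    (h1' : κ + 1 ≤ Fintype.card V)
    (h2 : 4 * (Fintype.card V : ℝ) * (κ + 2) < Real.exp (δ / (10 * (κ + 2))))
    (h3 : 4 * ((κ : ℝ) + 2) < Real.exp ((κ * T : ℝ) / (4 * (κ + 2) ^ 3)))
    (σ : Fin T → V) (hσ : ∑ x, ({σ x} : Multiset V) = A₀.val) :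
    ∃ π : Fin T → V, (∑ x, ({π x} : Multiset V) = A₁.val) ∧
      Lk G.Adj S σ π (fun _ => 2 * κ + 3) := by
  classical
  have hκ0 : (0 : ℝ) ≤ κ := Nat.cast_nonneg κ
  have hV1 : (1 : ℝ) ≤ Fintype.card V := by
    have : 1 ≤ Fintype.card V := by omega
    exact_mod_cast this
  have hA₀S : A₀ ⊆ S := by
    rw [← val_le_iff, ← hS, add_assoc, add_assoc]
    exact Multiset.le_add_right _ _
  have hA₁S : A₁ ⊆ S := by
    rw [← val_le_iff, ← hS, add_comm A₀.val, add_assoc, add_assoc]
    exact Multiset.le_add_right _ _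
  have hRoS : Ro ⊆ S := by
    rw [← val_le_iff, ← hS, add_comm (A₀.val + A₁.val), add_assoc]
    exact Multiset.le_add_right _ _
  have hReS : Re ⊆ S := by
    rw [← val_le_iff, ← hS]
    exact Multiset.le_add_left _ _
  have sumU : ∀ (F : Finset V) (c : V → ℝ) (x : V → ℝ),
      ∑ v, (if v ∈ F then c v else 0) * x v = ∑ v ∈ F, c v * x v := by
    intro F c x
    rw [← sum_filter_add_sum_filter_not univ (fun v => v ∈ F)]
    rw [sum_eq_zero (s := univ.filter (fun v => ¬ v ∈ F)), add_zero]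
    · rw [show univ.filter (fun v => v ∈ F) = F by ext c; simp]
      refine sum_congr rfl fun v hv => ?_
      rw [if_pos hv]
    · intro v hv
      rw [if_neg (mem_filter.1 hv).2, zero_mul]
  have sumU2 : ∀ (F : Finset V) (c : V → ℝ),
      ∑ v, (if v ∈ F then c v else 0) ^ 2 = ∑ v ∈ F, c v ^ 2 := by
    intro F c
    rw [← sum_filter_add_sum_filter_not univ (fun v => v ∈ F)]
    rw [sum_eq_zero (s := univ.filter (fun v => ¬ v ∈ F)), add_zero]
    · rw [show univ.filter (fun v => v ∈ F) = F by ext c; simp]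
      refine sum_congr rfl fun v hv => ?_
      rw [if_pos hv]
    · intro v hv
      rw [if_neg (mem_filter.1 hv).2]
      ring
  -- the odd layers
  obtain ⟨O, hO1, hO2, hO3, hO4⟩ := layer_partition Ro κ T hRo hκ Q hQ
    (A := Option V) (fun a u c => match a with
      | none => if c ∈ U then Mx G d u c else 0
      | some v => if c = v ∧ (v ∈ U ∧ G.Adj u v) then 1 else 0)
    (fun a => match a with
      | none => ΛR
      | some _ => ΔR)
    (fun a => match a with
      | none => dR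
      | some _ => 1)
    (by rintro (_ | v); exacts [hdR0, zero_le_one])
    (by rintro (_ | v); exacts [hΛR0, hΔR0])
    (by
      rintro (_ | v) x
      · simp only
        simp_rw [sumU]
        exact hnR x
      · simp only
        have e1 : ∀ u, (∑ c, (if c = v ∧ (v ∈ U ∧ G.Adj u v) then (1 : ℝ) else 0) * x c) ^ 2 =
            if (v ∈ U ∧ G.Adj u v) then x v ^ 2 else 0 := by
          intro u
          by_cases hu : (v ∈ U ∧ G.Adj u v)
          · simp [hu]
          · simp [hu]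
        simp_rw [e1]
        rw [← sum_filter, sum_const, nsmul_eq_mul]
        refine mul_le_mul ?_ (single_le_sum (f := fun c => x c ^ 2) (fun c _ => sq_nonneg _)
          (mem_univ v)) (sq_nonneg _) hΔR0
        by_cases hv : v ∈ U
        · refine le_trans ?_ (hdu v hv)
          have e2 : (Ro.filter (fun u => v ∈ U ∧ G.Adj u v)).card ≤
              (G.neighborFinset v ∩ Ro).card := by
            refine card_le_card fun u hu => ?_
            rw [mem_inter, SimpleGraph.mem_neighborFinset]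
            exact ⟨(mem_filter.1 hu).2.2.symm, (mem_filter.1 hu).1⟩
          exact_mod_cast e2
        · rw [filter_false_of_mem (fun u _ hu => hv hu.1)]
          simpa using hΔR0)
    (by
      rintro (_ | v) u hu
      · simp only
        rw [sumU2]
        exact hrow u hu
      · simp only
        have e1 : ∀ c, (if c = v ∧ (v ∈ U ∧ G.Adj u v) then (1 : ℝ) else 0) ^ 2 ≤
            if c = v then 1 else 0 := by
          intro c
          by_cases hc : c = v
          · by_cases hu : (v ∈ U ∧ G.Adj u v) <;> simp [hc, hu]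
          · simp [hc]
        refine (sum_le_sum fun c _ => e1 c).trans ?_
        simp)
    (B := {v // v ∈ U}) (fun v => G.neighborFinset v.1 ∩ Ro) (fun v => inter_subset_right) δ
    (fun v => hdo v.1 v.2)
    (by
      rw [Fintype.card_option]
      refine le_trans ?_ h1
      push_cast
      have : (0 : ℝ) ≤ 4 * ((Fintype.card V : ℝ) + 1) := by positivity
      refine mul_le_mul_of_nonneg_right ?_ (by positivity)
      refine mul_le_mul_of_nonneg_left ?_ this
      linarith)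
    (by
      have e0 : (Fintype.card {v // v ∈ U} : ℝ) ≤ Fintype.card V := by
        exact_mod_cast Fintype.card_subtype_le _
      rcases le_or_gt 0 δ with hδ | hδ
      · have e1 : δ / (10 * (κ + 2)) ≤ δ / (10 * (κ + 1)) := by
          apply div_le_div_of_nonneg_left hδ (by positivity)
          linarith
        have e2 := Real.exp_le_exp.2 e1
        have e3 : 4 * (Fintype.card {v // v ∈ U} : ℝ) * (κ + 1) ≤
            4 * (Fintype.card V : ℝ) * (κ + 2) := by
          apply mul_le_mul _ (by linarith) (by positivity) (by positivity)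
          linarith
        linarith
      · exfalso
        have e1 : Real.exp (δ / (10 * (κ + 2))) ≤ 1 := by
          rw [Real.exp_le_one_iff]
          exact div_nonpos_of_nonpos_of_nonneg hδ.le (by positivity)
        nlinarith)
    (by
      have e1 : (κ * T : ℝ) / (4 * (κ + 2) ^ 3) ≤ (Ro.card : ℝ) / (4 * (κ + 1) ^ 3) := by
        rw [hRo]
        push_cast
        apply div_le_div_of_nonneg_left (by positivity) (by positivity)
        have : ((κ : ℝ) + 1) ^ 3 ≤ (κ + 2) ^ 3 := by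
          apply pow_le_pow_left₀ (by positivity)
          linarith
        linarith
      have e2 := Real.exp_le_exp.2 e1
      linarith)
  have hδ0 : 0 ≤ δ := by
    by_contra hδ
    push Not at hδ
    have e1 : Real.exp (δ / (10 * (κ + 2))) ≤ 1 := by
      rw [Real.exp_le_one_iff]
      exact div_nonpos_of_nonpos_of_nonneg hδ.le (by positivity)
    nlinarith
  -- degrees and norms of the odd layers
  have hOl : ∀ v ∈ U, ∀ i, D₀ ≤ ((G.neighborFinset v ∩ O i).card : ℝ) := by
    intro v hv i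
    have e1 := hO3 ⟨v, hv⟩ i
    simp only at e1
    have e2 : (G.neighborFinset v ∩ Ro ∩ O i).card ≤ (G.neighborFinset v ∩ O i).card := by
      refine card_le_card ?_
      intro u hu
      rw [mem_inter] at hu ⊢
      exact ⟨(mem_inter.1 hu.1).1, hu.2⟩
    have e3 := hdo v hv
    have e4 : (G.neighborFinset v ∩ Ro).card ≤ 2 * (κ + 1) * (G.neighborFinset v ∩ O i).card :=
      e1.trans (Nat.mul_le_mul_left _ e2)
    have e5 : ((G.neighborFinset v ∩ Ro).card : ℝ) ≤
        2 * (κ + 1) * ((G.neighborFinset v ∩ O i).card : ℝ) := by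
      exact_mod_cast e4
    refine hD₀.trans ?_
    rw [div_le_iff₀ (by positivity)]
    nlinarith [Nat.cast_nonneg (α := ℝ) (G.neighborFinset v ∩ O i).card]
  have hOu : ∀ v ∈ U, ∀ i, ((G.neighborFinset v ∩ O i).card : ℝ) ≤ D₁ := by
    intro v hv i
    have e1 := hO4 (some v) i (fun c => if c = v then 1 else 0)
    simp only at e1
    have e2 : ∀ u, (∑ c, (if c = v ∧ (v ∈ U ∧ G.Adj u v) then (1 : ℝ) else 0) *
        (if c = v then 1 else 0)) ^ 2 = if G.Adj u v then 1 else 0 := by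
      intro u
      by_cases hu : G.Adj u v
      · simp [hu, hv]
      · simp [hu]
    simp_rw [e2] at e1
    rw [← sum_filter, sum_const, nsmul_eq_mul, mul_one] at e1
    have e3 : ∑ c, (if c = v then (1 : ℝ) else 0) ^ 2 = 1 := by
      simp
    rw [e3, mul_one, mul_one] at e1
    have e4 : (G.neighborFinset v ∩ O i) = (O i).filter (fun u => G.Adj u v) := by
      ext u
      rw [mem_inter, mem_filter, SimpleGraph.mem_neighborFinset, and_comm, G.adj_comm]
    rw [e4]
    exact e1.trans hD₁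
  have hOn : ∀ i (x : V → ℝ), ∑ u ∈ O i, (∑ v ∈ U, Mx G d u v * x v) ^ 2 ≤
      Λ₁ * ∑ v, x v ^ 2 := by
    intro i x
    have e1 := hO4 none i x
    simp only at e1
    simp_rw [sumU] at e1
    refine e1.trans ?_
    exact mul_le_mul_of_nonneg_right hΛ₁ (sum_nonneg fun _ _ => sq_nonneg _)
  -- the family of the layers that are fixed before the even ones
  set F : Fin κ ⊕ Bool → Finset V := Sum.elim O (fun b => if b then A₁ else A₀) with hF
  have hFc : ∀ a, (F a).card = T := by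
    rintro (i | _ | _)
    · exact hO1 i
    · simpa [hF] using hA₀
    · simpa [hF] using hA₁
  have hFl : ∀ a, ∀ v ∈ U, D₀ ≤ ((G.neighborFinset v ∩ F a).card : ℝ) := by
    rintro (i | _ | _) v hv
    · exact hOl v hv i
    · simpa [hF] using hl0 v hv
    · simpa [hF] using hl1 v hv
  have hFu : ∀ a, ∀ v ∈ U, ((G.neighborFinset v ∩ F a).card : ℝ) ≤ D₁ := by
    rintro (i | _ | _) v hv
    · exact hOu v hv i
    · simpa [hF] using hu0 v hv
    · simpa [hF] using hu1 v hv
  have hFn : ∀ a (x : V → ℝ), ∑ u ∈ F a, (∑ v ∈ U, Mx G d u v * x v) ^ 2 ≤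
      Λ₁ * ∑ v, x v ^ 2 := by
    rintro (i | _ | _) x
    · exact hOn i x
    · simpa [hF] using hn0 x
    · simpa [hF] using hn1 x
  have hFU : ∀ a, F a ⊆ U := by
    rintro (i | _ | _)
    · refine Subset.trans ?_ (hRoS.trans hSU)
      rw [← val_le_iff, ← hO2]
      exact single_le_sum (f := fun i => (O i).val) (fun _ _ => Multiset.zero_le _) (mem_univ i)
    · simpa [hF] using hA₀S.trans hSU
    · simpa [hF] using hA₁S.trans hSU
  -- the even layers
  obtain ⟨E, hE1, hE2, hE3, hE4⟩ := layer_partition Re (κ + 1) T hRe (by omega) Q hQ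
    (A := Fin κ ⊕ Bool) (fun a u c => if c ∈ F a then Mx G d u c else 0)
    (fun _ => Λ₁) (fun _ => D₁ + T * ((d : ℝ) / Fintype.card V) ^ 2)
    (fun _ => by positivity) (fun _ => hΛ10)
    (by
      intro a x
      simp_rw [sumU]
      have e0 : ∀ x : V → ℝ, ∑ u ∈ F a, (∑ v, (if v ∈ U then Mx G d u v else 0) * x v) ^ 2 ≤
          Λ₁ * ∑ v, x v ^ 2 := by
        intro x
        simp_rw [sumU]
        exact hFn a x
      have e1 := transpose_norm (fun u v => if v ∈ U then Mx G d u v else 0) (F a) Λ₁ hΛ10 e0 x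
      have e2 : ∀ u ∈ Re, ∑ c ∈ F a, Mx G d u c * x c =
          ∑ c ∈ F a, (if u ∈ U then Mx G d c u else 0) * x c := by
        intro u hu
        refine sum_congr rfl fun c hc => ?_
        rw [if_pos (hSU (hReS hu)), Mx_symm]
      rw [sum_congr rfl fun u hu => by rw [e2 u hu]]
      refine (sum_le_sum_of_subset_of_nonneg (subset_univ Re) (fun _ _ _ => sq_nonneg _)).trans ?_
      refine e1.trans (mul_le_mul_of_nonneg_left ?_ hΛ10)
      exact sum_le_sum_of_subset_of_nonneg (subset_univ _) (fun _ _ _ => sq_nonneg _))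
    (by
      intro a u hu
      rw [sumU2]
      refine (Mx_row_le G d u (F a)).trans ?_
      rw [hFc a]
      linarith [hFu a u (hSU (hReS hu))])
    (B := {v // v ∈ U}) (fun v => G.neighborFinset v.1 ∩ Re) (fun v => inter_subset_right) δ
    (fun v => hde v.1 v.2)
    (by
      refine le_trans ?_ h1
      rw [Fintype.card_sum, Fintype.card_fin, Fintype.card_bool]
      push_cast
      refine mul_le_mul_of_nonneg_right ?_ (by positivity)
      have e1 : (κ : ℝ) + 2 ≤ (Fintype.card V : ℝ) + 1 := by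
        have : ((κ + 1 : ℕ) : ℝ) ≤ Fintype.card V := by exact_mod_cast h1'
        push_cast at this
        linarith
      have e2 : ((κ : ℝ) + 1 + 1) = κ + 2 := by ring
      rw [e2]
      refine mul_le_mul_of_nonneg_right ?_ (by positivity)
      linarith)
    (by
      have e0 : (Fintype.card {v // v ∈ U} : ℝ) ≤ Fintype.card V := by
        exact_mod_cast Fintype.card_subtype_le _
      have e2 : (10 * (((κ + 1 : ℕ) : ℝ) + 1)) = 10 * (κ + 2) := by push_cast; ring
      have e3 : (((κ + 1 : ℕ) : ℝ) + 1) = κ + 2 := by push_cast; ring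
      rw [e2, e3]
      refine lt_of_le_of_lt ?_ h2
      apply mul_le_mul_of_nonneg_right _ (by positivity)
      linarith)
    (by
      have e3 : (((κ + 1 : ℕ) : ℝ) + 1) = κ + 2 := by push_cast; ring
      rw [e3]
      have e1 : (κ * T : ℝ) / (4 * (κ + 2) ^ 3) ≤ (Re.card : ℝ) / (4 * (κ + 2) ^ 3) := by
        rw [hRe]
        push_cast
        apply div_le_div_of_nonneg_right _ (by positivity)
        nlinarith [Nat.cast_nonneg (α := ℝ) T]
      have e2 := Real.exp_le_exp.2 e1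
      linarith)
  have hEl : ∀ v ∈ U, ∀ i, D₀ ≤ ((G.neighborFinset v ∩ E i).card : ℝ) := by
    intro v hv i
    have e1 := hE3 ⟨v, hv⟩ i
    simp only at e1
    have e2 : (G.neighborFinset v ∩ Re ∩ E i).card ≤ (G.neighborFinset v ∩ E i).card := by
      refine card_le_card ?_
      intro u hu
      rw [mem_inter] at hu ⊢
      exact ⟨(mem_inter.1 hu.1).1, hu.2⟩
    have e3 := hde v hv
    have e4 : (G.neighborFinset v ∩ Re).card ≤
        2 * (κ + 1 + 1) * (G.neighborFinset v ∩ E i).card :=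
      e1.trans (Nat.mul_le_mul_left _ e2)
    have e5 : ((G.neighborFinset v ∩ Re).card : ℝ) ≤
        2 * (κ + 2) * ((G.neighborFinset v ∩ E i).card : ℝ) := by
      have : ((G.neighborFinset v ∩ Re).card : ℝ) ≤
        2 * (κ + 1 + 1) * ((G.neighborFinset v ∩ E i).card : ℝ) := by exact_mod_cast e4
      linarith
    refine hD₀.trans ?_
    rw [div_le_iff₀ (by positivity)]
    linarith
  set Z : ℝ := 16 * (Λ₁ / (κ + 2) + Q * (D₁ + T * ((d : ℝ) / Fintype.card V) ^ 2)) with hZ
  have hZ0 : 0 ≤ Z := by positivity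
  have hEU : ∀ i, E i ⊆ U := by
    intro i
    refine Subset.trans ?_ (hReS.trans hSU)
    rw [← val_le_iff, ← hE2]
    exact single_le_sum (f := fun i => (E i).val) (fun _ _ => Multiset.zero_le _) (mem_univ i)
  have hmatch : ∀ a i, (∃ e : E i ≃ F a, ∀ u : E i, G.Adj u (e u)) ∧
      (∃ e : F a ≃ E i, ∀ u : F a, G.Adj u (e u)) := by
    intro a i
    refine match_layers_gen G (d := d) (E i) (F a) (by rw [hE1 i, hFc a]) Z D₀ hZ0 hD00 ?_ ?_
      (fun v hv => hEl v (hFU a hv) i) (fun v hv => hFl a v (hEU i hv))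
    · intro x
      have e1 := hE4 a i x
      have e3 : (((κ + 1 : ℕ) : ℝ) + 1) = κ + 2 := by push_cast; ring
      rw [e3] at e1
      exact e1
    · rw [hZ]
      linarith
  -- the sequence of the layers
  set F' : ℕ → Finset V := fun i => if i = 0 then A₀ else if h : i - 1 < κ then O ⟨i - 1, h⟩
    else A₁ with hF'
  set E' : ℕ → Finset V := fun i => if h : i < κ + 1 then E ⟨i, h⟩ else ∅ with hE'
  set B : ℕ → Finset V := fun n => if n % 2 = 0 then F' (n / 2) else E' (n / 2) with hB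
  have hF'a : ∀ i, ∃ a, F' i = F a := by
    intro i
    by_cases h0 : i = 0
    · exact ⟨Sum.inr false, by simp [hF', h0, hF]⟩
    · by_cases h1 : i - 1 < κ
      · exact ⟨Sum.inl ⟨i - 1, h1⟩, by simp [hF', h0, h1, hF]⟩
      · exact ⟨Sum.inr true, by simp [hF', h0, h1, hF]⟩
  have hE'a : ∀ i, i < κ + 1 → ∃ a, E' i = E a := fun i hi =>
    ⟨⟨i, hi⟩, by simp only [hE']; rw [dif_pos hi]⟩
  have hBe : ∀ l, B (2 * l) = F' l := by
    intro l
    simp only [hB]
    rw [if_pos (by omega), show 2 * l / 2 = l by omega]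
  have hBo : ∀ l, B (2 * l + 1) = E' l := by
    intro l
    simp only [hB]
    rw [if_neg (by omega), show (2 * l + 1) / 2 = l by omega]
  have hBc : ∀ i ≤ 2 * κ + 2, (B i).card = T := by
    intro i hi
    rcases Nat.even_or_odd' i with ⟨l, rfl | rfl⟩
    · rw [hBe l]
      obtain ⟨a, ha⟩ := hF'a l
      rw [ha]
      exact hFc a
    · rw [hBo l]
      obtain ⟨a, ha⟩ := hE'a l (by omega)
      rw [ha]
      exact hE1 a
  have hM : ∀ i < 2 * κ + 2, ∃ e : B i ≃ B (i + 1), ∀ a : B i, G.Adj a (e a) := by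
    intro i hi
    rcases Nat.even_or_odd' i with ⟨l, rfl | rfl⟩
    · rw [hBe l, hBo l]
      obtain ⟨a, ha⟩ := hF'a l
      obtain ⟨b, hb⟩ := hE'a l (by omega)
      rw [ha, hb]
      exact (hmatch a b).2
    · rw [hBo l, show 2 * l + 1 + 1 = 2 * (l + 1) by ring, hBe (l + 1)]
      obtain ⟨a, ha⟩ := hF'a (l + 1)
      obtain ⟨b, hb⟩ := hE'a l (by omega)
      rw [ha, hb]
      exact (hmatch a b).1
  have hsum : ∑ i ∈ range (2 * κ + 2 + 1), (B i).val = S.val := by
    rw [show 2 * κ + 2 + 1 = 2 * (κ + 1) + 1 by ring, sum_even_odd]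
    simp_rw [hBe, hBo]
    have e1 : ∑ i ∈ range (κ + 1), (E' i).val = Re.val := by
      rw [← hE2, sum_range]
      refine sum_congr rfl fun i _ => ?_
      simp only [hE']
      rw [dif_pos i.2]
    have e2 : ∑ i ∈ range (κ + 1 + 1), (F' i).val = A₀.val + Ro.val + A₁.val := by
      rw [sum_range_succ, sum_range_succ']
      have e3 : F' 0 = A₀ := by simp [hF']
      have e4 : F' (κ + 1) = A₁ := by simp [hF']
      rw [e3, e4, ← hO2, sum_range]
      have e5 : ∀ i : Fin κ, F' (i + 1) = O i := by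
        intro i
        simp [hF']
      simp_rw [e5]
      abel
    rw [e1, e2, ← hS]
    abel
  have hσ' : ∑ x, ({σ x} : Multiset V) = (B 0).val := by
    rw [hσ, show (0 : ℕ) = 2 * 0 by rfl, hBe 0]
    simp [hF']
  obtain ⟨π, hπ, hLk⟩ := layers (adj := G.Adj) (2 * κ + 2) T B hBc hM S hsum σ hσ'
  refine ⟨π, ?_, hLk⟩
  rw [hπ, show 2 * κ + 2 = 2 * (κ + 1) by ring, hBe]
  simp [hF']

end Pool.Agent.HD
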